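import Mathlib

/-!
# Almost-all Brun-Titchmarsh (MP_31d0eb_nt, helper24): definitions and plan

THEOREM B (`AB.almost_all_bt`). For all `δ, B > 0` there is `A` such that for all large `X`, all but `X/(log X)^B` of the integers
`n ∈ (X, 2X]` satisfy `π(n+H) - π(n) ≤ (4+δ) H / log (n H)` for all real `(log n)^A ≤ H ≤ n`.
THEOREM A (`AB.primes`). `0 < c < 1`, `δ, η > 0`: for all but `(c+η) X/log X` of the primes `p ∈ (X, 2X]` the lower bound
`c H / log p ≤ π(p+H) - π(p)` holds for all `(1/η) log p ≤ H ≤ p` and the upper bound of B for all `(log p)^A ≤ H ≤ p`.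
THEOREM C (`AB.two_sided'`). For at least `(δ/(3+δ) - η) X` of the `n ∈ (X, 2X]`: `(1-δ) H/log n ≤ π(n+H) - π(n)` and the upper
bound of B, for all `(log n)^A ≤ H ≤ n`.

PLAN of B. Selberg weights `lam R d`, `d ≤ R`, `R^4 ≈ X h/(log X)^A`. `pc n h ≤ h / Ss R + Er R n h` (`Maj`), `Ss R ≥ log R` (`SLog`);
`Er` is expanded in the reduced fractions `a/q`, `q ≤ R^2` (`Four`, `Red`, `Exp`), the large sieve (`LS`, `Farey`) bounds
`∑_{X<n≤2X} Er^2` by `10 (X + R^4) ∑_q |Cq|^2 ∑_a |KK(a/q)|^2 ≤ 10 (X + R^4) h (1 + log R^2)^15` (`KB`, `Om`, `CB`, `Var`). Chebyshev's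
inequality and a union over `O(log X)` scales (`Exc`), then real lengths (`Final`).
-/

set_option autoImplicit false

namespace Pool.Agent.H24.AB

open Finset

/-- `e(x) = exp (2 π i x)` -/
noncomputable def ee (x : ℝ) : ℂ := Complex.exp (2 * Real.pi * x * Complex.I)

/-- the kernel `∑_{i=1}^h e(i x)` -/
noncomputable def KK (h : ℕ) (x : ℝ) : ℂ := ∑ i ∈ Icc 1 h, ee (i * x)

/-- pairs `(q, a)`: reduced fractions `a / q` in `(0, 1)` with `q ≤ Q` -/
def FF (Q : ℕ) : Finset (ℕ × ℕ) :=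
  ((Icc 2 Q) ×ˢ (Icc 1 Q)).filter (fun z => z.2 < z.1 ∧ z.2.Coprime z.1)

/-- number of multiples of `e` in `(n, n + h]` -/
def mc (e n h : ℕ) : ℕ := ((Ioc n (n + h)).filter (fun m => e ∣ m)).card

/-- `μ²(m) / φ(m)` -/
noncomputable def gs (m : ℕ) : ℝ := if Squarefree m then 1 / (Nat.totient m : ℝ) else 0

/-- Selberg's sum -/
noncomputable def Ss (R : ℕ) : ℝ := ∑ m ∈ Icc 1 R, gs m

/-- the part of Selberg's sum over the multiples of `d` -/
noncomputable def Gd (R d : ℕ) : ℝ := ∑ m ∈ (Icc 1 R).filter (fun m => d ∣ m), gs m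

/-- Selberg's weights -/
noncomputable def lam (R d : ℕ) : ℝ := (ArithmeticFunction.moebius d : ℝ) * d * Gd R d / Ss R

/-- the coefficients of the square -/
noncomputable def cc (R e : ℕ) : ℝ :=
  ∑ z ∈ ((Icc 1 R) ×ˢ (Icc 1 R)).filter (fun z => z.1.lcm z.2 = e), lam R z.1 * lam R z.2

/-- the error of the majorant in `(n, n + h]` -/
noncomputable def Er (R n h : ℕ) : ℝ := ∑ e ∈ Icc 1 (R ^ 2), cc R e * ((mc e n h : ℝ) - (h : ℝ) / e)

/-- the coefficient of the fractions with denominator `q` -/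
noncomputable def Cq (R q : ℕ) : ℝ := ∑ e ∈ (Icc 1 (R ^ 2)).filter (fun e => q ∣ e), cc R e / e

/-- `k^ω(m)` -/
def tw (k m : ℕ) : ℕ := k ^ m.primeFactors.card

end Pool.Agent.H24.AB
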