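import Pool.Agent.H24.AB.Wt

/-!
# Module Quad: Selberg's diagonalisation

PROOF. `1/lcm(d1,d2) = gcd(d1,d2)/(d1 d2)` and `gcd(d1,d2) = ∑_{l ∣ d1, l ∣ d2} φ(l)` (`Nat.sum_totient`). So
`∑_{d1,d2 ≤ R} λ λ/lcm = ∑_{l ≤ R} φ(l) (∑_{d ≤ R, l ∣ d} λ_d/d)²`. `λ_d/d = μ(d) Gd R d/Ss R`, and
`∑_{d ≤ R, l ∣ d} μ(d) Gd R d = ∑_{m ≤ R} gs m ∑_{l ∣ d ∣ m} μ(d) = μ(l) gs l` (`Pool.Agent.H3.WSieve.sum_moebius_between` may be copied:
for squarefree `m`, `∑_{d ∣ m, l ∣ d} μ d = μ l` if `m = l` and `0` otherwise; for `m` not squarefree `gs m = 0`).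
So the sum is `∑_{l ≤ R} φ(l) (gs l)² μ(l)²/(Ss R)² = ∑_l gs l/(Ss R)² = 1/Ss R` (`φ(l) (gs l)² = gs l`, `μ(l)² = 1` for squarefree `l`).
`cc_sum`: group the pairs `(d1,d2)` by `e = lcm ≤ R²` (`lcm ≤ d1 d2`; `Finset.sum_fiberwise_of_maps_to`).
-/

set_option autoImplicit false

namespace Pool.Agent.H24.AB

open Finset

open ArithmeticFunction ArithmeticFunction.Moebius in
/-- copy of `Pool.Agent.H3.WSieve.sum_moebius_between` -/
private theorem moebius_between {m l : ℕ} (hm : Squarefree m) :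
    (∑ d ∈ m.divisors, if l ∣ d then (μ d : ℝ) else 0) = if m = l then (μ l : ℝ) else 0 := by
  have hm0 : m ≠ 0 := hm.ne_zero
  by_cases hl : l ∣ m
  · obtain ⟨k, rfl⟩ := hl
    have hl0 : l ≠ 0 := left_ne_zero_of_mul hm0
    have hk0 : k ≠ 0 := right_ne_zero_of_mul hm0
    have hsq := Nat.squarefree_mul_iff.mp hm
    rw [← Finset.sum_filter]
    have h1 : ((l * k).divisors).filter (fun d => l ∣ d) = k.divisors.image (fun e => l * e) := by
      ext d
      simp only [mem_filter, Nat.mem_divisors, mem_image]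
      constructor
      · rintro ⟨⟨hd, _⟩, e, rfl⟩
        exact ⟨e, ⟨(Nat.mul_dvd_mul_iff_left (Nat.pos_of_ne_zero hl0)).mp hd, hk0⟩, rfl⟩
      · rintro ⟨e, ⟨he, _⟩, rfl⟩
        exact ⟨⟨Nat.mul_dvd_mul_left l he, hm0⟩, Dvd.intro _ rfl⟩
    rw [h1, Finset.sum_image]
    · have h2 : ∀ e ∈ k.divisors, (μ (l * e) : ℝ) = (μ l : ℝ) * (μ e : ℝ) := by
        intro e he
        have hcop : Nat.Coprime l e :=
          Nat.Coprime.coprime_dvd_right (Nat.dvd_of_mem_divisors he) hsq.1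
        rw [isMultiplicative_moebius.map_mul_of_coprime hcop]
        push_cast
        ring
      rw [Finset.sum_congr rfl h2, ← Finset.mul_sum]
      have h3 : (∑ e ∈ k.divisors, (μ e : ℤ)) = if k = 1 then 1 else 0 := by
        have := congrArg (fun f : ArithmeticFunction ℤ => f k) moebius_mul_coe_zeta
        simp only [ArithmeticFunction.coe_mul_zeta_apply, ArithmeticFunction.one_apply] at this
        exact this
      have h4 : (∑ e ∈ k.divisors, (μ e : ℝ)) = if k = 1 then 1 else 0 := by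
        have h5 : ((∑ e ∈ k.divisors, (μ e : ℤ) : ℤ) : ℝ) = (((if k = 1 then 1 else 0 : ℤ)) : ℝ) := by
          rw [h3]
        push_cast at h5
        exact h5
      rw [h4]
      by_cases hk : k = 1
      · subst hk
        simp
      · rw [if_neg hk, mul_zero, if_neg]
        intro h
        apply hk
        have : l * k = l * 1 := by rw [h, mul_one]
        exact Nat.eq_of_mul_eq_mul_left (Nat.pos_of_ne_zero hl0) this
    · intro a _ b _ hab
      exact Nat.eq_of_mul_eq_mul_left (Nat.pos_of_ne_zero hl0) hab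
  · rw [if_neg]
    · apply Finset.sum_eq_zero
      intro d hd
      rw [if_neg]
      intro h
      exact hl (h.trans (Nat.dvd_of_mem_divisors hd))
    · rintro rfl
      exact hl dvd_rfl

private theorem sum_mu_Gd (R l : ℕ) (hl : l ∈ Icc 1 R) :
    ∑ d ∈ Icc 1 R, (if l ∣ d then (ArithmeticFunction.moebius d : ℝ) * Gd R d else 0) =
      (ArithmeticFunction.moebius l : ℝ) * gs l := by
  have h1 : ∀ d ∈ Icc 1 R, (if l ∣ d then (ArithmeticFunction.moebius d : ℝ) * Gd R d else 0) =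
      ∑ m ∈ Icc 1 R, gs m * (if d ∣ m then (if l ∣ d then (ArithmeticFunction.moebius d : ℝ) else 0)
        else 0) := by
    intro d _
    unfold Gd
    rw [Finset.sum_filter]
    split_ifs with h
    · rw [Finset.mul_sum]
      refine Finset.sum_congr rfl fun m _ => ?_
      split_ifs <;> ring
    · symm
      apply Finset.sum_eq_zero
      intro m _
      split_ifs <;> ring
  rw [Finset.sum_congr rfl h1, Finset.sum_comm]
  have h2 : ∀ m ∈ Icc 1 R, ∑ d ∈ Icc 1 R, gs m * (if d ∣ m then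
      (if l ∣ d then (ArithmeticFunction.moebius d : ℝ) else 0) else 0) =
      gs m * (if m = l then (ArithmeticFunction.moebius l : ℝ) else 0) := by
    intro m hm
    rw [← Finset.mul_sum]
    by_cases hsq : Squarefree m
    · congr 1
      rw [← moebius_between hsq, ← Finset.sum_filter]
      apply Finset.sum_congr
      · ext d
        rw [Finset.mem_filter, Finset.mem_Icc, Nat.mem_divisors]
        rw [Finset.mem_Icc] at hm
        constructor
        · rintro ⟨_, h⟩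
          exact ⟨h, by omega⟩
        · rintro ⟨h, _⟩
          have h3 := Nat.le_of_dvd (by omega) h
          have h4 := Nat.pos_of_dvd_of_pos h (by omega)
          exact ⟨⟨h4, by omega⟩, h⟩
      · intro _ _
        rfl
    · have : gs m = 0 := by
        unfold gs
        rw [if_neg hsq]
      rw [this, zero_mul, zero_mul]
  rw [Finset.sum_congr rfl h2]
  simp only [mul_ite, mul_zero]
  rw [Finset.sum_ite_eq' (Icc 1 R) l, if_pos hl, mul_comm]

theorem quad (R : ℕ) (hR : 1 ≤ R) :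
    ∑ d1 ∈ Icc 1 R, ∑ d2 ∈ Icc 1 R, lam R d1 * lam R d2 / (d1.lcm d2 : ℝ) = 1 / Ss R := by
  have hS := Ss_pos R hR
  have h1 : ∀ d1 ∈ Icc 1 R, ∀ d2 ∈ Icc 1 R, lam R d1 * lam R d2 / (d1.lcm d2 : ℝ) =
      ∑ l ∈ Icc 1 R, (Nat.totient l : ℝ) * ((if l ∣ d1 then lam R d1 / d1 else 0) *
        (if l ∣ d2 then lam R d2 / d2 else 0)) := by
    intro d1 hd1 d2 hd2
    rw [Finset.mem_Icc] at hd1 hd2
    have p1 : (0 : ℝ) < d1 := by exact_mod_cast (by omega : 0 < d1)
    have p2 : (0 : ℝ) < d2 := by exact_mod_cast (by omega : 0 < d2)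
    have hg : (∑ l ∈ Icc 1 R, if l ∣ d1 ∧ l ∣ d2 then (Nat.totient l : ℝ) else 0) =
        (d1.gcd d2 : ℝ) := by
      rw [← Finset.sum_filter]
      have h2 : (Icc 1 R).filter (fun l => l ∣ d1 ∧ l ∣ d2) = (d1.gcd d2).divisors := by
        ext l
        rw [Finset.mem_filter, Finset.mem_Icc, Nat.mem_divisors, Nat.dvd_gcd_iff]
        constructor
        · rintro ⟨_, h⟩
          exact ⟨h, Nat.gcd_ne_zero_left (by omega)⟩
        · rintro ⟨h, _⟩
          have h3 := Nat.le_of_dvd (by omega) h.1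
          have h4 := Nat.pos_of_dvd_of_pos h.1 (by omega)
          exact ⟨⟨h4, by omega⟩, h⟩
      rw [h2]
      have h5 := Nat.sum_totient (d1.gcd d2)
      exact_mod_cast h5
    have hlcm : (d1.gcd d2 : ℝ) * (d1.lcm d2 : ℝ) = d1 * d2 := by
      exact_mod_cast Nat.gcd_mul_lcm d1 d2
    have hgpos : (0 : ℝ) < (d1.gcd d2 : ℝ) := by
      exact_mod_cast Nat.gcd_pos_of_pos_left d2 (by omega)
    have hlpos : (0 : ℝ) < (d1.lcm d2 : ℝ) := by
      exact_mod_cast Nat.lcm_pos (by omega) (by omega)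
    have h6 : lam R d1 * lam R d2 / (d1.lcm d2 : ℝ) =
        (lam R d1 / d1) * (lam R d2 / d2) * (d1.gcd d2 : ℝ) := by
      rw [div_mul_div_comm, div_mul_eq_mul_div, ← hlcm,
        mul_comm (d1.gcd d2 : ℝ) (d1.lcm d2 : ℝ), mul_div_mul_right _ _ hgpos.ne']
    rw [h6, ← hg, Finset.mul_sum]
    refine Finset.sum_congr rfl fun l _ => ?_
    by_cases a1 : l ∣ d1 <;> by_cases a2 : l ∣ d2 <;> simp [a1, a2] <;> ring
  have h2 : ∑ d1 ∈ Icc 1 R, ∑ d2 ∈ Icc 1 R, lam R d1 * lam R d2 / (d1.lcm d2 : ℝ) =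
      ∑ l ∈ Icc 1 R, (Nat.totient l : ℝ) *
        (∑ d ∈ Icc 1 R, if l ∣ d then lam R d / d else 0) ^ 2 := by
    rw [Finset.sum_congr rfl (fun d1 hd1 => Finset.sum_congr rfl (fun d2 hd2 => h1 d1 hd1 d2 hd2))]
    calc _ = ∑ d1 ∈ Icc 1 R, ∑ l ∈ Icc 1 R, ∑ d2 ∈ Icc 1 R, (Nat.totient l : ℝ) *
          ((if l ∣ d1 then lam R d1 / d1 else 0) * (if l ∣ d2 then lam R d2 / d2 else 0)) :=
          Finset.sum_congr rfl (fun d1 _ => Finset.sum_comm)
      _ = ∑ l ∈ Icc 1 R, ∑ d1 ∈ Icc 1 R, ∑ d2 ∈ Icc 1 R, (Nat.totient l : ℝ) *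
          ((if l ∣ d1 then lam R d1 / d1 else 0) * (if l ∣ d2 then lam R d2 / d2 else 0)) :=
          Finset.sum_comm
      _ = _ := by
          refine Finset.sum_congr rfl fun l _ => ?_
          rw [pow_two, Finset.sum_mul_sum, Finset.mul_sum]
          refine Finset.sum_congr rfl fun d1 _ => ?_
          rw [Finset.mul_sum]
  rw [h2]
  have h3 : ∀ l ∈ Icc 1 R, (Nat.totient l : ℝ) *
      (∑ d ∈ Icc 1 R, if l ∣ d then lam R d / d else 0) ^ 2 = gs l / (Ss R) ^ 2 := by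
    intro l hl
    have h4 : ∑ d ∈ Icc 1 R, (if l ∣ d then lam R d / d else 0) =
        (ArithmeticFunction.moebius l : ℝ) * gs l / Ss R := by
      rw [← sum_mu_Gd R l hl, Finset.sum_div]
      refine Finset.sum_congr rfl fun d hd => ?_
      rw [Finset.mem_Icc] at hd
      have hd0 : (d : ℝ) ≠ 0 := by
        have : d ≠ 0 := by omega
        exact_mod_cast this
      split_ifs
      · unfold lam
        field_simp
      · rw [zero_div]
    rw [h4]
    unfold gs
    split_ifs with hsq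
    · have hφ : (0 : ℝ) < (Nat.totient l : ℝ) := by
        rw [Finset.mem_Icc] at hl
        exact_mod_cast Nat.totient_pos.2 (by omega)
      have hμ : (ArithmeticFunction.moebius l : ℝ) ^ 2 = 1 := by
        have := ArithmeticFunction.moebius_sq_eq_one_of_squarefree hsq
        exact_mod_cast this
      have : (Nat.totient l : ℝ) * ((ArithmeticFunction.moebius l : ℝ) * (1 / (Nat.totient l : ℝ)) / Ss R) ^ 2
          = (ArithmeticFunction.moebius l : ℝ) ^ 2 * ((1 / (Nat.totient l : ℝ)) / Ss R ^ 2) := by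
        field_simp
      rw [this, hμ, one_mul]
    · simp
  rw [Finset.sum_congr rfl h3, ← Finset.sum_div]
  have h5 : ∑ l ∈ Icc 1 R, gs l = Ss R := rfl
  rw [h5]
  field_simp

theorem cc_sum (R : ℕ) (hR : 1 ≤ R) : ∑ e ∈ Icc 1 (R ^ 2), cc R e / e = 1 / Ss R := by
  rw [← quad R hR, ← Finset.sum_product']
  have hmaps : ∀ z ∈ (Icc 1 R) ×ˢ (Icc 1 R), z.1.lcm z.2 ∈ Icc 1 (R ^ 2) := by
    rintro ⟨a, b⟩ hz
    rw [Finset.mem_product, Finset.mem_Icc, Finset.mem_Icc] at hz
    obtain ⟨⟨ha1, ha2⟩, hb1, hb2⟩ := hz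
    simp only at ha1 ha2 hb1 hb2
    rw [Finset.mem_Icc]
    refine ⟨Nat.lcm_pos (by omega) (by omega), ?_⟩
    calc a.lcm b ≤ a * b := Nat.le_of_dvd (Nat.mul_pos (by omega) (by omega)) (Nat.lcm_dvd_mul a b)
      _ ≤ R * R := Nat.mul_le_mul ha2 hb2
      _ = R ^ 2 := by ring
  rw [← Finset.sum_fiberwise_of_maps_to hmaps]
  refine Finset.sum_congr rfl fun e _ => ?_
  unfold cc
  rw [Finset.sum_div]
  refine Finset.sum_congr rfl fun z hz => ?_
  rw [Finset.mem_filter] at hz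
  rw [hz.2]

end Pool.Agent.H24.AB
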