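import Pool.Agent.H24.AB.Defs

/-!
# Module SLog: lower bound of Selberg's sum

PROOF. `log R ≤ ∑_{m ≤ R} 1/m` (`log_le_harmonic_floor` or `Real.log_le...`: `log (R+1) ≤ harmonic R`, `log_add_one_le_harmonic`). Group the `m ≤ R` by
the radical `l = ∏_{p ∣ m} p` (squarefree, `l ≤ m ≤ R`): it is enough that for squarefree `l` and every finite set `T` of positive
integers with radical `l`: `∑_{m ∈ T} 1/m ≤ 1/φ(l) = gs l` (`rad_sum`). PROOF of `rad_sum`: `m = l m'`, all prime factors of `m'` are in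
`l.primeFactors`; `∑_{m'} 1/m' ≤ ∏_{p ∣ l} (1 - 1/p)⁻¹ = l/φ(l)` (Mathlib: `EulerProduct`/`Nat.factoredNumbers`:
`EulerProduct.summable_and_hasSum_factoredNumbers_prod_filter_prime_geometric`, or by induction on the set of primes:
the numbers with prime factors in `insert p S` up to `N` are `p^a m''`, `a ≤ N`), `Nat.totient_eq_mul_prod_factors`/`Nat.totient_mul_prod_primeFactors`.
-/

set_option autoImplicit false

namespace Pool.Agent.H24.AB

open Finset

private noncomputable def invHom : ℕ →* ℝ where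
  toFun n := ((n : ℝ))⁻¹
  map_one' := by simp
  map_mul' a b := by simp [mul_comm]

private theorem slog_euler (s : Finset ℕ) (hs : ∀ p ∈ s, p.Prime) (T : Finset ℕ)
    (hT : ∀ m ∈ T, m ∈ Nat.factoredNumbers s) :
    ∑ m ∈ T, ((m : ℝ))⁻¹ ≤ ∏ p ∈ s, (1 - ((p : ℝ))⁻¹)⁻¹ := by
  classical
  have h := EulerProduct.summable_and_hasSum_factoredNumbers_prod_filter_prime_geometric
    (f := invHom) (fun {p} hp => by
      change ‖((p : ℝ))⁻¹‖ < 1
      rw [norm_inv, Real.norm_natCast]
      exact inv_lt_one_of_one_lt₀ (by exact_mod_cast hp.one_lt)) s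
  have hf : s.filter (fun p => p.Prime) = s := Finset.filter_true_of_mem hs
  rw [hf] at h
  have h2 : HasSum (fun m : Nat.factoredNumbers s ↦ (((m : ℕ) : ℝ))⁻¹)
      (∏ p ∈ s, (1 - ((p : ℝ))⁻¹)⁻¹) := h.2
  have h3 := sum_le_hasSum (T.attach.map ⟨fun m => (⟨m.1, hT m.1 m.2⟩ : Nat.factoredNumbers s),
    fun a b hab => by
      apply Subtype.ext
      simpa using hab⟩) (fun i _ => by positivity) h2
  rw [Finset.sum_map] at h3
  simp only [Function.Embedding.coeFn_mk] at h3
  rwa [Finset.sum_attach T (fun m => ((m : ℝ))⁻¹)] at h3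

private theorem slog_tot (l : ℕ) :
    ((l : ℝ))⁻¹ * ∏ p ∈ l.primeFactors, (1 - ((p : ℝ))⁻¹)⁻¹ = 1 / (Nat.totient l : ℝ) := by
  have h := Nat.totient_eq_mul_prod_factors l
  have h' : (Nat.totient l : ℝ) = l * ∏ p ∈ l.primeFactors, (1 - ((p : ℝ))⁻¹) := by
    have := congrArg (fun x : ℚ => (x : ℝ)) h
    simpa using this
  rw [h', Finset.prod_inv_distrib, one_div, mul_inv]

theorem rad_sum (l : ℕ) (hl : Squarefree l) (T : Finset ℕ)
    (hT : ∀ m ∈ T, m ≠ 0 ∧ m.primeFactors = l.primeFactors) :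
    ∑ m ∈ T, 1 / (m : ℝ) ≤ 1 / (Nat.totient l : ℝ) := by
  classical
  have hl0 : l ≠ 0 := hl.ne_zero
  have hdvd : ∀ m ∈ T, l ∣ m := by
    intro m hm
    have h1 := Nat.prod_primeFactors_dvd m
    rw [(hT m hm).2, Nat.prod_primeFactors_of_squarefree hl] at h1
    exact h1
  have hinj : Set.InjOn (fun m : ℕ => m / l) (T : Set ℕ) := by
    intro a ha b hb hab
    obtain ⟨c, rfl⟩ := hdvd a ha
    obtain ⟨d, rfl⟩ := hdvd b hb
    have hlpos : 0 < l := Nat.pos_of_ne_zero hl0
    simp only [Nat.mul_div_cancel_left _ hlpos] at hab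
    rw [hab]
  have hsum : ∑ m ∈ T, 1 / (m : ℝ) = ((l : ℝ))⁻¹ * ∑ m ∈ T.image (fun m : ℕ => m / l), ((m : ℝ))⁻¹ := by
    rw [Finset.sum_image hinj, Finset.mul_sum]
    apply Finset.sum_congr rfl
    intro m hm
    obtain ⟨c, hc⟩ := hdvd m hm
    have hlpos : 0 < l := Nat.pos_of_ne_zero hl0
    rw [hc, Nat.mul_div_cancel_left _ hlpos]
    push_cast
    rw [one_div, mul_inv]
  rw [hsum, ← slog_tot l]
  apply mul_le_mul_of_nonneg_left _ (by positivity)
  apply slog_euler
  · intro p hp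
    exact Nat.prime_of_mem_primeFactors hp
  · intro m hm
    rw [Finset.mem_image] at hm
    obtain ⟨k, hk, rfl⟩ := hm
    obtain ⟨c, hc⟩ := hdvd k hk
    have hlpos : 0 < l := Nat.pos_of_ne_zero hl0
    have hk0 := (hT k hk).1
    rw [hc, Nat.mul_div_cancel_left _ hlpos]
    have hc0 : c ≠ 0 := by
      rintro rfl
      exact hk0 (by rw [hc, mul_zero])
    apply Nat.mem_factoredNumbers_of_primeFactors_subset hc0
    rw [← (hT k hk).2, hc]
    exact Nat.primeFactors_mono (Dvd.intro_left l rfl) (by rw [← hc]; exact hk0)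

theorem log_le_Ss (R : ℕ) (hR : 1 ≤ R) : Real.log R ≤ Ss R := by
  classical
  have h1 : Real.log (R : ℝ) ≤ ∑ m ∈ Icc 1 R, 1 / (m : ℝ) := by
    have h := log_add_one_le_harmonic R
    have h2 : Real.log (R : ℝ) ≤ Real.log ((R + 1 : ℕ) : ℝ) := by
      apply Real.log_le_log
      · exact_mod_cast hR
      · push_cast; linarith
    have h3 : ((harmonic R : ℚ) : ℝ) = ∑ m ∈ Icc 1 R, 1 / (m : ℝ) := by
      rw [harmonic_eq_sum_Icc]
      push_cast
      simp [one_div]
    rw [← h3]
    exact h2.trans h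
  refine h1.trans ?_
  unfold Ss
  have hmaps : ∀ m ∈ Icc 1 R, (∏ p ∈ m.primeFactors, p) ∈ Icc 1 R := by
    intro m hm
    rw [Finset.mem_Icc] at hm ⊢
    constructor
    · exact Finset.prod_pos fun p hp => Nat.pos_of_mem_primeFactors hp
    · exact (Nat.le_of_dvd (by omega) (Nat.prod_primeFactors_dvd m)).trans hm.2
  rw [← Finset.sum_fiberwise_of_maps_to hmaps]
  apply Finset.sum_le_sum
  intro l hl
  unfold gs
  by_cases hsq : Squarefree l
  · rw [if_pos hsq]
    apply rad_sum l hsq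
    intro m hm
    rw [Finset.mem_filter, Finset.mem_Icc] at hm
    refine ⟨by omega, ?_⟩
    rw [← hm.2]
    exact (Nat.primeFactors_prod fun p hp => Nat.prime_of_mem_primeFactors hp).symm
  · rw [if_neg hsq]
    apply le_of_eq
    apply Finset.sum_eq_zero
    intro m hm
    exfalso
    rw [Finset.mem_filter] at hm
    apply hsq
    rw [← hm.2]
    refine Finset.squarefree_prod_of_pairwise_isCoprime (fun p hp q hq hpq => ?_)
      fun p hp => (Nat.prime_of_mem_primeFactors hp).squarefree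
    change IsRelPrime p q
    rw [← Nat.coprime_iff_isRelPrime]
    exact (Nat.coprime_primes (Nat.prime_of_mem_primeFactors hp)
      (Nat.prime_of_mem_primeFactors hq)).mpr hpq

end Pool.Agent.H24.AB
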