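import Pool.Agent.H24.AB.Pdp
import Pool.Agent.H83.TU.PB

/-!
# [H24 AB Kill] ABUNDANCE (MP_e49dc9_ag): killing the poles of a function on a factorial variety (helper59, think 1367: vertical primes)

`M` factorial, `E`, `B` divisors, `Kl c s`: a multiplicative system of nonzero sections `s` of `c E`.  `g` a function such that, for every prime divisor `p` along
which `g` is not a section of `B`, some `s` vanishes along `p`.  Then `s g` is a section of `c E + B` for some `s` (`kill`).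
-/

set_option autoImplicit false

namespace Pool.Agent.H24.AB

open Pool.Agent.H54.RV Pool.Agent.H83.TU Pool.Agent.H83.TK

variable {k κ : Type} [Field k] [Field κ] [Algebra k κ] {M : Mod k κ}

/-- a multiplicative system of sections of the multiples of `E` -/
structure KlS (M : Mod k κ) (E : Cart M) (Kl : ℕ → κ → Prop) : Prop where
  one : Kl 0 1
  mul : ∀ c c' s s', Kl c s → Kl c' s' → Kl (c + c') (s * s')
  sec : ∀ c s, Kl c s → ∀ x, s * E.eq x ^ c ∈ M.O x
  ne : ∀ c s, Kl c s → s ≠ 0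

/-- the local rings are open -/
theorem spread (hX : IsVar M) {x : M.P} {a : κ} (ha : a ∈ M.O x) : ∃ U : Set M.P, IsOpen U ∧ x ∈ U ∧ ∀ y ∈ U, a ∈ M.O y := by
  obtain ⟨V, hV, hxV⟩ := hX.chart x
  obtain ⟨s, hs, hsu, has⟩ := hX.frac V x hV hxV a ha
  refine ⟨{y | y ∈ V ∧ Un (M.O y) s}, hX.op _ (hX.basic V s hV fun y hy => (mem_sec V s).1 hs y hy), ⟨hxV, hsu⟩, ?_⟩
  rintro y ⟨hy, hyu⟩
  have h1 := (M.O y).mul_mem ((mem_sec V _).1 has y hy) hyu.2.2
  rwa [mul_assoc, mul_inv_cancel₀ hyu.1, mul_one] at h1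

theorem spreadD (hX : IsVar M) {x : M.P} {a : κ} {D : Cart M} (ha : a * D.eq x ∈ M.O x) :
    ∃ U : Set M.P, IsOpen U ∧ x ∈ U ∧ ∀ y ∈ U, a * D.eq y ∈ M.O y := by
  obtain ⟨U, hU, hxU, h⟩ := spread hX ha
  obtain ⟨V, hV, hxV, h'⟩ := D.loc x
  refine ⟨U ∩ V, hU.inter hV, ⟨hxU, hxV⟩, ?_⟩
  rintro y ⟨hyU, hyV⟩
  have h1 := (M.O y).mul_mem (h y hyU) (h' y hyV).2.1
  have h2 : a * D.eq x * (D.eq y / D.eq x) = a * D.eq y := by
    have := D.ne x
    field_simp
  rwa [h2] at h1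

private theorem kill_loc (hX : IsVar M) (hg : ∃ g, Gen M g) (hu : ∀ x, UniqueFactorizationMonoid (M.O x)) {E : Cart M}
    {Kl : ℕ → κ → Prop} (hK : KlS M E Kl) (x : M.P) (b : M.O x) : b ≠ 0 → ∀ (g : κ) (B : Cart M), g ≠ 0 →
    (∀ p : PDiv M, g * B.eq p.η ∉ M.O p.η → ∃ c s, Kl c s ∧ ¬ Un (M.O p.η) (s * E.eq p.η ^ c)) →
    (b : κ) * (g * B.eq x) ∈ M.O x → ∃ c s, Kl c s ∧ s * g * (E.eq x ^ c * B.eq x) ∈ M.O x := by
  have := hu x
  refine UniqueFactorizationMonoid.induction_on_prime b (fun h => absurd rfl h) ?_ ?_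
  · intro b hb _ g B _ _ h1
    refine ⟨0, 1, hK.one, ?_⟩
    have h2 : Un (M.O x) (b : κ) := (un_iff b.2).1 hb
    have h3 := (M.O x).mul_mem h1 h2.2.2
    have h4 := h2.1
    have h5 : (b : κ) * (g * B.eq x) * (b : κ)⁻¹ = 1 * g * (E.eq x ^ 0 * B.eq x) := by
      field_simp
    rwa [h5] at h3
  · intro b p hb hp ih _ g B hg0 hk h1
    have hp0 : (p : κ) ≠ 0 := fun hh => hp.ne_zero (Subtype.ext hh)
    have hb0 : (b : κ) ≠ 0 := fun hh => hb (Subtype.ext hh)
    have hB := B.ne x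
    obtain ⟨a, ha⟩ : ∃ a : κ, a = (p * b : κ) * (g * B.eq x) := ⟨_, rfl⟩
    have h1' : a ∈ M.O x := by rw [ha]; exact h1
    have ha0 : a ≠ 0 := by
      rw [ha]
      exact mul_ne_zero (mul_ne_zero hp0 hb0) (mul_ne_zero hg0 hB)
    have hap : a / p = (b : κ) * (g * B.eq x) := by
      rw [ha]
      field_simp
    by_cases hdiv : a / p ∈ M.O x
    · exact ih hb g B hg0 hk (by rwa [← hap])
    · obtain ⟨P, hPx, hPp, hPo⟩ := pdp hX hg hu x p p.2 (by
        have : (⟨(p : κ), p.2⟩ : M.O x) = p := rfl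
        rw [this]
        exact hp)
      have hle : M.O x ≤ M.O P.η := hX.spec P.η x hPx
      have hno : ∀ c ∈ M.O x, c ≠ 0 → 0 ≤ P.p.ord c := fun c hc hc0 =>
        (ord_nonneg P.p c hc0).2 ((P.mem c).1 (hle hc))
      have hoa : P.p.ord a = 0 := by
        have h2 := hno a h1' ha0
        have h3 : ¬ 0 < P.p.ord a := fun h4 => hdiv ((hPo a h1' ha0).1 h4)
        omega
      have hgB : g * B.eq x ≠ 0 := mul_ne_zero hg0 hB
      have hog : P.p.ord (g * B.eq x) < 0 := by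
        have h2 := ord_mul P.p (p * b : κ) (g * B.eq x) (mul_ne_zero hp0 hb0) hgB
        rw [← ha, hoa, ord_mul P.p _ _ hp0 hb0, hPp] at h2
        have h3 := hno b b.2 hb0
        omega
      -- `g` is not a section of `B` along `P`
      have hbad : g * B.eq P.η ∉ M.O P.η := by
        intro h2
        obtain ⟨U, hU, hxU, hloc⟩ := B.loc x
        have h3 := hloc P.η (hPx.mem_open hU hxU)
        have h4 := (M.O P.η).mul_mem h2 (un_inv h3).2.1
        have h5 : g * B.eq P.η * (B.eq P.η / B.eq x)⁻¹ = g * B.eq x := by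
          have := B.ne P.η
          field_simp
        rw [h5, P.mem, ← ord_nonneg P.p _ hgB] at h4
        omega
      obtain ⟨c, s, hs, hsn⟩ := hk P hbad
      have hs0 := hK.ne c s hs
      have hsE := hK.sec c s hs
      have hE := E.ne x
      have hsEx0 : s * E.eq x ^ c ≠ 0 := mul_ne_zero hs0 (pow_ne_zero _ hE)
      have hos : 0 < P.p.ord (s * E.eq x ^ c) := by
        have h2 := hno _ (hsE x) hsEx0
        rcases h2.eq_or_lt with h3 | h3
        · exfalso
          have h4 : Un (M.O P.η) (s * E.eq x ^ c) := by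
            have h5 := (ord_eq_zero P.p _ hsEx0).1 h3.symm
            exact ⟨hsEx0, (P.mem _).2 h5.1, (P.mem _).2 h5.2⟩
          apply hsn
          obtain ⟨U, hU, hxU, hloc⟩ := E.loc x
          have h5 := un_pow (hloc P.η (hPx.mem_open hU hxU)) c
          have h6 := un_mul h4 h5
          have h7 : s * E.eq x ^ c * (E.eq P.η / E.eq x) ^ c = s * E.eq P.η ^ c := by
            rw [div_pow]
            field_simp
          rwa [h7] at h6
        · exact h3
      have hsp : s * E.eq x ^ c / p ∈ M.O x := (hPo _ (hsE x) hsEx0).1 hos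
      obtain ⟨c', s', hs', h2⟩ := ih hb (s * g) (E ^ c * B) (mul_ne_zero hs0 hg0) (fun Q hQ => hk Q (fun h3 => hQ (by
        have h4 := (M.O Q.η).mul_mem (hsE Q.η) h3
        rw [mul_eq, pow_eq]
        have h5 : s * E.eq Q.η ^ c * (g * B.eq Q.η) = s * g * (E.eq Q.η ^ c * B.eq Q.η) := by ring
        rwa [h5] at h4))) (by
        have h3 := (M.O x).mul_mem h1' hsp
        rw [mul_eq, pow_eq]
        have h4 : a * (s * E.eq x ^ c / p) = (b : κ) * (s * g * (E.eq x ^ c * B.eq x)) := by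
          rw [ha]
          field_simp
        rwa [h4] at h3)
      refine ⟨c' + c, s' * s, hK.mul _ _ _ _ hs' hs, ?_⟩
      rw [mul_eq, pow_eq] at h2
      have h3 : s' * (s * g) * (E.eq x ^ c' * (E.eq x ^ c * B.eq x)) = s' * s * g * (E.eq x ^ (c' + c) * B.eq x) := by
        rw [pow_add]
        ring
      rwa [h3] at h2

theorem kill (hX : IsVar M) (hg : ∃ g, Gen M g) (hu : ∀ x, UniqueFactorizationMonoid (M.O x)) {E B : Cart M}
    {Kl : ℕ → κ → Prop} (hK : KlS M E Kl) {g : κ}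
    (hk : ∀ p : PDiv M, g * B.eq p.η ∉ M.O p.η → ∃ c s, Kl c s ∧ ¬ Un (M.O p.η) (s * E.eq p.η ^ c)) :
    ∃ c s, Kl c s ∧ ∀ x, s * g * (E.eq x ^ c * B.eq x) ∈ M.O x := by
  classical
  rcases eq_or_ne g 0 with hg0 | hg0
  · refine ⟨0, 1, hK.one, fun x => ?_⟩
    rw [hg0, mul_zero, zero_mul]
    exact (M.O x).zero_mem
  have hloc : ∀ x, ∃ c s, Kl c s ∧ ∃ U : Set M.P, IsOpen U ∧ x ∈ U ∧ ∀ y ∈ U, s * g * (E.eq y ^ c * B.eq y) ∈ M.O y := by
    intro x
    obtain ⟨V, hV, hxV⟩ := hX.chart x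
    obtain ⟨b, hb, hb0, hgb⟩ := gen_frac hX hg V hV ⟨x, hxV⟩ (g * B.eq x)
    have hbx : b ∈ M.O x := (mem_sec V b).1 hb x hxV
    obtain ⟨c, s, hs, h1⟩ := kill_loc hX hg hu hK x ⟨b, hbx⟩ (fun h2 => hb0 (congrArg Subtype.val h2)) g B hg0 hk (by
      change b * (g * B.eq x) ∈ M.O x
      rw [mul_comm]
      exact (mem_sec V _).1 hgb x hxV)
    have h2 : s * g * (E ^ c * B).eq x ∈ M.O x := by
      rwa [mul_eq, pow_eq]
    obtain ⟨U, hU, hxU, h3⟩ := spreadD hX h2
    refine ⟨c, s, hs, U, hU, hxU, fun y hy => ?_⟩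
    have h4 := h3 y hy
    rwa [mul_eq, pow_eq] at h4
  choose c s hs U hU hxU h1 using hloc
  have := hX.comp
  obtain ⟨t, ht⟩ := isCompact_univ.elim_finite_subcover U hU (fun x _ => Set.mem_iUnion.2 ⟨x, hxU x⟩)
  have hprod : ∀ t : Finset M.P, Kl (∑ x ∈ t, c x) (∏ x ∈ t, s x) := by
    intro t
    induction t using Finset.induction_on with
    | empty => simpa using hK.one
    | insert x t hx ih =>
      rw [Finset.sum_insert hx, Finset.prod_insert hx]
      exact hK.mul _ _ _ _ (hs x) ih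
  refine ⟨_, _, hprod t, fun y => ?_⟩
  have h2 := ht (Set.mem_univ y)
  simp only [Set.mem_iUnion] at h2
  obtain ⟨x, hxt, hyx⟩ := h2
  have h3 := (M.O y).mul_mem (h1 x y hyx) (hK.sec _ _ (hprod (t.erase x)) y)
  have h4 : s x * g * (E.eq y ^ c x * B.eq y) * ((∏ x ∈ t.erase x, s x) * E.eq y ^ ∑ x ∈ t.erase x, c x) =
      (∏ x ∈ t, s x) * g * (E.eq y ^ (∑ x ∈ t, c x) * B.eq y) := by
    rw [← Finset.mul_prod_erase t s hxt, ← Finset.add_sum_erase t c hxt, pow_add]
    ring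
  rwa [h4] at h3

end Pool.Agent.H24.AB
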