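import Pool.Agent.H20.TP.Def
import Pool.Agent.H83.TK.SubE

/-!
# [H24 AB H1] ABUNDANCE (MP_e49dc9_ag): the count (helper4, think 1320, step 1; helper59's product spaces)

`z` the generic point of the prime divisor `S` of `Y`, `V m = H⁰(m P)`.  `h⁰(m P) ≤ m δ + C`; the sections of `m P + S` on `z` which do not lift to `Y` form
a space of dimension at most `h⁰(m P) - m λ + C` (H24/AB/Lbc, `chi (m P) = m λ + c`).  `D j ⊆ V (j r)` a space of dimension `≥ j ρ`, `ρ > r (δ - λ)`, whose nonzero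
elements do not vanish on `z`.  Then for every section `g` of `c P + S` on `z` there are `j` and `a ∈ D j`, `a ≠ 0`, such that `a g` lifts to a section of
`(j r + c) P + S` on `Y`.
-/

set_option autoImplicit false

namespace Pool.Agent.H24.AB

open Pool.Agent.H54.RV Pool.Agent.H83.TU Pool.Agent.H83.TK Pool.Agent.H20.TD Pool.Agent.H20.TP

variable {k K : Type} [Field k] [Field K] [Algebra k K] {Y : Mod k K}

/-- two subspaces of a space of smaller dimension meet -/
theorem meet {V : Type} [AddCommGroup V] [Module k V] [FiniteDimensional k V] (U W : Submodule k V)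
    (h : Module.finrank k V < Module.finrank k U + Module.finrank k W) : ∃ v ∈ U, v ∈ W ∧ v ≠ 0 := by
  by_contra hcon
  push Not at hcon
  have h1 : U ⊓ W = ⊥ := by
    rw [eq_bot_iff]
    rintro v ⟨hU, hW⟩
    rw [Submodule.mem_bot]
    by_contra h0
    exact h0 (hcon v hU hW)
  have h2 := Submodule.finrank_sup_add_finrank_inf_eq U W
  rw [h1, finrank_bot, add_zero] at h2
  have h3 := Submodule.finrank_le (U ⊔ W)
  omega

theorem count (hY : IsVar Y) {z : Y.P} {S P : Cart Y} (hS : SPr Y z S)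
    (hf : ∀ m : ℕ, FiniteDimensional k (secL (P ^ m * S) 1))
    (hfz : ∀ m : ℕ, FiniteDimensional k (secL (resD hY z (P ^ m * S)) 1)) {lam δ C : ℝ}
    (hlb : ∀ m : ℕ, (hz hY z (P ^ m * S) : ℝ) + m * lam ≤ h0 (P ^ m * S) 1 + C)
    (hd : ∀ m : ℕ, (h0 (P ^ m) 1 : ℝ) ≤ m * δ + C) {r : ℕ} {ρ : ℝ} (hρ : r * (δ - lam) < ρ)
    {D : ℕ → Submodule k K} (hD : ∀ j, D j ≤ secL (P ^ (j * r)) 1)
    (hDd : ∀ j : ℕ, j * ρ ≤ Module.finrank k (D j))
    (hDz : ∀ j, ∀ a ∈ D j, a ≠ 0 → Un (Y.O z) (a * (P ^ (j * r)).eq z)) (c : ℕ) {g : Y.kap z}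
    (hg0 : g ≠ 0) (hg : Sec (resD hY z (P ^ c * S)) 1 g) :
    ∃ (j : ℕ) (a f : K), a ∈ D j ∧ a ≠ 0 ∧ Sec (P ^ (j * r + c) * S) 1 f ∧
      Y.rs z (f * (P ^ (j * r + c) * S).eq z) = Y.rs z (a * (P ^ (j * r)).eq z) * g := by
  classical
  obtain ⟨j, hj⟩ := exists_nat_gt ((c * |δ - lam| + 2 * |C| + 1) / (ρ - r * (δ - lam)))
  have hρ' : 0 < ρ - r * (δ - lam) := by linarith
  rw [div_lt_iff₀ hρ'] at hj
  obtain ⟨m, hm⟩ : ∃ m, m = j * r + c := ⟨_, rfl⟩
  have hW : P ^ (j * r) * (P ^ c * S) = P ^ m * S := by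
    rw [← mul_assoc, ← pow_add, hm]
  have h1 := hf m
  have h2 := hfz m
  -- the multiplication by `g`
  let μ : D j →ₗ[k] secL (resD hY z (P ^ m * S)) 1 :=
    { toFun := fun a => ⟨(resS hY z (P ^ (j * r)) 1 ⟨a.1, hD j a.2⟩ : Y.kap z) * g, fun x => by
        have e1 := (resS hY z (P ^ (j * r)) 1 ⟨a.1, hD j a.2⟩).2 x
        have e2 := hg x
        rw [pow_one] at e1 e2 ⊢
        rw [← hW, map_mul, mul_eq]
        have e3 := ((subM hY z).O x).mul_mem e1 e2
        have e4 : (resS hY z (P ^ (j * r)) 1 ⟨a.1, hD j a.2⟩ : Y.kap z) * (resD hY z (P ^ (j * r))).eq x *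
            (g * (resD hY z (P ^ c * S)).eq x) =
            (resS hY z (P ^ (j * r)) 1 ⟨a.1, hD j a.2⟩ : Y.kap z) * g *
            ((resD hY z (P ^ (j * r))).eq x * (resD hY z (P ^ c * S)).eq x) := by ring
        rwa [← e4]⟩
      map_add' := fun a b => Subtype.ext (by
        change (resS hY z (P ^ (j * r)) 1 ⟨a.1 + b.1, _⟩ : Y.kap z) * g =
          (resS hY z (P ^ (j * r)) 1 ⟨a.1, _⟩ : Y.kap z) * g + (resS hY z (P ^ (j * r)) 1 ⟨b.1, _⟩ : Y.kap z) * g
        rw [← add_mul]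
        congr 1
        have := map_add (resS hY z (P ^ (j * r)) 1) ⟨a.1, hD j a.2⟩ ⟨b.1, hD j b.2⟩
        exact congrArg Subtype.val this)
      map_smul' := fun t a => Subtype.ext (by
        change (resS hY z (P ^ (j * r)) 1 ⟨t • a.1, _⟩ : Y.kap z) * g =
          t • ((resS hY z (P ^ (j * r)) 1 ⟨a.1, _⟩ : Y.kap z) * g)
        rw [← smul_mul_assoc]
        congr 1
        have := map_smul (resS hY z (P ^ (j * r)) 1) t ⟨a.1, hD j a.2⟩
        exact congrArg Subtype.val this) }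
  have hμv : ∀ a : D j, (μ a : Y.kap z) = Y.rs z (a.1 * (P ^ (j * r)).eq z) * g := fun a => by
    change Y.rs z (a.1 * (P ^ (j * r)).eq z ^ 1) * g = _
    rw [pow_one]
  have hμ : Function.Injective μ := by
    rw [injective_iff_map_eq_zero]
    intro a ha
    by_contra hne
    have h3 : (μ a : Y.kap z) = 0 := by rw [ha]; rfl
    rw [hμv] at h3
    have ha0 : a.1 ≠ 0 := fun h4 => hne (Subtype.ext h4)
    have h4 := hD j a.2 z
    rw [pow_one] at h4
    exact mul_ne_zero ((rs_ne z h4).2 (hDz j a.1 a.2 ha0)) hg0 h3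
  have h3 : Module.finrank k (LinearMap.range μ) = Module.finrank k (D j) := LinearMap.finrank_range_of_inj hμ
  have h4 := ex_dim hY hS (P ^ m * S) 1
  rw [pow_one, mul_inv_cancel_right] at h4
  have hlt : Module.finrank k (secL (resD hY z (P ^ m * S)) 1) < Module.finrank k (LinearMap.range μ) +
      Module.finrank k (LinearMap.range (resS hY z (P ^ m * S) 1)) := by
    rw [h3]
    have a1 := hlb m
    have a2 := hd m
    have a3 := hDd j
    have a4 : (h0 (P ^ m * S) 1 : ℝ) = h0 (P ^ m) 1 + Module.finrank k (LinearMap.range (resS hY z (P ^ m * S) 1)) := by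
      exact_mod_cast h4
    have a5 : (hz hY z (P ^ m * S) : ℝ) = (Module.finrank k (secL (resD hY z (P ^ m * S)) 1) : ℝ) := rfl
    rw [a5] at a1
    have a6 : (m : ℝ) = j * r + c := by rw [hm]; push_cast; ring
    rw [a6] at a1 a2
    have a7 : (c : ℝ) * (δ - lam) ≤ c * |δ - lam| := mul_le_mul_of_nonneg_left (le_abs_self _) (Nat.cast_nonneg _)
    have a8 := le_abs_self C
    have a9 : (Module.finrank k (secL (resD hY z (P ^ m * S)) 1) : ℝ) < (Module.finrank k (D j) : ℝ) +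
        (Module.finrank k (LinearMap.range (resS hY z (P ^ m * S) 1)) : ℝ) := by
      nlinarith
    exact_mod_cast a9
  obtain ⟨v, ⟨a, ha⟩, ⟨f, hf'⟩, hv0⟩ := meet _ _ hlt
  refine ⟨j, a.1, f.1, a.2, fun h5 => hv0 ?_, ?_, ?_⟩
  · rw [← ha]
    have h6 : a = 0 := Subtype.ext h5
    rw [h6, map_zero]
  · rw [← hm]
    exact f.2
  · have h6 : (resS hY z (P ^ m * S) 1 f : Y.kap z) = (μ a : Y.kap z) := by rw [hf', ha]
    rw [hμv, resS_coe, pow_one] at h6
    rw [← hm]
    exact h6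

end Pool.Agent.H24.AB
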