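import Pool.Agent.H24.AB.Kill
import Pool.Agent.H24.AB.H1
import Pool.Agent.H32.TK.Surf

/-!
# [H24 AB H1b] ABUNDANCE (MP_e49dc9_ag): every section on the generic member lifts with poles along members of the system (H1)

`z` the generic point of the prime divisor `S` of `Y`, `V m = H⁰(m P)`; nonzero elements of `V m` do not vanish on `z`; `Q` a divisor (the twist, numerically trivial in
the application), `h⁰(n P + Q) ≤ h⁰((n + d) P)`; the sections of `m P + Q + S` on `z` which do not lift to `Y` form a space of dimension at most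
`h⁰(m P + Q) - m λ + C`, `λ > 0`.  Suppose that `h⁰(n P)` does not grow quadratically.
* `cnt1`: if no `a g`, `a ∈ V m` nonzero, lifts, then `h⁰(m P) + h⁰((m + c) P + Q + S) ≤ h⁰((m + c) P + Q) + h⁰(z, (m + c) P + Q + S)`.
* `cnt2`: so (the sum of these inequalities is quadratic) for every section `g` of `c P + Q + S` on `z` some `a g` lifts.
* `h1_full`: `g` a function on `z` such that along every prime divisor of `z` along which `g` is not a section of `Q + S` some nonzero element of `V m` vanishes.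
  Then there are `n`, `b ∈ V (n r)` nonzero and a section `f` of `n r P + Q + S` such that `f / b` restricts to `g`.
-/

set_option autoImplicit false

namespace Pool.Agent.H24.AB

open Pool.Agent.H54.RV Pool.Agent.H83.TU Pool.Agent.H83.TK Pool.Agent.H20.TD Pool.Agent.H20.TP

variable {k K : Type} [Field k] [Field K] [Algebra k K] {Y : Mod k K}

theorem cnt1 (hY : IsVar Y) {z : Y.P} {S P Q : Cart Y} (hS : SPr Y z S)
    (hf : ∀ m : ℕ, FiniteDimensional k (secL (P ^ m * (Q * S)) 1))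
    (hfz : ∀ m : ℕ, FiniteDimensional k (secL (resD hY z (P ^ m * (Q * S))) 1)) (m c : ℕ)
    (hun : ∀ a, Sec (P ^ m) 1 a → a ≠ 0 → Un (Y.O z) (a * (P ^ m).eq z)) {g : Y.kap z}
    (hg0 : g ≠ 0) (hg : Sec (resD hY z (P ^ c * (Q * S))) 1 g)
    (hno : ¬ ∃ a f : K, Sec (P ^ m) 1 a ∧ a ≠ 0 ∧ Sec (P ^ (m + c) * (Q * S)) 1 f ∧
      Y.rs z (f * (P ^ (m + c) * (Q * S)).eq z) = Y.rs z (a * (P ^ m).eq z) * g) :
    h0 (P ^ m) 1 + h0 (P ^ (m + c) * (Q * S)) 1 ≤ h0 (P ^ (m + c) * Q) 1 + hz hY z (P ^ (m + c) * (Q * S)) := by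
  classical
  have hW : P ^ m * (P ^ c * (Q * S)) = P ^ (m + c) * (Q * S) := by rw [← mul_assoc, ← pow_add]
  have h1 := hf (m + c)
  have h2 := hfz (m + c)
  -- the multiplication by `g`
  let μ : secL (P ^ m) 1 →ₗ[k] secL (resD hY z (P ^ (m + c) * (Q * S))) 1 :=
    { toFun := fun a => ⟨(resS hY z (P ^ m) 1 a : Y.kap z) * g, fun x => by
        have e1 := (resS hY z (P ^ m) 1 a).2 x
        have e2 := hg x
        rw [pow_one] at e1 e2 ⊢
        rw [← hW, map_mul, mul_eq]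
        have e3 := ((subM hY z).O x).mul_mem e1 e2
        have e4 : (resS hY z (P ^ m) 1 a : Y.kap z) * (resD hY z (P ^ m)).eq x *
            (g * (resD hY z (P ^ c * (Q * S))).eq x) =
            (resS hY z (P ^ m) 1 a : Y.kap z) * g *
            ((resD hY z (P ^ m)).eq x * (resD hY z (P ^ c * (Q * S))).eq x) := by ring
        rwa [← e4]⟩
      map_add' := fun a b => Subtype.ext (by
        change (resS hY z (P ^ m) 1 (a + b) : Y.kap z) * g =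
          (resS hY z (P ^ m) 1 a : Y.kap z) * g + (resS hY z (P ^ m) 1 b : Y.kap z) * g
        rw [← add_mul, map_add]
        rfl)
      map_smul' := fun t a => Subtype.ext (by
        change (resS hY z (P ^ m) 1 (t • a) : Y.kap z) * g = t • ((resS hY z (P ^ m) 1 a : Y.kap z) * g)
        rw [← smul_mul_assoc, map_smul]
        rfl) }
  have hμv : ∀ a : secL (P ^ m) 1, (μ a : Y.kap z) = Y.rs z (a.1 * (P ^ m).eq z) * g := fun a => by
    change Y.rs z (a.1 * (P ^ m).eq z ^ 1) * g = _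
    rw [pow_one]
  have hμ : Function.Injective μ := by
    rw [injective_iff_map_eq_zero]
    intro a ha
    by_contra hne
    have h3 : (μ a : Y.kap z) = 0 := by rw [ha]; rfl
    rw [hμv] at h3
    have ha0 : a.1 ≠ 0 := fun h4 => hne (Subtype.ext h4)
    have h4 := a.2 z
    rw [pow_one] at h4
    exact mul_ne_zero ((rs_ne z h4).2 (hun a.1 a.2 ha0)) hg0 h3
  have h3 : Module.finrank k (LinearMap.range μ) = h0 (P ^ m) 1 := LinearMap.finrank_range_of_inj hμ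
  have h4 := ex_dim hY hS (P ^ (m + c) * (Q * S)) 1
  rw [pow_one, ← mul_assoc, mul_inv_cancel_right, mul_assoc] at h4
  by_contra hlt
  push Not at hlt
  obtain ⟨v, ⟨a, ha⟩, ⟨f, hf'⟩, hv0⟩ := meet (LinearMap.range μ) (LinearMap.range (resS hY z (P ^ (m + c) * (Q * S)) 1)) (by
    rw [h3]
    have h5 : hz hY z (P ^ (m + c) * (Q * S)) = Module.finrank k (secL (resD hY z (P ^ (m + c) * (Q * S))) 1) := rfl
    omega)
  refine hno ⟨a.1, f.1, a.2, fun h5 => hv0 ?_, f.2, ?_⟩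
  · rw [← ha]
    have h6 : a = 0 := Subtype.ext h5
    rw [h6, map_zero]
  · have h6 : (resS hY z (P ^ (m + c) * (Q * S)) 1 f : Y.kap z) = (μ a : Y.kap z) := by rw [hf', ha]
    rw [hμv, resS_coe, pow_one] at h6
    exact h6

/-- the growth from the inequalities -/
theorem grow_q {u : ℕ → ℝ} (hu0 : ∀ n, 0 ≤ u n) {c : ℕ} (hc : 1 ≤ c) {lam C : ℝ} (hlam : 0 < lam) (hC : 0 ≤ C)
    (h : ∀ N : ℕ, u (c * N) + ((c * N + c : ℕ) : ℝ) * lam - C ≤ u (c * N + c)) {s₀ : ℕ}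
    (hs : ∀ n s : ℕ, s₀ ≤ s → u n ≤ u (n + s)) :
    ∃ c₀ : ℝ, 0 < c₀ ∧ ∃ n₀ : ℕ, ∀ n : ℕ, n₀ ≤ n → c₀ * (n : ℝ) ^ 2 ≤ u n := by
  have hc0 : (0 : ℝ) < c := by exact_mod_cast hc
  have h1 : ∀ N : ℕ, c * lam * (N : ℝ) ^ 2 / 2 - C * N ≤ u (c * N) := by
    intro N
    induction N with
    | zero =>
      have := hu0 (c * 0)
      simpa using this
    | succ N ih =>
      have h2 := h N
      have h3 : c * N + c = c * (N + 1) := by ring
      rw [h3] at h2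
      push_cast at h2 ⊢
      nlinarith
  refine ⟨lam / (16 * c), by positivity, 2 * s₀ + 2 * c + ⌈16 * C / lam⌉₊, fun n hn => ?_⟩
  obtain ⟨N, hN⟩ : ∃ N, N = (n - s₀) / c := ⟨_, rfl⟩
  have h2 : c * N ≤ n - s₀ := by
    rw [hN]
    exact Nat.mul_div_le _ _
  have h3 : n - s₀ < c * N + c := by
    rw [hN]
    exact Nat.lt_mul_div_succ _ (by omega)
  have h4 := hs (c * N) (n - c * N) (by omega)
  rw [Nat.add_sub_cancel' (by omega)] at h4
  have h5 := h1 N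
  have h6 : (n : ℝ) ≤ 2 * (c * N) := by exact_mod_cast (show n ≤ 2 * (c * N) by omega)
  have h7 : (c : ℝ) * N ≤ n := by exact_mod_cast (show c * N ≤ n by omega)
  have h8 : 16 * C ≤ lam * n := by
    have h9 := Nat.le_ceil (16 * C / lam)
    rw [div_le_iff₀ hlam] at h9
    have h10 : (⌈16 * C / lam⌉₊ : ℝ) ≤ n := by exact_mod_cast (show ⌈16 * C / lam⌉₊ ≤ n by omega)
    have h11 := mul_le_mul_of_nonneg_right h10 hlam.le
    linarith
  have hn0 : (0 : ℝ) ≤ n := Nat.cast_nonneg n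
  have hN0 : (0 : ℝ) ≤ N := Nat.cast_nonneg N
  -- multiply by `c`
  have h12 : lam * (n : ℝ) ^ 2 / 16 ≤ c * (c * lam * (N : ℝ) ^ 2 / 2 - C * N) := by
    have a1 : (n : ℝ) ^ 2 ≤ (2 * (c * N)) ^ 2 := pow_le_pow_left₀ hn0 h6 2
    have a2 : C * (c * N) ≤ C * n := mul_le_mul_of_nonneg_left h7 hC
    have a3 : 16 * (C * n) ≤ lam * n * n := by nlinarith
    nlinarith
  have h13 : lam / (16 * c) * (n : ℝ) ^ 2 ≤ c * lam * (N : ℝ) ^ 2 / 2 - C * N := by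
    rw [div_mul_eq_mul_div, div_le_iff₀ (by positivity)]
    nlinarith
  linarith

theorem cnt2 (hY : IsVar Y) {z : Y.P} {S P Q : Cart Y} (hS : SPr Y z S)
    (hf1 : ∀ m : ℕ, FiniteDimensional k (secL (P ^ m) 1))
    (hf : ∀ m : ℕ, FiniteDimensional k (secL (P ^ m * (Q * S)) 1))
    (hfz : ∀ m : ℕ, FiniteDimensional k (secL (resD hY z (P ^ m * (Q * S))) 1))
    (hun : ∀ (m : ℕ) (a : K), Sec (P ^ m) 1 a → a ≠ 0 → Un (Y.O z) (a * (P ^ m).eq z)) {lam C : ℝ} (hlam : 0 < lam)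
    (hlb : ∀ m : ℕ, (hz hY z (P ^ m * (Q * S)) : ℝ) + m * lam ≤ h0 (P ^ m * (Q * S)) 1 + C) {d : ℕ}
    (hQ : ∀ n : ℕ, h0 (P ^ n * Q) 1 ≤ h0 (P ^ (n + d)) 1)
    {s₀ : ℕ} (hpos : ∀ s, s₀ ≤ s → 0 < h0 (P ^ s) 1)
    (hng : ¬ ∃ c₀ : ℝ, 0 < c₀ ∧ ∃ n₀ : ℕ, ∀ n : ℕ, n₀ ≤ n → c₀ * (n : ℝ) ^ 2 ≤ h0 (P ^ n) 1)
    {c : ℕ} (hc : 1 ≤ c) {g : Y.kap z} (hg0 : g ≠ 0) (hg : Sec (resD hY z (P ^ c * (Q * S))) 1 g) :
    ∃ (N : ℕ) (a f : K), Sec (P ^ ((c + d) * N)) 1 a ∧ a ≠ 0 ∧ Sec (P ^ ((c + d) * N + c) * (Q * S)) 1 f ∧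
      Y.rs z (f * (P ^ ((c + d) * N + c) * (Q * S)).eq z) = Y.rs z (a * (P ^ ((c + d) * N)).eq z) * g := by
  by_contra hcon
  push Not at hcon
  apply hng
  refine grow_q (u := fun n => (h0 (P ^ n) 1 : ℝ)) (fun n => Nat.cast_nonneg _) (c := c + d) (by omega) hlam
    (C := |C| + d * lam) (by positivity) (fun N => ?_) (s₀ := s₀) (fun n s hs => ?_)
  · have h1 := cnt1 hY hS hf hfz ((c + d) * N) c (hun _) hg0 hg (by
      rintro ⟨a, f, h1, h2, h3, h4⟩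
      exact hcon N a f h1 h2 h3 h4)
    have h2 := hlb ((c + d) * N + c)
    have h3 := le_abs_self C
    have h4 : (h0 (P ^ ((c + d) * N)) 1 : ℝ) + h0 (P ^ ((c + d) * N + c) * (Q * S)) 1 ≤
        h0 (P ^ ((c + d) * N + c) * Q) 1 + hz hY z (P ^ ((c + d) * N + c) * (Q * S)) := by exact_mod_cast h1
    have h5 : (h0 (P ^ ((c + d) * N + c) * Q) 1 : ℝ) ≤ h0 (P ^ ((c + d) * N + (c + d))) 1 := by
      have := hQ ((c + d) * N + c)
      rw [add_assoc] at this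
      exact_mod_cast this
    push_cast at h2 ⊢
    linarith
  · have h1 : Module.Finite k (secL (P ^ n * P ^ s) 1) := by
      rw [← pow_add]
      exact hf1 (n + s)
    have h2 := H32.TK.mul_le (P ^ s) (P ^ n) h1 (hpos s hs)
    rw [← pow_add] at h2
    exact_mod_cast h2

/-- **(H1)** -/
theorem h1_full (hY : IsVar Y) {z : Y.P} (hu : ∀ x, UniqueFactorizationMonoid ((subM hY z).O x)) {S P Q : Cart Y}
    (hS : SPr Y z S) (hf1 : ∀ m : ℕ, FiniteDimensional k (secL (P ^ m) 1))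
    (hf : ∀ m : ℕ, FiniteDimensional k (secL (P ^ m * (Q * S)) 1))
    (hfz : ∀ m : ℕ, FiniteDimensional k (secL (resD hY z (P ^ m * (Q * S))) 1))
    (hun : ∀ (m : ℕ) (a : K), Sec (P ^ m) 1 a → a ≠ 0 → Un (Y.O z) (a * (P ^ m).eq z)) {lam C : ℝ} (hlam : 0 < lam)
    (hlb : ∀ m : ℕ, (hz hY z (P ^ m * (Q * S)) : ℝ) + m * lam ≤ h0 (P ^ m * (Q * S)) 1 + C)
    {s₀ : ℕ} (hpos : ∀ s, s₀ ≤ s → 0 < h0 (P ^ s) 1)
    (hng : ¬ ∃ c₀ : ℝ, 0 < c₀ ∧ ∃ n₀ : ℕ, ∀ n : ℕ, n₀ ≤ n → c₀ * (n : ℝ) ^ 2 ≤ h0 (P ^ n) 1)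
    {r : ℕ} (hr : 1 ≤ r) {d : ℕ} (hQ : ∀ n : ℕ, h0 (P ^ n * Q) 1 ≤ h0 (P ^ (n + d * r)) 1) {g : Y.kap z}
    (hk : ∀ p : PDiv (subM hY z), g * (resD hY z (Q * S)).eq p.η ∉ (subM hY z).O p.η → ∃ (m : ℕ) (φ : K),
      Sec (P ^ m) 1 φ ∧ φ ≠ 0 ∧ ¬ Un ((subM hY z).O p.η) (Y.rs z (φ * (P ^ m).eq z) * (resD hY z P).eq p.η ^ m)) :
    ∃ (n : ℕ) (b f : K), Sec (P ^ (n * r)) 1 b ∧ b ≠ 0 ∧ Sec (P ^ (n * r) * (Q * S)) 1 f ∧
      f / b * (Q * S).eq z ∈ Y.O z ∧ Y.rs z (f / b * (Q * S).eq z) = g := by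
  classical
  have hV := isVar_sub hY z
  have hgen : ∃ g, Gen (subM hY z) g := ⟨_, gen_sub hY z⟩
  rcases eq_or_ne g 0 with hg0 | hg0
  · refine ⟨0, 1, 0, ?_, one_ne_zero, ?_, ?_, ?_⟩
    · intro x
      rw [zero_mul, pow_zero, pow_one, one_eq, mul_one]
      exact (Y.O x).one_mem
    · intro x
      rw [zero_mul]
      exact (Y.O x).zero_mem
    · rw [zero_div, zero_mul]
      exact (Y.O z).zero_mem
    · rw [zero_div, zero_mul, rs_zero, hg0]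
  -- the system of sections
  obtain ⟨Kl, hKl⟩ : ∃ Kl : ℕ → Y.kap z → Prop, Kl = fun c s => ∃ φ : K, Sec (P ^ (c * r)) 1 φ ∧ φ ≠ 0 ∧
      s = Y.rs z (φ * (P ^ (c * r)).eq z) := ⟨_, rfl⟩
  have hmem : ∀ (c : ℕ) (φ : K), Sec (P ^ c) 1 φ → ∀ x, φ * (P ^ c).eq x ∈ Y.O x := fun c φ hφ x => by
    have := hφ x
    rwa [pow_one] at this
  have ep : ∀ (c : ℕ) (x : (subM hY z).P), (resD hY z (P ^ c)).eq x = (resD hY z P).eq x ^ c := fun c x => by
    rw [map_pow, pow_eq]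
  have hres : ∀ (c : ℕ) (φ : K), Sec (P ^ c) 1 φ → ∀ x : (subM hY z).P,
      Y.rs z (φ * (P ^ c).eq z) * (resD hY z P).eq x ^ c ∈ (subM hY z).O x := fun c φ hφ x => by
    have h1 := (resS hY z (P ^ c) 1 ⟨φ, hφ⟩).2 x
    rw [resS_coe, pow_one, pow_one, ep] at h1
    exact h1
  have hsecm : ∀ (c c' : ℕ) (φ φ' : K), Sec (P ^ c) 1 φ → Sec (P ^ c') 1 φ' → Sec (P ^ (c + c')) 1 (φ * φ') := by
    intro c c' φ φ' h1 h2 x
    have h3 := (Y.O x).mul_mem (hmem c φ h1 x) (hmem c' φ' h2 x)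
    rw [pow_one, pow_add, mul_eq]
    have h4 : φ * (P ^ c).eq x * (φ' * (P ^ c').eq x) = φ * φ' * ((P ^ c).eq x * (P ^ c').eq x) := by ring
    rwa [← h4]
  have hK : KlS (subM hY z) (resD hY z (P ^ r)) Kl := by
    rw [hKl]
    refine ⟨⟨1, ?_, one_ne_zero, ?_⟩, ?_, ?_, ?_⟩
    · intro x
      rw [zero_mul, pow_zero, pow_one, one_eq, mul_one]
      exact (Y.O x).one_mem
    · rw [zero_mul, pow_zero, one_eq, mul_one, rs_one]
    · rintro c c' s s' ⟨φ, h1, h2, h3⟩ ⟨φ', h4, h5, h6⟩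
      refine ⟨φ * φ', ?_, mul_ne_zero h2 h5, ?_⟩
      · rw [add_mul]
        exact hsecm _ _ _ _ h1 h4
      · rw [h3, h6, ← rs_mul z (hmem _ _ h1 z) (hmem _ _ h4 z), add_mul, pow_add, mul_eq]
        congr 1
        ring
    · rintro c s ⟨φ, h1, h2, h3⟩ x
      rw [h3, ep, ← pow_mul, mul_comm r c]
      exact hres _ _ h1 x
    · rintro c s ⟨φ, h1, h2, h3⟩
      rw [h3]
      exact (rs_ne z (hmem _ _ h1 z)).2 (hun _ _ h1 h2)
  obtain ⟨c₁, s₁, hs₁, h1⟩ := kill hV hgen hu hK (B := resD hY z (Q * S)) (g := g) (fun p hp => by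
    obtain ⟨m, φ, h1, h2, h3⟩ := hk p hp
    have hpw : ∀ i : ℕ, Sec (P ^ (m * i)) 1 (φ ^ i) := by
      intro i
      induction i with
      | zero =>
        intro x
        rw [mul_zero, pow_zero, pow_zero, pow_one, one_eq, mul_one]
        exact (Y.O x).one_mem
      | succ i ih =>
        rw [mul_add, mul_one, pow_succ]
        exact hsecm _ _ _ _ ih h1
    refine ⟨m, Y.rs z (φ ^ r * (P ^ (m * r)).eq z), ?_, fun h4 => h3 ?_⟩
    · rw [hKl]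
      exact ⟨φ ^ r, hpw r, pow_ne_zero _ h2, rfl⟩
    · have e1 : Y.rs z (φ ^ r * (P ^ (m * r)).eq z) = Y.rs z (φ * (P ^ m).eq z) ^ r := by
        have e2 : ∀ i : ℕ, Y.rs z (φ ^ i * (P ^ (m * i)).eq z) = Y.rs z (φ * (P ^ m).eq z) ^ i := by
          intro i
          induction i with
          | zero => rw [mul_zero, pow_zero, pow_zero, pow_zero, one_eq, mul_one, rs_one]
          | succ i ih =>
            rw [pow_succ (Y.rs z _), ← ih, ← rs_mul z (hmem _ _ (hpw i) z) (hmem _ _ h1 z)]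
            congr 1
            rw [mul_add, mul_one, pow_add P, mul_eq, pow_succ]
            ring
        exact e2 r
      rw [e1, ep, ← pow_mul, mul_comm r m, pow_mul, ← mul_pow] at h4
      exact (un_pow_iff (hres _ _ h1 _) hr).1 h4)
  -- a section with `c ≥ 1`
  obtain ⟨s₂, hs₂⟩ : ∃ s₂ : ℕ, s₂ = s₀ + 1 := ⟨_, rfl⟩
  obtain ⟨τ, hτ0, hτ⟩ : ∃ τ : K, τ ≠ 0 ∧ Sec (P ^ (s₂ * r)) 1 τ := by
    have h2 := hpos (s₂ * r) (by
      rw [hs₂]
      nlinarith)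
    unfold h0 at h2
    have h3 := Module.finrank_pos_iff.1 h2
    obtain ⟨τ, hτ⟩ := exists_ne (0 : secL (P ^ (s₂ * r)) 1)
    exact ⟨τ.1, fun h4 => hτ (Subtype.ext h4), τ.2⟩
  have hKτ : Kl s₂ (Y.rs z (τ * (P ^ (s₂ * r)).eq z)) := by
    rw [hKl]
    exact ⟨τ, hτ, hτ0, rfl⟩
  have hKt := hK.mul _ _ _ _ hs₁ hKτ
  obtain ⟨c, hc⟩ : ∃ c, c = c₁ + s₂ := ⟨_, rfl⟩
  obtain ⟨s, hs⟩ : ∃ s, s = s₁ * Y.rs z (τ * (P ^ (s₂ * r)).eq z) := ⟨_, rfl⟩
  rw [← hc, ← hs] at hKt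
  have hsg : Sec (resD hY z (P ^ (c * r) * (Q * S))) 1 (s * g) := by
    intro x
    have h2 := ((subM hY z).O x).mul_mem (h1 x) (hK.sec _ _ hKτ x)
    rw [pow_one, map_mul (resD hY z) (P ^ (c * r)), mul_eq, ep, mul_comm c r, pow_mul, hc, pow_add, hs]
    rw [ep] at h2
    have h3 : s₁ * g * ((((resD hY z) P).eq x ^ r) ^ c₁ * ((resD hY z) (Q * S)).eq x) *
        (Y.rs z (τ * (P ^ (s₂ * r)).eq z) * (((resD hY z) P).eq x ^ r) ^ s₂) =
        s₁ * Y.rs z (τ * (P ^ (s₂ * r)).eq z) * g *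
          ((((resD hY z) P).eq x ^ r) ^ c₁ * (((resD hY z) P).eq x ^ r) ^ s₂ * ((resD hY z) (Q * S)).eq x) := by ring
    rwa [h3] at h2
  have hs0 : s ≠ 0 := hK.ne _ _ hKt
  obtain ⟨N, a, f, ha, ha0, hf', h2⟩ := cnt2 hY hS hf1 hf hfz hun hlam hlb hQ hpos hng (c := c * r)
    (Nat.mul_pos (by omega) (by omega)) (mul_ne_zero hs0 hg0) hsg
  rw [hKl] at hKt
  obtain ⟨φ, hφ, hφ0, hφs⟩ := hKt
  have hb := hsecm _ _ _ _ ha hφ
  have e1 : (c * r + d * r) * N + c * r = ((c + d) * N + c) * r := by ring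
  rw [e1] at hb hf' h2
  have hb0 : a * φ ≠ 0 := mul_ne_zero ha0 hφ0
  have hbu := hun _ _ hb hb0
  have e2 : Y.rs z (a * φ * (P ^ (((c + d) * N + c) * r)).eq z) = Y.rs z (a * (P ^ ((c * r + d * r) * N)).eq z) * s := by
    rw [hφs, ← rs_mul z (hmem _ _ ha z) (hmem _ _ hφ z)]
    congr 1
    rw [← e1, pow_add, mul_eq]
    ring
  have hfz' := hf' z
  rw [pow_one] at hfz'
  have e3 : f / (a * φ) * (Q * S).eq z =
      f * (P ^ (((c + d) * N + c) * r) * (Q * S)).eq z * (a * φ * (P ^ (((c + d) * N + c) * r)).eq z)⁻¹ := by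
    rw [mul_eq (P ^ (((c + d) * N + c) * r))]
    have := (P ^ (((c + d) * N + c) * r)).ne z
    field_simp
  refine ⟨(c + d) * N + c, a * φ, f, hb, hb0, hf', ?_, ?_⟩
  · rw [e3]
    exact (Y.O z).mul_mem hfz' hbu.2.2
  · rw [e3, rs_mul z hfz' hbu.2.2, h2]
    have h3 : Y.rs z (a * φ * (P ^ (((c + d) * N + c) * r)).eq z) ≠ 0 := (rs_ne z hbu.2.1).2 hbu
    have h4 : Y.rs z (a * φ * (P ^ (((c + d) * N + c) * r)).eq z)⁻¹ =
        (Y.rs z (a * φ * (P ^ (((c + d) * N + c) * r)).eq z))⁻¹ := by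
      refine eq_inv_of_mul_eq_one_left ?_
      rw [← rs_mul z hbu.2.2 hbu.2.1, inv_mul_cancel₀ hbu.1, rs_one]
    rw [h4, e2]
    rw [e2] at h3
    have h5 := left_ne_zero_of_mul h3
    field_simp

end Pool.Agent.H24.AB
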