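import Pool.Agent.H24.AB.Gm
import Pool.Agent.H24.AB.H1b
import Pool.Agent.H32.KF.Lbp
import Pool.Agent.H47.KN.Mul

/-!
# [H24 AB H1c] ABUNDANCE (MP_e49dc9_ag): (H1) for the generic member

`X` with Riemann-Roch, `P` nef, `T(P,P,P) = 0 < T(P,P,H)`, `0 < l(P)`, `h⁰(n P)` does not grow quadratically.  `X' = bcM X hbc` the base change to `k' = k(t)`, `z` the generic point of
the generic member `S' = H' + div f` of a linear system of `H` (H24/AB/Gm: `gm`), `P' = bcD P`.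
* `gm_un`: nonzero sections of `m P'` do not vanish on `z`.
* `h0_low`: `h⁰(n P + Q) > 0` for large `n`, `Q` numerically trivial.
* `h1_gm`: `g` a function on `z`, such that for every prime divisor `p` of the surface `subM z` along which `g` is not a section of `Q' + H'` (`Q` numerically trivial) there are two sections `φ`, `ψ` of some `m P'`
  such that `ψ / φ` is not in the local ring of `p` (so `p` is vertical).  Then there are `n`, a nonzero section `b` of `n r P'` and a section `a` of `n r P' + Q' + S'` such that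
  `a / b` restricts to `g`.
-/

set_option autoImplicit false

namespace Pool.Agent.H24.AB

open Pool.Agent.H54.RV Pool.Agent.H83.TU Pool.Agent.H83.TK
open Pool.Agent.H24.VP (RR Sf Nf)
open Pool.Agent.H20.TP (hz)

variable {k K : Type} [Field k] [Field K] [Algebra k K] {X : Mod k K}
  {T : Cart X → Cart X → Cart X → ℝ} {l : Cart X → ℝ} {c : ℝ}

theorem fd_prin (D : Cart X) (f : K) (hf : f ≠ 0) (h : FiniteDimensional k (secL D 1)) :
    FiniteDimensional k (secL (D * prin X f hf) 1) := by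
  let e : secL (D * prin X f hf) 1 →ₗ[k] secL D 1 :=
    { toFun := fun s => ⟨s.1 * f, fun x => by
        have := s.2 x
        rw [pow_one] at this ⊢
        have h2 : s.1 * (D * prin X f hf).eq x = s.1 * f * D.eq x := by
          show s.1 * (D.eq x * f) = _
          ring
        rwa [h2] at this⟩
      map_add' := fun s t => Subtype.ext (add_mul _ _ _)
      map_smul' := fun c s => Subtype.ext (smul_mul_assoc _ _ _) }
  refine Module.Finite.of_injective e fun s t hst => Subtype.ext ?_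
  have h1 : s.1 * f = t.1 * f := congrArg Subtype.val hst
  exact mul_right_cancel₀ hf h1

/-- `n P - H` has no sections -/
theorem h0_zero [CharZero k] [T0Space X.P] (h : Hyp X) (hr : RR T l c) {H P : Cart X} (hH : Ample H)
    (hP : ∀ B : Cart X, Ample B → Ample (B * P)) (h3 : T P P P = 0) (hPP : 0 < T P P H) (m : ℕ) :
    h0 (P ^ m * H⁻¹) 1 = 0 := by
  by_contra hne
  obtain ⟨s, hs0, hE⟩ := Pool.Agent.H20.TK.eff_of_pos _ (Nat.pos_of_ne_zero hne)
  have ht := hr.tri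
  have hPn : ∀ j : ℕ, Ample (H * P ^ j) := by
    intro j
    induction j with
    | zero => rwa [pow_zero, mul_one]
    | succ j ih =>
      rw [pow_succ, ← mul_assoc]
      exact hP _ ih
  obtain ⟨j, hj⟩ := exists_nat_gt ((m * T P H P - T P H H) / T P P H)
  rw [div_lt_iff₀ hPP] at hj
  have h1 := Pool.Agent.H24.VP.nn_eff h hr (N := P) hP (hPn j) hE
  rw [ht.add3, Pool.Agent.H47.KN.prinT h hr, zero_add, ht.add2, ht.pow2, ht.add3, ht.pow3, ht.inv3, ht.add3, ht.pow3,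
    ht.inv3, h3] at h1
  linarith

/-- `n P + Q` has sections for large `n` -/
theorem h0_low [CharZero k] [T0Space X.P] (h : Hyp X) (hr : RR T l c) {H P : Cart X} (hH : Ample H)
    (hP : ∀ B : Cart X, Ample B → Ample (B * P)) (h3 : T P P P = 0) (hPP : 0 < T P P H)
    {Q : Cart X} (hQ : ∀ B : Cart X, Ample B → Ample (B * Q)) (hTQ : ∀ U V, T Q U V = 0) :
    ∃ (C : ℝ) (n₀ : ℕ), ∀ n : ℕ, n₀ ≤ n → n * l P - C ≤ h0 (P ^ n * Q) 1 := by
  have ht := hr.tri
  obtain ⟨m, C₀, C₁, hm, hlb⟩ := Pool.Agent.H32.KF.lbp h hr hH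
  have hPn : ∀ (n : ℕ) (B : Cart X), Ample B → Ample (B * (P ^ n * Q)) := by
    intro n
    induction n with
    | zero =>
      intro B hB
      rw [pow_zero, one_mul]
      exact hQ B hB
    | succ n ih =>
      intro B hB
      rw [pow_succ, mul_comm (P ^ n), mul_assoc P, ← mul_assoc B]
      exact ih _ (hP B hB)
  have hT₂ : ∀ U V, T U Q V = 0 := fun U V => by rw [ht.s12, hTQ]
  have hT₃ : ∀ U V, T U V Q = 0 := fun U V => by rw [ht.s23, hT₂]
  have hHHH : 0 < T H H H := Pool.Agent.H24.VP.pos_amp h hr hH hH hH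
  have hpos : ∀ B : Cart X, Ample B → 0 < T B H H := fun B hB => Pool.Agent.H24.VP.pos_amp h hr hB hH hH
  have h0' : 0 ≤ T P H H := Pool.Agent.H32.KF.nef_hh hr hpos hH hP
  -- `T P H H > 0`
  have hPHH : 0 < T P H H := by
    obtain ⟨m', k', L, i1, i2, i3, S, ψ, hm', hS⟩ := Pool.Agent.H24.VP.exists_sf h hH
    refine lt_of_le_of_ne h0' fun h1 => ?_
    have h2 := Pool.Agent.H24.VP.hdg hr hS P (by
      rw [ht.pow2, ht.pow3, ← h1, mul_zero, mul_zero])
    rw [ht.pow3] at h2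
    have h3 : (0 : ℝ) < m' := by exact_mod_cast hm'
    have h4 : 0 < m' * T P P H := by positivity
    linarith
  obtain ⟨n₁, hn₁⟩ := exists_nat_gt (2 * m * T H H H / T P H H)
  rw [div_lt_iff₀ hPHH] at hn₁
  obtain ⟨n₂, hn₂⟩ := exists_nat_gt ((3 * m * T P H H + |C₁|) / T P P H)
  rw [div_lt_iff₀ hPP] at hn₂
  refine ⟨C₀ - c - l Q, n₁ + n₂ + 1, fun n hn => ?_⟩
  have hn1 : (n₁ : ℝ) ≤ n := by exact_mod_cast (show n₁ ≤ n by omega)
  have hn2 : (n₂ : ℝ) ≤ n := by exact_mod_cast (show n₂ ≤ n by omega)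
  have hn3 : (1 : ℝ) ≤ n := by exact_mod_cast (show 1 ≤ n by omega)
  have e1 : T (P ^ n * Q) (P ^ n * Q) H = n * (n * T P P H) := by
    rw [ht.add, hTQ, add_zero, ht.add2, hT₂, add_zero, ht.pow, ht.pow2]
  have e2 : T (P ^ n * Q) H H = n * T P H H := by
    rw [ht.add, hTQ, add_zero, ht.pow]
  have e3 : Pool.Agent.H24.VP.chi T l c (P ^ n * Q) = n * l P + l Q + c := by
    unfold Pool.Agent.H24.VP.chi
    rw [ht.add, hTQ, add_zero, ht.add2, hT₂, add_zero, ht.add3, hT₃, add_zero, hr.tri.pow, hr.tri.pow2, hr.tri.pow3,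
      hr.ladd, hr.l_pow, h3]
    ring
  have h1 := hlb (P ^ n * Q) (hPn n) (by
    rw [e1]
    positivity) (by
    rw [e2]
    have := mul_le_mul_of_nonneg_right hn1 hPHH.le
    linarith) (by
    rw [e1, e2]
    have h4 := mul_le_mul_of_nonneg_right hn2 hPP.le
    have h5 : (n : ℝ) * (3 * m * T P H H + |C₁|) ≤ n * (n * T P P H) := mul_le_mul_of_nonneg_left (by linarith) (by linarith)
    have h6 : |C₁| ≤ (n : ℝ) * |C₁| := by
      have := abs_nonneg C₁
      nlinarith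
    have h7 := le_abs_self C₁
    nlinarith)
  rw [e3] at h1
  linarith

section gm

variable {k' K' σ : Type} [Field k'] [Field K'] [Algebra k k'] [Algebra K K'] [Algebra k' K'] [Algebra k K']
  [IsScalarTower k K K'] [IsScalarTower k k' K'] [Finite σ] {t : σ → k'}

/-- nonzero sections of `m P'` do not vanish on the generic member -/
theorem gm_un [CharZero k] [T0Space X.P] (h : Hyp X) (hr : RR T l c) {H P : Cart X} (hH : Ample H)
    (hbc : BC k K k' K' t) {z : (bcM X hbc).P} {f : K'} {hf : f ≠ 0}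
    (hS : SPr (bcM X hbc) z (bcD h.var h.gen hbc H * prin (bcM X hbc) f hf))
    (hP : ∀ B : Cart X, Ample B → Ample (B * P)) (h3 : T P P P = 0) (hPP : 0 < T P P H) (m : ℕ) (φ : K')
    (hφ : Sec ((bcD h.var h.gen hbc P) ^ m) 1 φ) (hφ0 : φ ≠ 0) :
    Un ((bcM X hbc).O z) (φ * ((bcD h.var h.gen hbc P) ^ m).eq z) := by
  have hV := isVar_bc h.var h.gen hbc
  by_contra hcon
  have hmem : ∀ x, φ * ((bcD h.var h.gen hbc P) ^ m).eq x ∈ (bcM X hbc).O x := fun x => by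
    have := hφ x
    rwa [pow_one] at this
  have h1 : φ ∈ secL (bcD h.var h.gen hbc (P ^ m) * (bcD h.var h.gen hbc H * prin (bcM X hbc) f hf)⁻¹) 1 := by
    intro x
    rw [pow_one, map_pow, mul_eq, inv_eq]
    have h2 := (hS.mem_iff hV x (hmem x)).2 (fun hzx h4 => hcon (by
      have h5 := quo_un ((bcD h.var h.gen hbc P) ^ m) z x hzx
      have e : φ * ((bcD h.var h.gen hbc P) ^ m).eq z = φ * ((bcD h.var h.gen hbc P) ^ m).eq x *
          (((bcD h.var h.gen hbc P) ^ m).eq x / ((bcD h.var h.gen hbc P) ^ m).eq z)⁻¹ := by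
        have := ((bcD h.var h.gen hbc P) ^ m).ne x
        have := ((bcD h.var h.gen hbc P) ^ m).ne z
        field_simp
      rw [e]
      exact un_mul h4 (un_inv h5)))
    rwa [div_eq_mul_inv, mul_assoc] at h2
  have e1 : h0 (bcD h.var h.gen hbc (P ^ m) * (bcD h.var h.gen hbc H * prin (bcM X hbc) f hf)⁻¹) 1 = 0 := by
    rw [Pool.Agent.H41.TW.h0_div_prin, ← map_inv, ← map_mul]
    have : FiniteDimensional k (secL (P ^ m * H⁻¹) 1) := Pool.Agent.H24.TK.fd h.var h.gen hH _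
    rw [(bc_h0 h.var h.gen hbc (P ^ m * H⁻¹) 1).2]
    exact h0_zero h hr hH hP h3 hPP m
  have e2 : FiniteDimensional k' (secL (bcD h.var h.gen hbc (P ^ m) * (bcD h.var h.gen hbc H * prin (bcM X hbc) f hf)⁻¹) 1) := by
    have : FiniteDimensional k (secL (P ^ m * H⁻¹) 1) := Pool.Agent.H24.TK.fd h.var h.gen hH _
    have h4 := (bc_h0 h.var h.gen hbc (P ^ m * H⁻¹) 1).1
    have h5 : bcD h.var h.gen hbc (P ^ m) * (bcD h.var h.gen hbc H * prin (bcM X hbc) f hf)⁻¹ =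
        bcD h.var h.gen hbc (P ^ m * H⁻¹) * prin (bcM X hbc) f⁻¹ (inv_ne_zero hf) := by
      rw [mul_inv, map_mul, map_inv, ← mul_assoc, Pool.Agent.H41.TW.prin_inv]
    rw [h5]
    exact fd_prin _ _ _ h4
  have e3 : Module.finrank k' (secL (bcD h.var h.gen hbc (P ^ m) * (bcD h.var h.gen hbc H * prin (bcM X hbc) f hf)⁻¹) 1) = 0 := e1
  have e4 := Module.finrank_zero_iff.1 e3
  exact hφ0 (congrArg Subtype.val (e4.elim ⟨φ, h1⟩ 0))

/-- the hypothesis `hlb` of `h1_gm` -/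
theorem gm_lb_tw [CharZero k] [T0Space X.P] (h : Hyp X) (hr : RR T l c) {H : Cart X} {hbc : BC k K k' K' t}
    {z : (bcM X hbc).P} {f : K'} {hf : f ≠ 0}
    (hS : Sf H (subM (isVar_bc h.var h.gen hbc) z)
      ((resD (isVar_bc h.var h.gen hbc) z).comp (bcD h.var h.gen hbc)))
    {P : Cart X} (hP : ∀ B : Cart X, Ample B → Ample (B * P)) (h3 : T P P P = 0) (hPP : 0 < T P P H) {Q : Cart X}
    (hQ : ∀ B : Cart X, Ample B → Ample (B * Q)) (hTQ : ∀ U V, T Q U V = 0) :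
    ∃ C : ℝ, ∀ m : ℕ, (hz (isVar_bc h.var h.gen hbc) z
      ((bcD h.var h.gen hbc P) ^ m * (bcD h.var h.gen hbc Q * (bcD h.var h.gen hbc H * prin (bcM X hbc) f hf))) : ℝ) +
        m * l P ≤ h0 ((bcD h.var h.gen hbc P) ^ m *
          (bcD h.var h.gen hbc Q * (bcD h.var h.gen hbc H * prin (bcM X hbc) f hf))) 1 + C := by
  have ht := hr.tri
  obtain ⟨C, hC⟩ := lbc_tw h hr hS hP hPP hQ hTQ
  refine ⟨C - c - l Q, fun m => ?_⟩
  have hT₂ : ∀ U V, T U Q V = 0 := fun U V => by rw [ht.s12, hTQ]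
  have hT₃ : ∀ U V, T U V Q = 0 := fun U V => by rw [ht.s23, hT₂]
  have h1 := hC m
  have h2 : Pool.Agent.H24.VP.chi T l c (P ^ m * Q) = m * l P + l Q + c := by
    unfold Pool.Agent.H24.VP.chi
    rw [ht.add, hTQ, add_zero, ht.add2, hT₂, add_zero, ht.add3, hT₃, add_zero, hr.tri.pow, hr.tri.pow2, hr.tri.pow3,
      hr.ladd, hr.l_pow, h3]
    ring
  rw [h2] at h1
  rw [← mul_assoc, ← mul_assoc, hz_prin, Pool.Agent.H41.TK.h0_prin, ← map_pow, ← map_mul, ← map_mul]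
  have : FiniteDimensional k (secL (P ^ m * Q * H) 1) := Pool.Agent.H24.TK.fd h.var h.gen hS.hH _
  rw [(bc_h0 h.var h.gen hbc (P ^ m * Q * H) 1).2]
  have h4 : (hz (isVar_bc h.var h.gen hbc) z (bcD h.var h.gen hbc (P ^ m * Q * H)) : ℝ) =
    h0 (((resD (isVar_bc h.var h.gen hbc) z).comp (bcD h.var h.gen hbc)) (P ^ m * Q * H)) 1 := rfl
  rw [h4]
  linarith

/-- **(H1)** for the generic member -/
theorem h1_gm [CharZero k] [T0Space X.P] (h : Hyp X) (hr : RR T l c) {H P : Cart X} (hH : Ample H)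
    (hbc : BC k K k' K' t) {z : (bcM X hbc).P} {f : K'} {hf : f ≠ 0}
    (hS : SPr (bcM X hbc) z (bcD h.var h.gen hbc H * prin (bcM X hbc) f hf))
    (hu : ∀ w : (subM (isVar_bc h.var h.gen hbc) z).P,
      UniqueFactorizationMonoid ((subM (isVar_bc h.var h.gen hbc) z).O w))
    {Q : Cart X} {C : ℝ} (hlb : ∀ m : ℕ, (hz (isVar_bc h.var h.gen hbc) z
      ((bcD h.var h.gen hbc P) ^ m * (bcD h.var h.gen hbc Q * (bcD h.var h.gen hbc H * prin (bcM X hbc) f hf))) : ℝ) +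
        m * l P ≤ h0 ((bcD h.var h.gen hbc P) ^ m *
          (bcD h.var h.gen hbc Q * (bcD h.var h.gen hbc H * prin (bcM X hbc) f hf))) 1 + C)
    (hQ : ∀ B : Cart X, Ample B → Ample (B * Q⁻¹)) (hTQ : ∀ U V, T Q U V = 0)
    (hP : ∀ B : Cart X, Ample B → Ample (B * P)) (h3 : T P P P = 0) (hPP : 0 < T P P H) (hl : 0 < l P)
    (hng : ¬ ∃ c₀ : ℝ, 0 < c₀ ∧ ∃ n₀ : ℕ, ∀ n : ℕ, n₀ ≤ n → c₀ * (n : ℝ) ^ 2 ≤ h0 (P ^ n) 1) {r : ℕ} (hr1 : 1 ≤ r)
    {g : (bcM X hbc).kap z}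
    (hk : ∀ p : PDiv (subM (isVar_bc h.var h.gen hbc) z),
      g * (resD (isVar_bc h.var h.gen hbc) z (bcD h.var h.gen hbc (Q * H))).eq p.η ∉ (subM (isVar_bc h.var h.gen hbc) z).O p.η →
      ∃ (m : ℕ) (φ ψ : K'), Sec ((bcD h.var h.gen hbc P) ^ m) 1 φ ∧ Sec ((bcD h.var h.gen hbc P) ^ m) 1 ψ ∧ φ ≠ 0 ∧
        (bcM X hbc).rs z (ψ * ((bcD h.var h.gen hbc P) ^ m).eq z) /
          (bcM X hbc).rs z (φ * ((bcD h.var h.gen hbc P) ^ m).eq z) ∉ (subM (isVar_bc h.var h.gen hbc) z).O p.η) :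
    ∃ (n : ℕ) (b a : K'), Sec ((bcD h.var h.gen hbc P) ^ (n * r)) 1 b ∧ b ≠ 0 ∧
      Sec ((bcD h.var h.gen hbc P) ^ (n * r) *
        (bcD h.var h.gen hbc Q * (bcD h.var h.gen hbc H * prin (bcM X hbc) f hf))) 1 a ∧
      a / b * (bcD h.var h.gen hbc Q * (bcD h.var h.gen hbc H * prin (bcM X hbc) f hf)).eq z ∈ (bcM X hbc).O z ∧
      (bcM X hbc).rs z (a / b * (bcD h.var h.gen hbc Q * (bcD h.var h.gen hbc H * prin (bcM X hbc) f hf)).eq z) = g := by
  classical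
  have hX := h.var
  have hg := h.gen
  have hV := isVar_bc hX hg hbc
  obtain ⟨P', hP'⟩ : ∃ P', P' = bcD h.var h.gen hbc P := ⟨_, rfl⟩
  have hfd : ∀ W : Cart X, FiniteDimensional k (secL W 1) := fun W => Pool.Agent.H24.TK.fd hX hg hH _
  have hfd' : ∀ W : Cart X, FiniteDimensional k' (secL (bcD hX hg hbc W) 1) ∧
      h0 (bcD hX hg hbc W) 1 = h0 W 1 := fun W => by
    have := hfd W
    exact bc_h0 hX hg hbc W 1
  have hH' : Ample (bcD hX hg hbc H) := bc_ample hX hg hbc _ hH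
  have hchar : CharZero k' := charZero_of_injective_algebraMap (algebraMap k k').injective
  have hun := gm_un h hr hH hbc hS hP h3 hPP
  obtain ⟨C', n₀, hlow⟩ := h0_low h hr hH hP h3 hPP (Q := 1) (fun B hB => by rwa [mul_one])
    (fun U V => hr.tri.one U V)
  obtain ⟨C'', n₁, hlow'⟩ := h0_low h hr hH hP h3 hPP hQ (fun U V => by rw [hr.tri.inv, hTQ, neg_zero])
  obtain ⟨s₁, hs₁⟩ := exists_nat_gt (C' / l P)
  rw [div_lt_iff₀ hl] at hs₁
  obtain ⟨s₂, hs₂⟩ := exists_nat_gt (C'' / l P)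
  rw [div_lt_iff₀ hl] at hs₂
  refine h1_full hV hu hS (fun m => ?_) (fun m => ?_) (fun m => ?_) hun hl hlb (s₀ := n₀ + s₁) (fun s hs => ?_) ?_ hr1
    (d := n₁ + s₂) (fun n => ?_) (fun p hp => ?_)
  · rw [← map_pow]
    exact (hfd' _).1
  · rw [← map_pow, ← mul_assoc, ← mul_assoc, ← map_mul, ← map_mul]
    exact fd_prin _ _ _ (hfd' _).1
  · exact Pool.Agent.H24.TK.fd (isVar_sub hV z) ⟨_, gen_sub hV z⟩ (res_ample hV z _ hH') _
  · rw [← map_pow, (hfd' _).2]
    have h1 := hlow s (by omega)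
    rw [mul_one] at h1
    have h2 : (s₁ : ℝ) ≤ s := by exact_mod_cast (show s₁ ≤ s by omega)
    have h4 := mul_le_mul_of_nonneg_right h2 hl.le
    have h5 : (0 : ℝ) < h0 (P ^ s) 1 := by linarith
    exact_mod_cast h5
  · rintro ⟨c₀, hc₀, n₁, h1⟩
    refine hng ⟨c₀, hc₀, n₁, fun n hn => ?_⟩
    have h2 := h1 n hn
    rwa [← map_pow, (hfd' _).2] at h2
  · rw [← map_pow, ← map_pow, ← map_mul, (hfd' _).2, (hfd' _).2]
    have h1 : Module.Finite k (secL (P ^ n * Q * (P ^ ((n₁ + s₂) * r) * Q⁻¹)) 1) := hfd _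
    have h2 := H32.TK.mul_le (P ^ ((n₁ + s₂) * r) * Q⁻¹) (P ^ n * Q) h1 (by
      have h4 := hlow' ((n₁ + s₂) * r) (by nlinarith)
      have h5 : (s₂ : ℝ) ≤ ((n₁ + s₂) * r : ℕ) := by exact_mod_cast (show s₂ ≤ (n₁ + s₂) * r by nlinarith)
      have h6 := mul_le_mul_of_nonneg_right h5 hl.le
      have h7 : (0 : ℝ) < h0 (P ^ ((n₁ + s₂) * r) * Q⁻¹) 1 := by linarith
      exact_mod_cast h7)
    have e : P ^ n * Q * (P ^ ((n₁ + s₂) * r) * Q⁻¹) = P ^ (n + (n₁ + s₂) * r) := by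
      rw [mul_comm (P ^ ((n₁ + s₂) * r)), ← mul_assoc, mul_inv_cancel_right, pow_add]
    rwa [e] at h2
  · obtain ⟨m, φ, ψ, h1, h2, h4, h5⟩ := hk p (by
      rw [← mul_assoc, ← map_mul, map_mul (resD hV z), mul_eq, resD_prin, one_eq, mul_one] at hp
      exact hp)
    refine ⟨m, φ, h1, h4, fun h6 => h5 ?_⟩
    have h7 := (resS hV z ((bcD h.var h.gen hbc P) ^ m) 1 ⟨ψ, h2⟩).2 p.η
    rw [resS_coe, pow_one, pow_one] at h7
    have ep : (resD hV z ((bcD h.var h.gen hbc P) ^ m)).eq p.η = (resD hV z (bcD h.var h.gen hbc P)).eq p.η ^ m := by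
      rw [map_pow, pow_eq]
    rw [ep] at h7
    have h8 := ((subM hV z).O p.η).mul_mem h7 h6.2.2
    have h9 := h6.1
    have h10 := left_ne_zero_of_mul h9
    have h11 := right_ne_zero_of_mul h9
    have e : (bcM X hbc).rs z (ψ * ((bcD h.var h.gen hbc P) ^ m).eq z) * (resD hV z (bcD h.var h.gen hbc P)).eq p.η ^ m *
        ((bcM X hbc).rs z (φ * ((bcD h.var h.gen hbc P) ^ m).eq z) * (resD hV z (bcD h.var h.gen hbc P)).eq p.η ^ m)⁻¹ =
        (bcM X hbc).rs z (ψ * ((bcD h.var h.gen hbc P) ^ m).eq z) /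
          (bcM X hbc).rs z (φ * ((bcD h.var h.gen hbc P) ^ m).eq z) := by
      field_simp
    rwa [e] at h8

end gm

end Pool.Agent.H24.AB
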