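import Pool.Agent.H24.AB.H1e
import Pool.Agent.H83.AY.Hor

/-!
# [H24 AB H1f] ABUNDANCE (MP_e49dc9_ag): (H1) on the base change of `Y`

`Y : Mod F K` over `X` (`Ctr X Y ct`, `ψ` the pull back of divisors); `b₀ ≠ 0` a section of `P ^ r` on `X`, all the quotients of sections of multiples of `P`
are in `F`; `W₀ = ψ (P ^ r) * prin b₀` (effective).
* `h1_Y`: a section of `ψ (Q * H)` (`Q` numerically trivial) on the generic curve is the restriction of a section of `W₀ ^ j + ψ (Q * H)`.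
-/

set_option autoImplicit false

namespace Pool.Agent.H24.AB

open Pool.Agent.H54.RV Pool.Agent.H83.TU Pool.Agent.H83.TK Pool.Agent.H24.TK Pool.Agent.H41.TK Pool.Agent.H41.TW Pool.Agent.H24.VP
open Pool.Agent.H83.AY
open Pool.Agent.H20.TP (hz)
open MvPolynomial (map)

variable {k F K k' F' K' : Type} [Field k] [Field F] [Field K] [Field k'] [Field F'] [Field K'] [Algebra k K]
  [Algebra F K] [Algebra k k'] [Algebra F F'] [Algebra K K'] [Algebra k' K'] [Algebra F' K'] [Algebra k K']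
  [Algebra F K'] [Algebra k' F'] [IsScalarTower k K K'] [IsScalarTower k k' K'] [IsScalarTower F K K']
  [IsScalarTower F F' K'] [IsScalarTower k' F' K'] {σ : Type} [Fintype σ] {X : Mod k K} {Y : Mod F K} {t : σ → k'}

/-- sections on `X'` are sections on `Y'` -/
theorem sec_up [T0Space X.P] (hX : IsVar X) (hgX : ∃ g, Gen X g) {ct : Y.P → X.P} (hc : Ctr X Y ct)
    (hbc : BC k K k' K' t) (hbF : BC F K F' K' (fun i => algebraMap k' F' (t i))) (D : Cart X) {a : K'}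
    (ha : Sec (bcD hX hgX hbc D) 1 a) (y : BP Y σ) : a * algebraMap K K' (D.eq (ct y.x)) ∈ bcO hbF y := by
  have h1 : a ∈ Submodule.span k' (algebraMap K K' '' (secL D 1 : Set K)) := by
    have h2 : a ∈ secL (bcD hX hgX hbc D) 1 := ha
    rwa [bc_secL] at h2
  clear ha
  induction h1 using Submodule.span_induction with
  | mem x hx =>
    obtain ⟨s, hs, rfl⟩ := hx
    rw [← map_mul]
    refine alg_mem hbF y (hc.le _ _ ?_)
    have h2 := hs (ct y.x)
    rwa [pow_one] at h2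
  | zero =>
    rw [zero_mul]
    exact zero_mem _
  | add x y' _ _ hx hy =>
    rw [add_mul]
    exact add_mem hx hy
  | smul c x _ hx =>
    rw [Algebra.smul_def, IsScalarTower.algebraMap_apply k' F' K', mul_assoc]
    exact mul_mem ((bcO hbF y).algebraMap_mem _) hx

/-- a section of `m P` on `X'` is, up to a constant of `F'`, any section of `m P` on `X` -/
theorem sec_prop [T0Space X.P] (hX : IsVar X) (hgX : ∃ g, Gen X g) (hbc : BC k K k' K' t) {D : Cart X} {b₁ : K}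
    (hb₁ : b₁ ≠ 0) (hFr : ∀ a, Sec D 1 a → ∃ x : F, algebraMap F K x = a / b₁) {b : K'}
    (hb : Sec (bcD hX hgX hbc D) 1 b) : ∃ x : F', algebraMap F' K' x = b / algebraMap K K' b₁ := by
  have h1 : b ∈ Submodule.span k' (algebraMap K K' '' (secL D 1 : Set K)) := by
    have h2 : b ∈ secL (bcD hX hgX hbc D) 1 := hb
    rwa [bc_secL] at h2
  clear hb
  induction h1 using Submodule.span_induction with
  | mem x hx =>
    obtain ⟨s, hs, rfl⟩ := hx
    obtain ⟨c, hc⟩ := hFr s hs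
    refine ⟨algebraMap F F' c, ?_⟩
    rw [← IsScalarTower.algebraMap_apply F F' K', IsScalarTower.algebraMap_apply F K K', hc, map_div₀]
  | zero => exact ⟨0, by rw [map_zero, zero_div]⟩
  | add x y' _ _ hx hy =>
    obtain ⟨c, hc⟩ := hx
    obtain ⟨d, hd⟩ := hy
    exact ⟨c + d, by rw [map_add, hc, hd, add_div]⟩
  | smul c x _ hx =>
    obtain ⟨d, hd⟩ := hx
    refine ⟨algebraMap k' F' c * d, ?_⟩
    rw [map_mul, hd, ← IsScalarTower.algebraMap_apply k' F' K', Algebra.smul_def, mul_div_assoc]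

/-- **(H1)** on the generic curve of `Y` -/
theorem h1_Y {T : Cart X → Cart X → Cart X → ℝ} {l : Cart X → ℝ} {c : ℝ} [CharZero k] [T0Space X.P] [T0Space Y.P]
    (h : Hyp X) (hr : RR T l c) {H P : Cart X} (hH : Ample H)
    {s : Option σ → K} (hs : LSys X H s) (hf : ∀ x, ∃ j : σ, Un (X.O x) (s (some j) * H.eq x))
    (hbc : BC k K k' K' t) (hbF : BC F K F' K' (fun i => algebraMap k' F' (t i)))
    (hY : IsVar Y) (hgY : ∃ g, Gen Y g) {ct : Y.P → X.P} (hc : Ctr X Y ct) {ψ : Cart X → Cart Y}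
    (hψ : ∀ D y, (ψ D).eq y = D.eq (ct y)) (hsY : LSys Y (ψ H) s)
    {gX : X.P} (hgX : Gen X gX) (z : BP X σ)
    (hz : z.x = gX) (hq : ∀ f : MvPolynomial σ (X.O z.x), red X σ z.x f ∈ z.q ↔
      map ((X.O z.x).val : X.O z.x →+* K) (linO hs z.x) ∣ map ((X.O z.x).val : X.O z.x →+* K) f)
    {gY : Y.P} (hgY' : Gen Y gY) (z' : BP Y σ)
    (hz' : z'.x = gY) (hq' : ∀ f : MvPolynomial σ (Y.O z'.x), red Y σ z'.x f ∈ z'.q ↔
      map ((Y.O z'.x).val : Y.O z'.x →+* K) (linO hsY z'.x) ∣ map ((Y.O z'.x).val : Y.O z'.x →+* K) f)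
    (hcz : ct z'.x = z.x)
    {Q : Cart X} (hQ : ∀ B : Cart X, Ample B → Ample (B * Q)) (hTQ : ∀ U V, T Q U V = 0)
    (hQ' : ∀ B : Cart X, Ample B → Ample (B * Q⁻¹))
    (hP : ∀ B : Cart X, Ample B → Ample (B * P)) (h3 : T P P P = 0) (hPP : 0 < T P P H) (hl : 0 < l P)
    (hng : ¬ ∃ c₀ : ℝ, 0 < c₀ ∧ ∃ n₀ : ℕ, ∀ n : ℕ, n₀ ≤ n → c₀ * (n : ℝ) ^ 2 ≤ h0 (P ^ n) 1)
    (hF : ∀ x : F, ∃ (m : ℕ) (a b : K), Sec (P ^ m) 1 a ∧ Sec (P ^ m) 1 b ∧ b ≠ 0 ∧ algebraMap F K x * b = a)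
    (hFr : ∀ (m : ℕ) (a b : K), Sec (P ^ m) 1 a → Sec (P ^ m) 1 b → b ≠ 0 → ∃ x : F, algebraMap F K x = a / b)
    {r : ℕ} (hr1 : 1 ≤ r) {b₀ : K} (hb₀ : b₀ ≠ 0) (hsb : Sec (P ^ r) 1 b₀) (φ : (bcM Y hbF).kap z')
    (hφ : Sec (resD (isVar_bc hY hgY hbF) z' (bcD hY hgY hbF (ψ (Q * H)) *
      prin (bcM Y hbF) (gsec K' t s) (gsec_ne hbc hs gX))) 1 φ) :
    ∃ (j : ℕ) (f : K'), Sec ((bcD hY hgY hbF (ψ (P ^ r) * prin Y b₀ hb₀)) ^ j *
        (bcD hY hgY hbF (ψ (Q * H)) * prin (bcM Y hbF) (gsec K' t s) (gsec_ne hbc hs gX))) 1 f ∧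
      (bcM Y hbF).rs z' (f * (bcD hY hgY hbF (ψ (Q * H)) *
        prin (bcM Y hbF) (gsec K' t s) (gsec_ne hbc hs gX)).eq z') = φ := by
  classical
  obtain ⟨e, he, hO, hek⟩ := idn_full hgX hgY' hbc hbF hs hsY z hz hq z' hz' hq'
  have htt : ∀ i, algebraMap F' K' (algebraMap k' F' (t i)) = algebraMap k' K' (t i) := fun i => by
    rw [← IsScalarTower.algebraMap_apply k' F' K']
  have hgz : Gen X z.x := by rwa [hz]
  obtain ⟨n, b, a, h1, h2, h4, h5, h6⟩ := h1_z h hr hH hs hf hbc hbF htt hgX z hz hq hQ hTQ hQ' hP h3 hPP hl hng hF hr1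
    (e.symm φ) (fun p hp => by
      by_contra hcon
      push Not at hcon
      apply hp
      have h7 := hor_T h.var h.gen hY hgY hc hbc hbF hgz hcz e he p (fun b => by
        have h8 : algebraMap F' K' b ∈ (bcM X hbc).O z := (hO _).2 (((bcM Y hbF).O z').algebraMap_mem b)
        have h9 := he _ h8
        rw [rs_alg (X := bcM Y hbF) z' b] at h9
        rw [← h9, e.symm_apply_apply]
        exact hcon b) (hψ (Q * H)) (gsec_ne hbc hs gX) hφ
      have h8 : resD (isVar_bc h.var h.gen hbc) z (bcD h.var h.gen hbc (Q * H) *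
          prin (bcM X hbc) (gsec K' t s) (gsec_ne hbc hs gX)) = resD (isVar_bc h.var h.gen hbc) z (bcD h.var h.gen hbc (Q * H)) := by
        rw [map_mul, resD_prin, mul_one]
      rw [h8] at h7
      exact h7)
  obtain ⟨γ, hγ⟩ : ∃ γ, γ = gsec K' t s := ⟨_, rfl⟩
  have hγ0 : γ ≠ 0 := by
    rw [hγ]
    exact gsec_ne hbc hs gX
  -- the section `b` is `b₀ ^ n` times a constant
  have hbn : b₀ ^ n ≠ 0 := pow_ne_zero _ hb₀
  have hsbn : Sec (P ^ (n * r)) 1 (b₀ ^ n) := by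
    intro x
    have h7 := hsb x
    rw [pow_one] at h7
    have h8 := pow_mem h7 n
    rw [pow_one, mul_comm n r, pow_mul, pow_eq]
    rwa [mul_pow] at h8
  obtain ⟨x, hx⟩ := sec_prop (F := F) (F' := F') h.var h.gen hbc hbn (fun a ha => hFr _ a _ ha hsbn hbn)
    (b := b) (by rw [map_pow]; exact h1)
  have hx0 : x ≠ 0 := by
    intro h7
    rw [h7, map_zero] at hx
    exact div_ne_zero h2 ((map_ne_zero (algebraMap K K')).2 hbn) hx.symm
  -- the section `a`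
  have h7 : Sec (bcD h.var h.gen hbc (P ^ (n * r) * (Q * H))) 1 (a * γ) := by
    intro w
    have h8 := h4 w
    rw [pow_one] at h8 ⊢
    have h9 : a * ((bcD h.var h.gen hbc P) ^ (n * r) * (bcD h.var h.gen hbc Q * (bcD h.var h.gen hbc H *
        prin (bcM X hbc) (gsec K' t s) (gsec_ne hbc hs gX)))).eq w = a * γ * (bcD h.var h.gen hbc (P ^ (n * r) * (Q * H))).eq w := by
      rw [map_mul, map_mul, map_pow, mul_eq, mul_eq, mul_eq, mul_eq, mul_eq, hγ]
      change a * (_ * (_ * (_ * gsec K' t s))) = _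
      ring
    rwa [h9] at h8
  have hz1 : (bcD hY hgY hbF (ψ (Q * H)) * prin (bcM Y hbF) (gsec K' t s) (gsec_ne hbc hs gX)).eq z' =
      (bcD h.var h.gen hbc Q * (bcD h.var h.gen hbc H * prin (bcM X hbc) (gsec K' t s) (gsec_ne hbc hs gX))).eq z := by
    change algebraMap K K' ((ψ (Q * H)).eq z'.x) * gsec K' t s =
      algebraMap K K' (Q.eq z.x) * (algebraMap K K' (H.eq z.x) * gsec K' t s)
    rw [hψ, hcz, mul_eq, map_mul, mul_assoc]
  refine ⟨n, a / b, fun y => ?_, ?_⟩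
  · rw [pow_one]
    have h8 := sec_up h.var h.gen hc hbc hbF _ h7 (y : BP Y σ)
    have h9 : algebraMap F' K' x⁻¹ ∈ bcO hbF y := (bcO hbF y).algebraMap_mem _
    have h10 := mul_mem h9 h8
    have h11 : a / b * ((bcD hY hgY hbF (ψ (P ^ r) * prin Y b₀ hb₀)) ^ n *
        (bcD hY hgY hbF (ψ (Q * H)) * prin (bcM Y hbF) (gsec K' t s) (gsec_ne hbc hs gX))).eq y =
        algebraMap F' K' x⁻¹ * (a * γ * algebraMap K K' ((P ^ (n * r) * (Q * H)).eq (ct y.x))) := by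
      rw [mul_eq, pow_eq, map_inv₀, hx]
      change a / b * (algebraMap K K' ((ψ (P ^ r)).eq y.x * b₀) ^ n * (algebraMap K K' ((ψ (Q * H)).eq y.x) * gsec K' t s)) = _
      rw [hψ, hψ, ← hγ, mul_eq (P ^ (n * r)), mul_comm n r, pow_mul P, pow_eq (P ^ r), map_mul, map_mul, map_pow, map_pow, mul_pow]
      have h12 : algebraMap K K' b₀ ^ n ≠ 0 := pow_ne_zero _ ((map_ne_zero (algebraMap K K')).2 hb₀)
      field_simp
    have h12 : a / b * ((bcD hY hgY hbF (ψ (P ^ r) * prin Y b₀ hb₀)) ^ n *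
        (bcD hY hgY hbF (ψ (Q * H)) * prin (bcM Y hbF) (gsec K' t s) (gsec_ne hbc hs gX))).eq y ∈ bcO hbF y := by
      rw [h11]
      exact h10
    exact h12
  · rw [hz1, ← he _ h5, h6, e.apply_symm_apply]

end Pool.Agent.H24.AB
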