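import Pool.Agent.H24.AB.H1c

/-!
# [H24 AB H1g] ABUNDANCE (MP_e49dc9_ag): nonzero sections of `m P + Q`

`ex_sec`: `P` nef, `T(P,P,P) = 0 < T(P,P,H)`, `0 < l(P)`, `Q` numerically trivial: `P ^ m * Q` has a nonzero section for all large `m`.
-/

set_option autoImplicit false

namespace Pool.Agent.H24.AB

open Pool.Agent.H54.RV Pool.Agent.H83.TU Pool.Agent.H83.TK
open Pool.Agent.H24.VP (RR Sf Nf)

variable {k K : Type} [Field k] [Field K] [Algebra k K] {X : Mod k K}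
  {T : Cart X → Cart X → Cart X → ℝ} {l : Cart X → ℝ} {c : ℝ}

theorem ex_sec [CharZero k] [T0Space X.P] (h : Hyp X) (hr : RR T l c) {H P : Cart X} (hH : Ample H)
    (hP : ∀ B : Cart X, Ample B → Ample (B * P)) (h3 : T P P P = 0) (hPP : 0 < T P P H) (hl : 0 < l P)
    {Q : Cart X} (hQ : ∀ B : Cart X, Ample B → Ample (B * Q)) (hTQ : ∀ U V, T Q U V = 0) :
    ∃ m₀ : ℕ, ∀ m, m₀ ≤ m → ∃ b : K, b ≠ 0 ∧ Sec (P ^ m * Q) 1 b := by
  obtain ⟨C, n₀, hn⟩ := h0_low h hr hH hP h3 hPP hQ hTQ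
  obtain ⟨n₁, hn₁⟩ := exists_nat_gt (C / l P)
  rw [div_lt_iff₀ hl] at hn₁
  refine ⟨n₀ + n₁, fun m hm => ?_⟩
  have h1 := hn m (by omega)
  have h2 : (n₁ : ℝ) * l P ≤ m * l P :=
    mul_le_mul_of_nonneg_right (by exact_mod_cast (show n₁ ≤ m by omega)) hl.le
  have h4 : (0 : ℝ) < h0 (P ^ m * Q) 1 := by linarith
  have h5 : 0 < h0 (P ^ m * Q) 1 := by exact_mod_cast h4
  have hfd : FiniteDimensional k (secL (P ^ m * Q) 1) := Pool.Agent.H24.TK.fd h.var h.gen hH _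
  have h6 : 0 < Module.finrank k (secL (P ^ m * Q) 1) := h5
  obtain ⟨v, hv⟩ := Module.finrank_pos_iff_exists_ne_zero.1 h6
  exact ⟨v.1, fun h0 => hv (Subtype.ext h0), v.2⟩

end Pool.Agent.H24.AB
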