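import Pool.Agent.H24.AB.Defs

/-!
# Module Om: mean values of `k^ω(m)`

PROOFS. `tw_mul`: `(a b).primeFactors = a.primeFactors ∪ b.primeFactors` (`Nat.primeFactors_mul`), `card_union_le`, `k ≥ 1`; also if `a b = 0`
(then the left side is `k^0 = 1`).
`tw_succ`: subsets `T` of `m.primeFactors` give divisors `∏_{p ∈ T} p` of `m`, different ones for different `T`, with `primeFactors = T`:
`∑_{d ∣ m} k^ω(d) ≥ ∑_{T ⊆ P} k^|T| = (k+1)^|P|` (`Finset.sum_pow_mul_eq_add_pow` or `Finset.prod_one_add`).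
`tw_sum`: induction on `k`. `k = 0`: `0^ω(m) = 0` unless `m = 1` (for `1 ≤ m`), so the sum is `≤ 1`. Step: `∑_m (k+1)^ω(m)/m ≤ ∑_m ∑_{d ∣ m} k^ω(d)/m`,
`m = d m'`: `≤ (∑_{d ≤ Y} k^ω(d)/d) (∑_{m' ≤ Y} 1/m') ≤ (1 + log Y)^k (1 + log Y)` (`harmonic_le_one_add_log`). For `Y = 0` both sides: `0 ≤ 1`.
-/

set_option autoImplicit false

namespace Pool.Agent.H24.AB

open Finset

theorem tw_mul (k a b : ℕ) (hk : 1 ≤ k) : tw k (a * b) ≤ tw k a * tw k b := by
  unfold tw
  rw [← pow_add]
  apply Nat.pow_le_pow_right hk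
  by_cases ha : a = 0
  · subst ha
    simp
  by_cases hb : b = 0
  · subst hb
    simp
  rw [Nat.primeFactors_mul ha hb]
  exact Finset.card_union_le _ _

theorem tw_succ (k m : ℕ) (hm : 1 ≤ m) : tw (k + 1) m ≤ ∑ d ∈ m.divisors, tw k d := by
  classical
  have hm0 : m ≠ 0 := by omega
  have hpf : ∀ T ∈ m.primeFactors.powerset, (∏ p ∈ T, p).primeFactors = T := by
    intro T hT
    rw [Finset.mem_powerset] at hT
    exact Nat.primeFactors_prod (fun p hp => Nat.prime_of_mem_primeFactors (hT hp))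
  have h1 : ∑ T ∈ m.primeFactors.powerset, k ^ T.card = tw (k + 1) m := by
    unfold tw
    have := Finset.prod_add (fun _ : ℕ => k) (fun _ : ℕ => 1) m.primeFactors
    simp only [Finset.prod_const, one_pow, mul_one] at this
    exact this.symm
  have hinj : Set.InjOn (fun T : Finset ℕ => ∏ p ∈ T, p) (m.primeFactors.powerset : Finset (Finset ℕ)) := by
    intro T hT T' hT' h
    have h2 := hpf T hT
    have h3 := hpf T' hT'
    rw [← h2, ← h3]
    exact congrArg Nat.primeFactors h
  rw [← h1]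
  calc ∑ T ∈ m.primeFactors.powerset, k ^ T.card
      = ∑ T ∈ m.primeFactors.powerset, tw k (∏ p ∈ T, p) := by
        refine Finset.sum_congr rfl fun T hT => ?_
        unfold tw
        rw [hpf T hT]
    _ = ∑ d ∈ m.primeFactors.powerset.image (fun T => ∏ p ∈ T, p), tw k d :=
        (Finset.sum_image hinj).symm
    _ ≤ ∑ d ∈ m.divisors, tw k d := by
        apply Finset.sum_le_sum_of_subset
        intro d hd
        rw [Finset.mem_image] at hd
        obtain ⟨T, hT, rfl⟩ := hd
        rw [Finset.mem_powerset] at hT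
        rw [Nat.mem_divisors]
        refine ⟨?_, hm0⟩
        calc ∏ p ∈ T, p ∣ ∏ p ∈ m.primeFactors, p := Finset.prod_dvd_prod_of_subset _ _ _ hT
          _ ∣ m := Nat.prod_primeFactors_dvd m

private theorem log_harm (Y : ℕ) : ∑ m ∈ Icc 1 Y, (1 : ℝ) / m ≤ 1 + Real.log Y := by
  have h := harmonic_le_one_add_log Y
  have h2 : ((harmonic Y : ℚ) : ℝ) = ∑ m ∈ Icc 1 Y, (1 : ℝ) / m := by
    rw [harmonic_eq_sum_Icc]
    push_cast
    refine Finset.sum_congr rfl fun m _ => ?_
    rw [one_div]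
  rwa [h2] at h

theorem tw_sum (k Y : ℕ) : ∑ m ∈ Icc 1 Y, (tw k m : ℝ) / m ≤ (1 + Real.log Y) ^ k := by
  have hlog : 0 ≤ Real.log Y := Real.log_natCast_nonneg Y
  induction k with
  | zero =>
    rw [pow_zero]
    have h1 : ∀ m ∈ Icc 1 Y, (tw 0 m : ℝ) / m ≤ if m = 1 then 1 else 0 := by
      intro m hm
      rw [Finset.mem_Icc] at hm
      split_ifs with h
      · subst h
        simp [tw]
      · have h2 : m.primeFactors.card ≠ 0 := by
          rw [Finset.card_ne_zero, Nat.nonempty_primeFactors]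
          omega
        unfold tw
        rw [zero_pow h2]
        simp
    refine (Finset.sum_le_sum h1).trans ?_
    rw [Finset.sum_ite_eq']
    split_ifs
    · exact le_refl _
    · exact zero_le_one
  | succ k ih =>
    have h1 : ∑ m ∈ Icc 1 Y, (tw (k + 1) m : ℝ) / m ≤
        ∑ m ∈ Icc 1 Y, ∑ d ∈ Icc 1 Y, (if d ∣ m then (tw k d : ℝ) / m else 0) := by
      refine Finset.sum_le_sum fun m hm => ?_
      rw [Finset.mem_Icc] at hm
      rw [← Finset.sum_filter]
      have h2 : (Icc 1 Y).filter (fun d => d ∣ m) = m.divisors := by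
        ext d
        rw [Finset.mem_filter, Finset.mem_Icc, Nat.mem_divisors]
        constructor
        · rintro ⟨_, h⟩
          exact ⟨h, by omega⟩
        · rintro ⟨h, _⟩
          have h3 := Nat.le_of_dvd (by omega) h
          have h4 := Nat.pos_of_dvd_of_pos h (by omega)
          exact ⟨⟨h4, by omega⟩, h⟩
      rw [h2, ← Finset.sum_div]
      have h3 : (tw (k + 1) m : ℝ) ≤ ∑ d ∈ m.divisors, (tw k d : ℝ) := by
        exact_mod_cast tw_succ k m hm.1
      gcongr
    refine h1.trans ?_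
    rw [Finset.sum_comm]
    have h4 : ∀ d ∈ Icc 1 Y, ∑ m ∈ Icc 1 Y, (if d ∣ m then (tw k d : ℝ) / m else 0) ≤
        (tw k d : ℝ) / d * (1 + Real.log Y) := by
      intro d hd
      rw [Finset.mem_Icc] at hd
      have hdpos : (0 : ℝ) < d := by exact_mod_cast (by omega : 0 < d)
      rw [← Finset.sum_filter]
      have h5 : ∑ m ∈ (Icc 1 Y).filter (fun m => d ∣ m), (tw k d : ℝ) / m ≤
          ∑ m ∈ (Icc 1 Y).image (fun m => d * m), (tw k d : ℝ) / m := by
        apply Finset.sum_le_sum_of_subset_of_nonneg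
        · intro m hm
          rw [Finset.mem_filter, Finset.mem_Icc] at hm
          obtain ⟨⟨hm1, hm2⟩, m', rfl⟩ := hm
          rw [Finset.mem_image]
          refine ⟨m', ?_, rfl⟩
          rw [Finset.mem_Icc]
          have h6 : 0 < m' := Nat.pos_of_mul_pos_left (by omega : 0 < d * m')
          exact ⟨h6, le_trans (Nat.le_mul_of_pos_left m' (by omega)) hm2⟩
        · intro m _ _
          positivity
      refine h5.trans ?_
      rw [Finset.sum_image (fun a _ b _ hab => Nat.eq_of_mul_eq_mul_left (by omega : 0 < d) hab)]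
      have h7 : ∀ m ∈ Icc 1 Y, (tw k d : ℝ) / ((d * m : ℕ) : ℝ) = (tw k d : ℝ) / d * (1 / (m : ℝ)) := by
        intro m _
        push_cast
        rw [div_mul_div_comm, mul_one]
      rw [Finset.sum_congr rfl h7, ← Finset.mul_sum]
      exact mul_le_mul_of_nonneg_left (log_harm Y) (by positivity)
    refine (Finset.sum_le_sum h4).trans ?_
    rw [← Finset.sum_mul, pow_succ]
    exact mul_le_mul_of_nonneg_right ih (by linarith)

end Pool.Agent.H24.AB
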