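import Pool.Agent.H24.AB.Wt
import Pool.Agent.H24.AB.Om

/-!
# Module CB: bounds of the coefficients

PROOFS. `cc_nsq`: if a product `lam R d1 * lam R d2 ≠ 0` then `d1, d2` are squarefree (`lam_nsq`), so is their lcm.
`cc_abs`: for squarefree `e` the number of pairs of divisors with lcm `e` is `3^ω(e)`
(`Nat.card_pair_lcm_eq` in Mathlib/Algebra/Order/Antidiag/Nat.lean), `|lam| ≤ 1`; for `e` not squarefree `cc R e = 0`.
`cq_abs`: `|Cq R q| ≤ ∑_{e ≤ R², q ∣ e} tw 3 e/e`, `e = q m`, `tw 3 (q m) ≤ tw 3 q tw 3 m`, `tw_sum`.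
`cq_sum`: `q (Cq R q)² ≤ (tw 3 q)²/q (1 + log R²)^6 = (tw 9 q/q) (1 + log R²)^6`, `tw_sum` with `k = 9`.
-/

set_option autoImplicit false

namespace Pool.Agent.H24.AB

open Finset

private theorem sq_lcm {a b : ℕ} (ha : Squarefree a) (hb : Squarefree b) :
    Squarefree (a.lcm b) := by
  have ha0 : a ≠ 0 := ha.ne_zero
  have hb0 : b ≠ 0 := hb.ne_zero
  rw [Nat.squarefree_iff_factorization_le_one (Nat.lcm_ne_zero ha0 hb0)]
  intro p
  rw [Nat.factorization_lcm ha0 hb0, Finsupp.sup_apply]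
  exact sup_le ((Nat.squarefree_iff_factorization_le_one ha0).1 ha p)
    ((Nat.squarefree_iff_factorization_le_one hb0).1 hb p)

theorem cc_nsq (R e : ℕ) (h : ¬ Squarefree e) : cc R e = 0 := by
  unfold cc
  apply Finset.sum_eq_zero
  rintro ⟨a, b⟩ hz
  rw [Finset.mem_filter] at hz
  by_cases ha : Squarefree a
  · by_cases hb : Squarefree b
    · exfalso
      apply h
      rw [← hz.2]
      exact sq_lcm ha hb
    · simp only
      rw [lam_nsq R b hb, mul_zero]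
  · simp only
    rw [lam_nsq R a ha, zero_mul]

theorem cc_abs (R e : ℕ) (hR : 1 ≤ R) : |cc R e| ≤ tw 3 e := by
  by_cases he : Squarefree e
  · have h1 : |cc R e| ≤
        ∑ z ∈ ((Icc 1 R) ×ˢ (Icc 1 R)).filter (fun z => z.1.lcm z.2 = e), (1 : ℝ) := by
      unfold cc
      refine (Finset.abs_sum_le_sum_abs _ _).trans (Finset.sum_le_sum fun z _ => ?_)
      rw [abs_mul]
      exact mul_le_one₀ (lam_abs R _ hR) (abs_nonneg _) (lam_abs R _ hR)
    refine h1.trans ?_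
    rw [Finset.sum_const, nsmul_eq_mul, mul_one]
    have h2 : (((Icc 1 R) ×ˢ (Icc 1 R)).filter (fun z : ℕ × ℕ => z.1.lcm z.2 = e)).card ≤
        tw 3 e := by
      have h3 := Nat.card_pair_lcm_eq he
      have h4 : ArithmeticFunction.cardDistinctFactors e = e.primeFactors.card := by
        rw [ArithmeticFunction.cardDistinctFactors_apply]
        rfl
      rw [h4] at h3
      unfold tw
      rw [← h3]
      apply Finset.card_le_card
      rintro ⟨a, b⟩ hz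
      rw [Finset.mem_filter] at hz ⊢
      refine ⟨?_, hz.2⟩
      rw [Finset.mem_product, Nat.mem_divisors, Nat.mem_divisors]
      have h5 := hz.2
      simp only at h5
      refine ⟨⟨?_, he.ne_zero⟩, ⟨?_, he.ne_zero⟩⟩
      · rw [← h5]
        exact Nat.dvd_lcm_left a b
      · rw [← h5]
        exact Nat.dvd_lcm_right a b
    exact_mod_cast h2
  · rw [cc_nsq R e he, abs_zero]
    exact Nat.cast_nonneg _

theorem cq_abs (R q : ℕ) (hR : 1 ≤ R) (hq : 1 ≤ q) :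
    |Cq R q| ≤ (tw 3 q : ℝ) / q * (1 + Real.log ((R ^ 2 : ℕ) : ℝ)) ^ 3 := by
  have hqpos : (0 : ℝ) < q := by exact_mod_cast (by omega : 0 < q)
  have h1 : |Cq R q| ≤ ∑ e ∈ (Icc 1 (R ^ 2)).filter (fun e => q ∣ e), (tw 3 e : ℝ) / e := by
    unfold Cq
    refine (Finset.abs_sum_le_sum_abs _ _).trans (Finset.sum_le_sum fun e _ => ?_)
    rw [abs_div, abs_of_nonneg (Nat.cast_nonneg e : (0 : ℝ) ≤ (e : ℝ))]
    exact div_le_div_of_nonneg_right (cc_abs R e hR) (Nat.cast_nonneg e)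
  refine h1.trans ?_
  have h2 : ∑ e ∈ (Icc 1 (R ^ 2)).filter (fun e => q ∣ e), (tw 3 e : ℝ) / e ≤
      ∑ e ∈ (Icc 1 (R ^ 2)).image (fun m => q * m), (tw 3 e : ℝ) / e := by
    apply Finset.sum_le_sum_of_subset_of_nonneg
    · intro e he
      rw [Finset.mem_filter, Finset.mem_Icc] at he
      obtain ⟨⟨he1, he2⟩, m', rfl⟩ := he
      rw [Finset.mem_image]
      refine ⟨m', ?_, rfl⟩
      rw [Finset.mem_Icc]
      have h6 : 0 < m' := Nat.pos_of_mul_pos_left (by omega : 0 < q * m')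
      exact ⟨h6, le_trans (Nat.le_mul_of_pos_left m' (by omega)) he2⟩
    · intro m _ _
      positivity
  refine h2.trans ?_
  rw [Finset.sum_image (fun a _ b _ hab => Nat.eq_of_mul_eq_mul_left (by omega : 0 < q) hab)]
  have h3 : ∀ m ∈ Icc 1 (R ^ 2), (tw 3 (q * m) : ℝ) / ((q * m : ℕ) : ℝ) ≤
      (tw 3 q : ℝ) / q * ((tw 3 m : ℝ) / m) := by
    intro m _
    rw [div_mul_div_comm]
    push_cast
    have h4 : (tw 3 (q * m) : ℝ) ≤ (tw 3 q : ℝ) * (tw 3 m : ℝ) := by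
      exact_mod_cast tw_mul 3 q m (by norm_num)
    exact div_le_div_of_nonneg_right h4 (by positivity)
  refine (Finset.sum_le_sum h3).trans ?_
  rw [← Finset.mul_sum]
  exact mul_le_mul_of_nonneg_left (tw_sum 3 (R ^ 2)) (by positivity)

theorem cq_sum (R : ℕ) (hR : 1 ≤ R) :
    ∑ q ∈ Icc 2 (R ^ 2), (q : ℝ) * (Cq R q) ^ 2 ≤ (1 + Real.log ((R ^ 2 : ℕ) : ℝ)) ^ 15 := by
  have hlog : 0 ≤ Real.log ((R ^ 2 : ℕ) : ℝ) := Real.log_natCast_nonneg _
  set L : ℝ := 1 + Real.log ((R ^ 2 : ℕ) : ℝ) with hL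
  have hL0 : 0 ≤ L := by linarith
  have h1 : ∀ q ∈ Icc 2 (R ^ 2), (q : ℝ) * (Cq R q) ^ 2 ≤ (tw 9 q : ℝ) / q * L ^ 6 := by
    intro q hq
    rw [Finset.mem_Icc] at hq
    have hqpos : (0 : ℝ) < q := by exact_mod_cast (by omega : 0 < q)
    have h2 := cq_abs R q hR (by omega)
    rw [← hL] at h2
    have h3 : (Cq R q) ^ 2 ≤ ((tw 3 q : ℝ) / q * L ^ 3) ^ 2 := by
      rw [← sq_abs (Cq R q)]
      exact pow_le_pow_left₀ (abs_nonneg _) h2 2
    have h4 : (tw 9 q : ℝ) = (tw 3 q : ℝ) ^ 2 := by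
      unfold tw
      push_cast
      rw [← pow_mul, mul_comm _ 2, pow_mul]
      norm_num
    calc (q : ℝ) * (Cq R q) ^ 2 ≤ (q : ℝ) * ((tw 3 q : ℝ) / q * L ^ 3) ^ 2 :=
          mul_le_mul_of_nonneg_left h3 hqpos.le
      _ = (tw 9 q : ℝ) / q * L ^ 6 := by
          rw [h4]
          field_simp
  refine (Finset.sum_le_sum h1).trans ?_
  rw [← Finset.sum_mul]
  have h5 : ∑ q ∈ Icc 2 (R ^ 2), (tw 9 q : ℝ) / q ≤ L ^ 9 := by
    refine le_trans ?_ (tw_sum 9 (R ^ 2))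
    apply Finset.sum_le_sum_of_subset_of_nonneg
    · apply Finset.Icc_subset_Icc (by norm_num) le_rfl
    · intro m _ _
      positivity
  calc (∑ q ∈ Icc 2 (R ^ 2), (tw 9 q : ℝ) / q) * L ^ 6 ≤ L ^ 9 * L ^ 6 :=
        mul_le_mul_of_nonneg_right h5 (by positivity)
    _ = L ^ 15 := by ring

end Pool.Agent.H24.AB
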