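import Pool.Agent.H5.Short.Cover

/-!
# Two small lemmas (copies of lemmas in H5/Short/Main and H5/Short/Lower, to keep the import chain short)
-/

set_option autoImplicit false

namespace Pool.Agent.H24.AB

open Finset Pool.Agent.H5.Short

theorem count_eq (n : ℕ) (H : ℝ) (hH : 0 ≤ H) :
    ((Ioc n ⌊(n : ℝ) + H⌋₊).filter Nat.Prime).card = pc n ⌊H⌋₊ := by
  unfold pc
  rw [add_comm (n : ℝ) H, Nat.floor_add_natCast hH, add_comm ⌊H⌋₊ n]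

theorem second_log : ∃ C : ℝ, 0 < C ∧ ∀ X m : ℕ, 2 ≤ X → Real.log ((3 * X : ℕ) : ℝ) ≤ m →
    m ≤ 3 * X →
    ∑ n ∈ range (3 * X), (pc n m : ℝ) ^ 2 ≤ C * ((m : ℝ) ^ 2 * X / (Real.log X) ^ 2) := by
  obtain ⟨C, hC, h⟩ := second
  refine ⟨6 * C, by positivity, ?_⟩
  intro X m hX hm hm3
  have hXR : (2 : ℝ) ≤ X := by exact_mod_cast hX
  have hX0 : (0 : ℝ) < X := by linarith
  have hlog : 0 < Real.log X := Real.log_pos (by linarith)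
  have hlog3 : Real.log X ≤ Real.log ((3 * X : ℕ) : ℝ) := by
    push_cast
    exact Real.log_le_log hX0 (by linarith)
  have hl3 : 0 < Real.log ((3 * X : ℕ) : ℝ) := by linarith
  have hmR : (0 : ℝ) < m := by linarith
  have hm1 : 1 ≤ m := by exact_mod_cast (by exact_mod_cast hmR : 0 < m)
  refine (h (3 * X) m (by omega) hm1 hm3).trans ?_
  have h1 : (m : ℝ) * ((3 * X : ℕ) : ℝ) / Real.log ((3 * X : ℕ) : ℝ) ≤
      (m : ℝ) ^ 2 * ((3 * X : ℕ) : ℝ) / (Real.log ((3 * X : ℕ) : ℝ)) ^ 2 := by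
    rw [div_le_div_iff₀ hl3 (by positivity)]
    have h2 : (0 : ℝ) ≤ ((3 * X : ℕ) : ℝ) := Nat.cast_nonneg _
    have h3 : (0 : ℝ) ≤ (m : ℝ) * ((3 * X : ℕ) : ℝ) * Real.log ((3 * X : ℕ) : ℝ) := by positivity
    nlinarith
  have h4 : (m : ℝ) ^ 2 * ((3 * X : ℕ) : ℝ) / (Real.log ((3 * X : ℕ) : ℝ)) ^ 2 ≤
      3 * ((m : ℝ) ^ 2 * X / (Real.log X) ^ 2) := by
    push_cast
    rw [show 3 * ((m : ℝ) ^ 2 * X / (Real.log X) ^ 2) = (m : ℝ) ^ 2 * (3 * X) / (Real.log X) ^ 2 by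
      ring]
    push_cast at hlog3
    gcongr
  calc C * ((m : ℝ) * ((3 * X : ℕ) : ℝ) / Real.log ((3 * X : ℕ) : ℝ) +
        (m : ℝ) ^ 2 * ((3 * X : ℕ) : ℝ) / (Real.log ((3 * X : ℕ) : ℝ)) ^ 2)
      ≤ C * (3 * ((m : ℝ) ^ 2 * X / (Real.log X) ^ 2) +
        3 * ((m : ℝ) ^ 2 * X / (Real.log X) ^ 2)) := by
        gcongr
        exact h1.trans h4
    _ = _ := by ring

end Pool.Agent.H24.AB
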