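import Pool.Agent.H24.AB.ExcOne

/-!
# Module Exc: all scales at once

PROOF. May assume `δ ≤ 1` (monotone). `A = 20 + B`, `τ = δ/40`. `C, X1` from `exc_one (δ/2) A`. Grid `g_j = ⌈(1+τ)^j⌉₊`. Let `n` be exceptional with
`h`, `(log X)^A ≤ h ≤ 2X`. Let `j` be least with `h ≤ (1+τ)^j`; `h ≤ g_j ≤ (1+τ) h + 1 ≤ (1 + 2τ) h ≤ 3 X` (large `X`: `h ≥ 1/τ`), `g_j ≥ (log X)^A`,
`pc n h ≤ pc n g_j`. `(4+δ) h/log (X h) ≥ (4+δ)/(1+2τ) g_j/log (X g_j) ≥ (4 + δ/2) g_j/log (X g_j)`. So `n` is in the set of `exc_one` for `g_j`, and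
`j ≤ J = ⌈log (3X)/log (1+τ)⌉₊ ≤ C_τ log X`. Union bound: `card ≤ (J + 1) C X (log X)^(17-A) ≤ C' X (log X)^(18 - A) = C' X (log X)^(-2-B) ≤ X/(log X)^B`.
-/

set_option autoImplicit false

namespace Pool.Agent.H24.AB

open Finset Pool.Agent.H5.Short

open Classical in
theorem exc (δ B : ℝ) (hδ : 0 < δ) (hB : 0 < B) : ∃ A : ℝ, 0 < A ∧ ∃ X0 : ℕ, ∀ X : ℕ, X0 ≤ X →
    (((Ioc X (2 * X)).filter (fun n => ∃ h : ℕ, (Real.log X) ^ A ≤ h ∧ h ≤ 2 * X ∧
      (4 + δ) * (h / Real.log (X * h)) < (pc n h : ℝ))).card : ℝ) ≤ X / (Real.log X) ^ B := by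
  obtain ⟨δ1, hδ1⟩ : ∃ δ1 : ℝ, δ1 = min δ 1 := ⟨_, rfl⟩
  have hd0 : 0 < δ1 := by rw [hδ1]; exact lt_min hδ one_pos
  have hd1 : δ1 ≤ 1 := by rw [hδ1]; exact min_le_right _ _
  have hdδ : δ1 ≤ δ := by rw [hδ1]; exact min_le_left _ _
  obtain ⟨C, hC, X1, hone⟩ := exc_one (δ1 / 2) (by positivity) (by linarith) (20 + B) (by positivity)
  obtain ⟨τ, hτ⟩ : ∃ τ : ℝ, τ = δ1 / 40 := ⟨_, rfl⟩
  have hτ0 : 0 < τ := by rw [hτ]; positivity
  have hτ1 : τ ≤ 1 / 40 := by rw [hτ]; linarith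
  have hlτ : 0 < Real.log (1 + τ) := Real.log_pos (by linarith)
  obtain ⟨C2, hC2⟩ : ∃ C2 : ℝ, C2 = 2 / Real.log (1 + τ) + 1 := ⟨_, rfl⟩
  have hC20 : 0 < C2 := by rw [hC2]; positivity
  have hlogtend : Filter.Tendsto (fun n : ℕ => Real.log (n : ℝ)) Filter.atTop Filter.atTop :=
    Real.tendsto_log_atTop.comp tendsto_natCast_atTop_atTop
  obtain ⟨X2, hX2⟩ := Filter.eventually_atTop.mp ((hlogtend.eventually_ge_atTop 1).and
    ((hlogtend.eventually_ge_atTop (1 / τ)).and (hlogtend.eventually_ge_atTop (C2 * C + 1))))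
  refine ⟨20 + B, by positivity, max (max X1 X2) 2, ?_⟩
  intro X hX
  have hXX1 : X1 ≤ X := le_trans (le_trans (le_max_left _ _) (le_max_left _ _)) hX
  have hXX2 : X2 ≤ X := le_trans (le_trans (le_max_right _ _) (le_max_left _ _)) hX
  have hX2' : 2 ≤ X := le_trans (le_max_right _ _) hX
  obtain ⟨hlog1, hlogτ, hlogC⟩ := hX2 X hXX2
  have hXR : (2 : ℝ) ≤ X := by exact_mod_cast hX2'
  have hX0 : (0 : ℝ) < X := by linarith
  have hlog0 : 0 < Real.log X := by linarith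
  have hlogA : Real.log X ≤ (Real.log X) ^ (20 + B) := by
    calc Real.log X = (Real.log X) ^ (1 : ℝ) := (Real.rpow_one _).symm
      _ ≤ _ := Real.rpow_le_rpow_of_exponent_le hlog1 (by linarith)
  obtain ⟨J, hJ⟩ : ∃ J : ℕ, J = ⌊2 * Real.log X / Real.log (1 + τ)⌋₊ := ⟨_, rfl⟩
  obtain ⟨g, hg⟩ : ∃ g : ℕ → ℕ, ∀ j, g j = ⌈(1 + τ) ^ (j + 1)⌉₊ :=
    ⟨fun j => ⌈(1 + τ) ^ (j + 1)⌉₊, fun _ => rfl⟩
  obtain ⟨S, hS⟩ : ∃ S : ℕ → Finset ℕ, ∀ k, S k = (Ioc X (2 * X)).filter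
      (fun n => (4 + δ1 / 2) * (k / Real.log (X * k)) < (pc n k : ℝ)) :=
    ⟨fun k => (Ioc X (2 * X)).filter
      (fun n => (4 + δ1 / 2) * (k / Real.log (X * k)) < (pc n k : ℝ)), fun _ => rfl⟩
  have hSone : ∀ k : ℕ, (Real.log X) ^ (20 + B) ≤ k → k ≤ 3 * X →
      ((S k).card : ℝ) ≤ C * X * (Real.log X) ^ (17 - (20 + B)) := by
    intro k hk1 hk2
    have h1 := hone X hXX1 k hk1 hk2
    rw [hS]
    exact h1
  set P : ℕ → Prop := fun j => (Real.log X) ^ (20 + B) ≤ (g j : ℝ) ∧ g j ≤ 3 * X with hP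
  have hsub : (Ioc X (2 * X)).filter (fun n => ∃ h : ℕ, (Real.log X) ^ (20 + B) ≤ h ∧ h ≤ 2 * X ∧
      (4 + δ) * (h / Real.log (X * h)) < (pc n h : ℝ)) ⊆
      ((range (J + 1)).filter P).biUnion (fun j => S (g j)) := by
    intro n hn
    rw [mem_filter] at hn
    obtain ⟨hnI, h, hA, hh2, hpc⟩ := hn
    have hhR : (h : ℝ) ≤ 2 * X := by exact_mod_cast hh2
    have hhτ : 1 / τ ≤ h := hlogτ.trans (hlogA.trans hA)
    have hhτ' : 1 ≤ τ * h := by
      rw [div_le_iff₀ hτ0] at hhτ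
      linarith
    have hh1 : (1 : ℝ) ≤ h := hlog1.trans (hlogA.trans hA)
    have hh0 : (0 : ℝ) < h := by linarith
    obtain ⟨j, hj1, hj2⟩ := exists_nat_pow_near hh1 (show 1 < 1 + τ by linarith)
    have hgh : (h : ℝ) ≤ g j := by
      rw [hg]
      exact hj2.le.trans (Nat.le_ceil _)
    have hgh' : h ≤ g j := by exact_mod_cast hgh
    have hgup : (g j : ℝ) ≤ (1 + 2 * τ) * h := by
      have h1 : (g j : ℝ) < (1 + τ) ^ (j + 1) + 1 := by
        rw [hg]
        exact Nat.ceil_lt_add_one (by positivity)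
      have h2 : (1 + τ) ^ (j + 1) ≤ (1 + τ) * h := by
        rw [pow_succ, mul_comm]
        exact mul_le_mul_of_nonneg_left hj1 (by linarith)
      nlinarith
    have hg3 : g j ≤ 3 * X := by
      have h1 : (g j : ℝ) ≤ 3 * X := by nlinarith
      exact_mod_cast h1
    have hjJ : j < J + 1 := by
      have h1 : (j : ℝ) * Real.log (1 + τ) ≤ 2 * Real.log X := by
        rw [← Real.log_pow]
        calc Real.log ((1 + τ) ^ j) ≤ Real.log (2 * X) :=
              Real.log_le_log (by positivity) (hj1.trans hhR)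
          _ ≤ Real.log (X * X) := Real.log_le_log (by positivity) (by nlinarith)
          _ = 2 * Real.log X := by rw [Real.log_mul hX0.ne' hX0.ne']; ring
      have h2 : (j : ℝ) ≤ 2 * Real.log X / Real.log (1 + τ) := by
        rw [le_div_iff₀ hlτ]
        exact h1
      rw [hJ]
      exact Nat.lt_succ_of_le (Nat.le_floor h2)
    rw [mem_biUnion]
    refine ⟨j, mem_filter.mpr ⟨mem_range.mpr hjJ, hA.trans hgh, hg3⟩, ?_⟩
    rw [hS, mem_filter]
    refine ⟨hnI, ?_⟩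
    have hpcm : (pc n h : ℝ) ≤ pc n (g j) := by
      have h1 : pc n h ≤ pc n (g j) := by
        unfold pc
        apply card_le_card
        apply filter_subset_filter
        exact Ioc_subset_Ioc_right (by omega)
      exact_mod_cast h1
    have hXh : (2 : ℝ) ≤ X * h := by nlinarith
    have hlogh : 0 < Real.log (X * h) := Real.log_pos (by linarith)
    have hloghg : Real.log (X * h) ≤ Real.log (X * g j) :=
      Real.log_le_log (by positivity) (mul_le_mul_of_nonneg_left hgh hX0.le)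
    have h3 : (g j : ℝ) / Real.log (X * g j) ≤ (1 + 2 * τ) * h / Real.log (X * h) :=
      div_le_div₀ (by positivity) hgup hlogh hloghg
    have h4 : (4 + δ1 / 2) * (1 + 2 * τ) ≤ 4 + δ := by
      rw [hτ]
      nlinarith
    have h5 : 0 < (h : ℝ) / Real.log (X * h) := by positivity
    calc (4 + δ1 / 2) * (g j / Real.log (X * g j)) ≤
          (4 + δ1 / 2) * ((1 + 2 * τ) * h / Real.log (X * h)) :=
            mul_le_mul_of_nonneg_left h3 (by positivity)
      _ = ((4 + δ1 / 2) * (1 + 2 * τ)) * (h / Real.log (X * h)) := by ring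
      _ ≤ (4 + δ) * (h / Real.log (X * h)) := mul_le_mul_of_nonneg_right h4 h5.le
      _ < pc n h := hpc
      _ ≤ _ := hpcm
  have hcard : (((Ioc X (2 * X)).filter (fun n => ∃ h : ℕ, (Real.log X) ^ (20 + B) ≤ h ∧
      h ≤ 2 * X ∧ (4 + δ) * (h / Real.log (X * h)) < (pc n h : ℝ))).card : ℝ) ≤
      ((J : ℝ) + 1) * (C * X * (Real.log X) ^ (17 - (20 + B))) := by
    have h1 := (card_le_card hsub).trans card_biUnion_le
    have h2 : ((∑ j ∈ (range (J + 1)).filter P, (S (g j)).card : ℕ) : ℝ) ≤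
        ∑ j ∈ (range (J + 1)).filter P, C * X * (Real.log X) ^ (17 - (20 + B)) := by
      push_cast
      apply sum_le_sum
      intro j hj
      have h3 := (mem_filter.mp hj).2
      exact hSone (g j) h3.1 h3.2
    have h4 : ∑ j ∈ (range (J + 1)).filter P, C * X * (Real.log X) ^ (17 - (20 + B)) ≤
        ((J : ℝ) + 1) * (C * X * (Real.log X) ^ (17 - (20 + B))) := by
      rw [sum_const, nsmul_eq_mul]
      apply mul_le_mul_of_nonneg_right _ (by positivity)
      have h5 := card_filter_le (range (J + 1)) P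
      rw [card_range] at h5
      exact_mod_cast h5
    exact le_trans (le_trans (by exact_mod_cast h1) h2) h4
  refine hcard.trans ?_
  have hJ1 : (J : ℝ) + 1 ≤ C2 * Real.log X := by
    have h1 : (J : ℝ) ≤ 2 * Real.log X / Real.log (1 + τ) := by
      rw [hJ]
      exact Nat.floor_le (by positivity)
    calc (J : ℝ) + 1 ≤ 2 * Real.log X / Real.log (1 + τ) + Real.log X := by linarith
      _ = _ := by rw [hC2]; ring
  have hpow : (Real.log X) ^ (17 - (20 + B)) = (Real.log X) ^ (-3 : ℝ) * ((Real.log X) ^ B)⁻¹ := by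
    rw [← Real.rpow_neg hlog0.le, ← Real.rpow_add hlog0]
    congr 1
    ring
  have hpow3 : (Real.log X) ^ (-3 : ℝ) = ((Real.log X) ^ 3)⁻¹ := by
    rw [Real.rpow_neg hlog0.le]
    congr 1
    exact_mod_cast Real.rpow_natCast (Real.log X) 3
  calc ((J : ℝ) + 1) * (C * X * (Real.log X) ^ (17 - (20 + B))) ≤
        (C2 * Real.log X) * (C * X * (Real.log X) ^ (17 - (20 + B))) :=
          mul_le_mul_of_nonneg_right hJ1 (by positivity)
    _ = (C2 * C * ((Real.log X) * ((Real.log X) ^ 3)⁻¹)) * (X / (Real.log X) ^ B) := by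
        rw [hpow, hpow3]
        ring
    _ ≤ 1 * (X / (Real.log X) ^ B) := by
        apply mul_le_mul_of_nonneg_right _ (by positivity)
        have h1 : (Real.log X) * ((Real.log X) ^ 3)⁻¹ = 1 / (Real.log X) ^ 2 := by
          field_simp
        rw [h1, mul_one_div, div_le_one (by positivity)]
        nlinarith
    _ = _ := one_mul _

end Pool.Agent.H24.AB
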