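import Pool.Agent.H24.AB.Quad
import Pool.Agent.H5.Short.Cover

/-!
# Module Maj: the majorant

PROOF. `sq_expand`: expand the square; pairs `(d1,d2)` of divisors of `m` (both `≤ R`) are the pairs with `lcm ∣ m`; group by `e = lcm ≤ R²`.
`majorant`: for `m ∈ (n, n+h]` the square is `≥ 0`, and `= 1` if `m` is prime (the divisors `≤ R ≤ n < m` of `m` are `{1}`, `lam_one`). So
`pc n h ≤ ∑_{m} (∑_{d ∣ m} λ_d)² = ∑_{e ≤ R²} cc R e * mc e n h = h ∑_e cc R e/e + Er R n h` (`cc_sum`).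
-/

set_option autoImplicit false

namespace Pool.Agent.H24.AB

open Finset Pool.Agent.H5.Short

theorem sq_expand (R m : ℕ) (hm : 1 ≤ m) :
    (∑ d ∈ (Icc 1 R).filter (fun d => d ∣ m), lam R d) ^ 2 =
      ∑ e ∈ (Icc 1 (R ^ 2)).filter (fun e => e ∣ m), cc R e := by
  classical
  rw [sq, sum_mul_sum, ← sum_product']
  have hmaps : ∀ z ∈ ((Icc 1 R).filter (fun d => d ∣ m)) ×ˢ ((Icc 1 R).filter (fun d => d ∣ m)),
      z.1.lcm z.2 ∈ (Icc 1 (R ^ 2)).filter (fun e => e ∣ m) := by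
    intro z hz
    rw [mem_product, mem_filter, mem_filter, mem_Icc, mem_Icc] at hz
    obtain ⟨⟨⟨h1, h2⟩, h3⟩, ⟨h4, h5⟩, h6⟩ := hz
    rw [mem_filter, mem_Icc]
    refine ⟨⟨Nat.lcm_pos h1 h4, ?_⟩, Nat.lcm_dvd h3 h6⟩
    calc z.1.lcm z.2 ≤ z.1 * z.2 := Nat.le_of_dvd (Nat.mul_pos h1 h4) (Nat.lcm_dvd_mul _ _)
      _ ≤ R * R := Nat.mul_le_mul h2 h5
      _ = R ^ 2 := by ring
  rw [← sum_fiberwise_of_maps_to hmaps]
  refine sum_congr rfl ?_
  intro e he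
  rw [mem_filter] at he
  unfold cc
  refine sum_congr ?_ (fun _ _ => rfl)
  ext z
  simp only [mem_filter, mem_product]
  constructor
  · rintro ⟨⟨⟨h1, _⟩, h2, _⟩, h3⟩
    exact ⟨⟨h1, h2⟩, h3⟩
  · rintro ⟨⟨h1, h2⟩, h3⟩
    refine ⟨⟨⟨h1, ?_⟩, h2, ?_⟩, h3⟩
    · exact (Nat.dvd_lcm_left z.1 z.2).trans (h3 ▸ he.2)
    · exact (Nat.dvd_lcm_right z.1 z.2).trans (h3 ▸ he.2)

theorem majorant (R n h : ℕ) (hR : 1 ≤ R) (hRn : R ≤ n) :
    (pc n h : ℝ) ≤ (h : ℝ) / Ss R + Er R n h := by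
  classical
  have h1 : (pc n h : ℝ) ≤ ∑ m ∈ Ioc n (n + h),
      (∑ d ∈ (Icc 1 R).filter (fun d => d ∣ m), lam R d) ^ 2 := by
    have h2 : (pc n h : ℝ) = ∑ m ∈ (Ioc n (n + h)).filter Nat.Prime, (1 : ℝ) := by
      rw [sum_const, nsmul_eq_mul, mul_one]
      rfl
    rw [h2]
    refine le_trans ?_ (sum_le_sum_of_subset_of_nonneg (filter_subset Nat.Prime _)
      (fun m _ _ => sq_nonneg _))
    refine sum_le_sum ?_
    intro m hm
    rw [mem_filter, mem_Ioc] at hm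
    have h3 : (Icc 1 R).filter (fun d => d ∣ m) = {1} := by
      ext d
      rw [mem_filter, mem_Icc, mem_singleton]
      constructor
      · rintro ⟨⟨_, hd2⟩, hd3⟩
        rcases (Nat.dvd_prime hm.2).mp hd3 with h | h
        · exact h
        · omega
      · rintro rfl
        exact ⟨⟨le_refl _, hR⟩, one_dvd _⟩
    rw [h3, sum_singleton, lam_one R hR]
    norm_num
  have h4 : ∑ m ∈ Ioc n (n + h), (∑ d ∈ (Icc 1 R).filter (fun d => d ∣ m), lam R d) ^ 2 =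
      ∑ e ∈ Icc 1 (R ^ 2), cc R e * (mc e n h : ℝ) := by
    have h5 : ∀ m ∈ Ioc n (n + h), (∑ d ∈ (Icc 1 R).filter (fun d => d ∣ m), lam R d) ^ 2 =
        ∑ e ∈ Icc 1 (R ^ 2), if e ∣ m then cc R e else 0 := by
      intro m hm
      rw [mem_Ioc] at hm
      rw [sq_expand R m (by omega), sum_filter]
    rw [sum_congr rfl h5, sum_comm]
    refine sum_congr rfl ?_
    intro e _
    rw [← sum_filter, sum_const, nsmul_eq_mul, mc, mul_comm]
  have h6 : Er R n h = ∑ e ∈ Icc 1 (R ^ 2), cc R e * (mc e n h : ℝ) -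
      (h : ℝ) * ∑ e ∈ Icc 1 (R ^ 2), cc R e / e := by
    unfold Er
    rw [mul_sum, ← sum_sub_distrib]
    refine sum_congr rfl ?_
    intro e _
    ring
  rw [h6, cc_sum R hR]
  rw [h4] at h1
  have h7 : (h : ℝ) * (1 / Ss R) = (h : ℝ) / Ss R := by ring
  rw [h7]
  linarith

end Pool.Agent.H24.AB
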