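import Pool.Agent.H24.AB.Var
import Pool.Agent.H24.AB.Maj
import Pool.Agent.H24.AB.SLog

/-!
# Module ExcOne: the exceptional set at one scale

PROOF. `C = 720 * 3^15/δ²`. Let `Y = X h/(log X)^A ≥ X` (as `h ≥ (log X)^A`), `R = ⌊Y^(1/4)⌋₊`. `R^4 ≤ Y ≤ 3 X²`, so `R ≤ X` (for large `X`),
`R ≥ 1`. `log R ≥ (1/4) log Y - log 2` (`R ≥ Y^(1/4)/2`), `log Y = log (X h) - A log log X`, and for large `X` (uniformly in `h`,
`log (X h) ≥ log X`): `A log log X + 4 log 2 ≤ (δ/20) log X`, so `log R ≥ (1/4)(1 - δ/20) log (X h)` and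
`h/Ss R ≤ h/log R ≤ (4 + δ/2) h/log (X h)` (`log_le_Ss`; `4/(1 - δ/20) ≤ 4 + δ/2` for `δ ≤ 1`). If `(4+δ) h/log(X h) < pc n h` then
(`majorant`, `R ≤ X ≤ n`) `Er R n h ≥ (δ/2) h/log (X h) ≥ δ h/(6 log X)` (`log (X h) ≤ log (3 X²) ≤ 3 log X`). Chebyshev:
`card * (δ h/(6 log X))² ≤ ∑ Er² ≤ 10 (X + R⁴) h (1 + log R²)^15 ≤ 20 Y h (3 log X)^15` (`var`; `log R² ≤ (1/2) log (3X²) ≤ 2 log X - 1` ...).
So `card ≤ 20 * 36 * 3^15/δ² * X (log X)^(17 - A)`. Powers: `(log X)^A` is `Real.rpow`.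
-/

set_option autoImplicit false

namespace Pool.Agent.H24.AB

open Finset Pool.Agent.H5.Short

private theorem exc_ev (δ A : ℝ) (hδ : 0 < δ) (hA : 0 < A) : ∃ X0 : ℕ, ∀ X : ℕ, X0 ≤ X →
    2 ≤ Real.log X ∧ A * Real.log (Real.log X) + 4 * Real.log 2 ≤ δ / 20 * Real.log X := by
  have h1 : Filter.Tendsto (fun X : ℕ => Real.log X) Filter.atTop Filter.atTop :=
    Real.tendsto_log_atTop.comp tendsto_natCast_atTop_atTop
  have h2 : ∀ᶠ x : ℝ in Filter.atTop, Real.log x ≤ (δ / (40 * A)) * x := by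
    have := Real.isLittleO_log_id_atTop.def (c := δ / (40 * A)) (by positivity)
    filter_upwards [this, Filter.eventually_ge_atTop (1 : ℝ)] with x hx hx1
    rw [Real.norm_eq_abs, Real.norm_eq_abs, id, abs_of_nonneg (by linarith : (0 : ℝ) ≤ x)] at hx
    exact (le_abs_self _).trans hx
  have h3 : ∀ᶠ x : ℝ in Filter.atTop, 4 * Real.log 2 ≤ (δ / 40) * x := by
    have := Filter.tendsto_id.const_mul_atTop (show (0 : ℝ) < δ / 40 by positivity)
    exact this.eventually_ge_atTop _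
  have h4 := h1.eventually (h2.and (h3.and (Filter.eventually_ge_atTop (2 : ℝ))))
  obtain ⟨X0, hX0⟩ := Filter.eventually_atTop.1 h4
  refine ⟨X0, fun X hX => ?_⟩
  obtain ⟨h5, h6, h7⟩ := hX0 X hX
  refine ⟨h7, ?_⟩
  have h8 : A * Real.log (Real.log X) ≤ A * (δ / (40 * A) * Real.log X) := by gcongr
  have h9 : A * (δ / (40 * A) * Real.log X) = δ / 40 * Real.log X := by
    field_simp
  linarith

private theorem exc_R (δ A : ℝ) (hδ : 0 < δ) (_hδ1 : δ ≤ 1) (hA : 0 < A) (X h : ℕ)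
    (hL : 2 ≤ Real.log X) (hLL : A * Real.log (Real.log X) + 4 * Real.log 2 ≤ δ / 20 * Real.log X)
    (hh : (Real.log X) ^ A ≤ h) (hh3 : h ≤ 3 * X) :
    ∃ R : ℕ, 1 ≤ R ∧ R ≤ X ∧ (X : ℝ) ≤ X * h / (Real.log X) ^ A ∧
      (R : ℝ) ^ 4 ≤ X * h / (Real.log X) ^ A ∧
      (1 / 4) * (1 - δ / 20) * Real.log (X * h) ≤ Real.log R ∧
      1 + Real.log ((R ^ 2 : ℕ) : ℝ) ≤ 3 * Real.log X ∧ Real.log (X * h) ≤ 3 * Real.log X := by
  have hX3 : (3 : ℝ) ≤ X := by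
    have h1 : (0 : ℝ) < X := by
      by_contra hc
      have : (X : ℝ) = 0 := le_antisymm (not_lt.1 hc) (by positivity)
      rw [this, Real.log_zero] at hL
      linarith
    have h2 := Real.log_le_sub_one_of_pos h1
    linarith
  have hX0 : (0 : ℝ) < X := by linarith
  have hXc : 3 * (X : ℝ) ^ 2 ≤ X ^ 3 := by
    have h1 : (X : ℝ) ^ 3 = X * X ^ 2 := by ring
    rw [h1]
    gcongr
  set L := Real.log X with hLdef
  have hL0 : 0 < L := by linarith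
  have hP : 1 ≤ L ^ A := Real.one_le_rpow (by linarith) hA.le
  have hP0 : 0 < L ^ A := by linarith
  have hh1 : (1 : ℝ) ≤ h := hP.trans hh
  have hh0 : (0 : ℝ) < h := by linarith
  have hh3' : (h : ℝ) ≤ 3 * X := by exact_mod_cast hh3
  set Y : ℝ := X * h / L ^ A with hY
  have hXY : (X : ℝ) ≤ Y := by
    rw [hY, le_div_iff₀ hP0]
    gcongr
  have hY0 : 0 < Y := by linarith
  have hYle : Y ≤ 3 * (X : ℝ) ^ 2 := by
    rw [hY, div_le_iff₀ hP0]
    nlinarith [mul_le_mul_of_nonneg_left hh3' hX0.le, mul_le_mul_of_nonneg_left hP (show 0 ≤ 3 * (X : ℝ) ^ 2 by positivity)]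
  set y : ℝ := Y ^ (1 / 4 : ℝ) with hy
  have hy4 : y ^ 4 = Y := by
    rw [hy, ← Real.rpow_natCast, ← Real.rpow_mul hY0.le]
    norm_num
  have hy0 : 0 < y := Real.rpow_pos_of_pos hY0 _
  have hy1 : 1 ≤ y := Real.one_le_rpow (by linarith) (by norm_num)
  have hR1 : 1 ≤ ⌊y⌋₊ := Nat.le_floor (by exact_mod_cast hy1)
  have hRy : (⌊y⌋₊ : ℝ) ≤ y := Nat.floor_le hy0.le
  have hRy2 : y < ⌊y⌋₊ + 1 := Nat.lt_floor_add_one y
  have hR1' : (1 : ℝ) ≤ (⌊y⌋₊ : ℝ) := by exact_mod_cast hR1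
  have hR4 : (⌊y⌋₊ : ℝ) ^ 4 ≤ Y := by
    rw [← hy4]
    gcongr
  have hlogXh : Real.log (X * h) ≤ 3 * L := by
    have h1 : (X : ℝ) * h ≤ X ^ 3 := by nlinarith
    calc Real.log (X * h) ≤ Real.log ((X : ℝ) ^ 3) := Real.log_le_log (by positivity) h1
      _ = 3 * L := by rw [Real.log_pow]; push_cast; rfl
  refine ⟨⌊y⌋₊, hR1, ?_, hXY, hR4, ?_, ?_, hlogXh⟩
  · have h1 : (⌊y⌋₊ : ℝ) ≤ X := by
      by_contra hc
      push Not at hc
      have h2 : (X : ℝ) ^ 4 < (⌊y⌋₊ : ℝ) ^ 4 := by gcongr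
      have h3 : (X : ℝ) ^ 4 = X * X ^ 3 := by ring
      nlinarith [show (0 : ℝ) < (X : ℝ) ^ 3 by positivity]
    exact_mod_cast h1
  · have h1 : y / 2 ≤ ⌊y⌋₊ := by linarith
    have h2 : Real.log (y / 2) ≤ Real.log ⌊y⌋₊ := Real.log_le_log (by positivity) h1
    have h3 : Real.log (y / 2) = Real.log y - Real.log 2 := Real.log_div (by positivity) (by norm_num)
    have h4 : Real.log y = (1 / 4) * Real.log Y := by rw [hy, Real.log_rpow hY0]
    have h5 : Real.log Y = Real.log (X * h) - A * Real.log L := by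
      rw [hY, Real.log_div (by positivity) (by positivity), Real.log_rpow hL0]
    have h6 : L ≤ Real.log (X * h) := Real.log_le_log hX0 (by nlinarith)
    have h7 : δ / 20 * L ≤ δ / 20 * Real.log (X * h) := by gcongr
    nlinarith
  · have h1 : Real.log ((⌊y⌋₊ ^ 2 : ℕ) : ℝ) = (1 / 2) * Real.log ((⌊y⌋₊ : ℝ) ^ 4) := by
      push_cast
      rw [Real.log_pow, Real.log_pow]
      push_cast
      ring
    have h2 : Real.log ((⌊y⌋₊ : ℝ) ^ 4) ≤ Real.log ((X : ℝ) ^ 3) := by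
      apply Real.log_le_log (by positivity)
      linarith
    have h3 : Real.log ((X : ℝ) ^ 3) = 3 * L := by
      rw [Real.log_pow]
      push_cast
      rfl
    rw [h1]
    linarith

theorem exc_one (δ : ℝ) (hδ : 0 < δ) (hδ1 : δ ≤ 1) (A : ℝ) (hA : 0 < A) :
    ∃ C : ℝ, 0 < C ∧ ∃ X0 : ℕ, ∀ X : ℕ, X0 ≤ X → ∀ h : ℕ, (Real.log X) ^ A ≤ h → h ≤ 3 * X →
      (((Ioc X (2 * X)).filter (fun n => (4 + δ) * (h / Real.log (X * h)) < (pc n h : ℝ))).card : ℝ) ≤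
        C * X * (Real.log X) ^ (17 - A) := by
  obtain ⟨X0, hX0⟩ := exc_ev δ A hδ hA
  refine ⟨720 * 3 ^ 15 / δ ^ 2, by positivity, X0, fun X hX h hh hh3 => ?_⟩
  obtain ⟨hL, hLL⟩ := hX0 X hX
  obtain ⟨R, hR1, hRX, hXY, hR4, hlogR, hlogR2, hlogXh⟩ := exc_R δ A hδ hδ1 hA X h hL hLL hh hh3
  set L := Real.log X with hLdef
  have hL0 : 0 < L := by linarith
  have hP : 1 ≤ L ^ A := Real.one_le_rpow (by linarith) hA.le
  have hP0 : 0 < L ^ A := by linarith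
  have hh1 : (1 : ℝ) ≤ h := hP.trans hh
  have hh0 : (0 : ℝ) < h := by linarith
  have hX1 : 1 ≤ X := hR1.trans hRX
  have hX1' : (1 : ℝ) ≤ X := by exact_mod_cast hX1
  have hXpos : (0 : ℝ) < X := by linarith
  have hLXh : L ≤ Real.log (X * h) := Real.log_le_log hXpos (by nlinarith)
  have hl0 : 0 < Real.log (X * h) := by linarith
  set T := (Ioc X (2 * X)).filter (fun n => (4 + δ) * (h / Real.log (X * h)) < (pc n h : ℝ)) with hT
  have hd : 0 < 1 - δ / 20 := by linarith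
  have hlR0 : 0 < Real.log R := by
    have : 0 < (1 / 4) * (1 - δ / 20) * Real.log (X * h) := by positivity
    linarith
  have hS := log_le_Ss R hR1
  have hmain : (h : ℝ) / Ss R ≤ (4 + δ / 2) * (h / Real.log (X * h)) := by
    have e1 : (h : ℝ) / Ss R ≤ h / ((1 / 4) * (1 - δ / 20) * Real.log (X * h)) := by
      apply div_le_div_of_nonneg_left hh0.le (by positivity) (by linarith)
    have e2 : (h : ℝ) / ((1 / 4) * (1 - δ / 20) * Real.log (X * h)) =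
        (4 / (1 - δ / 20)) * (h / Real.log (X * h)) := by
      field_simp
    have e3 : 4 / (1 - δ / 20) ≤ 4 + δ / 2 := by
      rw [div_le_iff₀ hd]
      nlinarith
    rw [e2] at e1
    exact e1.trans (by gcongr)
  have hlow : ∀ n ∈ T, (δ * h / (6 * L)) ^ 2 ≤ (Er R n h) ^ 2 := by
    intro n hn
    rw [hT, Finset.mem_filter, Finset.mem_Ioc] at hn
    have h1 := majorant R n h hR1 (by omega)
    have h2 : δ * h / (6 * L) ≤ (δ / 2) * (h / Real.log (X * h)) := by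
      have h3 : δ * h / (6 * L) = (δ / 2) * (h / (3 * L)) := by
        field_simp
        norm_num
      rw [h3]
      gcongr
    have h4 : δ * h / (6 * L) ≤ Er R n h := by
      have : (4 + δ) * (h / Real.log (X * h)) =
        (4 + δ / 2) * (h / Real.log (X * h)) + (δ / 2) * (h / Real.log (X * h)) := by ring
      linarith [hn.2]
    have h5 : 0 ≤ δ * h / (6 * L) := by positivity
    gcongr
  have hsum : (T.card : ℝ) * (δ * h / (6 * L)) ^ 2 ≤ ∑ n ∈ Ioc X (2 * X), (Er R n h) ^ 2 := by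
    calc (T.card : ℝ) * (δ * h / (6 * L)) ^ 2 = ∑ n ∈ T, (δ * h / (6 * L)) ^ 2 := by
          rw [Finset.sum_const, nsmul_eq_mul]
      _ ≤ ∑ n ∈ T, (Er R n h) ^ 2 := Finset.sum_le_sum hlow
      _ ≤ _ := Finset.sum_le_sum_of_subset_of_nonneg (Finset.filter_subset _ _)
          fun _ _ _ => sq_nonneg _
  have hvar := var R X h hR1 hX1
  have hb : 10 * ((X : ℝ) + (R : ℝ) ^ 4) * (h * (1 + Real.log ((R ^ 2 : ℕ) : ℝ)) ^ 15) ≤
      20 * (X * h / L ^ A) * (h * (3 * L) ^ 15) := by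
    have h0 : 0 ≤ 1 + Real.log ((R ^ 2 : ℕ) : ℝ) := by
      have : 0 ≤ Real.log ((R ^ 2 : ℕ) : ℝ) := Real.log_natCast_nonneg _
      linarith
    have h1 : 10 * ((X : ℝ) + (R : ℝ) ^ 4) ≤ 20 * (X * h / L ^ A) := by linarith
    have h2 : (1 + Real.log ((R ^ 2 : ℕ) : ℝ)) ^ 15 ≤ (3 * L) ^ 15 := by gcongr
    gcongr
  have hfin : (T.card : ℝ) * (δ * h / (6 * L)) ^ 2 ≤
      20 * (X * h / L ^ A) * (h * (3 * L) ^ 15) := hsum.trans (hvar.trans hb)
  have hpow : L ^ (17 - A) = L ^ 17 / L ^ A := by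
    rw [Real.rpow_sub hL0]
    norm_num
  have hq : 0 < (δ * h / (6 * L)) ^ 2 := by positivity
  have e : 20 * (X * h / L ^ A) * (h * (3 * L) ^ 15) =
      (720 * 3 ^ 15 / δ ^ 2 * X * L ^ (17 - A)) * (δ * h / (6 * L)) ^ 2 := by
    rw [hpow]
    field_simp
    norm_num
  rw [e] at hfin
  exact le_of_mul_le_mul_right hfin hq

end Pool.Agent.H24.AB
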