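import Pool.Agent.H24.AB.ExcOne

/-!
# Module ExcW: the exceptional set, uniform version

The same proof as `ExcOne` with `(log X)^A` replaced by an arbitrary `W ≤ X^κ`, `κ = δ/40`: the exceptional set at the
scale `h ≥ W` has at most `C X (log X)^17 / W` elements.
-/

set_option autoImplicit false

namespace Pool.Agent.H24.AB

open Finset Pool.Agent.H5.Short

private theorem excw_ev (δ : ℝ) (hδ : 0 < δ) : ∃ X0 : ℕ, ∀ X : ℕ, X0 ≤ X →
    2 ≤ Real.log X ∧ 4 * Real.log 2 ≤ δ / 40 * Real.log X := by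
  have h1 : Filter.Tendsto (fun X : ℕ => Real.log X) Filter.atTop Filter.atTop :=
    Real.tendsto_log_atTop.comp tendsto_natCast_atTop_atTop
  have h3 : ∀ᶠ x : ℝ in Filter.atTop, 4 * Real.log 2 ≤ (δ / 40) * x := by
    have := Filter.tendsto_id.const_mul_atTop (show (0 : ℝ) < δ / 40 by positivity)
    exact this.eventually_ge_atTop _
  have h4 := h1.eventually (h3.and (Filter.eventually_ge_atTop (2 : ℝ)))
  obtain ⟨X0, hX0⟩ := Filter.eventually_atTop.1 h4
  refine ⟨X0, fun X hX => ?_⟩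
  obtain ⟨h6, h7⟩ := hX0 X hX
  exact ⟨h7, h6⟩

private theorem excw_R (δ W : ℝ) (hδ : 0 < δ) (hW : 1 ≤ W) (X h : ℕ)
    (hL : 2 ≤ Real.log X) (hLL : 4 * Real.log 2 ≤ δ / 40 * Real.log X)
    (hWX : Real.log W ≤ δ / 40 * Real.log X)
    (hh : W ≤ h) (hh3 : h ≤ 3 * X) :
    ∃ R : ℕ, 1 ≤ R ∧ R ≤ X ∧ (X : ℝ) ≤ X * h / W ∧
      (R : ℝ) ^ 4 ≤ X * h / W ∧
      (1 / 4) * (1 - δ / 20) * Real.log (X * h) ≤ Real.log R ∧
      1 + Real.log ((R ^ 2 : ℕ) : ℝ) ≤ 3 * Real.log X ∧ Real.log (X * h) ≤ 3 * Real.log X := by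
  have hX3 : (3 : ℝ) ≤ X := by
    have h1 : (0 : ℝ) < X := by
      by_contra hc
      have : (X : ℝ) = 0 := le_antisymm (not_lt.1 hc) (by positivity)
      rw [this, Real.log_zero] at hL
      linarith
    have h2 := Real.log_le_sub_one_of_pos h1
    linarith
  have hX0 : (0 : ℝ) < X := by linarith
  have hXc : 3 * (X : ℝ) ^ 2 ≤ X ^ 3 := by
    have h1 : (X : ℝ) ^ 3 = X * X ^ 2 := by ring
    rw [h1]
    gcongr
  set L := Real.log X with hLdef
  have hL0 : 0 < L := by linarith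
  have hP0 : 0 < W := by linarith
  have hh1 : (1 : ℝ) ≤ h := hW.trans hh
  have hh0 : (0 : ℝ) < h := by linarith
  have hh3' : (h : ℝ) ≤ 3 * X := by exact_mod_cast hh3
  set Y : ℝ := X * h / W with hY
  have hXY : (X : ℝ) ≤ Y := by
    rw [hY, le_div_iff₀ hP0]
    gcongr
  have hY0 : 0 < Y := by linarith
  have hYle : Y ≤ 3 * (X : ℝ) ^ 2 := by
    rw [hY, div_le_iff₀ hP0]
    nlinarith [mul_le_mul_of_nonneg_left hh3' hX0.le, mul_le_mul_of_nonneg_left hW (show 0 ≤ 3 * (X : ℝ) ^ 2 by positivity)]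
  set y : ℝ := Y ^ (1 / 4 : ℝ) with hy
  have hy4 : y ^ 4 = Y := by
    rw [hy, ← Real.rpow_natCast, ← Real.rpow_mul hY0.le]
    norm_num
  have hy0 : 0 < y := Real.rpow_pos_of_pos hY0 _
  have hy1 : 1 ≤ y := Real.one_le_rpow (by linarith) (by norm_num)
  have hR1 : 1 ≤ ⌊y⌋₊ := Nat.le_floor (by exact_mod_cast hy1)
  have hRy : (⌊y⌋₊ : ℝ) ≤ y := Nat.floor_le hy0.le
  have hRy2 : y < ⌊y⌋₊ + 1 := Nat.lt_floor_add_one y
  have hR1' : (1 : ℝ) ≤ (⌊y⌋₊ : ℝ) := by exact_mod_cast hR1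
  have hR4 : (⌊y⌋₊ : ℝ) ^ 4 ≤ Y := by
    rw [← hy4]
    gcongr
  have hlogXh : Real.log (X * h) ≤ 3 * L := by
    have h1 : (X : ℝ) * h ≤ X ^ 3 := by nlinarith
    calc Real.log (X * h) ≤ Real.log ((X : ℝ) ^ 3) := Real.log_le_log (by positivity) h1
      _ = 3 * L := by rw [Real.log_pow]; push_cast; rfl
  refine ⟨⌊y⌋₊, hR1, ?_, hXY, hR4, ?_, ?_, hlogXh⟩
  · have h1 : (⌊y⌋₊ : ℝ) ≤ X := by
      by_contra hc
      push Not at hc
      have h2 : (X : ℝ) ^ 4 < (⌊y⌋₊ : ℝ) ^ 4 := by gcongr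
      have h3 : (X : ℝ) ^ 4 = X * X ^ 3 := by ring
      nlinarith [show (0 : ℝ) < (X : ℝ) ^ 3 by positivity]
    exact_mod_cast h1
  · have h1 : y / 2 ≤ ⌊y⌋₊ := by linarith
    have h2 : Real.log (y / 2) ≤ Real.log ⌊y⌋₊ := Real.log_le_log (by positivity) h1
    have h3 : Real.log (y / 2) = Real.log y - Real.log 2 := Real.log_div (by positivity) (by norm_num)
    have h4 : Real.log y = (1 / 4) * Real.log Y := by rw [hy, Real.log_rpow hY0]
    have h5 : Real.log Y = Real.log (X * h) - Real.log W := by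
      rw [hY, Real.log_div (by positivity) (by positivity)]
    have h6 : L ≤ Real.log (X * h) := Real.log_le_log hX0 (by nlinarith)
    have h7 : δ / 20 * L ≤ δ / 20 * Real.log (X * h) := by gcongr
    nlinarith
  · have h1 : Real.log ((⌊y⌋₊ ^ 2 : ℕ) : ℝ) = (1 / 2) * Real.log ((⌊y⌋₊ : ℝ) ^ 4) := by
      push_cast
      rw [Real.log_pow, Real.log_pow]
      push_cast
      ring
    have h2 : Real.log ((⌊y⌋₊ : ℝ) ^ 4) ≤ Real.log ((X : ℝ) ^ 3) := by
      apply Real.log_le_log (by positivity)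
      linarith
    have h3 : Real.log ((X : ℝ) ^ 3) = 3 * L := by
      rw [Real.log_pow]
      push_cast
      rfl
    rw [h1]
    linarith

theorem exc_oneW (δ : ℝ) (hδ : 0 < δ) (hδ1 : δ ≤ 1) :
    ∃ C : ℝ, 0 < C ∧ ∃ X0 : ℕ, ∀ X : ℕ, X0 ≤ X → ∀ W : ℝ, 1 ≤ W →
      Real.log W ≤ δ / 40 * Real.log X → ∀ h : ℕ, W ≤ h → h ≤ 3 * X →
      (((Ioc X (2 * X)).filter (fun n => (4 + δ) * (h / Real.log (X * h)) < (pc n h : ℝ))).card : ℝ) ≤
        C * X * (Real.log X) ^ 17 / W := by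
  obtain ⟨X0, hX0⟩ := excw_ev δ hδ
  refine ⟨720 * 3 ^ 15 / δ ^ 2, by positivity, X0, fun X hX W hW hWX h hh hh3 => ?_⟩
  obtain ⟨hL, hLL⟩ := hX0 X hX
  obtain ⟨R, hR1, hRX, hXY, hR4, hlogR, hlogR2, hlogXh⟩ := excw_R δ W hδ hW X h hL hLL hWX hh hh3
  set L := Real.log X with hLdef
  have hL0 : 0 < L := by linarith
  have hP0 : 0 < W := by linarith
  have hh1 : (1 : ℝ) ≤ h := hW.trans hh
  have hh0 : (0 : ℝ) < h := by linarith
  have hX1 : 1 ≤ X := hR1.trans hRX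
  have hX1' : (1 : ℝ) ≤ X := by exact_mod_cast hX1
  have hXpos : (0 : ℝ) < X := by linarith
  have hLXh : L ≤ Real.log (X * h) := Real.log_le_log hXpos (by nlinarith)
  have hl0 : 0 < Real.log (X * h) := by linarith
  set T := (Ioc X (2 * X)).filter (fun n => (4 + δ) * (h / Real.log (X * h)) < (pc n h : ℝ)) with hT
  have hd : 0 < 1 - δ / 20 := by linarith
  have hlR0 : 0 < Real.log R := by
    have : 0 < (1 / 4) * (1 - δ / 20) * Real.log (X * h) := by positivity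
    linarith
  have hS := log_le_Ss R hR1
  have hmain : (h : ℝ) / Ss R ≤ (4 + δ / 2) * (h / Real.log (X * h)) := by
    have e1 : (h : ℝ) / Ss R ≤ h / ((1 / 4) * (1 - δ / 20) * Real.log (X * h)) := by
      apply div_le_div_of_nonneg_left hh0.le (by positivity) (by linarith)
    have e2 : (h : ℝ) / ((1 / 4) * (1 - δ / 20) * Real.log (X * h)) =
        (4 / (1 - δ / 20)) * (h / Real.log (X * h)) := by
      field_simp
    have e3 : 4 / (1 - δ / 20) ≤ 4 + δ / 2 := by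
      rw [div_le_iff₀ hd]
      nlinarith
    rw [e2] at e1
    exact e1.trans (by gcongr)
  have hlow : ∀ n ∈ T, (δ * h / (6 * L)) ^ 2 ≤ (Er R n h) ^ 2 := by
    intro n hn
    rw [hT, Finset.mem_filter, Finset.mem_Ioc] at hn
    have h1 := majorant R n h hR1 (by omega)
    have h2 : δ * h / (6 * L) ≤ (δ / 2) * (h / Real.log (X * h)) := by
      have h3 : δ * h / (6 * L) = (δ / 2) * (h / (3 * L)) := by
        field_simp
        norm_num
      rw [h3]
      gcongr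
    have h4 : δ * h / (6 * L) ≤ Er R n h := by
      have : (4 + δ) * (h / Real.log (X * h)) =
        (4 + δ / 2) * (h / Real.log (X * h)) + (δ / 2) * (h / Real.log (X * h)) := by ring
      linarith [hn.2]
    have h5 : 0 ≤ δ * h / (6 * L) := by positivity
    gcongr
  have hsum : (T.card : ℝ) * (δ * h / (6 * L)) ^ 2 ≤ ∑ n ∈ Ioc X (2 * X), (Er R n h) ^ 2 := by
    calc (T.card : ℝ) * (δ * h / (6 * L)) ^ 2 = ∑ n ∈ T, (δ * h / (6 * L)) ^ 2 := by
          rw [Finset.sum_const, nsmul_eq_mul]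
      _ ≤ ∑ n ∈ T, (Er R n h) ^ 2 := Finset.sum_le_sum hlow
      _ ≤ _ := Finset.sum_le_sum_of_subset_of_nonneg (Finset.filter_subset _ _)
          fun _ _ _ => sq_nonneg _
  have hvar := var R X h hR1 hX1
  have hb : 10 * ((X : ℝ) + (R : ℝ) ^ 4) * (h * (1 + Real.log ((R ^ 2 : ℕ) : ℝ)) ^ 15) ≤
      20 * (X * h / W) * (h * (3 * L) ^ 15) := by
    have h0 : 0 ≤ 1 + Real.log ((R ^ 2 : ℕ) : ℝ) := by
      have : 0 ≤ Real.log ((R ^ 2 : ℕ) : ℝ) := Real.log_natCast_nonneg _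
      linarith
    have h1 : 10 * ((X : ℝ) + (R : ℝ) ^ 4) ≤ 20 * (X * h / W) := by linarith
    have h2 : (1 + Real.log ((R ^ 2 : ℕ) : ℝ)) ^ 15 ≤ (3 * L) ^ 15 := by gcongr
    gcongr
  have hfin : (T.card : ℝ) * (δ * h / (6 * L)) ^ 2 ≤
      20 * (X * h / W) * (h * (3 * L) ^ 15) := hsum.trans (hvar.trans hb)
  have hq : 0 < (δ * h / (6 * L)) ^ 2 := by positivity
  have e : 20 * (X * h / W) * (h * (3 * L) ^ 15) =
      (720 * 3 ^ 15 / δ ^ 2 * X * L ^ 17 / W) * (δ * h / (6 * L)) ^ 2 := by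
    field_simp
    norm_num
  rw [e] at hfin
  exact le_of_mul_le_mul_right hfin hq

open Classical in
theorem excW (δ : ℝ) (hδ : 0 < δ) : ∃ κ C : ℝ, 0 < κ ∧ 0 < C ∧ ∃ X0 : ℕ, ∀ X : ℕ, X0 ≤ X →
    ∀ W : ℝ, 1 ≤ W → Real.log W ≤ κ * Real.log X →
    (((Ioc X (2 * X)).filter (fun n => ∃ h : ℕ, W ≤ h ∧ h ≤ 2 * X ∧
      (4 + δ) * (h / Real.log (X * h)) < (pc n h : ℝ))).card : ℝ) ≤ C * X * (Real.log X) ^ 18 / W := by
  obtain ⟨δ1, hδ1⟩ : ∃ δ1 : ℝ, δ1 = min δ 1 := ⟨_, rfl⟩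
  have hd0 : 0 < δ1 := by rw [hδ1]; exact lt_min hδ one_pos
  have hd1 : δ1 ≤ 1 := by rw [hδ1]; exact min_le_right _ _
  have hdδ : δ1 ≤ δ := by rw [hδ1]; exact min_le_left _ _
  obtain ⟨C, hC, X1, hone⟩ := exc_oneW (δ1 / 2) (by positivity) (by linarith)
  obtain ⟨τ, hτ⟩ : ∃ τ : ℝ, τ = δ1 / 40 := ⟨_, rfl⟩
  have hτ0 : 0 < τ := by rw [hτ]; positivity
  have hτ1 : τ ≤ 1 / 40 := by rw [hτ]; linarith
  have hlτ : 0 < Real.log (1 + τ) := Real.log_pos (by linarith)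
  obtain ⟨C2, hC2⟩ : ∃ C2 : ℝ, C2 = 2 / Real.log (1 + τ) + 1 := ⟨_, rfl⟩
  have hC20 : 0 < C2 := by rw [hC2]; positivity
  have hlogtend : Filter.Tendsto (fun n : ℕ => Real.log (n : ℝ)) Filter.atTop Filter.atTop :=
    Real.tendsto_log_atTop.comp tendsto_natCast_atTop_atTop
  obtain ⟨X2, hX2⟩ := Filter.eventually_atTop.mp ((hlogtend.eventually_ge_atTop 1).and
    (hlogtend.eventually_ge_atTop (1 / τ)))
  refine ⟨δ1 / 2 / 40, C2 * C + 1, by positivity, by positivity, max (max X1 X2) 2, ?_⟩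
  intro X hX W hW hWX
  have hXX1 : X1 ≤ X := le_trans (le_trans (le_max_left _ _) (le_max_left _ _)) hX
  have hXX2 : X2 ≤ X := le_trans (le_trans (le_max_right _ _) (le_max_left _ _)) hX
  have hX2' : 2 ≤ X := le_trans (le_max_right _ _) hX
  obtain ⟨hlog1, hlogτ⟩ := hX2 X hXX2
  have hXR : (2 : ℝ) ≤ X := by exact_mod_cast hX2'
  have hX0 : (0 : ℝ) < X := by linarith
  have hlog0 : 0 < Real.log X := by linarith
  have hW0 : 0 < W := by linarith
  have hL18 : 1 ≤ (Real.log X) ^ 18 := one_le_pow₀ hlog1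
  by_cases hWs : W ≤ (Real.log X) ^ 18
  · have h1 : (((Ioc X (2 * X)).filter (fun n => ∃ h : ℕ, W ≤ h ∧ h ≤ 2 * X ∧
        (4 + δ) * (h / Real.log (X * h)) < (pc n h : ℝ))).card : ℝ) ≤ X := by
      have h2 := card_filter_le (Ioc X (2 * X)) (fun n => ∃ h : ℕ, W ≤ h ∧ h ≤ 2 * X ∧
        (4 + δ) * (h / Real.log (X * h)) < (pc n h : ℝ))
      rw [Nat.card_Ioc] at h2
      have h3 : 2 * X - X = X := by omega
      rw [h3] at h2
      exact_mod_cast h2
    refine h1.trans ?_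
    rw [le_div_iff₀ hW0]
    have h4 : 1 ≤ C2 * C + 1 := by
      have : 0 < C2 * C := by positivity
      linarith
    calc (X : ℝ) * W ≤ X * (Real.log X) ^ 18 := by gcongr
      _ = 1 * X * (Real.log X) ^ 18 := by ring
      _ ≤ _ := by gcongr
  push Not at hWs
  have hlogA : Real.log X ≤ W := by
    calc Real.log X = (Real.log X) ^ 1 := (pow_one _).symm
      _ ≤ (Real.log X) ^ 18 := pow_le_pow_right₀ hlog1 (by norm_num)
      _ ≤ W := hWs.le
  obtain ⟨J, hJ⟩ : ∃ J : ℕ, J = ⌊2 * Real.log X / Real.log (1 + τ)⌋₊ := ⟨_, rfl⟩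
  obtain ⟨g, hg⟩ : ∃ g : ℕ → ℕ, ∀ j, g j = ⌈(1 + τ) ^ (j + 1)⌉₊ :=
    ⟨fun j => ⌈(1 + τ) ^ (j + 1)⌉₊, fun _ => rfl⟩
  obtain ⟨S, hS⟩ : ∃ S : ℕ → Finset ℕ, ∀ k, S k = (Ioc X (2 * X)).filter
      (fun n => (4 + δ1 / 2) * (k / Real.log (X * k)) < (pc n k : ℝ)) :=
    ⟨fun k => (Ioc X (2 * X)).filter
      (fun n => (4 + δ1 / 2) * (k / Real.log (X * k)) < (pc n k : ℝ)), fun _ => rfl⟩
  have hSone : ∀ k : ℕ, W ≤ k → k ≤ 3 * X →
      ((S k).card : ℝ) ≤ C * X * (Real.log X) ^ 17 / W := by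
    intro k hk1 hk2
    have h1 := hone X hXX1 W hW hWX k hk1 hk2
    rw [hS]
    exact h1
  set P : ℕ → Prop := fun j => W ≤ (g j : ℝ) ∧ g j ≤ 3 * X with hP
  have hsub : (Ioc X (2 * X)).filter (fun n => ∃ h : ℕ, W ≤ h ∧ h ≤ 2 * X ∧
      (4 + δ) * (h / Real.log (X * h)) < (pc n h : ℝ)) ⊆
      ((range (J + 1)).filter P).biUnion (fun j => S (g j)) := by
    intro n hn
    rw [mem_filter] at hn
    obtain ⟨hnI, h, hA, hh2, hpc⟩ := hn
    have hhR : (h : ℝ) ≤ 2 * X := by exact_mod_cast hh2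
    have hhτ : 1 / τ ≤ h := hlogτ.trans (hlogA.trans hA)
    have hhτ' : 1 ≤ τ * h := by
      rw [div_le_iff₀ hτ0] at hhτ
      linarith
    have hh1 : (1 : ℝ) ≤ h := hlog1.trans (hlogA.trans hA)
    have hh0 : (0 : ℝ) < h := by linarith
    obtain ⟨j, hj1, hj2⟩ := exists_nat_pow_near hh1 (show 1 < 1 + τ by linarith)
    have hgh : (h : ℝ) ≤ g j := by
      rw [hg]
      exact hj2.le.trans (Nat.le_ceil _)
    have hgh' : h ≤ g j := by exact_mod_cast hgh
    have hgup : (g j : ℝ) ≤ (1 + 2 * τ) * h := by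
      have h1 : (g j : ℝ) < (1 + τ) ^ (j + 1) + 1 := by
        rw [hg]
        exact Nat.ceil_lt_add_one (by positivity)
      have h2 : (1 + τ) ^ (j + 1) ≤ (1 + τ) * h := by
        rw [pow_succ, mul_comm]
        exact mul_le_mul_of_nonneg_left hj1 (by linarith)
      nlinarith
    have hg3 : g j ≤ 3 * X := by
      have h1 : (g j : ℝ) ≤ 3 * X := by nlinarith
      exact_mod_cast h1
    have hjJ : j < J + 1 := by
      have h1 : (j : ℝ) * Real.log (1 + τ) ≤ 2 * Real.log X := by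
        rw [← Real.log_pow]
        calc Real.log ((1 + τ) ^ j) ≤ Real.log (2 * X) :=
              Real.log_le_log (by positivity) (hj1.trans hhR)
          _ ≤ Real.log (X * X) := Real.log_le_log (by positivity) (by nlinarith)
          _ = 2 * Real.log X := by rw [Real.log_mul hX0.ne' hX0.ne']; ring
      have h2 : (j : ℝ) ≤ 2 * Real.log X / Real.log (1 + τ) := by
        rw [le_div_iff₀ hlτ]
        exact h1
      rw [hJ]
      exact Nat.lt_succ_of_le (Nat.le_floor h2)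
    rw [mem_biUnion]
    refine ⟨j, mem_filter.mpr ⟨mem_range.mpr hjJ, hA.trans hgh, hg3⟩, ?_⟩
    rw [hS, mem_filter]
    refine ⟨hnI, ?_⟩
    have hpcm : (pc n h : ℝ) ≤ pc n (g j) := by
      have h1 : pc n h ≤ pc n (g j) := by
        unfold pc
        apply card_le_card
        apply filter_subset_filter
        exact Ioc_subset_Ioc_right (by omega)
      exact_mod_cast h1
    have hXh : (2 : ℝ) ≤ X * h := by nlinarith
    have hlogh : 0 < Real.log (X * h) := Real.log_pos (by linarith)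
    have hloghg : Real.log (X * h) ≤ Real.log (X * g j) :=
      Real.log_le_log (by positivity) (mul_le_mul_of_nonneg_left hgh hX0.le)
    have h3 : (g j : ℝ) / Real.log (X * g j) ≤ (1 + 2 * τ) * h / Real.log (X * h) :=
      div_le_div₀ (by positivity) hgup hlogh hloghg
    have h4 : (4 + δ1 / 2) * (1 + 2 * τ) ≤ 4 + δ := by
      rw [hτ]
      nlinarith
    have h5 : 0 < (h : ℝ) / Real.log (X * h) := by positivity
    calc (4 + δ1 / 2) * (g j / Real.log (X * g j)) ≤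
          (4 + δ1 / 2) * ((1 + 2 * τ) * h / Real.log (X * h)) :=
            mul_le_mul_of_nonneg_left h3 (by positivity)
      _ = ((4 + δ1 / 2) * (1 + 2 * τ)) * (h / Real.log (X * h)) := by ring
      _ ≤ (4 + δ) * (h / Real.log (X * h)) := mul_le_mul_of_nonneg_right h4 h5.le
      _ < pc n h := hpc
      _ ≤ _ := hpcm
  have hcard : (((Ioc X (2 * X)).filter (fun n => ∃ h : ℕ, W ≤ h ∧
      h ≤ 2 * X ∧ (4 + δ) * (h / Real.log (X * h)) < (pc n h : ℝ))).card : ℝ) ≤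
      ((J : ℝ) + 1) * (C * X * (Real.log X) ^ 17 / W) := by
    have h1 := (card_le_card hsub).trans card_biUnion_le
    have h2 : ((∑ j ∈ (range (J + 1)).filter P, (S (g j)).card : ℕ) : ℝ) ≤
        ∑ j ∈ (range (J + 1)).filter P, C * X * (Real.log X) ^ 17 / W := by
      push_cast
      apply sum_le_sum
      intro j hj
      have h3 := (mem_filter.mp hj).2
      exact hSone (g j) h3.1 h3.2
    have h4 : ∑ j ∈ (range (J + 1)).filter P, C * X * (Real.log X) ^ 17 / W ≤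
        ((J : ℝ) + 1) * (C * X * (Real.log X) ^ 17 / W) := by
      rw [sum_const, nsmul_eq_mul]
      apply mul_le_mul_of_nonneg_right _ (by positivity)
      have h5 := card_filter_le (range (J + 1)) P
      rw [card_range] at h5
      exact_mod_cast h5
    exact le_trans (le_trans (by exact_mod_cast h1) h2) h4
  refine hcard.trans ?_
  have hJ1 : (J : ℝ) + 1 ≤ C2 * Real.log X := by
    have h1 : (J : ℝ) ≤ 2 * Real.log X / Real.log (1 + τ) := by
      rw [hJ]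
      exact Nat.floor_le (by positivity)
    calc (J : ℝ) + 1 ≤ 2 * Real.log X / Real.log (1 + τ) + Real.log X := by linarith
      _ = _ := by rw [hC2]; ring
  calc ((J : ℝ) + 1) * (C * X * (Real.log X) ^ 17 / W) ≤
        (C2 * Real.log X) * (C * X * (Real.log X) ^ 17 / W) :=
          mul_le_mul_of_nonneg_right hJ1 (by positivity)
    _ = (C2 * C) * X * (Real.log X) ^ 18 / W := by ring
    _ ≤ _ := by
        have : C2 * C ≤ C2 * C + 1 := by linarith
        gcongr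

end Pool.Agent.H24.AB
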