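import Pool.Agent.H24.AB.Defs

/-!
# Module Red: reduction of fractions

PROOF. `a ∈ Ico 1 e` is written `a = g b`, `e = g q`, `g = gcd(a, e)`, `q = e/g ≠ 1` (as `a < e`), `b` coprime to `q`, `a/e = b/q`.
Bijection between `Ico 1 e` and the sigma set (`Finset.sum_sigma'`, `Finset.sum_bij'` or `sum_nbij'`) with inverse `(q, b) ↦ b e/q`.
-/

set_option autoImplicit false

namespace Pool.Agent.H24.AB

open Finset

theorem red (F : ℝ → ℂ) (e : ℕ) (he : 1 ≤ e) :
    ∑ a ∈ Ico 1 e, F ((a : ℝ) / e) =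
      ∑ q ∈ e.divisors.erase 1, ∑ a ∈ (Ico 1 q).filter (fun a => a.Coprime q), F ((a : ℝ) / q) := by
  have he0 : 0 < e := by omega
  rw [Finset.sum_sigma']
  refine Finset.sum_bij' (fun a _ => (⟨e / Nat.gcd a e, a / Nat.gcd a e⟩ : Σ _ : ℕ, ℕ))
    (fun z _ => z.2 * (e / z.1)) ?_ ?_ ?_ ?_ ?_
  · intro a ha
    rw [Finset.mem_Ico] at ha
    have hg : 0 < Nat.gcd a e := Nat.gcd_pos_of_pos_right a he0
    have hga : Nat.gcd a e ∣ a := Nat.gcd_dvd_left a e
    have hge : Nat.gcd a e ∣ e := Nat.gcd_dvd_right a e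
    have hlt : a / Nat.gcd a e < e / Nat.gcd a e := Nat.div_lt_div_of_lt_of_dvd hge ha.2
    have hpos : 0 < a / Nat.gcd a e := Nat.div_pos (Nat.le_of_dvd (by omega) hga) hg
    rw [Finset.mem_sigma, Finset.mem_erase, Nat.mem_divisors, Finset.mem_filter, Finset.mem_Ico]
    refine ⟨⟨?_, Nat.div_dvd_of_dvd hge, he0.ne'⟩, ⟨hpos, hlt⟩,
      Nat.coprime_div_gcd_div_gcd hg⟩
    show e / Nat.gcd a e ≠ 1
    omega
  · intro z hz
    rw [Finset.mem_sigma, Finset.mem_erase, Nat.mem_divisors, Finset.mem_filter,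
      Finset.mem_Ico] at hz
    obtain ⟨⟨hz1, hz2, _⟩, ⟨hz3, hz4⟩, hz5⟩ := hz
    obtain ⟨m, hm⟩ := hz2
    have hq : 0 < z.1 := by
      rcases Nat.eq_zero_or_pos z.1 with h | h
      · rw [h, Nat.zero_mul] at hm
        omega
      · exact h
    have hm0 : 0 < m := by
      rcases Nat.eq_zero_or_pos m with h | h
      · rw [h, Nat.mul_zero] at hm
        omega
      · exact h
    have hd : e / z.1 = m := by
      rw [hm, Nat.mul_div_cancel_left _ hq]
    rw [Finset.mem_Ico]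
    show 1 ≤ z.2 * (e / z.1) ∧ z.2 * (e / z.1) < e
    rw [hd]
    refine ⟨Nat.mul_pos (by omega) hm0, ?_⟩
    rw [hm]
    exact Nat.mul_lt_mul_of_pos_right hz4 hm0
  · intro a ha
    rw [Finset.mem_Ico] at ha
    have hga : Nat.gcd a e ∣ a := Nat.gcd_dvd_left a e
    have hge : Nat.gcd a e ∣ e := Nat.gcd_dvd_right a e
    show a / Nat.gcd a e * (e / (e / Nat.gcd a e)) = a
    rw [Nat.div_div_self hge he0.ne', Nat.div_mul_cancel hga]
  · intro z hz
    rw [Finset.mem_sigma, Finset.mem_erase, Nat.mem_divisors, Finset.mem_filter,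
      Finset.mem_Ico] at hz
    obtain ⟨⟨hz1, hz2, _⟩, ⟨hz3, hz4⟩, hz5⟩ := hz
    obtain ⟨q, b⟩ := z
    obtain ⟨m, hm⟩ := hz2
    dsimp only at *
    have hq : 0 < q := by
      rcases Nat.eq_zero_or_pos q with h | h
      · rw [h, Nat.zero_mul] at hm
        omega
      · exact h
    have hm0 : 0 < m := by
      rcases Nat.eq_zero_or_pos m with h | h
      · rw [h, Nat.mul_zero] at hm
        omega
      · exact h
    have hd : e / q = m := by
      rw [hm, Nat.mul_div_cancel_left _ hq]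
    rw [hd]
    have hg : Nat.gcd (b * m) e = m := by
      rw [hm, Nat.gcd_mul_right, hz5, Nat.one_mul]
    rw [hg, Nat.mul_div_cancel _ hm0]
    have h2 : e / m = q := by
      rw [hm, Nat.mul_div_cancel _ hm0]
    rw [h2]
  · intro a ha
    rw [Finset.mem_Ico] at ha
    have hg : 0 < Nat.gcd a e := Nat.gcd_pos_of_pos_right a he0
    have hg' : ((Nat.gcd a e : ℕ) : ℝ) ≠ 0 := by exact_mod_cast hg.ne'
    have hga : Nat.gcd a e ∣ a := Nat.gcd_dvd_left a e
    have hge : Nat.gcd a e ∣ e := Nat.gcd_dvd_right a e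
    show F ((a : ℝ) / e) = F (((a / Nat.gcd a e : ℕ) : ℝ) / ((e / Nat.gcd a e : ℕ) : ℝ))
    rw [Nat.cast_div hga hg', Nat.cast_div hge hg', div_div_div_cancel_right₀ hg']

end Pool.Agent.H24.AB
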