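import Pool.Agent.H24.AB.Four
import Pool.Agent.H24.AB.Red

/-!
# Module Exp: expansion of the error in reduced fractions

PROOF. `Er R n h = ∑_{e ≤ R²} (cc R e/e) ∑_{a ∈ Ico 1 e} F(a/e)`, `F x = KK h x * ee (n x)` (`mc_fourier`), `= ∑_e (cc R e/e) ∑_{q ∣ e, q ≠ 1} ∑_{(a,q)=1} F(a/q)`
(`red`); exchange: for `(q, a) ∈ FF (R²)` the coefficient is `∑_{e ≤ R², q ∣ e} cc R e/e = Cq R q` (divisors `q ≠ 1` of `e ≤ R²` satisfy
`2 ≤ q ≤ R²`; the sum over `FF (R²)` is the sum over `q ∈ Icc 2 (R²)` and `a ∈ (Ico 1 q).filter coprime`, `sum_FF`).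
-/

set_option autoImplicit false

namespace Pool.Agent.H24.AB

open Finset

theorem sum_FF {M : Type} [AddCommMonoid M] (Q : ℕ) (f : ℕ → ℕ → M) :
    ∑ z ∈ FF Q, f z.1 z.2 = ∑ q ∈ Icc 2 Q, ∑ a ∈ (Ico 1 q).filter (fun a => a.Coprime q), f q a := by
  rw [Finset.sum_sigma']
  refine Finset.sum_bij' (fun z _ => (⟨z.1, z.2⟩ : Σ _ : ℕ, ℕ)) (fun z _ => (z.1, z.2)) ?_ ?_ ?_ ?_ ?_
  · intro z hz
    unfold FF at hz
    rw [Finset.mem_filter, Finset.mem_product, Finset.mem_Icc, Finset.mem_Icc] at hz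
    obtain ⟨⟨⟨h1, h2⟩, ⟨h3, h4⟩⟩, h5, h6⟩ := hz
    rw [Finset.mem_sigma, Finset.mem_Icc, Finset.mem_filter, Finset.mem_Ico]
    exact ⟨⟨h1, h2⟩, ⟨h3, h5⟩, h6⟩
  · intro z hz
    rw [Finset.mem_sigma, Finset.mem_Icc, Finset.mem_filter, Finset.mem_Ico] at hz
    obtain ⟨⟨h1, h2⟩, ⟨h3, h5⟩, h6⟩ := hz
    unfold FF
    rw [Finset.mem_filter, Finset.mem_product, Finset.mem_Icc, Finset.mem_Icc]
    exact ⟨⟨⟨h1, h2⟩, ⟨h3, by omega⟩⟩, h5, h6⟩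
  · intro z _
    rfl
  · intro z _
    rfl
  · intro z _
    rfl

theorem er_expand (R n h : ℕ) :
    ((Er R n h : ℝ) : ℂ) = ∑ z ∈ FF (R ^ 2), ((Cq R z.1 : ℝ) : ℂ) * KK h ((z.2 : ℝ) / z.1) *
      ee ((n : ℝ) * ((z.2 : ℝ) / z.1)) := by
  have h1 := sum_FF (M := ℂ) (R ^ 2) (fun q a => ((Cq R q : ℝ) : ℂ) * KK h ((a : ℝ) / q) *
      ee ((n : ℝ) * ((a : ℝ) / q)))
  rw [h1]
  have hG : ∀ q ∈ Icc 2 (R ^ 2), ∑ a ∈ (Ico 1 q).filter (fun a => a.Coprime q),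
      ((Cq R q : ℝ) : ℂ) * KK h ((a : ℝ) / q) * ee ((n : ℝ) * ((a : ℝ) / q)) =
      ∑ e ∈ Icc 1 (R ^ 2), if q ∣ e then (((cc R e / e : ℝ)) : ℂ) *
        ∑ a ∈ (Ico 1 q).filter (fun a => a.Coprime q),
          KK h ((a : ℝ) / q) * ee ((n : ℝ) * ((a : ℝ) / q)) else 0 := by
    intro q _
    rw [← Finset.sum_filter, ← Finset.sum_mul]
    have h2 : ((Cq R q : ℝ) : ℂ) = ∑ e ∈ (Icc 1 (R ^ 2)).filter (fun e => q ∣ e),
        (((cc R e / e : ℝ)) : ℂ) := by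
      unfold Cq
      rw [Complex.ofReal_sum]
    rw [← h2, Finset.mul_sum]
    refine Finset.sum_congr rfl fun a _ => ?_
    ring
  rw [Finset.sum_congr rfl hG, Finset.sum_comm]
  unfold Er
  rw [Complex.ofReal_sum]
  refine Finset.sum_congr rfl fun e he => ?_
  rw [Finset.mem_Icc] at he
  have he0 : (e : ℂ) ≠ 0 := by
    have : 0 < e := by omega
    exact_mod_cast this.ne'
  rw [← Finset.sum_filter, ← Finset.mul_sum]
  have hset : (Icc 2 (R ^ 2)).filter (fun q => q ∣ e) = e.divisors.erase 1 := by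
    ext q
    rw [Finset.mem_filter, Finset.mem_Icc, Finset.mem_erase, Nat.mem_divisors]
    constructor
    · rintro ⟨⟨h3, h4⟩, h5⟩
      exact ⟨by omega, h5, by omega⟩
    · rintro ⟨h3, h4, h5⟩
      have h6 : q ≤ e := Nat.le_of_dvd (by omega) h4
      have h7 : q ≠ 0 := by
        intro h
        rw [h, zero_dvd_iff] at h4
        exact h5 h4
      exact ⟨⟨by omega, by omega⟩, h4⟩
  rw [hset]
  have hred := red (fun x => KK h x * ee ((n : ℝ) * x)) e he.1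
  rw [← hred]
  have hmc := mc_fourier e n h he.1
  rw [Complex.ofReal_mul, hmc]
  push_cast
  ring

end Pool.Agent.H24.AB
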