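import Pool.Agent.H24.AB.Defs

/-!
# Module Farey: spacing of reduced fractions

PROOF. `z = (q, a)`, `w = (q', a')`, `1 ≤ a < q ≤ Q`, `1 ≤ a' < q' ≤ Q`. `a/q - a'/q' - k = m/(q q')`, `m = a q' - a' q - k q q'` an integer,
`q q' ≤ Q²`. If `m ≠ 0` then `|m| ≥ 1`: done. If `m = 0`: `a/q - a'/q' = k` with both fractions in `(0,1)`, so `k = 0`, `a q' = a' q`;
by coprimality `q ∣ q'`, `q' ∣ q`, so `q = q'`, `a = a'` (`Nat.Coprime.dvd_of_dvd_mul_left`), contradiction with `z ≠ w`.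
-/

set_option autoImplicit false

namespace Pool.Agent.H24.AB

open Finset

theorem farey_spaced (Q : ℕ) (z w : ℕ × ℕ) (hz : z ∈ FF Q) (hw : w ∈ FF Q) (hne : z ≠ w) (k : ℤ) :
    1 / (Q : ℝ) ^ 2 ≤ |(z.2 : ℝ) / z.1 - (w.2 : ℝ) / w.1 - k| := by
  obtain ⟨q, a⟩ := z
  obtain ⟨r, b⟩ := w
  simp only [FF, Finset.mem_filter, Finset.mem_product, Finset.mem_Icc] at hz hw
  obtain ⟨⟨⟨hq2, hqQ⟩, ha1, -⟩, haq, hca⟩ := hz
  obtain ⟨⟨⟨hr2, hrQ⟩, hb1, -⟩, hbr, hcb⟩ := hw
  simp only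
  have hq0 : (0 : ℝ) < q := by exact_mod_cast (by omega : 0 < q)
  have hr0 : (0 : ℝ) < r := by exact_mod_cast (by omega : 0 < r)
  have hQ0 : (0 : ℝ) < Q := by exact_mod_cast (by omega : 0 < Q)
  have hqQ' : (q : ℝ) ≤ Q := by exact_mod_cast hqQ
  have hrQ' : (r : ℝ) ≤ Q := by exact_mod_cast hrQ
  have key : (a : ℝ) / q - (b : ℝ) / r - k
      = (((a : ℤ) * r - b * q - k * q * r : ℤ) : ℝ) / ((q : ℝ) * r) := by
    push_cast
    field_simp
  have hm : ((a : ℤ) * r - b * q - k * q * r : ℤ) ≠ 0 := by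
    intro h0
    have h0r : (a : ℝ) / q - (b : ℝ) / r - k = 0 := by
      rw [key, h0]; simp
    have hA0 : 0 < (a : ℝ) / q := by
      apply div_pos _ hq0
      exact_mod_cast (by omega : 0 < a)
    have hA1 : (a : ℝ) / q < 1 := by
      rw [div_lt_one hq0]
      exact_mod_cast haq
    have hB0 : 0 < (b : ℝ) / r := by
      apply div_pos _ hr0
      exact_mod_cast (by omega : 0 < b)
    have hB1 : (b : ℝ) / r < 1 := by
      rw [div_lt_one hr0]
      exact_mod_cast hbr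
    have hk1 : (k : ℝ) < 1 := by linarith
    have hk2 : (-1 : ℝ) < k := by linarith
    have hk : k = 0 := by
      have h1 : k < 1 := by exact_mod_cast hk1
      have h2 : -1 < k := by exact_mod_cast hk2
      omega
    rw [hk] at h0
    have h3 : (a : ℤ) * r = b * q := by linarith
    have h4 : a * r = b * q := by exact_mod_cast h3
    have h5 : q ∣ r := by
      apply Nat.Coprime.dvd_of_dvd_mul_left (hca.symm : Nat.Coprime q a)
      exact Dvd.intro_left b h4.symm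
    have h6 : r ∣ q := by
      apply Nat.Coprime.dvd_of_dvd_mul_left (hcb.symm : Nat.Coprime r b)
      exact Dvd.intro_left a h4
    have h7 : q = r := Nat.dvd_antisymm h5 h6
    subst h7
    have h8 : a = b := Nat.eq_of_mul_eq_mul_right (by omega) h4
    exact hne (by rw [h8])
  rw [key, abs_div, abs_of_pos (mul_pos hq0 hr0)]
  have h1 : (1 : ℝ) ≤ |(((a : ℤ) * r - b * q - k * q * r : ℤ) : ℝ)| := by
    have := Int.one_le_abs hm
    rw [← Int.cast_abs]
    exact_mod_cast this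
  calc 1 / (Q : ℝ) ^ 2 ≤ 1 / ((q : ℝ) * r) := by
        apply one_div_le_one_div_of_le (mul_pos hq0 hr0)
        rw [pow_two]
        exact mul_le_mul hqQ' hrQ' hr0.le hQ0.le
    _ ≤ _ := div_le_div_of_nonneg_right h1 (mul_pos hq0 hr0).le

end Pool.Agent.H24.AB
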