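import Pool.Agent.H24.AB.Exc
import Pool.Agent.H24.AB.Count

/-!
# Module Final: real lengths (Theorem B)

PROOF. `exc (δ/2) B` gives `A', X1`; `A = A' + 1`. Let `n ∈ (X, 2X]` not in the exceptional set of `exc`, `(log n)^A ≤ H ≤ n`, `h = ⌊H⌋₊`. For large `X`:
`h ≥ H - 1 ≥ (log n)^(A'+1) - 1 ≥ (log X)^A'` and `h ≤ H ≤ n ≤ 2X`. The count is `pc n h` (`count_eq` in H5/Short/Main), so
`pc n h ≤ (4 + δ/2) h/log (X h)`, `h ≤ H`, and `log (n H) ≤ log (X h) + log 4 ≤ (1 + τ) log (X h)` (`n ≤ 2X`, `H ≤ h + 1 ≤ 2h`), where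
`(4 + δ/2)(1 + τ) ≤ 4 + δ`. So `pc n h ≤ (4+δ) H/log (n H)`. `upper_good` is this statement for one `n`; `almost_all_bt` is the count.
-/

set_option autoImplicit false

namespace Pool.Agent.H24.AB

open Finset Pool.Agent.H5.Short

/-- the upper bound at all scales above `(log n)^A` -/
def UB (δ A : ℝ) (n : ℕ) : Prop := ∀ H : ℝ, (Real.log n) ^ A ≤ H → H ≤ n →
  (((Ioc n ⌊(n : ℝ) + H⌋₊).filter Nat.Prime).card : ℝ) ≤ (4 + δ) * (H / Real.log (n * H))

open Classical in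
theorem ub_card (δ B : ℝ) (hδ : 0 < δ) (hB : 0 < B) : ∃ A : ℝ, 0 < A ∧ ∃ X0 : ℕ, ∀ X : ℕ, X0 ≤ X →
    (((Ioc X (2 * X)).filter (fun n => ¬ UB δ A n)).card : ℝ) ≤ X / (Real.log X) ^ B := by
  obtain ⟨A', hA', X1, hexc⟩ := exc (δ / 2) B (by linarith) hB
  have hlog4 : 0 < Real.log 4 := Real.log_pos (by norm_num)
  refine ⟨A' + 1, by linarith, max X1 (max 2 ⌈Real.exp (max 2 ((8 + δ) * Real.log 4 / δ))⌉₊), ?_⟩
  intro X hX
  have hX1 : X1 ≤ X := le_trans (le_max_left _ _) hX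
  have hX2 : 2 ≤ X := le_trans (le_trans (le_max_left _ _) (le_max_right _ _)) hX
  have hX3 : ⌈Real.exp (max 2 ((8 + δ) * Real.log 4 / δ))⌉₊ ≤ X :=
    le_trans (le_trans (le_max_right _ _) (le_max_right _ _)) hX
  have hXR : (0 : ℝ) < X := by
    have : 0 < X := by omega
    exact_mod_cast this
  have hL : max 2 ((8 + δ) * Real.log 4 / δ) ≤ Real.log X := by
    rw [Real.le_log_iff_exp_le hXR]
    exact (Nat.le_ceil _).trans (by exact_mod_cast hX3)
  have hL2 : 2 ≤ Real.log X := le_trans (le_max_left _ _) hL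
  have hL3 : (8 + δ) * Real.log 4 ≤ δ * Real.log X := by
    have h1 := le_trans (le_max_right _ _) hL
    rw [div_le_iff₀ hδ] at h1
    linarith
  refine le_trans ?_ (hexc X hX1)
  have hsub : (Ioc X (2 * X)).filter (fun n => ¬ UB δ (A' + 1) n) ⊆
      (Ioc X (2 * X)).filter (fun n => ∃ h : ℕ, (Real.log X) ^ A' ≤ h ∧ h ≤ 2 * X ∧
      (4 + δ / 2) * (h / Real.log (X * h)) < (pc n h : ℝ)) := by
    intro n hn
    rw [Finset.mem_filter] at hn ⊢
    refine ⟨hn.1, ?_⟩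
    obtain ⟨hnX, hnU⟩ := hn
    rw [Finset.mem_Ioc] at hnX
    unfold UB at hnU
    push Not at hnU
    obtain ⟨H, hH1, hH2, hH3⟩ := hnU
    have hnXR : (X : ℝ) < n := by exact_mod_cast hnX.1
    have hnXR2 : (n : ℝ) ≤ 2 * X := by exact_mod_cast hnX.2
    have hlogn : Real.log X ≤ Real.log n := Real.log_le_log hXR hnXR.le
    have hpowX : (Real.log X) ^ (A' + 1) ≤ H :=
      le_trans (Real.rpow_le_rpow (by linarith) hlogn (by linarith)) hH1
    have h1A : 1 ≤ (Real.log X) ^ A' := Real.one_le_rpow (by linarith) hA'.le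
    have hHA : (Real.log X) ^ A' + 1 ≤ H := by
      have h2 : (Real.log X) ^ (A' + 1) = (Real.log X) ^ A' * Real.log X := by
        rw [Real.rpow_add (by linarith), Real.rpow_one]
      rw [h2] at hpowX
      nlinarith
    have hH0 : 0 ≤ H := by linarith
    have hfl : H < (⌊H⌋₊ : ℝ) + 1 := Nat.lt_floor_add_one H
    have hfl' : (⌊H⌋₊ : ℝ) ≤ H := Nat.floor_le hH0
    have hh1 : (1 : ℝ) ≤ (⌊H⌋₊ : ℝ) := by linarith
    rw [count_eq n H hH0] at hH3
    refine ⟨⌊H⌋₊, by linarith, ?_, ?_⟩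
    · have h3 : ((⌊H⌋₊ : ℕ) : ℝ) ≤ ((2 * X : ℕ) : ℝ) := by
        push_cast
        linarith
      exact_mod_cast h3
    · refine lt_of_le_of_lt ?_ hH3
      have hXh : (X : ℝ) ≤ X * (⌊H⌋₊ : ℝ) := by nlinarith
      have hlXh : Real.log X ≤ Real.log (X * (⌊H⌋₊ : ℝ)) := Real.log_le_log hXR hXh
      have hpos : 0 < Real.log (X * (⌊H⌋₊ : ℝ)) := by linarith
      have hnH : Real.log (n * H) ≤ Real.log (X * (⌊H⌋₊ : ℝ)) + Real.log 4 := by
        rw [← Real.log_mul (by positivity) (by norm_num)]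
        apply Real.log_le_log
        · have : (0 : ℝ) < H := by linarith
          have : (0 : ℝ) < n := by linarith
          positivity
        · calc (n : ℝ) * H ≤ (2 * X) * (2 * (⌊H⌋₊ : ℝ)) := by
                apply mul_le_mul hnXR2 (by linarith) hH0 (by positivity)
            _ = X * (⌊H⌋₊ : ℝ) * 4 := by ring
      have hnHpos : 0 < Real.log (n * H) := by
        apply Real.log_pos
        have h5 : (2 : ℝ) ≤ X := by exact_mod_cast hX2
        nlinarith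
      rw [← mul_div_assoc, ← mul_div_assoc, div_le_div_iff₀ hpos hnHpos]
      have h6 : (4 + δ / 2) * Real.log (n * H) ≤ (4 + δ) * Real.log (X * (⌊H⌋₊ : ℝ)) := by
        have h7 : (4 + δ / 2) * Real.log (n * H) ≤
            (4 + δ / 2) * (Real.log (X * (⌊H⌋₊ : ℝ)) + Real.log 4) :=
          mul_le_mul_of_nonneg_left hnH (by linarith)
        nlinarith
      calc (4 + δ / 2) * (⌊H⌋₊ : ℝ) * Real.log (n * H)
          = (⌊H⌋₊ : ℝ) * ((4 + δ / 2) * Real.log (n * H)) := by ring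
        _ ≤ H * ((4 + δ) * Real.log (X * (⌊H⌋₊ : ℝ))) :=
            mul_le_mul hfl' h6 (by positivity) hH0
        _ = (4 + δ) * H * Real.log (X * (⌊H⌋₊ : ℝ)) := by ring
  exact_mod_cast Finset.card_le_card hsub

end Pool.Agent.H24.AB
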