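import Pool.Agent.H24.AB.LSK

/-!
# Module Four: additive characters

PROOFS. `sum_ee`: if `e ∣ m` every term is `ee` of an integer, i.e. `1` (`ee_int`). Otherwise `ee (m/e) ≠ 1` (`Complex.exp_eq_one_iff`; it would
give `m/e` an integer), `∑_{a<e} ee(m/e)^a = (ee(m/e)^e - 1)/(ee(m/e) - 1) = 0`. (`ee (m * (a / e)) = ee (m / e) ^ a`.)
`mc_fourier`: `mc e n h = ∑_{i ∈ Icc 1 h} [e ∣ n + i] = ∑_i (1/e) ∑_{a < e} ee((n+i) a/e)`; exchange the sums; the term `a = 0` is `h/e`, the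
term `a` is `(1/e) KK h (a/e) ee(n a/e)`.
`kk_sum`: `∑_{a < q} ‖KK h (a/q)‖² = ∑_{i, i' ∈ Icc 1 h} ∑_{a<q} ee((i - i') a/q) = q #{(i,i') : q ∣ i - i'} ≤ q h (h/q + 1)` (for every `i`
the number of `i' ∈ [1,h]` in a residue class mod `q` is `≤ h/q + 1`), and the term `a = 0` is `h²`.
-/

set_option autoImplicit false

namespace Pool.Agent.H24.AB

open Finset

theorem fr_ee_pow (x : ℝ) (a : ℕ) : ee (x * a) = ee x ^ a := by
  unfold ee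
  rw [← Complex.exp_nat_mul]
  congr 1
  push_cast
  ring

theorem fr_ee_eq_one {m : ℤ} {e : ℕ} (he : 1 ≤ e) (h : ee ((m : ℝ) / e) = 1) : (e : ℤ) ∣ m := by
  unfold ee at h
  rw [Complex.exp_eq_one_iff] at h
  obtain ⟨n, hn⟩ := h
  have hpi : (2 * (Real.pi : ℂ) * Complex.I) ≠ 0 := by
    simp [Real.pi_ne_zero]
  have h1 : (((m : ℝ) / e : ℝ) : ℂ) = (n : ℂ) := by
    apply mul_right_cancel₀ hpi
    rw [← hn]
    ring
  have h2 : (m : ℝ) / e = (n : ℝ) := by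
    have h3 : (((m : ℝ) / e : ℝ) : ℂ) = ((n : ℝ) : ℂ) := by
      rw [h1]
      push_cast
      rfl
    exact_mod_cast h3
  have he0 : (e : ℝ) ≠ 0 := by
    have : 0 < e := by omega
    exact_mod_cast this.ne'
  have h4 : (m : ℝ) = (e : ℝ) * n := by
    field_simp at h2
    linarith
  refine ⟨n, ?_⟩
  exact_mod_cast h4

theorem fr_card (q h : ℕ) (hq : 1 ≤ q) (i : ℕ) :
    ((((Icc 1 h).filter (fun j : ℕ => (q : ℤ) ∣ (i : ℤ) - (j : ℤ))).card : ℕ) : ℝ) ≤ (h : ℝ) / q + 1 := by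
  have h1 : (Icc 1 h).filter (fun j : ℕ => (q : ℤ) ∣ (i : ℤ) - (j : ℤ)) =
      (Ioc 0 h).filter (fun j => j ≡ i [MOD q]) := by
    ext j
    rw [Finset.mem_filter, Finset.mem_filter, Finset.mem_Icc, Finset.mem_Ioc]
    constructor
    · rintro ⟨⟨h1, h2⟩, h3⟩
      exact ⟨⟨by omega, h2⟩, (Nat.modEq_iff_dvd).2 h3⟩
    · rintro ⟨⟨h1, h2⟩, h3⟩
      exact ⟨⟨by omega, h2⟩, (Nat.modEq_iff_dvd).1 h3⟩
  have h2 := Nat.Ioc_filter_modEq_card 0 h (by omega : 0 < q) i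
  rw [h1]
  have h3 : (((((Ioc 0 h).filter (fun j => j ≡ i [MOD q])).card : ℕ) : ℤ) : ℝ) ≤ (h : ℝ) / q + 1 := by
    rw [h2]
    rw [Int.cast_max]
    apply max_le
    · have h4 : ((⌊((h : ℚ) - (i : ℚ)) / (q : ℚ)⌋ : ℤ) : ℚ) ≤ ((h : ℚ) - (i : ℚ)) / (q : ℚ) := Int.floor_le _
      have h5 : (((0 : ℕ) : ℚ) - (i : ℚ)) / (q : ℚ) < ((⌊(((0 : ℕ) : ℚ) - (i : ℚ)) / (q : ℚ)⌋ : ℤ) : ℚ) + 1 :=
        Int.lt_floor_add_one _
      have h6 : ((h : ℚ) - (i : ℚ)) / (q : ℚ) - (((0 : ℕ) : ℚ) - (i : ℚ)) / (q : ℚ) = (h : ℚ) / q := by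
        rw [← sub_div]
        congr 1
        push_cast
        ring
      have h7 : (((⌊((h : ℚ) - (i : ℚ)) / (q : ℚ)⌋ - ⌊(((0 : ℕ) : ℚ) - (i : ℚ)) / (q : ℚ)⌋ : ℤ)) : ℚ)
          ≤ (h : ℚ) / q + 1 := by
        push_cast at h4 h5 h6 ⊢
        linarith
      revert h7
      generalize (⌊((h : ℚ) - (i : ℚ)) / (q : ℚ)⌋ - ⌊(((0 : ℕ) : ℚ) - (i : ℚ)) / (q : ℚ)⌋ : ℤ) = z
      intro h7
      have h8 : (((z : ℚ)) : ℝ) ≤ (((h : ℚ) / q + 1 : ℚ) : ℝ) := Rat.cast_le.2 h7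
      push_cast at h8
      exact h8
    · push_cast
      positivity
  exact_mod_cast h3

theorem sum_ee (e : ℕ) (he : 1 ≤ e) (m : ℤ) :
    ∑ a ∈ range e, ee ((m : ℝ) * ((a : ℝ) / e)) = if (e : ℤ) ∣ m then (e : ℂ) else 0 := by
  have he0 : (e : ℝ) ≠ 0 := by
    have : 0 < e := by omega
    exact_mod_cast this.ne'
  have h1 : ∀ a : ℕ, ee ((m : ℝ) * ((a : ℝ) / e)) = ee ((m : ℝ) / e) ^ a := by
    intro a
    rw [← fr_ee_pow]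
    congr 1
    ring
  simp_rw [h1]
  by_cases hd : (e : ℤ) ∣ m
  · rw [if_pos hd]
    obtain ⟨k, hk⟩ := hd
    have h2 : (m : ℝ) / e = ((k : ℤ) : ℝ) := by
      rw [hk]
      push_cast
      field_simp
    rw [h2, ee_int]
    simp
  · rw [if_neg hd]
    have h3 : ee ((m : ℝ) / e) ≠ 1 := fun h => hd (fr_ee_eq_one he h)
    rw [geom_sum_eq h3]
    have h4 : ee ((m : ℝ) / e) ^ e = 1 := by
      rw [← fr_ee_pow, div_mul_cancel₀ _ he0, ee_int]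
    rw [h4, sub_self, zero_div]

theorem mc_fourier (e n h : ℕ) (he : 1 ≤ e) :
    (((mc e n h : ℝ) - (h : ℝ) / e : ℝ) : ℂ) =
      (1 / (e : ℂ)) * ∑ a ∈ Ico 1 e, KK h ((a : ℝ) / e) * ee ((n : ℝ) * ((a : ℝ) / e)) := by
  have he0 : 0 < e := by omega
  have heC : (e : ℂ) ≠ 0 := by exact_mod_cast he0.ne'
  have h1 : ∑ a ∈ range e, KK h ((a : ℝ) / e) * ee ((n : ℝ) * ((a : ℝ) / e)) =
      KK h (((0 : ℕ) : ℝ) / e) * ee ((n : ℝ) * (((0 : ℕ) : ℝ) / e)) +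
      ∑ a ∈ Ico 1 e, KK h ((a : ℝ) / e) * ee ((n : ℝ) * ((a : ℝ) / e)) :=
    Finset.sum_range_eq_add_Ico _ he0
  have h2 : KK h (((0 : ℕ) : ℝ) / e) * ee ((n : ℝ) * (((0 : ℕ) : ℝ) / e)) = h := by
    unfold KK
    simp [ee_zero]
  have h3 : ∑ a ∈ range e, KK h ((a : ℝ) / e) * ee ((n : ℝ) * ((a : ℝ) / e)) =
      ∑ i ∈ Icc 1 h, ∑ a ∈ range e, ee ((((n + i : ℕ) : ℤ) : ℝ) * ((a : ℝ) / e)) := by
    rw [Finset.sum_comm]
    refine Finset.sum_congr rfl fun a _ => ?_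
    unfold KK
    rw [Finset.sum_mul]
    refine Finset.sum_congr rfl fun i _ => ?_
    rw [← ee_add]
    congr 1
    push_cast
    ring
  have h4 : ∑ i ∈ Icc 1 h, ∑ a ∈ range e, ee ((((n + i : ℕ) : ℤ) : ℝ) * ((a : ℝ) / e)) =
      (e : ℂ) * (mc e n h : ℂ) := by
    have h5 : ∀ i ∈ Icc 1 h, ∑ a ∈ range e, ee ((((n + i : ℕ) : ℤ) : ℝ) * ((a : ℝ) / e)) =
        if e ∣ n + i then (e : ℂ) else 0 := by
      intro i _
      rw [sum_ee e he]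
      simp only [Int.natCast_dvd_natCast]
    rw [Finset.sum_congr rfl h5, ← Finset.sum_filter, Finset.sum_const, nsmul_eq_mul, mul_comm]
    congr 2
    unfold mc
    refine Finset.card_bij' (fun i _ => n + i) (fun m _ => m - n) ?_ ?_ ?_ ?_
    · intro i hi
      rw [Finset.mem_filter, Finset.mem_Icc] at hi
      rw [Finset.mem_filter, Finset.mem_Ioc]
      exact ⟨⟨by omega, by omega⟩, hi.2⟩
    · intro m hm
      rw [Finset.mem_filter, Finset.mem_Ioc] at hm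
      rw [Finset.mem_filter, Finset.mem_Icc]
      refine ⟨⟨by omega, by omega⟩, ?_⟩
      have h6 : n + (m - n) = m := by omega
      rw [h6]
      exact hm.2
    · intro i _
      show n + i - n = i
      omega
    · intro m hm
      rw [Finset.mem_filter, Finset.mem_Ioc] at hm
      show n + (m - n) = m
      omega
  have h7 : ∑ a ∈ Ico 1 e, KK h ((a : ℝ) / e) * ee ((n : ℝ) * ((a : ℝ) / e)) =
      (e : ℂ) * (mc e n h : ℂ) - h := by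
    rw [← h4, ← h3, h1, h2]
    ring
  rw [h7]
  push_cast
  field_simp

theorem kk_sum (q h : ℕ) (hq : 1 ≤ q) :
    ∑ a ∈ Ico 1 q, ‖KK h ((a : ℝ) / q)‖ ^ 2 ≤ (q : ℝ) * h := by
  have hq0 : 0 < q := by omega
  have hqR : (0 : ℝ) < q := by exact_mod_cast hq0
  have h1 : ∑ a ∈ range q, ‖KK h ((a : ℝ) / q)‖ ^ 2 =
      ‖KK h (((0 : ℕ) : ℝ) / q)‖ ^ 2 + ∑ a ∈ Ico 1 q, ‖KK h ((a : ℝ) / q)‖ ^ 2 :=
    Finset.sum_range_eq_add_Ico _ hq0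
  have h2 : ‖KK h (((0 : ℕ) : ℝ) / q)‖ ^ 2 = (h : ℝ) ^ 2 := by
    unfold KK
    simp [ee_zero]
  have h3 : ((∑ a ∈ range q, ‖KK h ((a : ℝ) / q)‖ ^ 2 : ℝ) : ℂ) =
      ∑ i ∈ Icc 1 h, ∑ j ∈ Icc 1 h, ∑ a ∈ range q,
        ee ((((i : ℤ) - (j : ℤ) : ℤ) : ℝ) * ((a : ℝ) / q)) := by
    have h4 : ∀ a : ℕ, ((‖KK h ((a : ℝ) / q)‖ ^ 2 : ℝ) : ℂ) = ∑ i ∈ Icc 1 h, ∑ j ∈ Icc 1 h,
        ee ((((i : ℤ) - (j : ℤ) : ℤ) : ℝ) * ((a : ℝ) / q)) := by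
      intro a
      rw [Complex.ofReal_pow, ← Complex.mul_conj']
      unfold KK
      rw [map_sum, Finset.sum_mul_sum]
      refine Finset.sum_congr rfl fun i _ => Finset.sum_congr rfl fun j _ => ?_
      rw [ee_conj, ← ee_add]
      congr 1
      push_cast
      ring
    rw [Complex.ofReal_sum, Finset.sum_congr rfl (fun a _ => h4 a), Finset.sum_comm]
    refine Finset.sum_congr rfl fun i _ => ?_
    rw [Finset.sum_comm]
  have h5 : ∑ a ∈ range q, ‖KK h ((a : ℝ) / q)‖ ^ 2 =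
      ∑ i ∈ Icc 1 h, (q : ℝ) * (((Icc 1 h).filter (fun j : ℕ => (q : ℤ) ∣ (i : ℤ) - (j : ℤ))).card : ℕ) := by
    have h6 : ((∑ a ∈ range q, ‖KK h ((a : ℝ) / q)‖ ^ 2 : ℝ) : ℂ) =
        ((∑ i ∈ Icc 1 h, (q : ℝ) *
          (((Icc 1 h).filter (fun j : ℕ => (q : ℤ) ∣ (i : ℤ) - (j : ℤ))).card : ℕ) : ℝ) : ℂ) := by
      rw [h3, Complex.ofReal_sum]
      refine Finset.sum_congr rfl fun i _ => ?_
      have h7 : ∀ j ∈ Icc 1 h, ∑ a ∈ range q, ee ((((i : ℤ) - (j : ℤ) : ℤ) : ℝ) * ((a : ℝ) / q)) =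
          if (q : ℤ) ∣ (i : ℤ) - (j : ℤ) then (q : ℂ) else 0 := fun j _ => sum_ee q hq _
      rw [Finset.sum_congr rfl h7, ← Finset.sum_filter, Finset.sum_const, nsmul_eq_mul]
      push_cast
      ring
    exact_mod_cast h6
  have h8 : ∑ i ∈ Icc 1 h, (q : ℝ) * (((Icc 1 h).filter (fun j : ℕ => (q : ℤ) ∣ (i : ℤ) - (j : ℤ))).card : ℕ) ≤
      ∑ i ∈ Icc 1 h, (q : ℝ) * ((h : ℝ) / q + 1) :=
    Finset.sum_le_sum fun i _ => mul_le_mul_of_nonneg_left (fr_card q h hq i) hqR.le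
  have h9 : ∑ i ∈ Icc 1 h, (q : ℝ) * ((h : ℝ) / q + 1) = (h : ℝ) ^ 2 + q * h := by
    rw [Finset.sum_const, Nat.card_Icc, nsmul_eq_mul]
    push_cast
    field_simp
  rw [h1, h2] at h5
  linarith

end Pool.Agent.H24.AB
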