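import Pool.Agent.H24.AB.Lbc
import Pool.Agent.H24.AB.H1
import Pool.Agent.H24.VP.Exi

/-!
# [H24 AB Gm] ABUNDANCE (MP_e49dc9_ag): the generic member of a linear system without base points, with explicit data

`H` ample, `s` sections of `H` without common zeros (`LSys X H s`), `k' = k(l)`, `K' = K(l)` (`BC`), `bcM X hbc` the base change of `X`; the generic
member `∑ l i s i` of the system (the first section is repeated, `dupS`), `z` its generic point.
* `gm`: `z` exists; `subM z` is factorial of dimension `2`, and it satisfies `Sf H (subM z) (restriction of the base change)`.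
* `resD_prin`, `hz_prin`: principal divisors are trivial on `z`.
* `gm_lb`: the hypothesis `hlb` of `count` (H24/AB/H1) for the generic member: `P` nef, `T(P,P,P) = 0 < T(P,P,H)`.
-/

set_option autoImplicit false

namespace Pool.Agent.H24.AB

open Pool.Agent.H54.RV Pool.Agent.H83.TU Pool.Agent.H83.TK Pool.Agent.H24.TK Pool.Agent.H41.TK Pool.Agent.H41.TW Pool.Agent.H24.VP
open Pool.Agent.H20.TP (hz)

variable {k K : Type} [Field k] [Field K] [Algebra k K] {X : Mod k K}
  {T : Cart X → Cart X → Cart X → ℝ} {l : Cart X → ℝ} {c : ℝ}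

/-- principal divisors are trivial on a subvariety -/
theorem resD_prin (hX : IsVar X) (z : X.P) (f : K) (hf : f ≠ 0) : resD hX z (prin X f hf) = 1 := by
  refine Cart.ext' _ _ fun x => ?_
  change X.rs z (f / f) = 1
  rw [div_self hf, rs_one]

theorem hz_prin (hX : IsVar X) (z : X.P) (W : Cart X) (f : K) (hf : f ≠ 0) :
    hz hX z (W * prin X f hf) = hz hX z W := by
  unfold hz
  rw [map_mul, resD_prin, mul_one]

section gm

variable {k' K' σ : Type} [Field k'] [Field K'] [Algebra k k'] [Algebra K K'] [Algebra k' K'] [Algebra k K']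
  [IsScalarTower k K K'] [IsScalarTower k k' K'] [Fintype σ] {t : Option σ → k'}

/-- **the generic member** -/
theorem gm [CharZero k] [T0Space X.P] (h : Hyp X) {H : Cart X} (hH : Ample H) {s : Option σ → K} (hs : LSys X H s)
    (hbc : BC k K k' K' t) :
    ∃ (z : (bcM X hbc).P) (hsl : gsec K' t (dupS s) ≠ 0),
      SPr (bcM X hbc) z (bcD h.var h.gen hbc H * prin (bcM X hbc) (gsec K' t (dupS s)) hsl) ∧
      Algebra.trdeg k' ((bcM X hbc).kap z) = 2 ∧
      (∀ w : (subM (isVar_bc h.var h.gen hbc) z).P,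
        UniqueFactorizationMonoid ((subM (isVar_bc h.var h.gen hbc) z).O w)) ∧
      Sf H (subM (isVar_bc h.var h.gen hbc) z)
        ((resD (isVar_bc h.var h.gen hbc) z).comp (bcD h.var h.gen hbc)) := by
  classical
  have hX := h.var
  have hg := h.gen
  have hs' := lsys_dup hs
  obtain ⟨z, hsl, hSPr, htr, hufd⟩ := gs_main hX hg hbc hs'
  have hV := isVar_bc hX hg hbc
  have hT0 : T0Space (bcM X hbc).P := bc_t0 hX hg hbc
  have hchar : CharZero k' := charZero_of_injective_algebraMap (algebraMap k k').injective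
  have hH' : Ample (bcD hX hg hbc H) := bc_ample hX hg hbc _ hH
  have hVS := isVar_sub hV z
  have hgS : ∃ g, Gen (subM hV z) g := ⟨_, gen_sub hV z⟩
  have hHS := res_ample hV z _ hH'
  have hz2 : Algebra.trdeg k' ((bcM X hbc).kap z) = 2 := by
    rw [h.tr, show (3 : Cardinal) = 2 + 1 by norm_num] at htr
    exact Cardinal.add_one_inj.1 htr
  have hfd : ∀ W : Cart X, FiniteDimensional k (secL W 1) := fun W => fd hX hg hH _
  have e1 : ∀ W : Cart X, FiniteDimensional k' (secL (bcD hX hg hbc W) 1) ∧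
      h0 (bcD hX hg hbc W) 1 = h0 W 1 := fun W => by
    have := hfd W
    exact bc_h0 hX hg hbc W 1
  have e2 : ∀ W : Cart X, FiniteDimensional k' (secL (resD hV z (bcD hX hg hbc W)) 1) := fun W =>
    fd hVS hgS hHS _
  have e3 : ∀ W : Cart X, h0 ((bcD hX hg hbc W) ^ 1 *
      (bcD hX hg hbc H * prin (bcM X hbc) (gsec K' t (dupS s)) hsl)⁻¹) 1 = h0 (W * H⁻¹) 1 := by
    intro W
    rw [h0_div_prin, pow_one, ← map_inv, ← map_mul]
    exact (e1 _).2
  obtain ⟨m₂, k₂, K₂, j1, j2, j3, j4, C, φ, hm₂, hC, hφ, hle, hev⟩ := exists_curve hV z hz2 (bc_ample hX hg hbc _ hH)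
  refine ⟨z, hsl, hSPr, hz2, hufd h.ufd, ?_⟩
  refine ⟨hchar, hVS, hgS, t0_sub hV z, hz2, hufd h.ufd, hH, fun D hD => ?_, fun W => ?_,
    fun W D hD => ?_, fun y C hC => ?_, ?_⟩
  · exact res_ample hV z _ (bc_ample hX hg hbc _ hD)
  · have := (e1 W).1
    have := e2 W
    have h1 := ex_le hV hSPr (bcD hX hg hbc W) 1
    rw [e3, (e1 W).2] at h1
    exact h1
  · obtain ⟨n₀, hn⟩ := ser_ample hV (bc_ample hX hg hbc _ hD) z (bcD hX hg hbc W)
    refine ⟨n₀, fun n hn' => ?_⟩
    have h2 := hn n hn'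
    have h3 : bcD hX hg hbc W * bcD hX hg hbc D ^ n = bcD hX hg hbc (W * D ^ n) := by
      rw [map_mul, map_pow]
    rw [h3] at h2
    have := (e1 (W * D ^ n)).1
    have := e2 (W * D ^ n)
    have h1 := ex_dim hV hSPr (bcD hX hg hbc (W * D ^ n)) 1
    rw [e3, (e1 _).2, LinearMap.range_eq_top.2 h2, finrank_top] at h1
    exact h1
  · exact pic_main hX hg hbc hs' (dup_free hs) h.ufd hsl z hSPr y C hC
  · refine ⟨m₂, k₂, K₂, j1, j2, j3, j4, C, φ.comp (bcD hX hg hbc), hm₂, hC, fun D hD => ?_, fun W => ?_,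
      fun W D hD => ?_⟩
    · exact hφ _ (bc_ample hX hg hbc _ hD)
    · have h1 := hle (bcD hX hg hbc W)
      rw [← map_pow, ← map_inv, ← map_mul] at h1
      exact h1
    · obtain ⟨n₀, hn⟩ := hev (bcD hX hg hbc W) (bcD hX hg hbc D) (bc_ample hX hg hbc _ hD)
      refine ⟨n₀, fun n hn' => ?_⟩
      have h1 := hn n hn'
      rw [← map_pow, ← map_mul, ← map_pow, ← map_inv, ← map_mul] at h1
      exact h1

/-- the hypothesis `hlb` of `count` for the generic member -/
theorem gm_lb [CharZero k] [T0Space X.P] (h : Hyp X) (hr : RR T l c) {H : Cart X} {hbc : BC k K k' K' t}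
    {z : (bcM X hbc).P} {f : K'} {hf : f ≠ 0}
    (hS : Sf H (subM (isVar_bc h.var h.gen hbc) z)
      ((resD (isVar_bc h.var h.gen hbc) z).comp (bcD h.var h.gen hbc)))
    {P : Cart X} (hP : ∀ B : Cart X, Ample B → Ample (B * P)) (h3 : T P P P = 0) (hPP : 0 < T P P H) :
    ∃ C : ℝ, ∀ m : ℕ, (hz (isVar_bc h.var h.gen hbc) z
      ((bcD h.var h.gen hbc P) ^ m * (bcD h.var h.gen hbc H * prin (bcM X hbc) f hf)) : ℝ) + m * l P ≤
        h0 ((bcD h.var h.gen hbc P) ^ m * (bcD h.var h.gen hbc H * prin (bcM X hbc) f hf)) 1 + C := by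
  obtain ⟨C, hC⟩ := lbc h hr hS hP hPP
  refine ⟨C - c, fun m => ?_⟩
  have h1 := hC m
  have h2 : chi T l c (P ^ m) = m * l P + c := by
    unfold Pool.Agent.H24.VP.chi
    rw [hr.tri.pow, hr.tri.pow2, hr.tri.pow3, hr.l_pow, h3]
    ring
  rw [h2] at h1
  rw [← mul_assoc, hz_prin, h0_prin, ← map_pow, ← map_mul]
  have : FiniteDimensional k (secL (P ^ m * H) 1) := fd h.var h.gen hS.hH _
  rw [(bc_h0 h.var h.gen hbc (P ^ m * H) 1).2]
  have h4 : (hz (isVar_bc h.var h.gen hbc) z (bcD h.var h.gen hbc (P ^ m * H)) : ℝ) =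
    h0 (((resD (isVar_bc h.var h.gen hbc) z).comp (bcD h.var h.gen hbc)) (P ^ m * H)) 1 := rfl
  rw [h4]
  linarith

end gm

end Pool.Agent.H24.AB
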