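import Pool.Agent.H24.AB.H1c

/-!
# [H24 AB H1d] ABUNDANCE (MP_e49dc9_ag): (H1) in terms of the field of quotients

`F` a subfield of `K` whose elements are quotients of sections of multiples of `P`; `F' = F(t)`, `k' = k(t)`, `K' = K(t)` with the same variables.
* `fq`: the elements of `F'` are quotients of sections of a multiple of `P' = bcD P`.
* `h1_fin`: (H1) for a function `g` on the generic member `z` such that for every prime divisor `p` of the surface `subM z` along which `g` is not a section of `Q' + H'` (`Q` numerically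
  trivial) some element of `F'` is not in the local ring of `p`.
-/

set_option autoImplicit false

namespace Pool.Agent.H24.AB

open Pool.Agent.H54.RV Pool.Agent.H83.TU Pool.Agent.H83.TK
open Pool.Agent.H24.VP (RR Sf Nf)
open Pool.Agent.H20.TP (hz)

variable {k K : Type} [Field k] [Field K] [Algebra k K] {X : Mod k K}
  {T : Cart X → Cart X → Cart X → ℝ} {l : Cart X → ℝ} {c : ℝ}

/-- a common denominator for finitely many quotients -/
theorem com_den {P : Cart X} {ι : Type} (s : Finset ι) (x : ι → K)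
    (hx : ∀ i ∈ s, ∃ (m : ℕ) (a b : K), Sec (P ^ m) 1 a ∧ Sec (P ^ m) 1 b ∧ b ≠ 0 ∧ x i * b = a) :
    ∃ (m : ℕ) (w : K), Sec (P ^ m) 1 w ∧ w ≠ 0 ∧ ∀ i ∈ s, Sec (P ^ m) 1 (x i * w) := by
  classical
  have hmul : ∀ (c c' : ℕ) (φ φ' : K), Sec (P ^ c) 1 φ → Sec (P ^ c') 1 φ' → Sec (P ^ (c + c')) 1 (φ * φ') := by
    intro c c' φ φ' h1 h2 x
    have h3 := h1 x
    have h4 := h2 x
    rw [pow_one] at h3 h4
    have h5 := (X.O x).mul_mem h3 h4
    rw [pow_one, pow_add, mul_eq]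
    have h6 : φ * (P ^ c).eq x * (φ' * (P ^ c').eq x) = φ * φ' * ((P ^ c).eq x * (P ^ c').eq x) := by ring
    rwa [← h6]
  induction s using Finset.induction_on with
  | empty =>
    refine ⟨0, 1, fun x => ?_, one_ne_zero, fun i hi => absurd hi (Finset.notMem_empty i)⟩
    rw [pow_zero, pow_one, one_eq, mul_one]
    exact (X.O x).one_mem
  | insert i s hi ih =>
    obtain ⟨m, w, h1, h2, h3⟩ := ih fun j hj => hx j (Finset.mem_insert_of_mem hj)
    obtain ⟨m', a, b, h4, h5, h6, h7⟩ := hx i (Finset.mem_insert_self _ _)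
    refine ⟨m + m', w * b, hmul _ _ _ _ h1 h5, mul_ne_zero h2 h6, fun j hj => ?_⟩
    rcases Finset.mem_insert.1 hj with rfl | hj
    · have e : x j * (w * b) = w * a := by rw [← h7]; ring
      rw [e]
      exact hmul _ _ _ _ h1 h4
    · have e : x j * (w * b) = x j * w * b := by ring
      rw [e]
      exact hmul _ _ _ _ (h3 j hj) h5

variable {k' K' σ : Type} [Field k'] [Field K'] [Algebra k k'] [Algebra K K'] [Algebra k' K'] [Algebra k K']
  [IsScalarTower k K K'] [IsScalarTower k k' K'] [Finite σ] {t : σ → k'}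
  {F F' : Type} [Field F] [Field F'] [Algebra F K] [Algebra F F'] [Algebra F' K'] [Algebra F K'] [IsScalarTower F K K']
  [IsScalarTower F F' K'] {t' : σ → F'}

open MvPolynomial in
/-- a polynomial with coefficients in `F`, times a common denominator, is a section -/
theorem sec_poly (hX : IsVar X) [T0Space X.P] (hg : ∃ g, Gen X g) (hbc : BC k K k' K' t)
    (htt : ∀ i, algebraMap F' K' (t' i) = algebraMap k' K' (t i)) {D : Cart X} (p : MvPolynomial σ F) {w : K}
    (hw : ∀ j ∈ p.support, Sec D 1 (algebraMap F K (p.coeff j) * w)) :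
    Sec (bcD hX hg hbc D) 1 (algebraMap F' K' (aeval t' p) * algebraMap K K' w) := by
  have e1 : algebraMap F' K' (aeval t' p) * algebraMap K K' w =
      ∑ j ∈ p.support, (∏ i ∈ j.support, t i ^ j i) • algebraMap K K' (algebraMap F K (p.coeff j) * w) := by
    rw [aeval_def, eval₂_eq, map_sum, Finset.sum_mul]
    refine Finset.sum_congr rfl fun j _ => ?_
    rw [map_mul, map_prod, Algebra.smul_def, map_prod, map_mul]
    have e2 : algebraMap F' K' (algebraMap F F' (p.coeff j)) = algebraMap K K' (algebraMap F K (p.coeff j)) := by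
      rw [← IsScalarTower.algebraMap_apply F F' K', IsScalarTower.algebraMap_apply F K K']
    rw [e2]
    have e3 : ∏ i ∈ j.support, algebraMap F' K' (t' i ^ j i) = ∏ i ∈ j.support, algebraMap k' K' (t i ^ j i) :=
      Finset.prod_congr rfl fun i _ => by rw [map_pow, map_pow, htt]
    rw [e3]
    ring
  have h1 : algebraMap F' K' (aeval t' p) * algebraMap K K' w ∈ secL (bcD hX hg hbc D) 1 := by
    rw [bc_secL, e1]
    exact Submodule.sum_mem _ fun j hj => Submodule.smul_mem _ _ (Submodule.subset_span ⟨_, hw j hj, rfl⟩)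
  exact h1

open MvPolynomial in
/-- the elements of `F'` are quotients of sections of a multiple of `P'` -/
theorem fq (hX : IsVar X) [T0Space X.P] (hg : ∃ g, Gen X g) (hbc : BC k K k' K' t) (hbF : BC F K F' K' t')
    (htt : ∀ i, algebraMap F' K' (t' i) = algebraMap k' K' (t i)) {P : Cart X}
    (hF : ∀ x : F, ∃ (m : ℕ) (a b : K), Sec (P ^ m) 1 a ∧ Sec (P ^ m) 1 b ∧ b ≠ 0 ∧ algebraMap F K x * b = a) (c : F') :
    ∃ (m : ℕ) (φ ψ : K'), Sec ((bcD hX hg hbc P) ^ m) 1 φ ∧ Sec ((bcD hX hg hbc P) ^ m) 1 ψ ∧ φ ≠ 0 ∧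
      algebraMap F' K' c * φ = ψ := by
  classical
  obtain ⟨p, q, hq, hpq⟩ := hbF.genk c
  -- the common denominator
  obtain ⟨m, w, hw, hw0, hws⟩ := com_den (P := P) (p.support.map ⟨Sum.inl, Sum.inl_injective⟩ ∪
      q.support.map ⟨Sum.inr, Sum.inr_injective⟩)
    (fun i : (σ →₀ ℕ) ⊕ (σ →₀ ℕ) => Sum.elim (fun j => algebraMap F K (p.coeff j)) (fun j => algebraMap F K (q.coeff j)) i) (fun i _ => by
        rcases i with i | i
        · exact hF (p.coeff i)
        · exact hF (q.coeff i))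
  have hp1 : ∀ j ∈ p.support, Sec (P ^ m) 1 (algebraMap F K (p.coeff j) * w) := fun j hj =>
    hws (Sum.inl j) (Finset.mem_union_left _ (Finset.mem_map_of_mem _ hj))
  have hq1 : ∀ j ∈ q.support, Sec (P ^ m) 1 (algebraMap F K (q.coeff j) * w) := fun j hj =>
    hws (Sum.inr j) (Finset.mem_union_right _ (Finset.mem_map_of_mem _ hj))
  refine ⟨m, algebraMap F' K' (aeval t' q) * algebraMap K K' w, algebraMap F' K' (aeval t' p) * algebraMap K K' w,
    ?_, ?_, mul_ne_zero ?_ ?_, ?_⟩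
  · rw [← map_pow]
    exact sec_poly hX hg hbc htt q hq1
  · rw [← map_pow]
    exact sec_poly hX hg hbc htt p hp1
  · intro h1
    apply hq
    have h2 : aeval (fun i => algebraMap F' K' (t' i)) (map (algebraMap F K) q) = 0 := by
      rw [aeval_map_algebraMap]
      rw [← h1, aeval_def, aeval_def, hom_eval₂]
      congr 1
      rw [← IsScalarTower.algebraMap_eq F F' K']
    have h3 := hbF.ind (h2.trans (map_zero _).symm)
    exact map_injective _ (algebraMap F K).injective (h3.trans (map_zero _).symm)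
  · rw [Ne, map_eq_zero]
    exact hw0
  · rw [← mul_assoc, ← map_mul, hpq]

/-- **(H1)** in terms of the field of quotients -/
theorem h1_fin [CharZero k] [T0Space X.P] (h : Hyp X) (hr : RR T l c) {H P : Cart X} (hH : Ample H)
    (hbc : BC k K k' K' t) (hbF : BC F K F' K' t') (htt : ∀ i, algebraMap F' K' (t' i) = algebraMap k' K' (t i))
    {z : (bcM X hbc).P} {f : K'} {hf : f ≠ 0}
    (hS : SPr (bcM X hbc) z (bcD h.var h.gen hbc H * prin (bcM X hbc) f hf))
    (hu : ∀ w : (subM (isVar_bc h.var h.gen hbc) z).P,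
      UniqueFactorizationMonoid ((subM (isVar_bc h.var h.gen hbc) z).O w))
    {Q : Cart X} {C : ℝ} (hlb : ∀ m : ℕ, (hz (isVar_bc h.var h.gen hbc) z
      ((bcD h.var h.gen hbc P) ^ m * (bcD h.var h.gen hbc Q * (bcD h.var h.gen hbc H * prin (bcM X hbc) f hf))) : ℝ) +
        m * l P ≤ h0 ((bcD h.var h.gen hbc P) ^ m *
          (bcD h.var h.gen hbc Q * (bcD h.var h.gen hbc H * prin (bcM X hbc) f hf))) 1 + C)
    (hQ : ∀ B : Cart X, Ample B → Ample (B * Q⁻¹)) (hTQ : ∀ U V, T Q U V = 0)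
    (hP : ∀ B : Cart X, Ample B → Ample (B * P)) (h3 : T P P P = 0) (hPP : 0 < T P P H) (hl : 0 < l P)
    (hng : ¬ ∃ c₀ : ℝ, 0 < c₀ ∧ ∃ n₀ : ℕ, ∀ n : ℕ, n₀ ≤ n → c₀ * (n : ℝ) ^ 2 ≤ h0 (P ^ n) 1)
    (hF : ∀ x : F, ∃ (m : ℕ) (a b : K), Sec (P ^ m) 1 a ∧ Sec (P ^ m) 1 b ∧ b ≠ 0 ∧ algebraMap F K x * b = a)
    {r : ℕ} (hr1 : 1 ≤ r) {g : (bcM X hbc).kap z}
    (hk : ∀ p : PDiv (subM (isVar_bc h.var h.gen hbc) z),
      g * (resD (isVar_bc h.var h.gen hbc) z (bcD h.var h.gen hbc (Q * H))).eq p.η ∉ (subM (isVar_bc h.var h.gen hbc) z).O p.η →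
      ∃ x : F', (bcM X hbc).rs z (algebraMap F' K' x) ∉ (subM (isVar_bc h.var h.gen hbc) z).O p.η) :
    ∃ (n : ℕ) (b a : K'), Sec ((bcD h.var h.gen hbc P) ^ (n * r)) 1 b ∧ b ≠ 0 ∧
      Sec ((bcD h.var h.gen hbc P) ^ (n * r) *
        (bcD h.var h.gen hbc Q * (bcD h.var h.gen hbc H * prin (bcM X hbc) f hf))) 1 a ∧
      a / b * (bcD h.var h.gen hbc Q * (bcD h.var h.gen hbc H * prin (bcM X hbc) f hf)).eq z ∈ (bcM X hbc).O z ∧
      (bcM X hbc).rs z (a / b * (bcD h.var h.gen hbc Q * (bcD h.var h.gen hbc H * prin (bcM X hbc) f hf)).eq z) = g := by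
  refine h1_gm h hr hH hbc hS hu hlb hQ hTQ hP h3 hPP hl hng hr1 (fun p hp => ?_)
  obtain ⟨x, hx⟩ := hk p hp
  obtain ⟨m, φ, ψ, h1, h2, h4, h5⟩ := fq h.var h.gen hbc hbF htt hF x
  refine ⟨m, φ, ψ, h1, h2, h4, fun h6 => hx ?_⟩
  have hun := gm_un h hr hH hbc hS hP h3 hPP m φ h1 h4
  have hψ : ψ * ((bcD h.var h.gen hbc P) ^ m).eq z ∈ (bcM X hbc).O z := by
    have := h2 z
    rwa [pow_one] at this
  have e1 : algebraMap F' K' x = ψ * ((bcD h.var h.gen hbc P) ^ m).eq z * (φ * ((bcD h.var h.gen hbc P) ^ m).eq z)⁻¹ := by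
    rw [← h5]
    have := ((bcD h.var h.gen hbc P) ^ m).ne z
    field_simp
  have e2 : (bcM X hbc).rs z (algebraMap F' K' x) = (bcM X hbc).rs z (ψ * ((bcD h.var h.gen hbc P) ^ m).eq z) /
      (bcM X hbc).rs z (φ * ((bcD h.var h.gen hbc P) ^ m).eq z) := by
    rw [e1, ← div_eq_mul_inv, rs_div z hψ hun]
  rw [e2]
  exact h6

end Pool.Agent.H24.AB
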