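import Pool.Agent.H24.AB.H1d

/-!
# [H24 AB H1e] ABUNDANCE (MP_e49dc9_ag): (H1) with the point `z` given

`s : Option σ → K` a linear system in `L(X, H)` (`LSys`), free without the first section; `z : BP X σ` the generic point of the generic member (data of `gs_pt`).
* `gm_z`: `SPr`, dimension `2`, factorial, `Sf`.
* `h1_z`: (H1) for `z`.
-/

set_option autoImplicit false

namespace Pool.Agent.H24.AB

open Pool.Agent.H54.RV Pool.Agent.H83.TU Pool.Agent.H83.TK Pool.Agent.H24.TK Pool.Agent.H41.TK Pool.Agent.H41.TW Pool.Agent.H24.VP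
open Pool.Agent.H20.TP (hz)
open MvPolynomial (map)

variable {k K : Type} [Field k] [Field K] [Algebra k K] {X : Mod k K}
  {T : Cart X → Cart X → Cart X → ℝ} {l : Cart X → ℝ} {c : ℝ}
  {k' K' σ : Type} [Field k'] [Field K'] [Algebra k k'] [Algebra K K'] [Algebra k' K'] [Algebra k K']
  [IsScalarTower k K K'] [IsScalarTower k k' K'] [Fintype σ] {t : σ → k'}

/-- **the generic member**, its generic point given -/
theorem gm_z [CharZero k] [T0Space X.P] (h : Hyp X) {H : Cart X} (hH : Ample H) {s : Option σ → K} (hs : LSys X H s)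
    (hf : ∀ x, ∃ j : σ, Un (X.O x) (s (some j) * H.eq x)) (hbc : BC k K k' K' t) {g : X.P} (hg : Gen X g) (z : BP X σ)
    (hz : z.x = g) (hq : ∀ f : MvPolynomial σ (X.O z.x), red X σ z.x f ∈ z.q ↔
      map ((X.O z.x).val : X.O z.x →+* K) (linO hs z.x) ∣ map ((X.O z.x).val : X.O z.x →+* K) f) :
    SPr (bcM X hbc) z (bcD h.var h.gen hbc H * prin (bcM X hbc) (gsec K' t s) (gsec_ne hbc hs g)) ∧
      Algebra.trdeg k' ((bcM X hbc).kap z) = 2 ∧
      (∀ w : (subM (isVar_bc h.var h.gen hbc) z).P,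
        UniqueFactorizationMonoid ((subM (isVar_bc h.var h.gen hbc) z).O w)) ∧
      Sf H (subM (isVar_bc h.var h.gen hbc) z)
        ((resD (isVar_bc h.var h.gen hbc) z).comp (bcD h.var h.gen hbc)) := by
  classical
  have hX := h.var
  have hg' := h.gen
  have hsl := gsec_ne hbc hs g
  have hSPr : SPr (bcM X hbc) z (bcD h.var h.gen hbc H * prin (bcM X hbc) (gsec K' t s) hsl) :=
    gs_spr hX hg hbc hs z hz hq
  have htr := gs_trdeg hX hg hbc hs z hz hq
  have hufd : (∀ x, UniqueFactorizationMonoid (X.O x)) → ∀ w : (subM (isVar_bc hX hg' hbc) z).P,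
      UniqueFactorizationMonoid ((subM (isVar_bc hX hg' hbc) z).O w) :=
    fun hu w => gs_ufd hX hg hbc hs z hz hq hu w
  have hV := isVar_bc hX hg' hbc
  have hT0 : T0Space (bcM X hbc).P := bc_t0 hX hg' hbc
  have hchar : CharZero k' := charZero_of_injective_algebraMap (algebraMap k k').injective
  have hH' : Ample (bcD hX hg' hbc H) := bc_ample hX hg' hbc _ hH
  have hVS := isVar_sub hV z
  have hgS : ∃ g, Gen (subM hV z) g := ⟨_, gen_sub hV z⟩
  have hHS := res_ample hV z _ hH'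
  have hz2 : Algebra.trdeg k' ((bcM X hbc).kap z) = 2 := by
    rw [h.tr, show (3 : Cardinal) = 2 + 1 by norm_num] at htr
    exact Cardinal.add_one_inj.1 htr
  have hfd : ∀ W : Cart X, FiniteDimensional k (secL W 1) := fun W => fd hX hg' hH _
  have e1 : ∀ W : Cart X, FiniteDimensional k' (secL (bcD hX hg' hbc W) 1) ∧
      h0 (bcD hX hg' hbc W) 1 = h0 W 1 := fun W => by
    have := hfd W
    exact bc_h0 hX hg' hbc W 1
  have e2 : ∀ W : Cart X, FiniteDimensional k' (secL (resD hV z (bcD hX hg' hbc W)) 1) := fun W =>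
    fd hVS hgS hHS _
  have e3 : ∀ W : Cart X, h0 ((bcD hX hg' hbc W) ^ 1 *
      (bcD hX hg' hbc H * prin (bcM X hbc) (gsec K' t s) hsl)⁻¹) 1 = h0 (W * H⁻¹) 1 := by
    intro W
    rw [h0_div_prin, pow_one, ← map_inv, ← map_mul]
    exact (e1 _).2
  obtain ⟨m₂, k₂, K₂, j1, j2, j3, j4, C, φ, hm₂, hC, hφ, hle, hev⟩ := exists_curve hV z hz2 (bc_ample hX hg' hbc _ hH)
  refine ⟨hSPr, hz2, hufd h.ufd, ?_⟩
  refine ⟨hchar, hVS, hgS, t0_sub hV z, hz2, hufd h.ufd, hH, fun D hD => ?_, fun W => ?_,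
    fun W D hD => ?_, fun y C hC => ?_, ?_⟩
  · exact res_ample hV z _ (bc_ample hX hg' hbc _ hD)
  · have := (e1 W).1
    have := e2 W
    have h1 := ex_le hV hSPr (bcD hX hg' hbc W) 1
    rw [e3, (e1 W).2] at h1
    exact h1
  · obtain ⟨n₀, hn⟩ := ser_ample hV (bc_ample hX hg' hbc _ hD) z (bcD hX hg' hbc W)
    refine ⟨n₀, fun n hn' => ?_⟩
    have h2 := hn n hn'
    have h3 : bcD hX hg' hbc W * bcD hX hg' hbc D ^ n = bcD hX hg' hbc (W * D ^ n) := by
      rw [map_mul, map_pow]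
    rw [h3] at h2
    have := (e1 (W * D ^ n)).1
    have := e2 (W * D ^ n)
    have h1 := ex_dim hV hSPr (bcD hX hg' hbc (W * D ^ n)) 1
    rw [e3, (e1 _).2, LinearMap.range_eq_top.2 h2, finrank_top] at h1
    exact h1
  · exact pic_main hX hg' hbc hs hf h.ufd hsl z hSPr y C hC
  · refine ⟨m₂, k₂, K₂, j1, j2, j3, j4, C, φ.comp (bcD hX hg' hbc), hm₂, hC, fun D hD => ?_, fun W => ?_,
      fun W D hD => ?_⟩
    · exact hφ _ (bc_ample hX hg' hbc _ hD)
    · have h1 := hle (bcD hX hg' hbc W)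
      rw [← map_pow, ← map_inv, ← map_mul] at h1
      exact h1
    · obtain ⟨n₀, hn⟩ := hev (bcD hX hg' hbc W) (bcD hX hg' hbc D) (bc_ample hX hg' hbc _ hD)
      refine ⟨n₀, fun n hn' => ?_⟩
      have h1 := hn n hn'
      rw [← map_pow, ← map_mul, ← map_pow, ← map_inv, ← map_mul] at h1
      exact h1

/-- **(H1)** for the generic point `z` of the generic member -/
theorem h1_z [CharZero k] [T0Space X.P] (h : Hyp X) (hr : RR T l c) {H P : Cart X} (hH : Ample H)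
    {s : Option σ → K} (hs : LSys X H s) (hf : ∀ x, ∃ j : σ, Un (X.O x) (s (some j) * H.eq x))
    {F F' : Type} [Field F] [Field F'] [Algebra F K] [Algebra F F'] [Algebra F' K'] [Algebra F K'] [IsScalarTower F K K']
    [IsScalarTower F F' K'] {t' : σ → F'}
    (hbc : BC k K k' K' t) (hbF : BC F K F' K' t') (htt : ∀ i, algebraMap F' K' (t' i) = algebraMap k' K' (t i))
    {g : X.P} (hg : Gen X g) (z : BP X σ)
    (hz : z.x = g) (hq : ∀ f : MvPolynomial σ (X.O z.x), red X σ z.x f ∈ z.q ↔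
      map ((X.O z.x).val : X.O z.x →+* K) (linO hs z.x) ∣ map ((X.O z.x).val : X.O z.x →+* K) f)
    {Q : Cart X} (hQ : ∀ B : Cart X, Ample B → Ample (B * Q)) (hTQ : ∀ U V, T Q U V = 0)
    (hQ' : ∀ B : Cart X, Ample B → Ample (B * Q⁻¹))
    (hP : ∀ B : Cart X, Ample B → Ample (B * P)) (h3 : T P P P = 0) (hPP : 0 < T P P H) (hl : 0 < l P)
    (hng : ¬ ∃ c₀ : ℝ, 0 < c₀ ∧ ∃ n₀ : ℕ, ∀ n : ℕ, n₀ ≤ n → c₀ * (n : ℝ) ^ 2 ≤ h0 (P ^ n) 1)
    (hF : ∀ x : F, ∃ (m : ℕ) (a b : K), Sec (P ^ m) 1 a ∧ Sec (P ^ m) 1 b ∧ b ≠ 0 ∧ algebraMap F K x * b = a)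
    {r : ℕ} (hr1 : 1 ≤ r) (φ : (bcM X hbc).kap z)
    (hk : ∀ p : PDiv (subM (isVar_bc h.var h.gen hbc) z),
      φ * (resD (isVar_bc h.var h.gen hbc) z (bcD h.var h.gen hbc (Q * H))).eq p.η ∉ (subM (isVar_bc h.var h.gen hbc) z).O p.η →
      ∃ x : F', (bcM X hbc).rs z (algebraMap F' K' x) ∉ (subM (isVar_bc h.var h.gen hbc) z).O p.η) :
    ∃ (n : ℕ) (b a : K'), Sec ((bcD h.var h.gen hbc P) ^ (n * r)) 1 b ∧ b ≠ 0 ∧
      Sec ((bcD h.var h.gen hbc P) ^ (n * r) *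
        (bcD h.var h.gen hbc Q * (bcD h.var h.gen hbc H * prin (bcM X hbc) (gsec K' t s) (gsec_ne hbc hs g)))) 1 a ∧
      a / b * (bcD h.var h.gen hbc Q *
        (bcD h.var h.gen hbc H * prin (bcM X hbc) (gsec K' t s) (gsec_ne hbc hs g))).eq z ∈ (bcM X hbc).O z ∧
      (bcM X hbc).rs z (a / b * (bcD h.var h.gen hbc Q *
        (bcD h.var h.gen hbc H * prin (bcM X hbc) (gsec K' t s) (gsec_ne hbc hs g))).eq z) = φ := by
  obtain ⟨h1, h2, h4, h5⟩ := gm_z h hH hs hf hbc hg z hz hq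
  obtain ⟨C, hC⟩ := gm_lb_tw h hr (f := gsec K' t s) (hf := gsec_ne hbc hs g) h5 hP h3 hPP hQ hTQ
  exact h1_fin h hr hH hbc hbF htt h1 h4 hC hQ' hTQ hP h3 hPP hl hng hF hr1 hk

end Pool.Agent.H24.AB
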