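import Pool.Agent.H24.AB.Defs

/-!
# Module LSP: well spaced points

PROOF. `β_j ∈ [-1/2, 1/2]`, `β_j = α_j - k_j`, all `|β_j| ≥ δ`, and for `j ≠ j'` `|β_j - β_j'| ≥ δ` (`hsp`; the integer is `k_j - k_j'`).
The map `j ↦ (decide (0 ≤ β_j), ⌊|β_j|/δ⌋₊)` is injective on `s`: if both components agree, `β_j` and `β_j'` have the same sign and
`| |β_j| - |β_j'| | < δ`. The second component `k` satisfies `k ≥ 1`, `|β_j| ≥ k δ`, so `1/β_j² ≤ 1/(k δ)²`, and
`∑_{j} 1/β_j² ≤ 2 ∑_{k=1}^K 1/(k δ)² ≤ 2 * 2/δ²` (`∑_{k=1}^K 1/k² ≤ 2 - 1/K ≤ 2`, induction). This gives `4/δ²`.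
-/

set_option autoImplicit false

namespace Pool.Agent.H24.AB

open Finset

private lemma lsp_aux (K : ℕ) (hK : 1 ≤ K) : ∑ k ∈ Icc 1 K, 1 / (k : ℝ) ^ 2 ≤ 2 - 1 / (K : ℝ) := by
  induction K, hK using Nat.le_induction with
  | base => norm_num
  | succ K hK ih =>
    rw [sum_Icc_succ_top (by omega)]
    have hK0 : (0 : ℝ) < K := by exact_mod_cast hK
    have h1 : 1 / ((K + 1 : ℕ) : ℝ) ^ 2 ≤ 1 / K - 1 / ((K + 1 : ℕ) : ℝ) := by
      push_cast
      rw [div_sub_div _ _ hK0.ne' (by positivity), div_le_div_iff₀ (by positivity) (by positivity)]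
      nlinarith
    linarith

private lemma lsp_aux2 (K : ℕ) : ∑ k ∈ Icc 1 K, 1 / (k : ℝ) ^ 2 ≤ 2 := by
  rcases Nat.eq_zero_or_pos K with rfl | hK
  · simp
  · have h1 := lsp_aux K hK
    have h2 : (0 : ℝ) ≤ 1 / K := by positivity
    linarith

theorem sum_inv_sq_spaced {ι : Type} (s : Finset ι) (β : ι → ℝ) (δ : ℝ) (hδ : 0 < δ)
    (h0 : ∀ i ∈ s, δ ≤ |β i|) (hsp : ∀ i ∈ s, ∀ j ∈ s, i ≠ j → δ ≤ |β i - β j|) :
    ∑ i ∈ s, 1 / (β i) ^ 2 ≤ 4 / δ ^ 2 := by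
  classical
  set f : ι → Bool × ℕ := fun i => (decide (0 ≤ β i), ⌊|β i| / δ⌋₊) with hf
  have hinj : Set.InjOn f (s : Set ι) := by
    intro i hi j hj hij
    by_contra hne
    have h1 := hsp i hi j hj hne
    simp only [hf, Prod.mk.injEq, decide_eq_decide] at hij
    obtain ⟨h2, h3⟩ := hij
    have a1 := Nat.floor_le (div_nonneg (abs_nonneg (β i)) hδ.le)
    have a2 := Nat.lt_floor_add_one (|β i| / δ)
    have b1 := Nat.floor_le (div_nonneg (abs_nonneg (β j)) hδ.le)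
    have b2 := Nat.lt_floor_add_one (|β j| / δ)
    rw [h3] at a1 a2
    rw [le_div_iff₀ hδ] at a1 b1
    rw [div_lt_iff₀ hδ] at a2 b2
    have h4 : |β i| - |β j| < δ := by linarith
    have h5 : |β j| - |β i| < δ := by linarith
    rcases le_or_gt 0 (β i) with h6 | h6
    · have h7 := h2.1 h6
      rw [abs_of_nonneg h6, abs_of_nonneg h7] at h4 h5
      have : |β i - β j| < δ := abs_lt.2 ⟨by linarith, h4⟩
      linarith
    · have h7 : β j < 0 := by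
        by_contra h8
        exact absurd (h2.2 (not_lt.1 h8)) (not_le.2 h6)
      rw [abs_of_neg h6, abs_of_neg h7] at h4 h5
      have : |β i - β j| < δ := abs_lt.2 ⟨by linarith, by linarith⟩
      linarith
  have hpos : ∀ i ∈ s, 1 ≤ (f i).2 := by
    intro i hi
    rw [hf]
    apply Nat.le_floor
    rw [Nat.cast_one, one_le_div hδ]
    exact h0 i hi
  have hterm : ∀ i ∈ s, 1 / (β i) ^ 2 ≤ 1 / (((f i).2 : ℝ) * δ) ^ 2 := by
    intro i hi
    have h1 := Nat.floor_le (div_nonneg (abs_nonneg (β i)) hδ.le)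
    rw [le_div_iff₀ hδ] at h1
    have h2 : (0 : ℝ) < ((f i).2 : ℝ) * δ :=
      mul_pos (by exact_mod_cast hpos i hi) hδ
    have h3 : (((f i).2 : ℝ) * δ) ^ 2 ≤ (β i) ^ 2 := by
      rw [← sq_abs (β i)]
      exact pow_le_pow_left₀ h2.le h1 2
    exact one_div_le_one_div_of_le (by positivity) h3
  set K : ℕ := s.sup (fun i => (f i).2) with hK
  have hsub : s.image f ⊆ (univ : Finset Bool) ×ˢ Icc 1 K := by
    intro x hx
    obtain ⟨i, hi, rfl⟩ := mem_image.1 hx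
    refine mem_product.2 ⟨mem_univ _, mem_Icc.2 ⟨hpos i hi, ?_⟩⟩
    exact le_sup (f := fun i => (f i).2) hi
  calc ∑ i ∈ s, 1 / (β i) ^ 2 ≤ ∑ i ∈ s, 1 / (((f i).2 : ℝ) * δ) ^ 2 := sum_le_sum hterm
    _ = ∑ x ∈ s.image f, 1 / ((x.2 : ℝ) * δ) ^ 2 := by rw [sum_image hinj]
    _ ≤ ∑ x ∈ (univ : Finset Bool) ×ˢ Icc 1 K, 1 / ((x.2 : ℝ) * δ) ^ 2 :=
        sum_le_sum_of_subset_of_nonneg hsub (fun x _ _ => by positivity)
    _ = 2 * ((∑ k ∈ Icc 1 K, 1 / (k : ℝ) ^ 2) / δ ^ 2) := by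
        rw [sum_product]
        simp only [mul_pow, sum_const, card_univ, Fintype.card_bool, nsmul_eq_mul, Nat.cast_ofNat]
        rw [sum_div]
        congr 1
        refine sum_congr rfl (fun k _ => ?_)
        rw [div_div]
    _ ≤ 2 * (2 / δ ^ 2) := by
        gcongr
        exact lsp_aux2 K
    _ = 4 / δ ^ 2 := by ring

end Pool.Agent.H24.AB
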