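import Pool.Agent.H24.AB.LSK
import Pool.Agent.H24.AB.LSP

/-!
# Module LS: the large sieve inequality (dual form) with a crude constant

PROOF. For real `t` put `f t = ∑_i c_i e(t α_i)`. Let `L = 2 (N + ⌈1/δ⌉)` (natural), `D(θ) = ∑_{x<L} e(x θ)`.
(1) `∑_{n ∈ (M, M+N]} ‖f n‖² ≤ (2/L) ∑_{x,y < L} ‖f(M + x - y)‖²`: `n = M + j`, `1 ≤ j ≤ N ≤ L/2`, and `x - y = j` has `L - j ≥ L/2`
solutions `x, y < L`.
(2) `∑_{x,y<L} ‖f(M+x-y)‖² = ∑_{i,j} c_i conj(c_j) e(M(α_i - α_j)) ‖D(α_i - α_j)‖²` (expand the square; `∑_{x,y} e((x-y)θ) = D(θ) conj D(θ)`),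
so it is `≤ ∑_{i,j} ‖c_i‖ ‖c_j‖ ‖D(α_i-α_j)‖² ≤ ∑_i ‖c_i‖² ∑_j ‖D(α_i - α_j)‖²` (`2ab ≤ a²+b²`, `‖D(-θ)‖ = ‖D(θ)‖`).
(3) `‖D(θ)‖ ≤ L`, and `‖D(θ)‖ ≤ 1/(2 ‖θ‖)`, `‖θ‖` the distance to the nearest integer: `D(θ)(e(θ) - 1) = e(Lθ) - 1`,
`‖e(θ) - 1‖ = 2 |sin π θ| ≥ 4 ‖θ‖` (`Real.mul_le_sin`; reduce `θ` modulo 1 with `round θ`).
(4) For fixed `i`: `∑_{j ≠ i} 1/(4 ‖α_i - α_j‖²) ≤ (1/4) ∑_{k ≥ 1} 2/(k δ)² ≤ 1/δ²`: put `β_j = (α_j - α_i) - round(α_j - α_i) ∈ [-1/2, 1/2]`,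
`|β_j| ≥ δ` for `j ≠ i`, and two `j ≠ j'` with `β_j, β_j'` of the same sign and in the same interval `[kδ, (k+1)δ)` would have
`|β_j - β_j'| < δ`, which contradicts `hsp`. So `j ↦ (sign β_j, ⌊|β_j|/δ⌋)` is injective, with second component `≥ 1`.
(5) Total: `(2/L)(L² + 1/δ²) ∑ ‖c_i‖² = (2L + 2/(L δ²)) ∑ ‖c_i‖²`, `L ≤ 2N + 2/δ + 2`, `2/(Lδ²) ≤ 1/δ`, `1 ≤ 1/δ`.
-/

set_option autoImplicit false

namespace Pool.Agent.H24.AB

open Finset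

private theorem ls_expand {ι : Type} (s : Finset ι) (α : ι → ℝ) (c : ι → ℂ) (t : ℝ) :
    ((‖∑ i ∈ s, c i * ee (t * α i)‖ ^ 2 : ℝ) : ℂ) =
      ∑ i ∈ s, ∑ j ∈ s, c i * (starRingEnd ℂ) (c j) * ee (t * (α i - α j)) := by
  have h1 : ∀ z : ℂ, ((‖z‖ ^ 2 : ℝ) : ℂ) = z * (starRingEnd ℂ) z := by
    intro z
    rw [Complex.mul_conj, Complex.normSq_eq_norm_sq]
  rw [h1, map_sum, Finset.sum_mul_sum]
  refine Finset.sum_congr rfl fun i _ => Finset.sum_congr rfl fun j _ => ?_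
  rw [map_mul, ee_conj]
  have h2 : t * (α i - α j) = t * α i + -(t * α j) := by ring
  rw [h2, ee_add]
  ring

private theorem ls_double (M L : ℕ) (θ : ℝ) :
    ∑ x ∈ range L, ∑ y ∈ range L, ee (((M : ℝ) + x - y) * θ) =
      ee (M * θ) * ((‖∑ x ∈ range L, ee (x * θ)‖ ^ 2 : ℝ) : ℂ) := by
  have h1 : ∀ z : ℂ, ((‖z‖ ^ 2 : ℝ) : ℂ) = z * (starRingEnd ℂ) z := by
    intro z
    rw [Complex.mul_conj, Complex.normSq_eq_norm_sq]
  rw [h1, map_sum, Finset.sum_mul_sum, Finset.mul_sum]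
  refine Finset.sum_congr rfl fun x _ => ?_
  rw [Finset.mul_sum]
  refine Finset.sum_congr rfl fun y _ => ?_
  rw [ee_conj]
  have h2 : ((M : ℝ) + x - y) * θ = M * θ + (x * θ + -(y * θ)) := by ring
  rw [h2, ee_add, ee_add]

private theorem ls_neg (L : ℕ) (θ : ℝ) :
    ‖∑ x ∈ range L, ee (x * -θ)‖ = ‖∑ x ∈ range L, ee (x * θ)‖ := by
  have h : ∑ x ∈ range L, ee (x * -θ) = (starRingEnd ℂ) (∑ x ∈ range L, ee (x * θ)) := by
    rw [map_sum]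
    refine Finset.sum_congr rfl fun x _ => ?_
    rw [ee_conj]
    congr 1
    ring
  rw [h, RCLike.norm_conj]

private theorem ls_row {ι : Type} [DecidableEq ι] (s : Finset ι) (α : ι → ℝ) (δ : ℝ) (hδ : 0 < δ)
    (hsp : ∀ i ∈ s, ∀ j ∈ s, i ≠ j → ∀ k : ℤ, δ ≤ |α i - α j - k|) (L : ℕ) (i : ι) (hi : i ∈ s) :
    ∑ j ∈ s, ‖∑ x ∈ range L, ee (x * (α i - α j))‖ ^ 2 ≤ (L : ℝ) ^ 2 + 1 / δ ^ 2 := by
  rw [← Finset.add_sum_erase s _ hi]
  have h1 : ‖∑ x ∈ range L, ee (x * (α i - α i))‖ ^ 2 ≤ (L : ℝ) ^ 2 := by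
    have := dk_trivial L (α i - α i)
    gcongr
  set β : ι → ℝ := fun j => α i - α j - round (α i - α j) with hβ
  have h0 : ∀ j ∈ s.erase i, δ ≤ |β j| := by
    intro j hj
    rw [Finset.mem_erase] at hj
    exact hsp i hi j hj.2 (Ne.symm hj.1) _
  have h2 : ∀ j ∈ s.erase i, ‖∑ x ∈ range L, ee (x * (α i - α j))‖ ^ 2 ≤ (1 / 4) * (1 / (β j) ^ 2) := by
    intro j hj
    have hb := h0 j hj
    have h3 := dk_bound L (α i - α j) (round (α i - α j)) (abs_sub_round _) (by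
      intro h
      have : β j = 0 := h
      rw [this, abs_zero] at hb
      linarith)
    have h4 : ∀ y : ℝ, 1 / (4 * y ^ 2) = (1 / 4) * (1 / y ^ 2) := by
      intro y
      rw [one_div, one_div, one_div, mul_inv]
    exact h3.trans (le_of_eq (h4 _))
  have h3 := sum_inv_sq_spaced (s.erase i) β δ hδ h0 (by
    intro j hj j' hj' hne
    rw [Finset.mem_erase] at hj hj'
    have h4 := hsp j' hj'.2 j hj.2 (Ne.symm hne) (round (α i - α j) - round (α i - α j'))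
    have h5 : β j - β j' = α j' - α j - ((round (α i - α j) - round (α i - α j') : ℤ) : ℝ) := by
      rw [hβ]
      push_cast
      ring
    rw [h5]
    exact h4)
  have h4 : ∑ j ∈ s.erase i, ‖∑ x ∈ range L, ee (x * (α i - α j))‖ ^ 2 ≤ 1 / δ ^ 2 := by
    refine (Finset.sum_le_sum h2).trans ?_
    rw [← Finset.mul_sum]
    calc (1 / 4 : ℝ) * ∑ j ∈ s.erase i, 1 / (β j) ^ 2 ≤ (1 / 4) * (4 / δ ^ 2) := by gcongr
      _ = 1 / δ ^ 2 := by ring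
  linarith

private theorem ls_core {ι : Type} (s : Finset ι) (α : ι → ℝ) (c : ι → ℂ) (δ : ℝ) (hδ : 0 < δ)
    (hsp : ∀ i ∈ s, ∀ j ∈ s, i ≠ j → ∀ k : ℤ, δ ≤ |α i - α j - k|) (M L : ℕ) :
    ∑ x ∈ range L, ∑ y ∈ range L, ‖∑ i ∈ s, c i * ee (((M : ℝ) + x - y) * α i)‖ ^ 2 ≤
      ((L : ℝ) ^ 2 + 1 / δ ^ 2) * ∑ i ∈ s, ‖c i‖ ^ 2 := by
  classical
  set D : ℝ → ℝ := fun θ => ‖∑ x ∈ range L, ee (x * θ)‖ ^ 2 with hD
  have hD0 : ∀ θ, 0 ≤ D θ := fun θ => by positivity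
  have hDneg : ∀ θ, D (-θ) = D θ := by
    intro θ
    rw [hD]
    simp only
    rw [ls_neg]
  have h1 : ((∑ x ∈ range L, ∑ y ∈ range L,
      ‖∑ i ∈ s, c i * ee (((M : ℝ) + x - y) * α i)‖ ^ 2 : ℝ) : ℂ) =
      ∑ i ∈ s, ∑ j ∈ s, c i * (starRingEnd ℂ) (c j) * (ee (M * (α i - α j)) * (D (α i - α j) : ℂ)) := by
    rw [Complex.ofReal_sum]
    have e1 : ∀ x ∈ range L, ((∑ y ∈ range L,
        ‖∑ i ∈ s, c i * ee (((M : ℝ) + x - y) * α i)‖ ^ 2 : ℝ) : ℂ) =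
        ∑ i ∈ s, ∑ j ∈ s, ∑ y ∈ range L,
          c i * (starRingEnd ℂ) (c j) * ee (((M : ℝ) + x - y) * (α i - α j)) := by
      intro x _
      rw [Complex.ofReal_sum]
      refine (Finset.sum_congr rfl fun (y : ℕ) _ => ls_expand s α c ((M : ℝ) + x - (y : ℝ))).trans ?_
      rw [Finset.sum_comm]
      refine Finset.sum_congr rfl fun i _ => ?_
      rw [Finset.sum_comm]
    rw [Finset.sum_congr rfl e1, Finset.sum_comm]
    refine Finset.sum_congr rfl fun i _ => ?_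
    rw [Finset.sum_comm]
    refine Finset.sum_congr rfl fun j _ => ?_
    rw [← ls_double, Finset.mul_sum]
    refine Finset.sum_congr rfl fun x _ => ?_
    rw [Finset.mul_sum]
  have h0 : 0 ≤ ∑ x ∈ range L, ∑ y ∈ range L,
      ‖∑ i ∈ s, c i * ee (((M : ℝ) + x - y) * α i)‖ ^ 2 :=
    Finset.sum_nonneg fun _ _ => Finset.sum_nonneg fun _ _ => by positivity
  have h2 : ∑ x ∈ range L, ∑ y ∈ range L,
      ‖∑ i ∈ s, c i * ee (((M : ℝ) + x - y) * α i)‖ ^ 2 ≤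
      ∑ i ∈ s, ∑ j ∈ s, ‖c i‖ * ‖c j‖ * D (α i - α j) := by
    have e2 : ∑ x ∈ range L, ∑ y ∈ range L,
      ‖∑ i ∈ s, c i * ee (((M : ℝ) + x - y) * α i)‖ ^ 2 =
      ‖((∑ x ∈ range L, ∑ y ∈ range L,
      ‖∑ i ∈ s, c i * ee (((M : ℝ) + x - y) * α i)‖ ^ 2 : ℝ) : ℂ)‖ := by
      rw [Complex.norm_real, Real.norm_of_nonneg h0]
    rw [e2, h1]
    refine (norm_sum_le _ _).trans (Finset.sum_le_sum fun i _ => ?_)
    refine (norm_sum_le _ _).trans (Finset.sum_le_sum fun j _ => ?_)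
    rw [norm_mul, norm_mul, norm_mul, RCLike.norm_conj, ee_norm, one_mul, Complex.norm_real,
      Real.norm_of_nonneg (hD0 _)]
  have h3 : ∑ i ∈ s, ∑ j ∈ s, ‖c i‖ * ‖c j‖ * D (α i - α j) ≤
      ∑ i ∈ s, ∑ j ∈ s, ((1 / 2) * ‖c i‖ ^ 2 * D (α i - α j) + (1 / 2) * ‖c j‖ ^ 2 * D (α i - α j)) := by
    refine Finset.sum_le_sum fun i _ => Finset.sum_le_sum fun j _ => ?_
    rw [← add_mul]
    apply mul_le_mul_of_nonneg_right _ (hD0 _)
    nlinarith [sq_nonneg (‖c i‖ - ‖c j‖)]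
  have h4 : ∑ i ∈ s, ∑ j ∈ s, ((1 / 2) * ‖c i‖ ^ 2 * D (α i - α j) + (1 / 2) * ‖c j‖ ^ 2 * D (α i - α j)) =
      ∑ i ∈ s, ‖c i‖ ^ 2 * ∑ j ∈ s, D (α i - α j) := by
    have e3 : ∑ i ∈ s, ∑ j ∈ s, (1 / 2) * ‖c j‖ ^ 2 * D (α i - α j) =
        ∑ i ∈ s, ∑ j ∈ s, (1 / 2) * ‖c i‖ ^ 2 * D (α i - α j) := by
      rw [Finset.sum_comm]
      refine Finset.sum_congr rfl fun i _ => Finset.sum_congr rfl fun j _ => ?_
      rw [← hDneg, neg_sub]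
    rw [Finset.sum_congr rfl fun i _ => Finset.sum_add_distrib, Finset.sum_add_distrib, e3,
      ← Finset.sum_add_distrib]
    refine Finset.sum_congr rfl fun i _ => ?_
    rw [← Finset.mul_sum]
    ring
  refine h2.trans (h3.trans ?_)
  rw [h4, Finset.mul_sum]
  refine Finset.sum_le_sum fun i hi => ?_
  rw [mul_comm]
  exact mul_le_mul_of_nonneg_right (ls_row s α δ hδ hsp L i hi) (by positivity)

theorem large_sieve {ι : Type} (s : Finset ι) (α : ι → ℝ) (c : ι → ℂ) (δ : ℝ) (hδ : 0 < δ)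
    (hδ1 : δ ≤ 1) (hsp : ∀ i ∈ s, ∀ j ∈ s, i ≠ j → ∀ k : ℤ, δ ≤ |α i - α j - k|) (M N : ℕ)
    (hN : 1 ≤ N) :
    ∑ n ∈ Ioc M (M + N), ‖∑ i ∈ s, c i * ee (n * α i)‖ ^ 2 ≤
      10 * (N + 1 / δ) * ∑ i ∈ s, ‖c i‖ ^ 2 := by
  set K : ℕ := N + ⌈1 / δ⌉₊ with hK
  have hKN : N ≤ K := by omega
  have hK1 : 1 ≤ K := by omega
  have hK0 : (0 : ℝ) < K := by exact_mod_cast hK1
  have hKd : 1 / δ ≤ K := by
    rw [hK]
    push_cast
    have := Nat.le_ceil (1 / δ)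
    have h2 : (0 : ℝ) ≤ N := Nat.cast_nonneg N
    linarith
  have hKup : (K : ℝ) ≤ N + 2 / δ := by
    rw [hK]
    push_cast
    have h1 := (Nat.ceil_lt_add_one (by positivity : (0 : ℝ) ≤ 1 / δ)).le
    have h2 : (1 : ℝ) ≤ 1 / δ := by rw [le_div_iff₀ hδ]; linarith
    have h3 : 2 / δ = 1 / δ + 1 / δ := by ring
    linarith
  set g : ℝ → ℝ := fun t => ‖∑ i ∈ s, c i * ee (t * α i)‖ ^ 2 with hg
  have hg0 : ∀ t, 0 ≤ g t := fun t => by positivity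
  have hcore := ls_core s α c δ hδ hsp M (2 * K)
  set Sc := ∑ i ∈ s, ‖c i‖ ^ 2 with hSc
  have hSc0 : 0 ≤ Sc := Finset.sum_nonneg fun _ _ => by positivity
  -- lower bound of the double sum
  have hlow : (K : ℝ) * ∑ n ∈ Ioc M (M + N), g n ≤
      ∑ x ∈ range (2 * K), ∑ y ∈ range (2 * K), g ((M : ℝ) + x - y) := by
    rw [Finset.sum_comm]
    have h1 : ∀ y ∈ range K, ∑ n ∈ Ioc M (M + N), g n ≤
        ∑ x ∈ range (2 * K), g ((M : ℝ) + x - y) := by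
      intro y hy
      rw [mem_range] at hy
      have h2 : ∑ n ∈ Ioc M (M + N), g n =
          ∑ x ∈ (Ioc M (M + N)).image (fun n => n + y - M), g ((M : ℝ) + x - y) := by
        rw [Finset.sum_image]
        · refine Finset.sum_congr rfl fun n hn => ?_
          rw [mem_Ioc] at hn
          congr 1
          rw [Nat.cast_sub (by omega)]
          push_cast
          ring
        · intro a ha b hb hab
          rw [mem_coe, mem_Ioc] at ha hb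
          simp only at hab
          omega
      rw [h2]
      apply Finset.sum_le_sum_of_subset_of_nonneg
      · intro x hx
        rw [mem_image] at hx
        obtain ⟨n, hn, rfl⟩ := hx
        rw [mem_Ioc] at hn
        rw [mem_range]
        omega
      · intro _ _ _
        exact hg0 _
    calc (K : ℝ) * ∑ n ∈ Ioc M (M + N), g n = ∑ y ∈ range K, ∑ n ∈ Ioc M (M + N), g n := by
          rw [Finset.sum_const, card_range, nsmul_eq_mul]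
      _ ≤ ∑ y ∈ range K, ∑ x ∈ range (2 * K), g ((M : ℝ) + x - y) := Finset.sum_le_sum h1
      _ ≤ ∑ y ∈ range (2 * K), ∑ x ∈ range (2 * K), g ((M : ℝ) + x - y) := by
          apply Finset.sum_le_sum_of_subset_of_nonneg
          · intro y hy
            rw [mem_range] at hy ⊢
            omega
          · intro _ _ _
            exact Finset.sum_nonneg fun _ _ => hg0 _
  have h5 : (K : ℝ) * ∑ n ∈ Ioc M (M + N), g n ≤ (((2 * K : ℕ) : ℝ) ^ 2 + 1 / δ ^ 2) * Sc :=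
    hlow.trans hcore
  have h6 : ∑ n ∈ Ioc M (M + N), g n ≤ ((((2 * K : ℕ) : ℝ) ^ 2 + 1 / δ ^ 2) / K) * Sc := by
    rw [div_mul_eq_mul_div, le_div_iff₀ hK0, mul_comm]
    exact h5
  refine h6.trans ?_
  apply mul_le_mul_of_nonneg_right _ hSc0
  rw [div_le_iff₀ hK0]
  push_cast
  have h7 : 1 / δ ^ 2 ≤ (1 / δ) * K := by
    have : 1 / δ ^ 2 = (1 / δ) * (1 / δ) := by
      field_simp
    rw [this]
    exact mul_le_mul_of_nonneg_left hKd (by positivity)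
  have h8 : (2 * (K : ℝ)) ^ 2 ≤ 4 * (N + 2 / δ) * K := by
    have : (2 * (K : ℝ)) ^ 2 = 4 * K * K := by ring
    rw [this]
    gcongr
  have h9 : 4 * ((N : ℝ) + 2 / δ) * K + (1 / δ) * K ≤ 10 * (N + 1 / δ) * K := by
    have e : 4 * ((N : ℝ) + 2 / δ) * K + (1 / δ) * K = (4 * N + 9 * (1 / δ)) * K := by ring
    rw [e]
    apply mul_le_mul_of_nonneg_right _ hK0.le
    have h10 : (0 : ℝ) ≤ 1 / δ := by positivity
    have h11 : (0 : ℝ) ≤ N := Nat.cast_nonneg N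
    linarith
  linarith

end Pool.Agent.H24.AB
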