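import Pool.Agent.H24.AB.Defs

/-!
# Module LSK: the Dirichlet kernel

PROOF. `D(θ)(e(θ) - 1) = e(Lθ) - 1` (`ee` is multiplicative; geometric sum `mul_geom_sum` or `geom_sum_eq`), `‖e(Lθ) - 1‖ ≤ 2`,
`‖e(θ) - 1‖ = 2 |sin (π θ)|` (`Complex.norm_exp_I_mul_ofReal_sub_one` or directly), and with `β = θ - k`, `|β| ≤ 1/2`:
`|sin (π θ)| = |sin (π β)| ≥ 2 |β|` (`Real.mul_le_sin`, `Real.sin_sub_int_mul_pi`).
-/

set_option autoImplicit false

namespace Pool.Agent.H24.AB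

open Finset

theorem ee_add (x y : ℝ) : ee (x + y) = ee x * ee y := by
  unfold ee
  rw [← Complex.exp_add]
  congr 1
  push_cast
  ring

theorem ee_norm (x : ℝ) : ‖ee x‖ = 1 := by
  unfold ee
  have h : (2 * Real.pi * x * Complex.I : ℂ) = ((2 * Real.pi * x : ℝ) : ℂ) * Complex.I := by
    push_cast
    ring
  rw [h, Complex.norm_exp_ofReal_mul_I]

theorem ee_zero : ee 0 = 1 := by
  unfold ee
  simp

theorem ee_conj (x : ℝ) : (starRingEnd ℂ) (ee x) = ee (-x) := by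
  unfold ee
  rw [← Complex.exp_conj]
  congr 1
  have h : (2 * Real.pi * x * Complex.I : ℂ) = ((2 * Real.pi * x : ℝ) : ℂ) * Complex.I := by
    push_cast
    ring
  rw [h, map_mul, Complex.conj_ofReal, Complex.conj_I]
  push_cast
  ring

theorem ee_int (k : ℤ) : ee k = 1 := by
  unfold ee
  rw [Complex.exp_eq_one_iff]
  refine ⟨k, ?_⟩
  push_cast
  ring

theorem dk_trivial (L : ℕ) (θ : ℝ) : ‖∑ x ∈ range L, ee (x * θ)‖ ≤ L := by
  refine le_trans (norm_sum_le _ _) ?_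
  rw [Finset.sum_congr rfl fun x _ => ee_norm _]
  simp

private theorem lsk_pow (n : ℕ) (θ : ℝ) : ee (n * θ) = ee θ ^ n := by
  induction n with
  | zero => simp [ee_zero]
  | succ n ih =>
    rw [pow_succ, ← ih, ← ee_add]
    congr 1
    push_cast
    ring

private theorem lsk_sub (θ : ℝ) (k : ℤ) (hk : |θ - k| ≤ 1 / 2) : 4 * |θ - k| ≤ ‖ee θ - 1‖ := by
  have h0 : ee θ = ee (θ - k) := by
    have h := ee_add (θ - k) k
    rw [ee_int, mul_one, sub_add_cancel] at h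
    exact h
  have h1 : ee (θ - k) = Complex.exp (Complex.I * ((2 * Real.pi * (θ - k) : ℝ) : ℂ)) := by
    unfold ee
    congr 1
    push_cast
    ring
  rw [h0, h1, Complex.norm_exp_I_mul_ofReal_sub_one, norm_mul, Real.norm_eq_abs, Real.norm_eq_abs]
  have hpi := Real.pi_pos
  have h2 : 2 * Real.pi * (θ - k) / 2 = Real.pi * (θ - k) := by ring
  rw [h2, abs_of_pos (by norm_num : (0 : ℝ) < 2)]
  have h3 : |Real.pi * (θ - k)| ≤ Real.pi / 2 := by
    rw [abs_mul, abs_of_pos hpi]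
    nlinarith
  have h4 := Real.mul_abs_le_abs_sin h3
  rw [abs_mul, abs_of_pos hpi] at h4
  have h5 : 2 / Real.pi * (Real.pi * |θ - k|) = 2 * |θ - k| := by
    field_simp
  rw [h5] at h4
  linarith

/-- `‖D(θ)‖ ≤ 1 / (2 |θ - k|)` if `|θ - k| ≤ 1/2` -/
theorem dk_bound (L : ℕ) (θ : ℝ) (k : ℤ) (hk : |θ - k| ≤ 1 / 2) (hne : θ - k ≠ 0) :
    ‖∑ x ∈ range L, ee (x * θ)‖ ^ 2 ≤ 1 / (4 * (θ - k) ^ 2) := by
  have h1 : (∑ x ∈ range L, ee (x * θ)) * (ee θ - 1) = ee θ ^ L - 1 := by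
    rw [Finset.sum_congr rfl fun x _ => lsk_pow x θ]
    exact geom_sum_mul _ _
  have h2 : ‖∑ x ∈ range L, ee (x * θ)‖ * ‖ee θ - 1‖ ≤ 2 := by
    rw [← norm_mul, h1]
    refine le_trans (norm_sub_le _ _) ?_
    rw [norm_pow, ee_norm, one_pow, norm_one]
    norm_num
  have h3 := lsk_sub θ k hk
  have h4 : 0 < |θ - k| := abs_pos.2 hne
  have h5 : ‖∑ x ∈ range L, ee (x * θ)‖ * (4 * |θ - k|) ≤ 2 :=
    le_trans (mul_le_mul_of_nonneg_left h3 (norm_nonneg _)) h2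
  have h6 : ‖∑ x ∈ range L, ee (x * θ)‖ * (2 * |θ - k|) ≤ 1 := by linarith
  have h7 : (‖∑ x ∈ range L, ee (x * θ)‖ * (2 * |θ - k|)) ^ 2 ≤ 1 :=
    pow_le_one₀ (by positivity) h6
  rw [mul_pow, mul_pow, sq_abs] at h7
  have h8 : 0 < 4 * (θ - k) ^ 2 := by positivity
  rw [le_div_iff₀ h8]
  linarith

end Pool.Agent.H24.AB
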