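import Pool.Agent.H32.KF.Lbp

/-!
# [H24 AB Lbc] ABUNDANCE (MP_e49dc9_ag): the restriction of the sections of `n P + H` to the generic surface, `P` nef

`lbc`: `P` nef, `T(P,P,H) > 0`, `S` the generic surface of `|H|`: the sections of `n P + H` on `S` which do not lift to `X` form a space of
dimension at most `h⁰(n P) - chi(n P) + C` (`h²(n P) ≤ C`): `h⁰(S, n P + H) + chi(n P) ≤ h⁰(n P + H) + C`.

`lbc_tw`: the same for `n P + Q`, `Q` numerically trivial.

PROOF.  As `low_uni` (H24/ZL/Ram: Ramanujam's argument), keeping the defect of the first step; the hypotheses of `low_uni` for `M = n P` as in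
H32/KF/Lbp.
-/

set_option autoImplicit false

namespace Pool.Agent.H24.AB

open Pool.Agent.H54.RV Pool.Agent.H83.TU Pool.Agent.H83.TK Pool.Agent.H24.TK Pool.Agent.H41.TK Pool.Agent.H24.VP Pool.Agent.H24.ZL

variable {k K : Type} [Field k] [Field K] [Algebra k K] {X : Mod k K}
  {T : Cart X → Cart X → Cart X → ℝ} {l : Cart X → ℝ} {c : ℝ} {H : Cart X} {k' L : Type} [Field k'] [Field L]
  [Algebra k' L] {S : Mod k' L} {ψ : Cart X →* Cart S}

theorem dft_uni (hr : RR T l c) (hS : Sf H S ψ) : ∃ C : ℝ, ∀ Q : Cart X → Prop, Cc S ψ H Q →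
    ∀ M M' : Cart X, M = H * M' → Con T H Q M → 0 < h0 (ψ M') 1 →
      (h0 (ψ (M * H)) 1 : ℝ) + chi T l c M ≤ h0 (M * H) 1 + C := by
  classical
  obtain ⟨i₀, hi₀⟩ := sf_ev hr hS 1 H hS.hH
  obtain ⟨g, hg⟩ : ∃ g : ℕ → ℝ, g = fun i => (h0 (ψ (H ^ (i + 1))) 1 : ℝ) - chS T l H (H ^ (i + 1)) :=
    ⟨_, rfl⟩
  have hg0 : ∀ i, i₀ ≤ i → g i = 0 := by
    intro i hi
    have h1 := hi₀ (i + 1) (by omega)
    rw [one_mul] at h1
    rw [hg]
    simp only
    rw [h1, sub_self]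
  refine ⟨∑ i ∈ Finset.range (i₀ + 1), |g (i + 1)|, fun Q hQ M M' h2 h3 h5 => ?_⟩
  have hram : ∀ i, 1 ≤ i → (h0 (ψ (H ^ i * M)) 1 : ℝ) - chS T l H (H ^ i * M) ≤ g i := by
    intro i hi1
    rw [hg]
    exact ram hr hS hQ h2 h3 h5 i hi1
  -- the descent
  have hstep : ∀ j : ℕ, (h0 (M * H ^ (j + 1)) 1 : ℝ) - chi T l c (M * H ^ (j + 1)) ≤
      (h0 (M * H) 1 : ℝ) - chi T l c (M * H) + (∑ i ∈ Finset.range (j + 1), |g (i + 1)| - |g 1|) := by
    intro j
    induction j with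
    | zero =>
      rw [zero_add, pow_one, Finset.sum_range_one]
      simp
    | succ j ih =>
      rw [Finset.sum_range_succ]
      have h1 : M * H ^ (j + 1 + 1) * H⁻¹ = M * H ^ (j + 1) := by
        rw [pow_succ H (j + 1), ← mul_assoc, mul_inv_cancel_right]
      have h2 := hS.le (M * H ^ (j + 1 + 1))
      rw [h1] at h2
      have h3 := hr.chi_sub H (M * H ^ (j + 1 + 1))
      rw [h1] at h3
      have h4 := hram (j + 1 + 1) (by omega)
      rw [mul_comm (H ^ (j + 1 + 1)) M] at h4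
      have h5 := le_abs_self (g (j + 1 + 1))
      have h6 : (h0 (M * H ^ (j + 1 + 1)) 1 : ℝ) ≤ h0 (M * H ^ (j + 1)) 1 + h0 (ψ (M * H ^ (j + 1 + 1))) 1 := by
        exact_mod_cast h2
      linarith
  obtain ⟨j₀, hj₀⟩ := hr.ev M H hS.hH
  obtain ⟨j, hj⟩ : ∃ j, j = max i₀ j₀ := ⟨_, rfl⟩
  have h1 := hj₀ (j + 1) (by rw [hj]; have := le_max_right i₀ j₀; omega)
  have h2' := hstep j
  rw [h1, sub_self] at h2'
  have h3' : ∑ i ∈ Finset.range (j + 1), |g (i + 1)| = ∑ i ∈ Finset.range (i₀ + 1), |g (i + 1)| := by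
    symm
    refine Finset.sum_subset (Finset.range_subset_range.2 (by rw [hj]; have := le_max_left i₀ j₀; omega))
      fun i _ hi => ?_
    rw [Finset.mem_range, not_lt] at hi
    rw [hg0 (i + 1) (by omega), abs_zero]
  rw [h3'] at h2'
  have h4 := hram 1 le_rfl
  rw [pow_one, mul_comm H M] at h4
  have h5' := le_abs_self (g 1)
  have h6 := hr.chi_sub H (M * H)
  rw [mul_inv_cancel_right] at h6
  linarith

/-- **the defect of the restriction** (`h²(n P)` is bounded) -/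
theorem lbc [CharZero k] [T0Space X.P] (h : Hyp X) (hr : RR T l c) (hS : Sf H S ψ) {P : Cart X}
    (hP : ∀ B : Cart X, Ample B → Ample (B * P)) (hPP : 0 < T P P H) :
    ∃ C : ℝ, ∀ n : ℕ, (h0 (ψ (P ^ n * H)) 1 : ℝ) + chi T l c (P ^ n) ≤ h0 (P ^ n * H) 1 + C := by
  classical
  have ht := hr.tri
  obtain ⟨C, hC⟩ := dft_uni hr hS
  have hi : ∀ A B C, ∃ z : ℤ, T A B C = z := t_int hr ⟨H, hS.hH⟩
  have hHHH : 0 < T H H H := (crv_num hr hS).1
  have hhdg := hdg hr hS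
  have hpos : ∀ B : Cart X, Ample B → 0 < T B H H := fun B hB => pos_amp h hr hB hS.hH hS.hH
  obtain ⟨Q, hQ⟩ : ∃ Q : Cart X → Prop, Q = fun E =>
      (∀ N : Cart X, (∀ B : Cart X, Ample B → Ample (B * N)) → 0 ≤ T N E H) ∧ 0 < T E H H := ⟨_, rfl⟩
  have hcc : Cc S ψ H Q := by
    refine ⟨?_, ?_, ?_⟩
    · rw [hQ]
      exact ⟨fun N hN => Pool.Agent.H32.KF.nef_hh hr hpos hS.hH hN, hHHH⟩
    · intro A B hA hB
      rw [hQ] at hA hB ⊢
      refine ⟨fun N hN => ?_, ?_⟩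
      · rw [ht.add2]
        have := hA.1 N hN
        have := hB.1 N hN
        linarith
      · rw [ht.add]
        have := hA.2
        have := hB.2
        linarith
    · intro E hE
      rw [hQ]
      exact ⟨fun N hN => Pool.Agent.H24.RG.nef_cls hr hS hN hE, Pool.Agent.H24.RG.cls_pos hr hS hE⟩
  have hPn : ∀ (n : ℕ) (B : Cart X), Ample B → Ample (B * P ^ n) := by
    intro n
    induction n with
    | zero =>
      intro B hB
      rwa [pow_zero, mul_one]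
    | succ n ih =>
      intro B hB
      rw [pow_succ, ← mul_assoc]
      exact hP _ (ih B hB)
  -- `T P H H > 0`
  have hPHH : 0 < T P H H := by
    have h0 : 0 ≤ T P H H := Pool.Agent.H32.KF.nef_hh hr hpos hS.hH hP
    refine lt_of_le_of_ne h0 fun h1 => ?_
    have h2 := hhdg P h1.symm
    linarith
  -- the numbers for `P ^ n`
  have hcon : ∀ n : ℕ, 1 ≤ n → Con T H Q (P ^ n) := by
    intro n hn Z R hZ hR hZR
    rw [hQ] at hZ hR
    by_contra hcn
    push Not at hcn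
    have hn0 : (0 : ℝ) < n := by exact_mod_cast hn
    have hMMH : 0 < T (P ^ n) (P ^ n) H := by
      rw [ht.pow, ht.pow2]
      positivity
    have a1 := hZ.1 (P ^ n) (hPn n)
    have a2 := hR.1 (P ^ n) (hPn n)
    rw [hZR] at a1 a2
    have s1 : T R Z H = T Z R H := ht.s12 _ _ _
    rw [s1] at a1
    have a3 : T (P ^ n) (P ^ n) H = T Z Z H + 2 * T Z R H + T R R H := by
      rw [hZR, ht.s12 Z (P ^ n) H, ht.s12 R (P ^ n) H, hZR, hZR, s1]
      ring
    by_cases hzz : 0 < T Z Z H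
    · have a4 := hdg_L ht hi hHHH hhdg Z R hzz
      rcases hcn.lt_or_eq with h5 | h5
      · nlinarith
      · rw [h5] at a4 a1 a2
        have a5 : T R R H = 0 := by
          refine le_antisymm ?_ (by linarith)
          by_contra hcc'
          push Not at hcc'
          have := mul_pos hzz hcc'
          linarith
        have a6 := hdg_eq ht hi hHHH hhdg Z R H hzz h5 a5
        have := hR.2
        linarith
    · push Not at hzz
      have a5 : T Z R H = 0 := by linarith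
      have a6 : T Z Z H = 0 := by linarith
      have a7 : 0 < T R R H := by linarith
      have a8 := hdg_eq ht hi hHHH hhdg R Z H a7 (by rw [s1]; exact a5) a6
      have := hZ.2
      linarith
  obtain ⟨n₁, hn₁⟩ := exists_nat_gt (2 * T H H H / T P H H)
  rw [div_lt_iff₀ hPHH] at hn₁
  obtain ⟨n₂, hn₂⟩ := exists_nat_gt ((3 * T P H H + 2 * (|l H| + 1)) / T P P H)
  rw [div_lt_iff₀ hPP] at hn₂
  obtain ⟨n₀, hn₀⟩ : ∃ n₀, n₀ = n₁ + n₂ + 1 := ⟨_, rfl⟩
  have hbig : ∀ n : ℕ, n₀ ≤ n → (h0 (ψ (P ^ n * H)) 1 : ℝ) + chi T l c (P ^ n) ≤ h0 (P ^ n * H) 1 + C := by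
    intro n hn
    have hn1 : (n₁ : ℝ) ≤ n := by exact_mod_cast (show n₁ ≤ n by omega)
    have hn2 : (n₂ : ℝ) ≤ n := by exact_mod_cast (show n₂ ≤ n by omega)
    have hn3 : (1 : ℝ) ≤ n := by exact_mod_cast (show 1 ≤ n by omega)
    have e1 : T (P ^ n) (P ^ n) H = n * (n * T P P H) := by rw [ht.pow, ht.pow2]
    have e2 : T (P ^ n) H H = n * T P H H := ht.pow _ _ _ _
    have hlt : T H H H < T (P ^ n * H⁻¹) H H := by
      rw [ht.add, ht.inv, e2]
      have := mul_le_mul_of_nonneg_right hn1 hPHH.le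
      linarith
    have h5 := t4 hr hS _ hlt
    have e4 : chS T l H (P ^ n * H⁻¹) =
        T (P ^ n) (P ^ n) H / 2 - 3 / 2 * T (P ^ n) H H + 7 / 6 * T H H H + l H := by
      unfold chS
      simp only [ht.add, ht.add2, ht.inv, ht.inv2]
      rw [ht.s12 H (P ^ n) H]
      ring
    have h6 : 0 < chS T l H (P ^ n * H⁻¹) := by
      rw [e4, e1, e2]
      have h7 := mul_le_mul_of_nonneg_right hn2 hPP.le
      have h8 := neg_abs_le (l H)
      have h9 : (n : ℝ) * (3 * T P H H + 2 * (|l H| + 1)) ≤ n * (n * T P P H) :=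
        mul_le_mul_of_nonneg_left (by linarith) (by linarith)
      have h10 : 2 * (|l H| + 1) ≤ (n : ℝ) * (2 * (|l H| + 1)) := by
        have := abs_nonneg (l H)
        nlinarith
      nlinarith
    refine hC Q hcc (P ^ n) (P ^ n * H⁻¹) ?_ (hcon n (by omega)) ?_
    · rw [mul_comm (P ^ n), mul_inv_cancel_left]
    · have h7 := h6.trans_le h5
      exact_mod_cast h7
  obtain ⟨C', hC'⟩ : ∃ C' : ℝ, C' = ∑ n ∈ Finset.range n₀,
      |(h0 (ψ (P ^ n * H)) 1 : ℝ) + chi T l c (P ^ n) - h0 (P ^ n * H) 1| := ⟨_, rfl⟩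
  have hC'0 : 0 ≤ C' := by
    rw [hC']
    exact Finset.sum_nonneg fun _ _ => abs_nonneg _
  refine ⟨|C| + C', fun n => ?_⟩
  rcases Nat.lt_or_ge n n₀ with hn | hn
  · have h1 : |(h0 (ψ (P ^ n * H)) 1 : ℝ) + chi T l c (P ^ n) - h0 (P ^ n * H) 1| ≤ C' := by
      rw [hC']
      exact Finset.single_le_sum (f := fun n : ℕ =>
        |(h0 (ψ (P ^ n * H)) 1 : ℝ) + chi T l c (P ^ n) - h0 (P ^ n * H) 1|) (fun _ _ => abs_nonneg _)
        (Finset.mem_range.2 hn)
    have h2 := le_abs_self ((h0 (ψ (P ^ n * H)) 1 : ℝ) + chi T l c (P ^ n) - h0 (P ^ n * H) 1)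
    have h3 := abs_nonneg C
    linarith
  · have h1 := hbig n hn
    have h2 := le_abs_self C
    linarith

/-- **the defect of the restriction** (`h²(n P + Q)` is bounded), `Q` numerically trivial -/
theorem lbc_tw [CharZero k] [T0Space X.P] (h : Hyp X) (hr : RR T l c) (hS : Sf H S ψ) {P : Cart X}
    (hP : ∀ B : Cart X, Ample B → Ample (B * P)) (hPP : 0 < T P P H) {Q₀ : Cart X}
    (hQ₀ : ∀ B : Cart X, Ample B → Ample (B * Q₀)) (hT₀ : ∀ U V, T Q₀ U V = 0) :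
    ∃ C : ℝ, ∀ n : ℕ, (h0 (ψ (P ^ n * Q₀ * H)) 1 : ℝ) + chi T l c (P ^ n * Q₀) ≤ h0 (P ^ n * Q₀ * H) 1 + C := by
  classical
  have ht := hr.tri
  obtain ⟨C, hC⟩ := dft_uni hr hS
  have hi : ∀ A B C, ∃ z : ℤ, T A B C = z := t_int hr ⟨H, hS.hH⟩
  have hHHH : 0 < T H H H := (crv_num hr hS).1
  have hhdg := hdg hr hS
  have hpos : ∀ B : Cart X, Ample B → 0 < T B H H := fun B hB => pos_amp h hr hB hS.hH hS.hH
  obtain ⟨Q, hQ⟩ : ∃ Q : Cart X → Prop, Q = fun E =>
      (∀ N : Cart X, (∀ B : Cart X, Ample B → Ample (B * N)) → 0 ≤ T N E H) ∧ 0 < T E H H := ⟨_, rfl⟩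
  have hcc : Cc S ψ H Q := by
    refine ⟨?_, ?_, ?_⟩
    · rw [hQ]
      exact ⟨fun N hN => Pool.Agent.H32.KF.nef_hh hr hpos hS.hH hN, hHHH⟩
    · intro A B hA hB
      rw [hQ] at hA hB ⊢
      refine ⟨fun N hN => ?_, ?_⟩
      · rw [ht.add2]
        have := hA.1 N hN
        have := hB.1 N hN
        linarith
      · rw [ht.add]
        have := hA.2
        have := hB.2
        linarith
    · intro E hE
      rw [hQ]
      exact ⟨fun N hN => Pool.Agent.H24.RG.nef_cls hr hS hN hE, Pool.Agent.H24.RG.cls_pos hr hS hE⟩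
  have hPn : ∀ (n : ℕ) (B : Cart X), Ample B → Ample (B * (P ^ n * Q₀)) := by
    intro n
    induction n with
    | zero =>
      intro B hB
      rw [pow_zero, one_mul]
      exact hQ₀ B hB
    | succ n ih =>
      intro B hB
      rw [pow_succ, mul_comm (P ^ n), mul_assoc P, ← mul_assoc B]
      exact ih _ (hP B hB)
  have hT₂ : ∀ U V, T U Q₀ V = 0 := fun U V => by rw [ht.s12, hT₀]
  -- `T P H H > 0`
  have hPHH : 0 < T P H H := by
    have h0 : 0 ≤ T P H H := Pool.Agent.H32.KF.nef_hh hr hpos hS.hH hP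
    refine lt_of_le_of_ne h0 fun h1 => ?_
    have h2 := hhdg P h1.symm
    linarith
  -- the numbers for `P ^ n`
  have hcon : ∀ n : ℕ, 1 ≤ n → Con T H Q (P ^ n * Q₀) := by
    intro n hn Z R hZ hR hZR
    rw [hQ] at hZ hR
    by_contra hcn
    push Not at hcn
    have hn0 : (0 : ℝ) < n := by exact_mod_cast hn
    have hMMH : 0 < T (P ^ n * Q₀) (P ^ n * Q₀) H := by
      rw [ht.add, hT₀, add_zero, ht.add2, hT₂, add_zero, ht.pow, ht.pow2]
      positivity
    have a1 := hZ.1 (P ^ n * Q₀) (hPn n)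
    have a2 := hR.1 (P ^ n * Q₀) (hPn n)
    rw [hZR] at a1 a2
    have s1 : T R Z H = T Z R H := ht.s12 _ _ _
    rw [s1] at a1
    have a3 : T (P ^ n * Q₀) (P ^ n * Q₀) H = T Z Z H + 2 * T Z R H + T R R H := by
      rw [hZR, ht.s12 Z (P ^ n * Q₀) H, ht.s12 R (P ^ n * Q₀) H, hZR, hZR, s1]
      ring
    by_cases hzz : 0 < T Z Z H
    · have a4 := hdg_L ht hi hHHH hhdg Z R hzz
      rcases hcn.lt_or_eq with h5 | h5
      · nlinarith
      · rw [h5] at a4 a1 a2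
        have a5 : T R R H = 0 := by
          refine le_antisymm ?_ (by linarith)
          by_contra hcc'
          push Not at hcc'
          have := mul_pos hzz hcc'
          linarith
        have a6 := hdg_eq ht hi hHHH hhdg Z R H hzz h5 a5
        have := hR.2
        linarith
    · push Not at hzz
      have a5 : T Z R H = 0 := by linarith
      have a6 : T Z Z H = 0 := by linarith
      have a7 : 0 < T R R H := by linarith
      have a8 := hdg_eq ht hi hHHH hhdg R Z H a7 (by rw [s1]; exact a5) a6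
      have := hZ.2
      linarith
  obtain ⟨n₁, hn₁⟩ := exists_nat_gt (2 * T H H H / T P H H)
  rw [div_lt_iff₀ hPHH] at hn₁
  obtain ⟨n₂, hn₂⟩ := exists_nat_gt ((3 * T P H H + 2 * (|l H| + 1)) / T P P H)
  rw [div_lt_iff₀ hPP] at hn₂
  obtain ⟨n₀, hn₀⟩ : ∃ n₀, n₀ = n₁ + n₂ + 1 := ⟨_, rfl⟩
  have hbig : ∀ n : ℕ, n₀ ≤ n → (h0 (ψ (P ^ n * Q₀ * H)) 1 : ℝ) + chi T l c (P ^ n * Q₀) ≤ h0 (P ^ n * Q₀ * H) 1 + C := by
    intro n hn
    have hn1 : (n₁ : ℝ) ≤ n := by exact_mod_cast (show n₁ ≤ n by omega)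
    have hn2 : (n₂ : ℝ) ≤ n := by exact_mod_cast (show n₂ ≤ n by omega)
    have hn3 : (1 : ℝ) ≤ n := by exact_mod_cast (show 1 ≤ n by omega)
    have e1 : T (P ^ n * Q₀) (P ^ n * Q₀) H = n * (n * T P P H) := by
      rw [ht.add, hT₀, add_zero, ht.add2, hT₂, add_zero, ht.pow, ht.pow2]
    have e2 : T (P ^ n * Q₀) H H = n * T P H H := by
      rw [ht.add, hT₀, add_zero, ht.pow]
    have hlt : T H H H < T (P ^ n * Q₀ * H⁻¹) H H := by
      rw [ht.add, ht.inv, e2]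
      have := mul_le_mul_of_nonneg_right hn1 hPHH.le
      linarith
    have h5 := t4 hr hS _ hlt
    have e4 : chS T l H (P ^ n * Q₀ * H⁻¹) =
        T (P ^ n * Q₀) (P ^ n * Q₀) H / 2 - 3 / 2 * T (P ^ n * Q₀) H H + 7 / 6 * T H H H + l H := by
      obtain ⟨M, hM⟩ : ∃ M, M = P ^ n * Q₀ := ⟨_, rfl⟩
      rw [← hM]
      unfold chS
      simp only [ht.add, ht.add2, ht.inv, ht.inv2]
      rw [ht.s12 H M H]
      ring
    have h6 : 0 < chS T l H (P ^ n * Q₀ * H⁻¹) := by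
      rw [e4, e1, e2]
      have h7 := mul_le_mul_of_nonneg_right hn2 hPP.le
      have h8 := neg_abs_le (l H)
      have h9 : (n : ℝ) * (3 * T P H H + 2 * (|l H| + 1)) ≤ n * (n * T P P H) :=
        mul_le_mul_of_nonneg_left (by linarith) (by linarith)
      have h10 : 2 * (|l H| + 1) ≤ (n : ℝ) * (2 * (|l H| + 1)) := by
        have := abs_nonneg (l H)
        nlinarith
      nlinarith
    refine hC Q hcc (P ^ n * Q₀) (P ^ n * Q₀ * H⁻¹) ?_ (hcon n (by omega)) ?_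
    · rw [mul_comm (P ^ n * Q₀), mul_inv_cancel_left]
    · have h7 := h6.trans_le h5
      exact_mod_cast h7
  obtain ⟨C', hC'⟩ : ∃ C' : ℝ, C' = ∑ n ∈ Finset.range n₀,
      |(h0 (ψ (P ^ n * Q₀ * H)) 1 : ℝ) + chi T l c (P ^ n * Q₀) - h0 (P ^ n * Q₀ * H) 1| := ⟨_, rfl⟩
  have hC'0 : 0 ≤ C' := by
    rw [hC']
    exact Finset.sum_nonneg fun _ _ => abs_nonneg _
  refine ⟨|C| + C', fun n => ?_⟩
  rcases Nat.lt_or_ge n n₀ with hn | hn
  · have h1 : |(h0 (ψ (P ^ n * Q₀ * H)) 1 : ℝ) + chi T l c (P ^ n * Q₀) - h0 (P ^ n * Q₀ * H) 1| ≤ C' := by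
      rw [hC']
      exact Finset.single_le_sum (f := fun n : ℕ =>
        |(h0 (ψ (P ^ n * Q₀ * H)) 1 : ℝ) + chi T l c (P ^ n * Q₀) - h0 (P ^ n * Q₀ * H) 1|) (fun _ _ => abs_nonneg _)
        (Finset.mem_range.2 hn)
    have h2 := le_abs_self ((h0 (ψ (P ^ n * Q₀ * H)) 1 : ℝ) + chi T l c (P ^ n * Q₀) - h0 (P ^ n * Q₀ * H) 1)
    have h3 := abs_nonneg C
    linarith
  · have h1 := hbig n hn
    have h2 := le_abs_self C
    linarith

end Pool.Agent.H24.AB
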