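import Pool.Agent.H24.AB.Var
import Pool.Agent.H24.AB.Maj
import Pool.Agent.H24.AB.SLog
import Pool.Agent.H24.AB.Count

/-!
# Module Loc: Brun-Titchmarsh at all scales in almost all subintervals of EVERY interval

The proofs of `Var`, `ExcOne`, `Exc`, `Final` for an arbitrary interval `(M, M + N]` of starting points.
-/

set_option autoImplicit false

namespace Pool.Agent.H24.AB

open Finset Pool.Agent.H5.Short

theorem varL (R M X h : ℕ) (hR : 1 ≤ R) (hX : 1 ≤ X) :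
    ∑ n ∈ Ioc M (M + X), (Er R n h) ^ 2 ≤
      10 * ((X : ℝ) + (R : ℝ) ^ 4) * (h * (1 + Real.log ((R ^ 2 : ℕ) : ℝ)) ^ 15) := by
  classical
  have hQ : 1 ≤ R ^ 2 := Nat.one_le_pow _ _ hR
  have hQr : (1 : ℝ) ≤ ((R ^ 2 : ℕ) : ℝ) := by exact_mod_cast hQ
  have hQpos : (0 : ℝ) < ((R ^ 2 : ℕ) : ℝ) := by linarith
  have hδ : (0 : ℝ) < 1 / ((R ^ 2 : ℕ) : ℝ) ^ 2 := by positivity
  have hδ1 : 1 / ((R ^ 2 : ℕ) : ℝ) ^ 2 ≤ 1 := by
    rw [div_le_one (by positivity)]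
    exact one_le_pow₀ hQr
  have hls := large_sieve (FF (R ^ 2)) (fun z => (z.2 : ℝ) / z.1)
    (fun z => ((Cq R z.1 : ℝ) : ℂ) * KK h ((z.2 : ℝ) / z.1)) (1 / ((R ^ 2 : ℕ) : ℝ) ^ 2) hδ hδ1
    (fun i hi j hj hij k => farey_spaced (R ^ 2) i j hi hj hij k) M X hX
  have hE : ∀ n : ℕ, ‖∑ i ∈ FF (R ^ 2), ((Cq R i.1 : ℝ) : ℂ) * KK h ((i.2 : ℝ) / i.1) *
      ee ((n : ℝ) * ((i.2 : ℝ) / i.1))‖ ^ 2 = (Er R n h) ^ 2 := by
    intro n
    rw [← er_expand, Complex.norm_real, Real.norm_eq_abs, sq_abs]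
  have hlhs : ∑ n ∈ Ioc M (M + X), ‖∑ i ∈ FF (R ^ 2), ((Cq R i.1 : ℝ) : ℂ) *
      KK h ((i.2 : ℝ) / i.1) * ee ((n : ℝ) * ((i.2 : ℝ) / i.1))‖ ^ 2
      = ∑ n ∈ Ioc M (M + X), (Er R n h) ^ 2 := by
    exact Finset.sum_congr rfl fun n _ => hE n
  have hls' : ∑ n ∈ Ioc M (M + X), (Er R n h) ^ 2 ≤
      10 * ((X : ℝ) + 1 / (1 / ((R ^ 2 : ℕ) : ℝ) ^ 2)) *
        ∑ i ∈ FF (R ^ 2), ‖((Cq R i.1 : ℝ) : ℂ) * KK h ((i.2 : ℝ) / i.1)‖ ^ 2 := by
    rw [← hlhs]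
    exact hls
  have h1 : 1 / (1 / ((R ^ 2 : ℕ) : ℝ) ^ 2) = (R : ℝ) ^ 4 := by
    push_cast
    rw [one_div_one_div, ← pow_mul]
  rw [h1] at hls'
  refine hls'.trans ?_
  apply mul_le_mul_of_nonneg_left _ (by positivity)
  rw [sum_FF (R ^ 2) (fun q a => ‖((Cq R q : ℝ) : ℂ) * KK h ((a : ℝ) / q)‖ ^ 2)]
  calc ∑ q ∈ Icc 2 (R ^ 2), ∑ a ∈ (Ico 1 q).filter (fun a => a.Coprime q),
        ‖((Cq R q : ℝ) : ℂ) * KK h ((a : ℝ) / q)‖ ^ 2
      ≤ ∑ q ∈ Icc 2 (R ^ 2), (h : ℝ) * ((q : ℝ) * (Cq R q) ^ 2) := by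
        apply Finset.sum_le_sum
        intro q hq
        rw [Finset.mem_Icc] at hq
        calc ∑ a ∈ (Ico 1 q).filter (fun a => a.Coprime q),
              ‖((Cq R q : ℝ) : ℂ) * KK h ((a : ℝ) / q)‖ ^ 2
            ≤ ∑ a ∈ Ico 1 q, ‖((Cq R q : ℝ) : ℂ) * KK h ((a : ℝ) / q)‖ ^ 2 := by
              apply Finset.sum_le_sum_of_subset_of_nonneg (Finset.filter_subset _ _)
              intro i _ _
              positivity
          _ = (Cq R q) ^ 2 * ∑ a ∈ Ico 1 q, ‖KK h ((a : ℝ) / q)‖ ^ 2 := by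
              rw [Finset.mul_sum]
              apply Finset.sum_congr rfl
              intro a _
              rw [norm_mul, mul_pow, Complex.norm_real, Real.norm_eq_abs, sq_abs]
          _ ≤ (Cq R q) ^ 2 * ((q : ℝ) * h) :=
              mul_le_mul_of_nonneg_left (kk_sum q h (by omega)) (by positivity)
          _ = (h : ℝ) * ((q : ℝ) * (Cq R q) ^ 2) := by ring
    _ = (h : ℝ) * ∑ q ∈ Icc 2 (R ^ 2), ((q : ℝ) * (Cq R q) ^ 2) := by rw [Finset.mul_sum]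
    _ ≤ (h : ℝ) * (1 + Real.log ((R ^ 2 : ℕ) : ℝ)) ^ 15 :=
        mul_le_mul_of_nonneg_left (cq_sum R hR) (by positivity)

private theorem locw_ev (δ : ℝ) (hδ : 0 < δ) : ∃ X0 : ℕ, ∀ X : ℕ, X0 ≤ X →
    2 ≤ Real.log X ∧ 4 * Real.log 2 ≤ δ / 40 * Real.log X := by
  have h1 : Filter.Tendsto (fun X : ℕ => Real.log X) Filter.atTop Filter.atTop :=
    Real.tendsto_log_atTop.comp tendsto_natCast_atTop_atTop
  have h3 : ∀ᶠ x : ℝ in Filter.atTop, 4 * Real.log 2 ≤ (δ / 40) * x := by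
    have := Filter.tendsto_id.const_mul_atTop (show (0 : ℝ) < δ / 40 by positivity)
    exact this.eventually_ge_atTop _
  have h4 := h1.eventually (h3.and (Filter.eventually_ge_atTop (2 : ℝ)))
  obtain ⟨X0, hX0⟩ := Filter.eventually_atTop.1 h4
  refine ⟨X0, fun X hX => ?_⟩
  obtain ⟨h6, h7⟩ := hX0 X hX
  exact ⟨h7, h6⟩

private theorem locw_R (δ W : ℝ) (hδ : 0 < δ) (hW : 1 ≤ W) (X h : ℕ)
    (hL : 2 ≤ Real.log X) (hLL : 4 * Real.log 2 ≤ δ / 40 * Real.log X)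
    (hWX : Real.log W ≤ δ / 40 * Real.log X)
    (hh : W ≤ h) (hh3 : h ≤ 3 * X) :
    ∃ R : ℕ, 1 ≤ R ∧ (R : ℝ) ^ 4 ≤ 3 * (X : ℝ) ^ 2 ∧ (X : ℝ) ≤ X * h / W ∧
      (R : ℝ) ^ 4 ≤ X * h / W ∧
      (1 / 4) * (1 - δ / 20) * Real.log (X * h) ≤ Real.log R ∧
      1 + Real.log ((R ^ 2 : ℕ) : ℝ) ≤ 3 * Real.log X ∧ Real.log (X * h) ≤ 3 * Real.log X := by
  have hX3 : (3 : ℝ) ≤ X := by
    have h1 : (0 : ℝ) < X := by
      by_contra hc
      have : (X : ℝ) = 0 := le_antisymm (not_lt.1 hc) (by positivity)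
      rw [this, Real.log_zero] at hL
      linarith
    have h2 := Real.log_le_sub_one_of_pos h1
    linarith
  have hX0 : (0 : ℝ) < X := by linarith
  have hXc : 3 * (X : ℝ) ^ 2 ≤ X ^ 3 := by
    have h1 : (X : ℝ) ^ 3 = X * X ^ 2 := by ring
    rw [h1]
    gcongr
  set L := Real.log X with hLdef
  have hL0 : 0 < L := by linarith
  have hP0 : 0 < W := by linarith
  have hh1 : (1 : ℝ) ≤ h := hW.trans hh
  have hh0 : (0 : ℝ) < h := by linarith
  have hh3' : (h : ℝ) ≤ 3 * X := by exact_mod_cast hh3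
  set Y : ℝ := X * h / W with hY
  have hXY : (X : ℝ) ≤ Y := by
    rw [hY, le_div_iff₀ hP0]
    gcongr
  have hY0 : 0 < Y := by linarith
  have hYle : Y ≤ 3 * (X : ℝ) ^ 2 := by
    rw [hY, div_le_iff₀ hP0]
    nlinarith [mul_le_mul_of_nonneg_left hh3' hX0.le, mul_le_mul_of_nonneg_left hW (show 0 ≤ 3 * (X : ℝ) ^ 2 by positivity)]
  set y : ℝ := Y ^ (1 / 4 : ℝ) with hy
  have hy4 : y ^ 4 = Y := by
    rw [hy, ← Real.rpow_natCast, ← Real.rpow_mul hY0.le]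
    norm_num
  have hy0 : 0 < y := Real.rpow_pos_of_pos hY0 _
  have hy1 : 1 ≤ y := Real.one_le_rpow (by linarith) (by norm_num)
  have hR1 : 1 ≤ ⌊y⌋₊ := Nat.le_floor (by exact_mod_cast hy1)
  have hRy : (⌊y⌋₊ : ℝ) ≤ y := Nat.floor_le hy0.le
  have hRy2 : y < ⌊y⌋₊ + 1 := Nat.lt_floor_add_one y
  have hR1' : (1 : ℝ) ≤ (⌊y⌋₊ : ℝ) := by exact_mod_cast hR1
  have hR4 : (⌊y⌋₊ : ℝ) ^ 4 ≤ Y := by
    rw [← hy4]
    gcongr
  have hlogXh : Real.log (X * h) ≤ 3 * L := by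
    have h1 : (X : ℝ) * h ≤ X ^ 3 := by nlinarith
    calc Real.log (X * h) ≤ Real.log ((X : ℝ) ^ 3) := Real.log_le_log (by positivity) h1
      _ = 3 * L := by rw [Real.log_pow]; push_cast; rfl
  refine ⟨⌊y⌋₊, hR1, ?_, hXY, hR4, ?_, ?_, hlogXh⟩
  · exact hR4.trans hYle
  · have h1 : y / 2 ≤ ⌊y⌋₊ := by linarith
    have h2 : Real.log (y / 2) ≤ Real.log ⌊y⌋₊ := Real.log_le_log (by positivity) h1
    have h3 : Real.log (y / 2) = Real.log y - Real.log 2 := Real.log_div (by positivity) (by norm_num)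
    have h4 : Real.log y = (1 / 4) * Real.log Y := by rw [hy, Real.log_rpow hY0]
    have h5 : Real.log Y = Real.log (X * h) - Real.log W := by
      rw [hY, Real.log_div (by positivity) (by positivity)]
    have h6 : L ≤ Real.log (X * h) := Real.log_le_log hX0 (by nlinarith)
    have h7 : δ / 20 * L ≤ δ / 20 * Real.log (X * h) := by gcongr
    nlinarith
  · have h1 : Real.log ((⌊y⌋₊ ^ 2 : ℕ) : ℝ) = (1 / 2) * Real.log ((⌊y⌋₊ : ℝ) ^ 4) := by
      push_cast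
      rw [Real.log_pow, Real.log_pow]
      push_cast
      ring
    have h2 : Real.log ((⌊y⌋₊ : ℝ) ^ 4) ≤ Real.log ((X : ℝ) ^ 3) := by
      apply Real.log_le_log (by positivity)
      linarith
    have h3 : Real.log ((X : ℝ) ^ 3) = 3 * L := by
      rw [Real.log_pow]
      push_cast
      rfl
    rw [h1]
    linarith


theorem exc_oneL (δ : ℝ) (hδ : 0 < δ) (hδ1 : δ ≤ 1) :
    ∃ C : ℝ, 0 < C ∧ ∃ X0 : ℕ, ∀ X : ℕ, X0 ≤ X → ∀ M : ℕ, ∀ W : ℝ, 1 ≤ W →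
      Real.log W ≤ δ / 40 * Real.log X → ∀ h : ℕ, W ≤ h → h ≤ 3 * X →
      (((Ioc M (M + X)).filter (fun n => 3 * X ^ 2 ≤ n ^ 4 ∧ (4 + δ) * (h / Real.log (X * h)) < (pc n h : ℝ))).card : ℝ) ≤
        C * X * (Real.log X) ^ 17 / W := by
  obtain ⟨X0, hX0⟩ := locw_ev δ hδ
  refine ⟨720 * 3 ^ 15 / δ ^ 2, by positivity, X0, fun X hX M W hW hWX h hh hh3 => ?_⟩
  obtain ⟨hL, hLL⟩ := hX0 X hX
  obtain ⟨R, hR1, hRX, hXY, hR4, hlogR, hlogR2, hlogXh⟩ := locw_R δ W hδ hW X h hL hLL hWX hh hh3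
  set L := Real.log X with hLdef
  have hL0 : 0 < L := by linarith
  have hP0 : 0 < W := by linarith
  have hh1 : (1 : ℝ) ≤ h := hW.trans hh
  have hh0 : (0 : ℝ) < h := by linarith
  have hX1 : 1 ≤ X := by
    rcases Nat.eq_zero_or_pos X with h0 | h0
    · rw [hLdef, h0, Nat.cast_zero, Real.log_zero] at hL
      linarith
    · exact h0
  have hX1' : (1 : ℝ) ≤ X := by exact_mod_cast hX1
  have hXpos : (0 : ℝ) < X := by linarith
  have hLXh : L ≤ Real.log (X * h) := Real.log_le_log hXpos (by nlinarith)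
  have hl0 : 0 < Real.log (X * h) := by linarith
  set T := (Ioc M (M + X)).filter (fun n => 3 * X ^ 2 ≤ n ^ 4 ∧ (4 + δ) * (h / Real.log (X * h)) < (pc n h : ℝ)) with hT
  have hd : 0 < 1 - δ / 20 := by linarith
  have hlR0 : 0 < Real.log R := by
    have : 0 < (1 / 4) * (1 - δ / 20) * Real.log (X * h) := by positivity
    linarith
  have hS := log_le_Ss R hR1
  have hmain : (h : ℝ) / Ss R ≤ (4 + δ / 2) * (h / Real.log (X * h)) := by
    have e1 : (h : ℝ) / Ss R ≤ h / ((1 / 4) * (1 - δ / 20) * Real.log (X * h)) := by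
      apply div_le_div_of_nonneg_left hh0.le (by positivity) (by linarith)
    have e2 : (h : ℝ) / ((1 / 4) * (1 - δ / 20) * Real.log (X * h)) =
        (4 / (1 - δ / 20)) * (h / Real.log (X * h)) := by
      field_simp
    have e3 : 4 / (1 - δ / 20) ≤ 4 + δ / 2 := by
      rw [div_le_iff₀ hd]
      nlinarith
    rw [e2] at e1
    exact e1.trans (by gcongr)
  have hlow : ∀ n ∈ T, (δ * h / (6 * L)) ^ 2 ≤ (Er R n h) ^ 2 := by
    intro n hn
    rw [hT, Finset.mem_filter, Finset.mem_Ioc] at hn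
    have hRn : R ≤ n := by
      have h1 : (R : ℝ) ^ 4 ≤ (n : ℝ) ^ 4 := hRX.trans (by exact_mod_cast hn.2.1)
      have h2 : (R : ℝ) ≤ n := le_of_pow_le_pow_left₀ (by norm_num) (Nat.cast_nonneg n) h1
      exact_mod_cast h2
    have h1 := majorant R n h hR1 hRn
    have h2 : δ * h / (6 * L) ≤ (δ / 2) * (h / Real.log (X * h)) := by
      have h3 : δ * h / (6 * L) = (δ / 2) * (h / (3 * L)) := by
        field_simp
        norm_num
      rw [h3]
      gcongr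
    have h4 : δ * h / (6 * L) ≤ Er R n h := by
      have : (4 + δ) * (h / Real.log (X * h)) =
        (4 + δ / 2) * (h / Real.log (X * h)) + (δ / 2) * (h / Real.log (X * h)) := by ring
      linarith [hn.2.2]
    have h5 : 0 ≤ δ * h / (6 * L) := by positivity
    gcongr
  have hsum : (T.card : ℝ) * (δ * h / (6 * L)) ^ 2 ≤ ∑ n ∈ Ioc M (M + X), (Er R n h) ^ 2 := by
    calc (T.card : ℝ) * (δ * h / (6 * L)) ^ 2 = ∑ n ∈ T, (δ * h / (6 * L)) ^ 2 := by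
          rw [Finset.sum_const, nsmul_eq_mul]
      _ ≤ ∑ n ∈ T, (Er R n h) ^ 2 := Finset.sum_le_sum hlow
      _ ≤ _ := Finset.sum_le_sum_of_subset_of_nonneg (Finset.filter_subset _ _)
          fun _ _ _ => sq_nonneg _
  have hvar := varL R M X h hR1 hX1
  have hb : 10 * ((X : ℝ) + (R : ℝ) ^ 4) * (h * (1 + Real.log ((R ^ 2 : ℕ) : ℝ)) ^ 15) ≤
      20 * (X * h / W) * (h * (3 * L) ^ 15) := by
    have h0 : 0 ≤ 1 + Real.log ((R ^ 2 : ℕ) : ℝ) := by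
      have : 0 ≤ Real.log ((R ^ 2 : ℕ) : ℝ) := Real.log_natCast_nonneg _
      linarith
    have h1 : 10 * ((X : ℝ) + (R : ℝ) ^ 4) ≤ 20 * (X * h / W) := by linarith
    have h2 : (1 + Real.log ((R ^ 2 : ℕ) : ℝ)) ^ 15 ≤ (3 * L) ^ 15 := by gcongr
    gcongr
  have hfin : (T.card : ℝ) * (δ * h / (6 * L)) ^ 2 ≤
      20 * (X * h / W) * (h * (3 * L) ^ 15) := hsum.trans (hvar.trans hb)
  have hq : 0 < (δ * h / (6 * L)) ^ 2 := by positivity
  have e : 20 * (X * h / W) * (h * (3 * L) ^ 15) =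
      (720 * 3 ^ 15 / δ ^ 2 * X * L ^ 17 / W) * (δ * h / (6 * L)) ^ 2 := by
    field_simp
    norm_num
  rw [e] at hfin
  exact le_of_mul_le_mul_right hfin hq

open Classical in
theorem excL (δ : ℝ) (hδ : 0 < δ) : ∃ κ C : ℝ, 0 < κ ∧ κ ≤ 1 / 2 ∧ 0 < C ∧ ∃ X0 : ℕ, ∀ X : ℕ, X0 ≤ X →
    ∀ M : ℕ, ∀ W : ℝ, 1 ≤ W → Real.log W ≤ κ * Real.log X →
    (((Ioc M (M + X)).filter (fun n => 3 * X ^ 2 ≤ n ^ 4 ∧ ∃ h : ℕ, W ≤ h ∧ h ≤ 2 * X ∧
      (4 + δ) * (h / Real.log (X * h)) < (pc n h : ℝ))).card : ℝ) ≤ C * X * (Real.log X) ^ 18 / W := by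
  obtain ⟨δ1, hδ1⟩ : ∃ δ1 : ℝ, δ1 = min δ 1 := ⟨_, rfl⟩
  have hd0 : 0 < δ1 := by rw [hδ1]; exact lt_min hδ one_pos
  have hd1 : δ1 ≤ 1 := by rw [hδ1]; exact min_le_right _ _
  have hdδ : δ1 ≤ δ := by rw [hδ1]; exact min_le_left _ _
  obtain ⟨C, hC, X1, hone⟩ := exc_oneL (δ1 / 2) (by positivity) (by linarith)
  obtain ⟨τ, hτ⟩ : ∃ τ : ℝ, τ = δ1 / 40 := ⟨_, rfl⟩
  have hτ0 : 0 < τ := by rw [hτ]; positivity
  have hτ1 : τ ≤ 1 / 40 := by rw [hτ]; linarith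
  have hlτ : 0 < Real.log (1 + τ) := Real.log_pos (by linarith)
  obtain ⟨C2, hC2⟩ : ∃ C2 : ℝ, C2 = 2 / Real.log (1 + τ) + 1 := ⟨_, rfl⟩
  have hC20 : 0 < C2 := by rw [hC2]; positivity
  have hlogtend : Filter.Tendsto (fun n : ℕ => Real.log (n : ℝ)) Filter.atTop Filter.atTop :=
    Real.tendsto_log_atTop.comp tendsto_natCast_atTop_atTop
  obtain ⟨X2, hX2⟩ := Filter.eventually_atTop.mp ((hlogtend.eventually_ge_atTop 1).and
    (hlogtend.eventually_ge_atTop (1 / τ)))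
  refine ⟨δ1 / 2 / 40, C2 * C + 1, by positivity, by linarith, by positivity, max (max X1 X2) 2, ?_⟩
  intro X hX M W hW hWX
  have hXX1 : X1 ≤ X := le_trans (le_trans (le_max_left _ _) (le_max_left _ _)) hX
  have hXX2 : X2 ≤ X := le_trans (le_trans (le_max_right _ _) (le_max_left _ _)) hX
  have hX2' : 2 ≤ X := le_trans (le_max_right _ _) hX
  obtain ⟨hlog1, hlogτ⟩ := hX2 X hXX2
  have hXR : (2 : ℝ) ≤ X := by exact_mod_cast hX2'
  have hX0 : (0 : ℝ) < X := by linarith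
  have hlog0 : 0 < Real.log X := by linarith
  have hW0 : 0 < W := by linarith
  have hL18 : 1 ≤ (Real.log X) ^ 18 := one_le_pow₀ hlog1
  by_cases hWs : W ≤ (Real.log X) ^ 18
  · have h1 : (((Ioc M (M + X)).filter (fun n => 3 * X ^ 2 ≤ n ^ 4 ∧ ∃ h : ℕ, W ≤ h ∧ h ≤ 2 * X ∧
        (4 + δ) * (h / Real.log (X * h)) < (pc n h : ℝ))).card : ℝ) ≤ X := by
      have h2 := card_filter_le (Ioc M (M + X)) (fun n => 3 * X ^ 2 ≤ n ^ 4 ∧ ∃ h : ℕ, W ≤ h ∧ h ≤ 2 * X ∧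
        (4 + δ) * (h / Real.log (X * h)) < (pc n h : ℝ))
      rw [Nat.card_Ioc] at h2
      have h3 : M + X - M = X := by omega
      rw [h3] at h2
      exact_mod_cast h2
    refine h1.trans ?_
    rw [le_div_iff₀ hW0]
    have h4 : 1 ≤ C2 * C + 1 := by
      have : 0 < C2 * C := by positivity
      linarith
    calc (X : ℝ) * W ≤ X * (Real.log X) ^ 18 := by gcongr
      _ = 1 * X * (Real.log X) ^ 18 := by ring
      _ ≤ _ := by gcongr
  push Not at hWs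
  have hlogA : Real.log X ≤ W := by
    calc Real.log X = (Real.log X) ^ 1 := (pow_one _).symm
      _ ≤ (Real.log X) ^ 18 := pow_le_pow_right₀ hlog1 (by norm_num)
      _ ≤ W := hWs.le
  obtain ⟨J, hJ⟩ : ∃ J : ℕ, J = ⌊2 * Real.log X / Real.log (1 + τ)⌋₊ := ⟨_, rfl⟩
  obtain ⟨g, hg⟩ : ∃ g : ℕ → ℕ, ∀ j, g j = ⌈(1 + τ) ^ (j + 1)⌉₊ :=
    ⟨fun j => ⌈(1 + τ) ^ (j + 1)⌉₊, fun _ => rfl⟩
  obtain ⟨S, hS⟩ : ∃ S : ℕ → Finset ℕ, ∀ k, S k = (Ioc M (M + X)).filter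
      (fun n => 3 * X ^ 2 ≤ n ^ 4 ∧ (4 + δ1 / 2) * (k / Real.log (X * k)) < (pc n k : ℝ)) :=
    ⟨fun k => (Ioc M (M + X)).filter
      (fun n => 3 * X ^ 2 ≤ n ^ 4 ∧ (4 + δ1 / 2) * (k / Real.log (X * k)) < (pc n k : ℝ)), fun _ => rfl⟩
  have hSone : ∀ k : ℕ, W ≤ k → k ≤ 3 * X →
      ((S k).card : ℝ) ≤ C * X * (Real.log X) ^ 17 / W := by
    intro k hk1 hk2
    have h1 := hone X hXX1 M W hW hWX k hk1 hk2
    rw [hS]
    exact h1
  set P : ℕ → Prop := fun j => W ≤ (g j : ℝ) ∧ g j ≤ 3 * X with hP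
  have hsub : (Ioc M (M + X)).filter (fun n => 3 * X ^ 2 ≤ n ^ 4 ∧ ∃ h : ℕ, W ≤ h ∧ h ≤ 2 * X ∧
      (4 + δ) * (h / Real.log (X * h)) < (pc n h : ℝ)) ⊆
      ((range (J + 1)).filter P).biUnion (fun j => S (g j)) := by
    intro n hn
    rw [mem_filter] at hn
    obtain ⟨hnI, hn4, h, hA, hh2, hpc⟩ := hn
    have hhR : (h : ℝ) ≤ 2 * X := by exact_mod_cast hh2
    have hhτ : 1 / τ ≤ h := hlogτ.trans (hlogA.trans hA)
    have hhτ' : 1 ≤ τ * h := by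
      rw [div_le_iff₀ hτ0] at hhτ
      linarith
    have hh1 : (1 : ℝ) ≤ h := hlog1.trans (hlogA.trans hA)
    have hh0 : (0 : ℝ) < h := by linarith
    obtain ⟨j, hj1, hj2⟩ := exists_nat_pow_near hh1 (show 1 < 1 + τ by linarith)
    have hgh : (h : ℝ) ≤ g j := by
      rw [hg]
      exact hj2.le.trans (Nat.le_ceil _)
    have hgh' : h ≤ g j := by exact_mod_cast hgh
    have hgup : (g j : ℝ) ≤ (1 + 2 * τ) * h := by
      have h1 : (g j : ℝ) < (1 + τ) ^ (j + 1) + 1 := by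
        rw [hg]
        exact Nat.ceil_lt_add_one (by positivity)
      have h2 : (1 + τ) ^ (j + 1) ≤ (1 + τ) * h := by
        rw [pow_succ, mul_comm]
        exact mul_le_mul_of_nonneg_left hj1 (by linarith)
      nlinarith
    have hg3 : g j ≤ 3 * X := by
      have h1 : (g j : ℝ) ≤ 3 * X := by nlinarith
      exact_mod_cast h1
    have hjJ : j < J + 1 := by
      have h1 : (j : ℝ) * Real.log (1 + τ) ≤ 2 * Real.log X := by
        rw [← Real.log_pow]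
        calc Real.log ((1 + τ) ^ j) ≤ Real.log (2 * X) :=
              Real.log_le_log (by positivity) (hj1.trans hhR)
          _ ≤ Real.log (X * X) := Real.log_le_log (by positivity) (by nlinarith)
          _ = 2 * Real.log X := by rw [Real.log_mul hX0.ne' hX0.ne']; ring
      have h2 : (j : ℝ) ≤ 2 * Real.log X / Real.log (1 + τ) := by
        rw [le_div_iff₀ hlτ]
        exact h1
      rw [hJ]
      exact Nat.lt_succ_of_le (Nat.le_floor h2)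
    rw [mem_biUnion]
    refine ⟨j, mem_filter.mpr ⟨mem_range.mpr hjJ, hA.trans hgh, hg3⟩, ?_⟩
    rw [hS, mem_filter]
    refine ⟨hnI, hn4, ?_⟩
    have hpcm : (pc n h : ℝ) ≤ pc n (g j) := by
      have h1 : pc n h ≤ pc n (g j) := by
        unfold pc
        apply card_le_card
        apply filter_subset_filter
        exact Ioc_subset_Ioc_right (by omega)
      exact_mod_cast h1
    have hXh : (2 : ℝ) ≤ X * h := by nlinarith
    have hlogh : 0 < Real.log (X * h) := Real.log_pos (by linarith)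
    have hloghg : Real.log (X * h) ≤ Real.log (X * g j) :=
      Real.log_le_log (by positivity) (mul_le_mul_of_nonneg_left hgh hX0.le)
    have h3 : (g j : ℝ) / Real.log (X * g j) ≤ (1 + 2 * τ) * h / Real.log (X * h) :=
      div_le_div₀ (by positivity) hgup hlogh hloghg
    have h4 : (4 + δ1 / 2) * (1 + 2 * τ) ≤ 4 + δ := by
      rw [hτ]
      nlinarith
    have h5 : 0 < (h : ℝ) / Real.log (X * h) := by positivity
    calc (4 + δ1 / 2) * (g j / Real.log (X * g j)) ≤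
          (4 + δ1 / 2) * ((1 + 2 * τ) * h / Real.log (X * h)) :=
            mul_le_mul_of_nonneg_left h3 (by positivity)
      _ = ((4 + δ1 / 2) * (1 + 2 * τ)) * (h / Real.log (X * h)) := by ring
      _ ≤ (4 + δ) * (h / Real.log (X * h)) := mul_le_mul_of_nonneg_right h4 h5.le
      _ < pc n h := hpc
      _ ≤ _ := hpcm
  have hcard : (((Ioc M (M + X)).filter (fun n => 3 * X ^ 2 ≤ n ^ 4 ∧ ∃ h : ℕ, W ≤ h ∧
      h ≤ 2 * X ∧ (4 + δ) * (h / Real.log (X * h)) < (pc n h : ℝ))).card : ℝ) ≤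
      ((J : ℝ) + 1) * (C * X * (Real.log X) ^ 17 / W) := by
    have h1 := (card_le_card hsub).trans card_biUnion_le
    have h2 : ((∑ j ∈ (range (J + 1)).filter P, (S (g j)).card : ℕ) : ℝ) ≤
        ∑ j ∈ (range (J + 1)).filter P, C * X * (Real.log X) ^ 17 / W := by
      push_cast
      apply sum_le_sum
      intro j hj
      have h3 := (mem_filter.mp hj).2
      exact hSone (g j) h3.1 h3.2
    have h4 : ∑ j ∈ (range (J + 1)).filter P, C * X * (Real.log X) ^ 17 / W ≤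
        ((J : ℝ) + 1) * (C * X * (Real.log X) ^ 17 / W) := by
      rw [sum_const, nsmul_eq_mul]
      apply mul_le_mul_of_nonneg_right _ (by positivity)
      have h5 := card_filter_le (range (J + 1)) P
      rw [card_range] at h5
      exact_mod_cast h5
    exact le_trans (le_trans (by exact_mod_cast h1) h2) h4
  refine hcard.trans ?_
  have hJ1 : (J : ℝ) + 1 ≤ C2 * Real.log X := by
    have h1 : (J : ℝ) ≤ 2 * Real.log X / Real.log (1 + τ) := by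
      rw [hJ]
      exact Nat.floor_le (by positivity)
    calc (J : ℝ) + 1 ≤ 2 * Real.log X / Real.log (1 + τ) + Real.log X := by linarith
      _ = _ := by rw [hC2]; ring
  calc ((J : ℝ) + 1) * (C * X * (Real.log X) ^ 17 / W) ≤
        (C2 * Real.log X) * (C * X * (Real.log X) ^ 17 / W) :=
          mul_le_mul_of_nonneg_right hJ1 (by positivity)
    _ = (C2 * C) * X * (Real.log X) ^ 18 / W := by ring
    _ ≤ _ := by
        have : C2 * C ≤ C2 * C + 1 := by linarith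
        gcongr



private theorem locbt_large (δ : ℝ) (hδ : 0 < δ) : ∃ κ C : ℝ, 0 < κ ∧ 0 < C ∧ ∃ X0 : ℕ, ∀ X : ℕ, X0 ≤ X →
    ∀ M : ℕ, ∀ W : ℝ, 1 ≤ W → W ≤ (X : ℝ) ^ κ →
    (({n : ℕ | M < n ∧ n ≤ M + X ∧ ∃ H : ℝ, W ≤ H ∧ H ≤ X ∧
      (4 + δ) * (H / Real.log (X * H)) <
        (((Ioc n ⌊(n : ℝ) + H⌋₊).filter Nat.Prime).card : ℝ)}.ncard : ℕ) : ℝ) ≤
      C * X * (Real.log X) ^ 18 / W := by
  classical
  obtain ⟨κ, C, hκ, hκ2, hC, X1, hexc⟩ := excL (δ / 2) (by linarith)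
  have hlog4 : 0 < Real.log 4 := Real.log_pos (by norm_num)
  refine ⟨κ, 2 * C + 5, hκ, by positivity,
    max X1 (max 2 ⌈Real.exp (max 2 ((8 + δ) * Real.log 4 / δ))⌉₊), ?_⟩
  intro X hX M W hW hWX
  have hX1 : X1 ≤ X := le_trans (le_max_left _ _) hX
  have hX2 : 2 ≤ X := le_trans (le_trans (le_max_left _ _) (le_max_right _ _)) hX
  have hX3 : ⌈Real.exp (max 2 ((8 + δ) * Real.log 4 / δ))⌉₊ ≤ X :=
    le_trans (le_trans (le_max_right _ _) (le_max_right _ _)) hX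
  have hX2R : (2 : ℝ) ≤ X := by exact_mod_cast hX2
  have hXR : (0 : ℝ) < X := by linarith
  have hL : max 2 ((8 + δ) * Real.log 4 / δ) ≤ Real.log X := by
    rw [Real.le_log_iff_exp_le hXR]
    exact (Nat.le_ceil _).trans (by exact_mod_cast hX3)
  have hL2 : 2 ≤ Real.log X := le_trans (le_max_left _ _) hL
  have hL3 : (8 + δ) * Real.log 4 ≤ δ * Real.log X := by
    have h1 := le_trans (le_max_right _ _) hL
    rw [div_le_iff₀ hδ] at h1
    linarith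
  have hL18 : 1 ≤ (Real.log X) ^ 18 := one_le_pow₀ (by linarith)
  have hW0 : 0 < W := by linarith
  have hset : {n : ℕ | M < n ∧ n ≤ M + X ∧ ∃ H : ℝ, W ≤ H ∧ H ≤ X ∧
      (4 + δ) * (H / Real.log (X * H)) <
        (((Ioc n ⌊(n : ℝ) + H⌋₊).filter Nat.Prime).card : ℝ)} =
      ((Ioc M (M + X)).filter (fun n : ℕ => ∃ H : ℝ, W ≤ H ∧ H ≤ X ∧
      (4 + δ) * (H / Real.log (X * H)) <
        (((Ioc n ⌊(n : ℝ) + H⌋₊).filter Nat.Prime).card : ℝ)) : Finset ℕ) := by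
    ext n
    simp only [Set.mem_ofPred_eq, coe_filter, mem_Ioc]
    tauto
  rw [hset, Set.ncard_coe_finset]
  by_cases hW2 : W < 2
  · have h1 : (((Ioc M (M + X)).filter (fun n : ℕ => ∃ H : ℝ, W ≤ H ∧ H ≤ X ∧
      (4 + δ) * (H / Real.log (X * H)) <
        (((Ioc n ⌊(n : ℝ) + H⌋₊).filter Nat.Prime).card : ℝ))).card : ℝ) ≤ X := by
      have h2 := card_filter_le (Ioc M (M + X)) (fun n : ℕ => ∃ H : ℝ, W ≤ H ∧ H ≤ X ∧
      (4 + δ) * (H / Real.log (X * H)) <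
        (((Ioc n ⌊(n : ℝ) + H⌋₊).filter Nat.Prime).card : ℝ))
      rw [Nat.card_Ioc] at h2
      have h3 : M + X - M = X := by omega
      rw [h3] at h2
      exact_mod_cast h2
    refine h1.trans ?_
    rw [le_div_iff₀ (by linarith)]
    have h4 : (X : ℝ) * W ≤ X * 2 := by gcongr
    have h5 : (X : ℝ) * 2 ≤ 2 * X * (Real.log X) ^ 18 := by nlinarith
    have h6 : 2 * X * (Real.log X) ^ 18 ≤ (2 * C + 5) * X * (Real.log X) ^ 18 := by
      have : 2 ≤ 2 * C + 5 := by linarith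
      gcongr
    linarith
  push Not at hW2
  have hWl' : Real.log W ≤ κ * Real.log X := by
    have h2 : Real.log W ≤ Real.log ((X : ℝ) ^ κ) := Real.log_le_log (by linarith) hWX
    rwa [Real.log_rpow hXR] at h2
  have hWl : Real.log (W / 2) ≤ κ * Real.log X := by
    have h1 : Real.log (W / 2) ≤ Real.log W := Real.log_le_log (by linarith) (by linarith)
    linarith
  have hmain := hexc X hX1 M (W / 2) (by linarith) hWl
  -- the small starting points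
  have hsmall : ((range (Nat.sqrt (2 * X) + 1)).card : ℝ) ≤ 3 * X / W := by
    rw [card_range, le_div_iff₀ hW0]
    have h1 : ((Nat.sqrt (2 * X) : ℕ) : ℝ) ^ 2 ≤ 2 * X := by
      have := Nat.sqrt_le' (2 * X)
      exact_mod_cast this
    have h2 : W ^ 2 ≤ X := by
      have h3 : Real.log (W ^ 2) ≤ Real.log X := by
        rw [Real.log_pow]
        push_cast
        nlinarith
      exact (Real.log_le_log_iff (by positivity) hXR).1 h3
    have h4 : (((Nat.sqrt (2 * X) + 1 : ℕ) : ℝ) * W) ^ 2 ≤ (3 * (X : ℝ)) ^ 2 := by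
      push_cast
      obtain ⟨r, hr⟩ : ∃ r : ℝ, r = ((Nat.sqrt (2 * X) : ℕ) : ℝ) := ⟨_, rfl⟩
      rw [← hr] at h1 ⊢
      have h5 : (r + 1) ^ 2 ≤ 9 * (X : ℝ) := by nlinarith [sq_nonneg (r - 1)]
      calc ((r + 1) * W) ^ 2 = (r + 1) ^ 2 * W ^ 2 := by ring
        _ ≤ (9 * (X : ℝ)) * (X : ℝ) := by gcongr
        _ = (3 * (X : ℝ)) ^ 2 := by ring
    exact le_of_sq_le_sq h4 (by positivity)
  have hsub : (Ioc M (M + X)).filter (fun n : ℕ => ∃ H : ℝ, W ≤ H ∧ H ≤ X ∧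
      (4 + δ) * (H / Real.log (X * H)) <
        (((Ioc n ⌊(n : ℝ) + H⌋₊).filter Nat.Prime).card : ℝ)) ⊆
      range (Nat.sqrt (2 * X) + 1) ∪
      (Ioc M (M + X)).filter (fun n : ℕ => 3 * X ^ 2 ≤ n ^ 4 ∧ ∃ h : ℕ, W / 2 ≤ h ∧ h ≤ 2 * X ∧
      (4 + δ / 2) * (h / Real.log (X * h)) < (pc n h : ℝ)) := by
    intro n hn
    rw [Finset.mem_filter] at hn
    rw [mem_union, mem_filter, mem_range]
    obtain ⟨hnX, hnU⟩ := hn
    by_cases hn4 : 3 * X ^ 2 ≤ n ^ 4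
    swap
    · left
      have h1 : n ^ 2 ≤ 2 * X := by
        by_contra hc
        push Not at hc
        have h2 : (2 * X) ^ 2 ≤ (n ^ 2) ^ 2 := Nat.pow_le_pow_left hc.le 2
        have h3 : (n ^ 2) ^ 2 = n ^ 4 := by ring
        apply hn4
        nlinarith
      have h2 : n ≤ Nat.sqrt (2 * X) := by
        rw [Nat.le_sqrt']
        exact h1
      omega
    right
    refine ⟨hnX, hn4, ?_⟩
    rw [Finset.mem_Ioc] at hnX
    obtain ⟨H, hH1, hH2, hH3⟩ := hnU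
    have hH0 : 0 ≤ H := by linarith
    have hfl : H < (⌊H⌋₊ : ℝ) + 1 := Nat.lt_floor_add_one H
    have hfl' : (⌊H⌋₊ : ℝ) ≤ H := Nat.floor_le hH0
    have hh1 : (1 : ℝ) ≤ (⌊H⌋₊ : ℝ) := by
      have : 1 ≤ ⌊H⌋₊ := Nat.le_floor (by push_cast; linarith)
      exact_mod_cast this
    rw [count_eq n H hH0] at hH3
    refine ⟨⌊H⌋₊, by linarith, ?_, ?_⟩
    · have h3 : ((⌊H⌋₊ : ℕ) : ℝ) ≤ ((2 * X : ℕ) : ℝ) := by
        push_cast
        linarith
      exact_mod_cast h3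
    · refine lt_of_le_of_lt ?_ hH3
      have hXh : (X : ℝ) ≤ X * (⌊H⌋₊ : ℝ) := by nlinarith
      have hlXh : Real.log X ≤ Real.log (X * (⌊H⌋₊ : ℝ)) := Real.log_le_log hXR hXh
      have hpos : 0 < Real.log (X * (⌊H⌋₊ : ℝ)) := by linarith
      have hnH : Real.log (X * H) ≤ Real.log (X * (⌊H⌋₊ : ℝ)) + Real.log 4 := by
        rw [← Real.log_mul (by positivity) (by norm_num)]
        apply Real.log_le_log
        · have : (0 : ℝ) < H := by linarith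
          positivity
        · calc (X : ℝ) * H ≤ X * (4 * (⌊H⌋₊ : ℝ)) := by
                apply mul_le_mul_of_nonneg_left (by linarith) hXR.le
            _ = X * (⌊H⌋₊ : ℝ) * 4 := by ring
      have hnHpos : 0 < Real.log (X * H) := by
        apply Real.log_pos
        nlinarith
      rw [← mul_div_assoc, ← mul_div_assoc, div_le_div_iff₀ hpos hnHpos]
      have h6 : (4 + δ / 2) * Real.log (X * H) ≤ (4 + δ) * Real.log (X * (⌊H⌋₊ : ℝ)) := by
        have h7 : (4 + δ / 2) * Real.log (X * H) ≤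
            (4 + δ / 2) * (Real.log (X * (⌊H⌋₊ : ℝ)) + Real.log 4) :=
          mul_le_mul_of_nonneg_left hnH (by linarith)
        nlinarith
      calc (4 + δ / 2) * (⌊H⌋₊ : ℝ) * Real.log (X * H)
          = (⌊H⌋₊ : ℝ) * ((4 + δ / 2) * Real.log (X * H)) := by ring
        _ ≤ H * ((4 + δ) * Real.log (X * (⌊H⌋₊ : ℝ))) :=
            mul_le_mul hfl' h6 (by positivity) hH0
        _ = (4 + δ) * H * Real.log (X * (⌊H⌋₊ : ℝ)) := by ring
  have hc : (((Ioc M (M + X)).filter (fun n : ℕ => ∃ H : ℝ, W ≤ H ∧ H ≤ X ∧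
      (4 + δ) * (H / Real.log (X * H)) <
        (((Ioc n ⌊(n : ℝ) + H⌋₊).filter Nat.Prime).card : ℝ))).card : ℝ) ≤
      3 * X / W + C * X * (Real.log X) ^ 18 / (W / 2) := by
    refine le_trans ?_ (add_le_add hsmall hmain)
    have := (card_le_card hsub).trans (card_union_le _ _)
    exact_mod_cast this
  refine hc.trans ?_
  have h8 : C * X * (Real.log X) ^ 18 / (W / 2) = 2 * C * X * (Real.log X) ^ 18 / W := by
    field_simp
  rw [h8, ← add_div]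
  have h9 : 3 * (X : ℝ) + 2 * C * X * (Real.log X) ^ 18 ≤ (2 * C + 5) * X * (Real.log X) ^ 18 := by
    have : 0 ≤ (X : ℝ) * (Real.log X) ^ 18 := by positivity
    nlinarith
  gcongr

/-- **Brun-Titchmarsh in almost all subintervals of every interval.** -/
theorem loc_bt (δ : ℝ) (hδ : 0 < δ) : ∃ κ C : ℝ, 0 < κ ∧ 0 < C ∧ ∀ M X : ℕ, 2 ≤ X →
    ∀ W : ℝ, 1 ≤ W → W ≤ (X : ℝ) ^ κ →
    (({n : ℕ | M < n ∧ n ≤ M + X ∧ ∃ H : ℝ, W ≤ H ∧ H ≤ X ∧
      (4 + δ) * (H / Real.log (X * H)) <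
        (((Ioc n ⌊(n : ℝ) + H⌋₊).filter Nat.Prime).card : ℝ)}.ncard : ℕ) : ℝ) ≤
      C * X * (Real.log X) ^ 18 / W := by
  obtain ⟨κ, C, hκ, hC, X0, h⟩ := locbt_large δ hδ
  have hl2 : 0 < Real.log 2 := Real.log_pos (by norm_num)
  refine ⟨κ, C + (X0 : ℝ) ^ κ / (Real.log 2) ^ 18, hκ, by positivity, fun M X hX W hW hWX => ?_⟩
  have hX2 : (2 : ℝ) ≤ X := by exact_mod_cast hX
  have hW0 : 0 < W := by linarith
  have hlX : Real.log 2 ≤ Real.log X := Real.log_le_log (by norm_num) hX2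
  by_cases hXX : X0 ≤ X
  · refine (h X hXX M W hW hWX).trans ?_
    have : C ≤ C + (X0 : ℝ) ^ κ / (Real.log 2) ^ 18 := by
      have : 0 ≤ (X0 : ℝ) ^ κ / (Real.log 2) ^ 18 := by positivity
      linarith
    have h0 : 0 ≤ Real.log X := by linarith
    gcongr
  · push Not at hXX
    have hsub : {n : ℕ | M < n ∧ n ≤ M + X ∧ ∃ H : ℝ, W ≤ H ∧ H ≤ X ∧
      (4 + δ) * (H / Real.log (X * H)) <
        (((Ioc n ⌊(n : ℝ) + H⌋₊).filter Nat.Prime).card : ℝ)} ⊆ (Ioc M (M + X) : Finset ℕ) := by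
      intro n hn
      rw [coe_Ioc, Set.mem_Ioc]
      exact ⟨hn.1, hn.2.1⟩
    have h1 := Set.ncard_le_ncard hsub (Finset.finite_toSet _)
    rw [Set.ncard_coe_finset, Nat.card_Ioc] at h1
    have h3 : M + X - M = X := by omega
    rw [h3] at h1
    have h4 : (({n : ℕ | M < n ∧ n ≤ M + X ∧ ∃ H : ℝ, W ≤ H ∧ H ≤ X ∧
      (4 + δ) * (H / Real.log (X * H)) <
        (((Ioc n ⌊(n : ℝ) + H⌋₊).filter Nat.Prime).card : ℝ)}.ncard : ℕ) : ℝ) ≤ X := by
      exact_mod_cast h1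
    refine h4.trans ?_
    rw [le_div_iff₀ hW0]
    have h5 : W ≤ (X0 : ℝ) ^ κ := by
      refine hWX.trans ?_
      have : (X : ℝ) ≤ X0 := by exact_mod_cast hXX.le
      gcongr
    have h6 : (Real.log 2) ^ 18 ≤ (Real.log X) ^ 18 := by gcongr
    have h7 : W ≤ (X0 : ℝ) ^ κ / (Real.log 2) ^ 18 * (Real.log X) ^ 18 := by
      rw [div_mul_eq_mul_div, le_div_iff₀ (by positivity)]
      gcongr
    have h8 : (X : ℝ) * W ≤ X * ((X0 : ℝ) ^ κ / (Real.log 2) ^ 18 * (Real.log X) ^ 18) := by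
      gcongr
    have h9 : 0 ≤ C * X * (Real.log X) ^ 18 := by positivity
    nlinarith

end Pool.Agent.H24.AB
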