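import Pool.Agent.H83.TK.Dim

/-!
# [H24 AB Pdp] ABUNDANCE (MP_e49dc9_ag): prime elements of the local rings and prime divisors, on factorial varieties of any dimension

`pdp`: a prime element `π` of the local ring at `x` is the local equation of a prime divisor through `x` (`pdiv_of_prime` of H83/TU/PA.lean without
the hypothesis on the dimension; copied from H24/VP/Prm.lean, where it is private).
-/

set_option autoImplicit false

namespace Pool.Agent.H24.AB

open MvPolynomial Pool.Agent.H54.RV Pool.Agent.H83.TU Pool.Agent.H83.TK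

variable {k K : Type} [Field k] [Field K] [Algebra k K] {X : Mod k K}

/-- divisibility in a subalgebra of a field -/
private theorem pa_dvd {A : Subalgebra k K} {q a : K} (hq : q ∈ A) (ha : a ∈ A) (h0 : q ≠ 0) :
    (⟨q, hq⟩ : A) ∣ ⟨a, ha⟩ ↔ a / q ∈ A := by
  constructor
  · rintro ⟨c, hc⟩
    have h1 : a = q * (c : K) := congrArg Subtype.val hc
    rw [h1, mul_div_cancel_left₀ _ h0]
    exact c.2
  · intro h
    refine ⟨⟨a / q, h⟩, Subtype.ext ?_⟩
    change a = q * (a / q)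
    rw [mul_div_cancel₀ _ h0]

/-- a place from the powers of a uniformizer -/
private theorem pa_place (A : Subalgebra k K) (q : K) (hq : q ∈ A) (h0 : q ≠ 0) (hnu : ¬ Un A q)
    (hrep : ∀ b : K, b ≠ 0 → ∃ n : ℤ, ∃ u : K, Un A u ∧ b = q ^ n * u) :
    ∃ p : Place k K, (∀ a, a ∈ A ↔ a ∈ p.R) ∧ p.ord q = 1 := by
  have hneg : ∀ (n : ℤ) (u : K), Un A u → (q ^ n * u ∈ A ↔ 0 ≤ n) := by
    intro n u hu
    constructor
    · intro h
      by_contra hn
      obtain ⟨m, hm⟩ : ∃ m : ℕ, (m : ℤ) = -n := ⟨(-n).toNat, by omega⟩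
      have hm1 : 1 ≤ m := by omega
      have h1 : q ^ m * (q ^ n * u) = u := by
        rw [← mul_assoc, ← zpow_natCast, ← zpow_add₀ h0, hm, neg_add_cancel, zpow_zero, one_mul]
      have h2 : Un A (q ^ m * (q ^ n * u)) := by
        rw [h1]
        exact hu
      have h3 := ((un_mul_iff (A.pow_mem hq m) h).1 h2).1
      exact hnu ((un_pow_iff hq hm1).1 h3)
    · intro hn
      obtain ⟨m, rfl⟩ : ∃ m : ℕ, n = m := ⟨n.toNat, by omega⟩
      rw [zpow_natCast]
      exact A.mul_mem (A.pow_mem hq m) hu.2.1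
  have huniq : ∀ (n m : ℤ) (u v : K), Un A u → Un A v → q ^ n * u = q ^ m * v → n = m := by
    intro n m u v hu hv h
    have h1 : ∀ (n m : ℤ) (u v : K), Un A u → Un A v → q ^ n * u = q ^ m * v → m ≤ n := by
      intro n m u v hu hv h
      have h2 : q ^ (n - m) * (u / v) = 1 := by
        rw [zpow_sub₀ h0]
        have h3 : q ^ m ≠ 0 := zpow_ne_zero m h0
        have h4 := hv.1
        field_simp
        rw [h]
      have h3 := (hneg (n - m) (u / v) (un_div hu hv)).1 (by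
        rw [h2]
        exact A.one_mem)
      omega
    exact le_antisymm (h1 m n v u hv hu h.symm) (h1 n m u v hu hv h)
  choose! w uf hw using hrep
  have hval : ∀ b : K, b ≠ 0 → (b ∈ A ↔ 0 ≤ w b) := by
    intro b hb
    obtain ⟨h1, h2⟩ := hw b hb
    have h3 := hneg (w b) (uf b) h1
    rw [← h2] at h3
    exact h3
  have hwmul : ∀ a b : K, a ≠ 0 → b ≠ 0 → w (a * b) = w a + w b := by
    intro a b ha hb
    obtain ⟨h1, h2⟩ := hw a ha
    obtain ⟨h3, h4⟩ := hw b hb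
    obtain ⟨h5, h6⟩ := hw (a * b) (mul_ne_zero ha hb)
    apply huniq _ _ _ _ h5 (un_mul h1 h3)
    rw [← h6, zpow_add₀ h0]
    calc a * b = (q ^ w a * uf a) * (q ^ w b * uf b) := by rw [← h2, ← h4]
      _ = _ := by ring
  have hwq : w q = 1 := by
    obtain ⟨h1, h2⟩ := hw q h0
    apply huniq _ _ _ _ h1 (un_one A)
    rw [← h2, zpow_one, mul_one]
  have hwinv : ∀ b : K, b ≠ 0 → w b⁻¹ = -w b := by
    intro b hb
    have h1 := hwmul b b⁻¹ hb (inv_ne_zero hb)
    have h2 := hwmul 1 1 one_ne_zero one_ne_zero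
    rw [mul_one] at h2
    rw [mul_inv_cancel₀ hb] at h1
    omega
  let V : ValuationSubring K :=
    { A.toSubring with
      mem_or_inv_mem' := fun b => by
        change b ∈ A ∨ b⁻¹ ∈ A
        by_cases hb : b = 0
        · left
          rw [hb]
          exact A.zero_mem
        · rcases le_total 0 (w b) with h | h
          · exact Or.inl ((hval b hb).2 h)
          · right
            rw [hval _ (inv_ne_zero hb), hwinv b hb]
            omega }
  have hVA : ∀ a : K, a ∈ V ↔ a ∈ A := fun a => Iff.rfl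
  have hisu : ∀ b : V, (b : K) ≠ 0 → (IsUnit b ↔ w (b : K) = 0) := by
    intro b hb
    have hbA : 0 ≤ w (b : K) := (hval _ hb).1 ((hVA _).1 b.2)
    constructor
    · intro h
      obtain ⟨c, hc⟩ := h.exists_right_inv
      have h1 : (b : K) * (c : K) = 1 := congrArg Subtype.val hc
      have hc0 : (c : K) ≠ 0 := right_ne_zero_of_mul_eq_one h1
      have hcA : 0 ≤ w (c : K) := (hval _ hc0).1 ((hVA _).1 c.2)
      have h2 := hwmul _ _ hb hc0
      have h3 := hwmul 1 1 one_ne_zero one_ne_zero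
      rw [mul_one] at h3
      rw [h1] at h2
      omega
    · intro h
      have h1 : (b : K)⁻¹ ∈ V := by
        rw [hVA, hval _ (inv_ne_zero hb), hwinv _ hb, h]
        omega
      exact IsUnit.of_mul_eq_one ⟨(b : K)⁻¹, h1⟩ (Subtype.ext (mul_inv_cancel₀ hb))
  have hqV : q ∈ V := (hVA q).2 hq
  have hirr : Irreducible (⟨q, hqV⟩ : V) := by
    rw [irreducible_iff]
    refine ⟨fun h => ?_, fun a b hab => ?_⟩
    · have h1 := (hisu ⟨q, hqV⟩ h0).1 h
      change w q = 0 at h1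
      omega
    · have h1 : q = (a : K) * (b : K) := congrArg Subtype.val hab
      have ha0 : (a : K) ≠ 0 := fun h => h0 (by rw [h1, h, zero_mul])
      have hb0 : (b : K) ≠ 0 := fun h => h0 (by rw [h1, h, mul_zero])
      have haA : 0 ≤ w (a : K) := (hval _ ha0).1 ((hVA _).1 a.2)
      have hbA : 0 ≤ w (b : K) := (hval _ hb0).1 ((hVA _).1 b.2)
      have h2 := hwmul _ _ ha0 hb0
      rw [← h1, hwq] at h2
      rw [hisu a ha0, hisu b hb0]
      omega
  have hdvr : IsDiscreteValuationRing V := by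
    apply IsDiscreteValuationRing.ofHasUnitMulPowIrreducibleFactorization
    refine ⟨⟨q, hqV⟩, hirr, ?_⟩
    intro b hb
    have hb0 : (b : K) ≠ 0 := fun h => hb (Subtype.ext h)
    have hbA : 0 ≤ w (b : K) := (hval _ hb0).1 ((hVA _).1 b.2)
    obtain ⟨h1, h2⟩ := hw (b : K) hb0
    obtain ⟨n, hn⟩ : ∃ n : ℕ, (n : ℤ) = w (b : K) := ⟨(w (b : K)).toNat, by omega⟩
    rw [← hn, zpow_natCast] at h2
    refine ⟨n, ⟨⟨⟨uf b, h1.2.1⟩, ⟨(uf b)⁻¹, h1.2.2⟩, Subtype.ext (mul_inv_cancel₀ h1.1),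
      Subtype.ext (inv_mul_cancel₀ h1.1)⟩, Subtype.ext ?_⟩⟩
    change q ^ n * uf b = (b : K)
    exact h2.symm
  refine ⟨⟨V, fun c => A.algebraMap_mem c, hdvr⟩, fun a => Iff.rfl, ?_⟩
  rw [← ord_unique _ w hwmul ⟨q, h0, hwq⟩ (fun a ha => (hval a ha).symm) q h0]
  exact hwq

theorem pdp (hX : IsVar X) (hg : ∃ g, Gen X g)
    (hufd : ∀ w, UniqueFactorizationMonoid (X.O w)) (x : X.P) (π : K) (hπ : π ∈ X.O x) (hp : Prime (⟨π, hπ⟩ : X.O x)) :
    ∃ P : PDiv X, P.η ⤳ x ∧ P.p.ord π = 1 ∧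
      ∀ a ∈ X.O x, a ≠ 0 → (0 < P.p.ord a ↔ a / π ∈ X.O x) := by
  have h0 : π ≠ 0 := fun hh => hp.ne_zero (Subtype.ext hh)
  have hππ : ¬ Un (X.O x) π := fun hh => hp.not_unit ((un_iff hπ).2 hh)
  obtain ⟨U, hU, hxU⟩ := hX.chart x
  have hRx : ∀ a ∈ X.sec U, a ∈ X.O x := fun a ha => (mem_sec U a).1 ha x hxU
  let j : X.sec U →ₐ[k] X.O x := Subalgebra.inclusion fun a ha => hRx a ha
  have hprime : (Ideal.span {(⟨π, hπ⟩ : X.O x)}).IsPrime :=
    (Ideal.span_singleton_prime hp.ne_zero).2 hp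
  have hI : (Ideal.comap j (Ideal.span {(⟨π, hπ⟩ : X.O x)})).IsPrime := Ideal.comap_isPrime _ _
  have hmemI : ∀ a : X.sec U, a ∈ Ideal.comap j (Ideal.span {(⟨π, hπ⟩ : X.O x)}) ↔
      (a : K) / π ∈ X.O x := by
    intro a
    rw [Ideal.mem_comap, Ideal.mem_span_singleton]
    exact pa_dvd hπ (hRx _ a.2) h0
  obtain ⟨η, hηU, hη⟩ := hX.prime U hU ⟨x, hxU⟩ _ hI
  have hη' : ∀ a ∈ X.sec U, (a / π ∈ X.O x ↔ ¬ Un (X.O η) a) := by
    intro a ha
    rw [← hη ⟨a, ha⟩, hmemI]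
  have hnun : ∀ a : K, Un (X.O x) a → a / π ∉ X.O x := by
    intro a ha hh
    apply hππ
    refine ⟨h0, hπ, ?_⟩
    have h1 : π⁻¹ = a / π * a⁻¹ := by
      have := ha.1
      field_simp
    rw [h1]
    exact (X.O x).mul_mem hh ha.2.2
  have hspec : η ⤳ x := by
    rw [specializes_iff_forall_open]
    intro V hV hxV
    obtain ⟨a, ha, hax, hay⟩ := hX.bas U V x hU hV hxU hxV
    apply hay η hηU
    by_contra hc
    exact hnun a hax ((hη' a ((mem_sec U a).2 ha)).2 hc)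
  have hle : X.O x ≤ X.O η := hX.spec η x hspec
  have key : ∀ a ∈ X.O x, (Un (X.O η) a ↔ a / π ∉ X.O x) := by
    intro a ha
    obtain ⟨u, hu, hux, hau⟩ := hX.frac U x hU hxU a ha
    have h1 : Un (X.O η) u := by
      by_contra hc
      exact hnun u hux ((hη' u hu).2 hc)
    rw [← un_mul_un h1, ← not_iff_not, not_not, ← hη' _ hau]
    constructor
    · intro h2
      have h3 : a / π = a * u / π * u⁻¹ := by
        have := hux.1
        field_simp
      rw [h3]
      exact (X.O x).mul_mem h2 hux.2.2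
    · intro h2
      have h3 : a * u / π = a / π * u := by ring
      rw [h3]
      exact (X.O x).mul_mem h2 hux.2.1
  haveI := hufd x
  have hfac : ∀ a ∈ X.O x, a ≠ 0 → ∃ (n : ℕ) (u : K), Un (X.O η) u ∧ a = π ^ n * u := by
    intro a ha ha0
    obtain ⟨n, c, hc, hac⟩ := WfDvdMonoid.max_power_factor (a₀ := (⟨a, ha⟩ : X.O x))
      (fun hh => ha0 (congrArg Subtype.val hh)) hp.irreducible
    refine ⟨n, (c : K), ?_, congrArg Subtype.val hac⟩
    rw [key _ c.2]
    intro hh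
    exact hc ((pa_dvd hπ c.2 h0).2 hh)
  have hrep : ∀ b : K, b ≠ 0 → ∃ n : ℤ, ∃ u : K, Un (X.O η) u ∧ b = π ^ n * u := by
    intro b hb
    obtain ⟨s, hs, hs0, hbs⟩ := gen_frac hX hg U hU ⟨x, hxU⟩ b
    obtain ⟨n, u, hu, hn⟩ := hfac (b * s) (hRx _ hbs) (mul_ne_zero hb hs0)
    obtain ⟨m, v, hv, hm⟩ := hfac s (hRx _ hs) hs0
    refine ⟨(n : ℤ) - m, u / v, un_div hu hv, ?_⟩
    have hv0 := hv.1
    have h1 : b = b * s / s := by field_simp
    rw [h1, hn, hm, zpow_sub₀ h0, zpow_natCast, zpow_natCast]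
    have h2 : π ^ m ≠ 0 := pow_ne_zero m h0
    field_simp
  have hnu : ¬ Un (X.O η) π := by
    rw [key π hπ, not_not, div_self h0]
    exact (X.O x).one_mem
  obtain ⟨p, hp1, hp2⟩ := pa_place (X.O η) π (hle hπ) h0 hnu hrep
  refine ⟨⟨η, p, hp1⟩, hspec, hp2, ?_⟩
  intro a ha ha0
  change 0 < p.ord a ↔ a / π ∈ X.O x
  have h1 : 0 ≤ p.ord a := (ord_nonneg p a ha0).2 ((hp1 a).1 (hle ha))
  have h2 : p.ord a = 0 ↔ Un (X.O η) a := by
    rw [ord_eq_zero p a ha0, ← hp1, ← hp1]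
    exact ⟨fun hh => ⟨ha0, hh.1, hh.2⟩, fun hh => ⟨hh.2.1, hh.2.2⟩⟩
  have h3 : 0 < p.ord a ↔ ¬ p.ord a = 0 := by omega
  rw [h3, h2, key a ha, not_not]

end Pool.Agent.H24.AB
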