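import Pool.Agent.H24.AB.Final

/-!
# Module Primes: almost all primes (Theorem A)

PROOF. `A` from `ub_card δ 2`. At most `X/(log X)^2` of the `n`, in particular of the primes, violate `UB δ A`, and `X/(log X)^2 ≤ (η/4) X/log X`.
LOWER BOUND. `c' = c + η/2 < 1`.
`B = {p ∈ (X,2X] prime : ∃ h : ℕ, h ≤ p, (1 + pc p h) log p < c' (h + 1)}`. As in `BL_card` (H5/Short/Lower.lean): choose `h p`, apply
`cover` with `p ↦ h p + 1` to get `D ⊆ B` with disjoint `Ico p (p + h p + 1)` covering `B`; by `pnt_unif` every chosen `h p ≤ 2 τ X` (otherwise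
`pc p h log p ≥ (1-τ) h` and `(1-τ) h < c' (h+1)`), so all intervals are inside `(X-1, 2X + 2τX + 1]` and `∑_{p ∈ D} (h p + 1) ≤ (1 + 3τ) X`.
The primes of `B` in `Ico p (p + h p + 1)` number at most `1 + pc p (h p) < c' (h p + 1)/log X`. So `#B ≤ c' (1 + 3τ) X/log X ≤ (c + 3η/4) X/log X`.
`low_card`. For a prime `p ∉ B` and `H ≥ (2/η) log p`, `H ≤ p`: `h = ⌊H⌋₊`: `(1 + pc p h) log p ≥ c' (h+1) ≥ c' H`, so
`pc p h log p ≥ c' H - log p ≥ (c' - η/2) H = c H`.
-/

set_option autoImplicit false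

namespace Pool.Agent.H24.AB

open Finset Pool.Agent.H5.Short

/-- the lower bound at all scales above `lam * log p` -/
def LB (c lam : ℝ) (p : ℕ) : Prop := ∀ H : ℝ, lam * Real.log p ≤ H → H ≤ p →
  c * (H / Real.log p) ≤ (((Ioc p ⌊(p : ℝ) + H⌋₊).filter Nat.Prime).card : ℝ)

open Classical in
theorem low_card (c η : ℝ) (hc : 0 < c) (hη : 0 < η) (hcη : c + η < 1) : ∃ X0 : ℕ, ∀ X : ℕ, X0 ≤ X →
    (((Ioc X (2 * X)).filter (fun p => p.Prime ∧ ¬ LB c (2 / η) p)).card : ℝ) ≤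
      (c + 3 * η / 4) * (X / Real.log X) := by
  obtain ⟨c', hc'⟩ : ∃ c' : ℝ, c' = c + η / 2 := ⟨_, rfl⟩
  have hc'0 : 0 < c' := by rw [hc']; positivity
  have hη1 : η < 1 := by linarith
  have hc'1 : c' < 1 := by rw [hc']; linarith
  obtain ⟨τ, hτ⟩ : ∃ τ : ℝ, τ = η / 20 := ⟨_, rfl⟩
  have hτ0 : 0 < τ := by rw [hτ]; positivity
  obtain ⟨X1, hX1⟩ := pnt_unif τ τ hτ0 hτ0
  have hlogtend : Filter.Tendsto (fun n : ℕ => Real.log (n : ℝ)) Filter.atTop Filter.atTop :=
    Real.tendsto_log_atTop.comp tendsto_natCast_atTop_atTop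
  obtain ⟨X2, hX2⟩ := Filter.eventually_atTop.mp ((hlogtend.eventually_ge_atTop 1).and
    ((tendsto_natCast_atTop_atTop (R := ℝ)).eventually_ge_atTop (1 / τ)))
  refine ⟨max (max X1 X2) 2, ?_⟩
  intro X hX
  have hXX1 : X1 ≤ X := le_trans (le_trans (le_max_left _ _) (le_max_left _ _)) hX
  have hXX2 : X2 ≤ X := le_trans (le_trans (le_max_right _ _) (le_max_left _ _)) hX
  have hX2' : 2 ≤ X := le_trans (le_max_right _ _) hX
  obtain ⟨hlog1, hXτ⟩ := hX2 X hXX2
  have hXR : (2 : ℝ) ≤ X := by exact_mod_cast hX2'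
  have hX0 : (0 : ℝ) < X := by linarith
  have hlog0 : 0 < Real.log X := by linarith
  have hXτ' : 1 ≤ τ * X := by
    rw [div_le_iff₀ hτ0] at hXτ
    linarith
  set Bd : Finset ℕ := (Ioc X (2 * X)).filter (fun p => p.Prime ∧ ∃ h : ℕ, h ≤ p ∧
    (1 + (pc p h : ℝ)) * Real.log p < c' * ((h : ℝ) + 1)) with hBd
  have hlogp : ∀ p ∈ Ioc X (2 * X), Real.log X ≤ Real.log p := by
    intro p hp
    exact Real.log_le_log hX0 (by exact_mod_cast (mem_Ioc.mp hp).1.le)
  have hsub : (Ioc X (2 * X)).filter (fun p => p.Prime ∧ ¬ LB c (2 / η) p) ⊆ Bd := by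
    intro p hp
    rw [mem_filter] at hp
    obtain ⟨hpI, hpp, hLB⟩ := hp
    rw [hBd, mem_filter]
    refine ⟨hpI, hpp, ?_⟩
    by_contra hcon
    push Not at hcon
    apply hLB
    intro H hH1 hH2
    have hlp : 0 < Real.log p := lt_of_lt_of_le hlog0 (hlogp p hpI)
    have hH0 : 0 ≤ H := le_trans (by positivity) hH1
    rw [count_eq p H hH0]
    have h1 : ⌊H⌋₊ ≤ p := by
      have h2 := Nat.floor_le hH0
      have h3 : ((⌊H⌋₊ : ℕ) : ℝ) ≤ p := h2.trans hH2
      exact_mod_cast h3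
    have h2 := hcon ⌊H⌋₊ h1
    have h3 : H ≤ (⌊H⌋₊ : ℝ) + 1 := (Nat.lt_floor_add_one H).le
    have h4 : Real.log p ≤ η / 2 * H := by
      have h5 : η / 2 * (2 / η * Real.log p) ≤ η / 2 * H :=
        mul_le_mul_of_nonneg_left hH1 (by positivity)
      have h6 : η / 2 * (2 / η * Real.log p) = Real.log p := by field_simp
      linarith
    rw [mul_div_assoc', div_le_iff₀ hlp]
    have h7 : c' * H ≤ c' * ((⌊H⌋₊ : ℝ) + 1) := mul_le_mul_of_nonneg_left h3 hc'0.le
    have h8 : c' * H = c * H + η / 2 * H := by rw [hc']; ring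
    nlinarith
  have hchoose : ∀ p ∈ Bd, ∃ h : ℕ, h ≤ p ∧
      (1 + (pc p h : ℝ)) * Real.log p < c' * ((h : ℝ) + 1) := by
    intro n hn
    exact (mem_filter.mp hn).2.2
  choose! h hh using hchoose
  have hBI : ∀ p ∈ Bd, p ∈ Ioc X (2 * X) := fun p hp => (mem_filter.mp hp).1
  obtain ⟨D, hDB, hD1, hD2⟩ := cover (fun p => h p + 1) Bd.card Bd le_rfl
    (fun p _ => Nat.succ_le_succ (Nat.zero_le _))
  have hshort : ∀ n ∈ Bd, (h n : ℝ) ≤ 2 * τ * X := by
    intro n hn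
    by_contra hlt
    push Not at hlt
    obtain ⟨h2, h3⟩ := hh n hn
    obtain ⟨h4, h5⟩ := mem_Ioc.mp (hBI n hn)
    have h5R : (n : ℝ) ≤ 2 * X := by exact_mod_cast h5
    have h6 : τ * n ≤ h n := by nlinarith
    have h7 := (hX1 n (h n) (by omega) h6 (by omega)).1
    have h8 : (0 : ℝ) < h n := lt_of_le_of_lt (by positivity) hlt
    have h9 : 1 ≤ Real.log n := hlog1.trans (hlogp n (hBI n hn))
    have h10 : c' ≤ 1 - τ := by rw [hc', hτ]; linarith
    have h11 : c' * h n ≤ (1 - τ) * h n := mul_le_mul_of_nonneg_right h10 h8.le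
    nlinarith
  set Y : ℕ := 2 * X + ⌊2 * τ * X⌋₊ + 1 with hY
  have hYle : ∀ n ∈ D, n + (h n + 1) ≤ Y := by
    intro n hn
    have h1 := (mem_Ioc.mp (hBI n (hDB hn))).2
    have h2 : h n ≤ ⌊2 * τ * X⌋₊ := Nat.le_floor (hshort n (hDB hn))
    omega
  have hYR : ((Y - X : ℕ) : ℝ) ≤ (1 + 3 * τ) * X := by
    have h1 : Y - X = X + ⌊2 * τ * X⌋₊ + 1 := by omega
    rw [h1]
    push_cast
    have := Nat.floor_le (by positivity : (0 : ℝ) ≤ 2 * τ * X)
    linarith
  have hYX : X ≤ Y := by omega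
  have hsumh : ((∑ n ∈ D, (h n + 1) : ℕ) : ℝ) ≤ (1 + 3 * τ) * X := by
    have h1 := sum_len_le (fun p => h p + 1) D X Y hD1
      (fun n hn => (mem_Ioc.mp (hBI n (hDB hn))).1.le) hYle hYX
    exact le_trans (by exact_mod_cast h1) hYR
  have hcardB : (Bd.card : ℝ) * Real.log X ≤ c' * ((1 + 3 * τ) * X) := by
    have h1 : Bd.card ≤ ∑ n ∈ D, (1 + pc n (h n)) := by
      have h2 : Bd ⊆ D.biUnion (fun n => insert n ((Ioc n (n + h n)).filter Nat.Prime)) := by
        intro p hp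
        obtain ⟨n, hn, hnp, hpn⟩ := hD2 p hp
        rw [mem_biUnion]
        refine ⟨n, hn, ?_⟩
        rw [mem_insert]
        by_cases hpn' : p = n
        · exact Or.inl hpn'
        · right
          rw [mem_filter, mem_Ioc]
          have hpn2 : p < n + (h n + 1) := hpn
          exact ⟨⟨by omega, by omega⟩, (mem_filter.mp hp).2.1⟩
      refine (card_le_card h2).trans (card_biUnion_le.trans ?_)
      apply sum_le_sum
      intro n _
      refine (card_insert_le _ _).trans ?_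
      show pc n (h n) + 1 ≤ 1 + pc n (h n)
      omega
    calc (Bd.card : ℝ) * Real.log X ≤ ((∑ n ∈ D, (1 + pc n (h n)) : ℕ) : ℝ) * Real.log X := by
          apply mul_le_mul_of_nonneg_right _ hlog0.le
          exact_mod_cast h1
      _ = ∑ n ∈ D, (1 + (pc n (h n) : ℝ)) * Real.log X := by
          push_cast
          rw [sum_mul]
      _ ≤ ∑ n ∈ D, c' * ((h n : ℝ) + 1) := by
          apply sum_le_sum
          intro n hn
          have h2 := (hh n (hDB hn)).2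
          have h3 := hlogp n (hBI n (hDB hn))
          refine le_trans ?_ h2.le
          exact mul_le_mul_of_nonneg_left h3 (by positivity)
      _ = c' * ((∑ n ∈ D, (h n + 1) : ℕ) : ℝ) := by
          push_cast
          rw [← mul_sum]
      _ ≤ _ := mul_le_mul_of_nonneg_left hsumh hc'0.le
  have hcc : c' * (1 + 3 * τ) ≤ c + 3 * η / 4 := by
    rw [hτ]
    have h1 : c' * (1 + 3 * (η / 20)) = c' + c' * (3 * η / 20) := by ring
    have h2 : c' * (3 * η / 20) ≤ 1 * (3 * η / 20) :=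
      mul_le_mul_of_nonneg_right hc'1.le (by positivity)
    rw [h1]
    nlinarith
  have h1 : (((Ioc X (2 * X)).filter (fun p => p.Prime ∧ ¬ LB c (2 / η) p)).card : ℝ) ≤ Bd.card := by
    exact_mod_cast card_le_card hsub
  refine h1.trans ?_
  rw [mul_div_assoc', le_div_iff₀ hlog0]
  refine hcardB.trans ?_
  rw [← mul_assoc]
  exact mul_le_mul_of_nonneg_right hcc hX0.le

open Classical in
theorem primes_card (c δ η : ℝ) (hc : 0 < c) (hδ : 0 < δ) (hη : 0 < η) (hcη : c + η < 1) :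
    ∃ A : ℝ, 0 < A ∧ ∃ X0 : ℕ, ∀ X : ℕ, X0 ≤ X →
    (((Ioc X (2 * X)).filter (fun p => p.Prime ∧ ¬ (LB c (2 / η) p ∧ UB δ A p))).card : ℝ) ≤
      (c + η) * (X / Real.log X) := by
  obtain ⟨A, hA, X1, hX1⟩ := ub_card δ 2 hδ two_pos
  obtain ⟨X2, hX2⟩ := low_card c η hc hη hcη
  have hlogtend : Filter.Tendsto (fun n : ℕ => Real.log (n : ℝ)) Filter.atTop Filter.atTop :=
    Real.tendsto_log_atTop.comp tendsto_natCast_atTop_atTop
  obtain ⟨X3, hX3⟩ := Filter.eventually_atTop.mp ((hlogtend.eventually_ge_atTop 1).and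
    (hlogtend.eventually_ge_atTop (4 / η)))
  refine ⟨A, hA, max (max X1 X2) X3, ?_⟩
  intro X hX
  have hXX1 : X1 ≤ X := le_trans (le_trans (le_max_left _ _) (le_max_left _ _)) hX
  have hXX2 : X2 ≤ X := le_trans (le_trans (le_max_right _ _) (le_max_left _ _)) hX
  have hXX3 : X3 ≤ X := le_trans (le_max_right _ _) hX
  obtain ⟨hlog1, hlogη⟩ := hX3 X hXX3
  have hlog0 : 0 < Real.log X := by linarith
  have h1 := hX1 X hXX1
  have h2 := hX2 X hXX2
  have h3 : (((Ioc X (2 * X)).filter (fun p => p.Prime ∧ ¬ (LB c (2 / η) p ∧ UB δ A p))).card : ℝ) ≤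
      (((Ioc X (2 * X)).filter (fun p => p.Prime ∧ ¬ LB c (2 / η) p)).card : ℝ) +
      (((Ioc X (2 * X)).filter (fun n => ¬ UB δ A n)).card : ℝ) := by
    have h4 : ((Ioc X (2 * X)).filter (fun p => p.Prime ∧ ¬ (LB c (2 / η) p ∧ UB δ A p))).card ≤
        ((Ioc X (2 * X)).filter (fun p => p.Prime ∧ ¬ LB c (2 / η) p)).card +
        ((Ioc X (2 * X)).filter (fun n => ¬ UB δ A n)).card := by
      refine le_trans (card_le_card ?_) (card_union_le _ _)
      intro p hp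
      rw [mem_filter] at hp
      rw [mem_union, mem_filter, mem_filter]
      by_cases h5 : LB c (2 / η) p
      · exact Or.inr ⟨hp.1, fun h6 => hp.2.2 ⟨h5, h6⟩⟩
      · exact Or.inl ⟨hp.1, hp.2.1, h5⟩
    exact_mod_cast h4
  have h4 : (X : ℝ) / (Real.log X) ^ (2 : ℝ) ≤ η / 4 * (X / Real.log X) := by
    rw [Real.rpow_two]
    have h5 : 1 / Real.log X ≤ η / 4 := by
      rw [div_le_iff₀ hη] at hlogη
      rw [div_le_iff₀ hlog0]
      linarith
    have h6 : (X : ℝ) / (Real.log X) ^ 2 = 1 / Real.log X * (X / Real.log X) := by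
      field_simp
    rw [h6]
    exact mul_le_mul_of_nonneg_right h5 (by positivity)
  refine h3.trans ((add_le_add h2 (h1.trans h4)).trans (le_of_eq ?_))
  ring

end Pool.Agent.H24.AB
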