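import Pool.Agent.H5.Short.Bad
import Pool.Agent.H24.AB.Count

/-!
# Module UpPr: upper bounds of the right order at all scales, for almost all primes

PROOF. `ℓ = ⌈log (3X)⌉₊`. If `p` is a bad prime (`K h < pc p h log p` for an `h ≥ log p`) then every `m ∈ [p - ℓ, p)` is in
`BU (K/3) X` (take `h + ℓ`). So `ℓ #bad ≤ ∑_{m ∈ BU (K/3) X} pc m ℓ + ...`, and Cauchy's inequality with `BU_card` and `second_log`
gives `#bad ≤ (C/K)^(1/2) X/log X`.
-/

set_option autoImplicit false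

namespace Pool.Agent.H24.AB

open Finset Pool.Agent.H5.Short

/-- the starting points just before a bad prime are bad -/
theorem up_key (K' L : ℝ) (X ℓ p h : ℕ) (hK'2 : 2 ≤ K') (hL : L = Real.log X) (hL0 : 12 ≤ L) (hX0 : (0 : ℝ) < X)
    (hℓ2 : (ℓ : ℝ) ≤ 5 / 4 * L) (hℓX : (ℓ : ℝ) ≤ X / 100) (hlog2 : Real.log 2 ≤ 1)
    (hpnt : ∀ m : ℕ, 1 / 4 * (p : ℝ) ≤ m → m ≤ 3 * p → (pc p m : ℝ) * Real.log p ≤ (1 + 1) * m)
    (hpI : X < p ∧ p ≤ 2 * X) (hpX : X + ℓ < p) (hh1 : Real.log p ≤ h) (hh2 : h ≤ p)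
    (hh3 : 3 * K' * h < (pc p h : ℝ) * Real.log p) (m : ℕ) (hm : p - ℓ ≤ m ∧ m < p) : m ∈ BU K' X := by
  classical
  have hpR : (X : ℝ) < p := by exact_mod_cast hpI.1
  have hpR2 : (p : ℝ) ≤ 2 * X := by exact_mod_cast hpI.2
  have hmX : X < m := by omega
  have hmR : (X : ℝ) < m := by exact_mod_cast hmX
  have hlogm : L ≤ Real.log m := by
    rw [hL]
    exact Real.log_le_log hX0 hmR.le
  have hlogp : L ≤ Real.log p := by
    rw [hL]
    exact Real.log_le_log hX0 hpR.le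
  have hlogp2 : Real.log p ≤ 5 / 4 * L := by
    have h1 : Real.log p ≤ Real.log (2 * X) := Real.log_le_log (by linarith) hpR2
    rw [Real.log_mul (by norm_num) hX0.ne', ← hL] at h1
    linarith
  have hhL : L ≤ h := hlogp.trans hh1
  have hh0 : (0 : ℝ) < h := by linarith
  have hhalf : (h : ℝ) ≤ 1 / 4 * p := by
    by_contra hcon
    push Not at hcon
    have h1 := hpnt h hcon.le (by omega)
    have h2 : (1 + 1) * (h : ℝ) ≤ 3 * K' * h := by
      have : (1 + 1 : ℝ) ≤ 3 * K' := by linarith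
      gcongr
    linarith
  unfold BU
  rw [mem_filter, mem_Ioc]
  refine ⟨⟨hmX, by omega⟩, h + ℓ, ?_, ?_, ?_⟩
  · have : 1 ≤ h := by
      have : 0 < h := by exact_mod_cast hh0
      omega
    omega
  · have h1 : (p : ℝ) ≤ m + ℓ := by
      have : p ≤ m + ℓ := by omega
      exact_mod_cast this
    have h2 : ((h + ℓ : ℕ) : ℝ) ≤ m := by
      push_cast
      linarith
    exact_mod_cast h2
  · have h1 : (pc p h : ℝ) ≤ (pc m (h + ℓ) : ℝ) := by
      have : pc p h ≤ pc m (h + ℓ) := by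
        unfold pc
        apply card_le_card
        apply filter_subset_filter
        apply Ioc_subset_Ioc <;> omega
      exact_mod_cast this
    have h2 : K' * ((h : ℝ) + ℓ) ≤ K' * (9 / 4 * h) := by
      have : (h : ℝ) + ℓ ≤ 9 / 4 * h := by linarith
      gcongr
    have h3 : 3 * K' * h < 5 / 4 * ((pc m (h + ℓ) : ℝ) * Real.log m) := by
      calc 3 * K' * h < (pc p h : ℝ) * Real.log p := hh3
        _ ≤ (pc m (h + ℓ) : ℝ) * (5 / 4 * Real.log m) := by
            apply mul_le_mul h1 (by linarith) (by linarith) (Nat.cast_nonneg _)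
        _ = _ := by ring
    push_cast
    nlinarith

/-- double counting -/
theorem up_count (S B' : Finset ℕ) (ℓ : ℕ) (hp : ∀ p ∈ B', p.Prime ∧ ℓ ≤ p)
    (hkey : ∀ p ∈ B', ∀ m ∈ Ico (p - ℓ) p, m ∈ S) : ℓ * B'.card ≤ ∑ m ∈ S, pc m ℓ := by
  have h1 : ∀ p ∈ B', ℓ ≤ (S.filter (fun m => m < p ∧ p ≤ m + ℓ)).card := by
    intro p hpB
    have h2 : Ico (p - ℓ) p ⊆ S.filter (fun m => m < p ∧ p ≤ m + ℓ) := by
      intro m hm
      rw [mem_filter]
      refine ⟨hkey p hpB m hm, ?_⟩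
      rw [mem_Ico] at hm
      omega
    have h3 := card_le_card h2
    rw [Nat.card_Ico] at h3
    have h4 := (hp p hpB).2
    omega
  calc ℓ * B'.card = ∑ p ∈ B', ℓ := by rw [sum_const, smul_eq_mul, mul_comm]
    _ ≤ ∑ p ∈ B', (S.filter (fun m => m < p ∧ p ≤ m + ℓ)).card := sum_le_sum h1
    _ = ∑ p ∈ B', ∑ m ∈ S, if m < p ∧ p ≤ m + ℓ then 1 else 0 := by
        apply sum_congr rfl
        intro p _
        rw [card_filter]
    _ = ∑ m ∈ S, ∑ p ∈ B', if m < p ∧ p ≤ m + ℓ then 1 else 0 := sum_comm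
    _ ≤ ∑ m ∈ S, pc m ℓ := by
        apply sum_le_sum
        intro m _
        rw [← card_filter]
        unfold pc
        apply card_le_card
        intro p hpp
        rw [mem_filter] at hpp
        rw [mem_filter, mem_Ioc]
        exact ⟨hpp.2, (hp p hpp.1).1⟩

open Classical in
theorem up_card (η : ℝ) (hη : 0 < η) : ∃ K : ℝ, 1 ≤ K ∧ ∃ X0 : ℕ, ∀ X : ℕ, X0 ≤ X →
    (((Ioc X (2 * X)).filter (fun p : ℕ => p.Prime ∧ ∃ h : ℕ, Real.log p ≤ h ∧ h ≤ p ∧
      K * h < (pc p h : ℝ) * Real.log p)).card : ℝ) ≤ η * (X / Real.log X) := by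
  obtain ⟨C, hC, hsec⟩ := second_log
  obtain ⟨K', hK'⟩ : ∃ K' : ℝ, K' = 2 + 8 * C / η ^ 2 := ⟨_, rfl⟩
  have hK'2 : 2 ≤ K' := by
    have : 0 < 8 * C / η ^ 2 := by positivity
    linarith
  have hK'η : 2 * C / K' ≤ (η / 2) ^ 2 := by
    rw [div_le_iff₀ (by linarith)]
    have h1 : (η / 2) ^ 2 * (8 * C / η ^ 2) = 2 * C := by
      field_simp
      ring
    have h2 : 0 ≤ (η / 2) ^ 2 * 2 := by positivity
    rw [hK', mul_add, h1]
    linarith
  obtain ⟨X1, hX1⟩ := BU_card K' (1 / K') (by linarith) (by positivity)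
  obtain ⟨X2, hX2⟩ := pnt_unif (1 / 4) 1 (by norm_num) one_pos
  have hlogtend : Filter.Tendsto (fun n : ℕ => Real.log (n : ℝ)) Filter.atTop Filter.atTop :=
    Real.tendsto_log_atTop.comp tendsto_natCast_atTop_atTop
  have hsmall : ∀ᶠ X : ℕ in Filter.atTop, 3 * (Real.log X) ^ 2 ≤ (min (η / 2) (1 / 100)) * X := by
    have h1 : (fun x : ℝ => (Real.log x) ^ 2) =o[Filter.atTop] (fun x : ℝ => x) := by
      have := isLittleO_log_rpow_atTop (show (0 : ℝ) < 1 / 2 by norm_num)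
      have h2 := this.pow (n := 2) (by norm_num)
      refine h2.trans_eventuallyEq ?_
      filter_upwards [Filter.eventually_ge_atTop (0 : ℝ)] with x hx
      rw [← Real.rpow_natCast, ← Real.rpow_mul hx]
      norm_num
    have hm : 0 < min (η / 2) (1 / 100) / 3 := by
      have : 0 < min (η / 2) (1 / 100 : ℝ) := lt_min (by positivity) (by norm_num)
      positivity
    have h3 := (tendsto_natCast_atTop_atTop (R := ℝ)).eventually (h1.def hm)
    filter_upwards [h3] with X hX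
    rw [Real.norm_eq_abs, Real.norm_eq_abs, abs_of_nonneg (sq_nonneg _),
      abs_of_nonneg (Nat.cast_nonneg X)] at hX
    linarith
  obtain ⟨X3, hX3⟩ := Filter.eventually_atTop.mp ((hlogtend.eventually_ge_atTop 12).and hsmall)
  refine ⟨3 * K', by linarith, max (max X1 X2) (max X3 2), ?_⟩
  intro X hX
  have hXX1 : X1 ≤ X := le_trans (le_trans (le_max_left _ _) (le_max_left _ _)) hX
  have hXX2 : X2 ≤ X := le_trans (le_trans (le_max_right _ _) (le_max_left _ _)) hX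
  have hXX3 : X3 ≤ X := le_trans (le_trans (le_max_left _ _) (le_max_right _ _)) hX
  have hX2' : 2 ≤ X := le_trans (le_trans (le_max_right _ _) (le_max_right _ _)) hX
  obtain ⟨hlog12, hsm⟩ := hX3 X hXX3
  set L := Real.log X with hL
  have hL0 : 0 < L := by linarith
  have hXR : (2 : ℝ) ≤ X := by exact_mod_cast hX2'
  have hX0 : (0 : ℝ) < X := by linarith
  have hsm1 : 3 * L ^ 2 ≤ η / 2 * X := hsm.trans (by gcongr; exact min_le_left _ _)
  have hsm2 : 3 * L ^ 2 ≤ 1 / 100 * X := hsm.trans (by gcongr; exact min_le_right _ _)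
  have hlog3 : Real.log 3 ≤ 2 := by
    have := Real.log_le_sub_one_of_pos (show (0 : ℝ) < 3 by norm_num)
    linarith
  have hlog2 : Real.log 2 ≤ 1 := by
    have := Real.log_le_sub_one_of_pos (show (0 : ℝ) < 2 by norm_num)
    linarith
  obtain ⟨ℓ, hℓ⟩ : ∃ ℓ : ℕ, ℓ = ⌈Real.log ((3 * X : ℕ) : ℝ)⌉₊ := ⟨_, rfl⟩
  have hl3X : Real.log ((3 * X : ℕ) : ℝ) = Real.log 3 + L := by
    push_cast
    rw [Real.log_mul (by norm_num) hX0.ne']
  have hl3 : 0 < Real.log 3 := Real.log_pos (by norm_num)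
  have hℓ1 : Real.log ((3 * X : ℕ) : ℝ) ≤ ℓ := by
    rw [hℓ]
    exact Nat.le_ceil _
  have hℓ2 : (ℓ : ℝ) ≤ 5 / 4 * L := by
    have h1 : (ℓ : ℝ) < Real.log ((3 * X : ℕ) : ℝ) + 1 := by
      rw [hℓ]
      exact Nat.ceil_lt_add_one (by rw [hl3X]; linarith)
    rw [hl3X] at h1
    linarith
  have hℓ0 : (0 : ℝ) < ℓ := by linarith
  have hℓX : (ℓ : ℝ) ≤ X / 100 := by nlinarith
  have hℓ3X : ℓ ≤ 3 * X := by
    have : (ℓ : ℝ) ≤ ((3 * X : ℕ) : ℝ) := by
      push_cast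
      linarith
    exact_mod_cast this
  have hBU := hX1 X hXX1
  have hsecX := hsec X ℓ hX2' hℓ1 hℓ3X
  set Bd : Finset ℕ := (Ioc X (2 * X)).filter (fun p : ℕ => p.Prime ∧ ∃ h : ℕ, Real.log p ≤ h ∧ h ≤ p ∧
      3 * K' * h < (pc p h : ℝ) * Real.log p) with hBd
  set B' : Finset ℕ := Bd.filter (fun p => X + ℓ < p) with hB'
  have hkey : ∀ p ∈ B', ∀ m ∈ Ico (p - ℓ) p, m ∈ BU K' X := by
    intro p hp m hm
    rw [hB', mem_filter] at hp
    obtain ⟨hpB, hpX⟩ := hp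
    rw [hBd, mem_filter] at hpB
    obtain ⟨hpI, hpp, h, hh1, hh2, hh3⟩ := hpB
    rw [mem_Ioc] at hpI
    rw [mem_Ico] at hm
    exact up_key K' L X ℓ p h hK'2 hL hlog12 hX0 hℓ2 hℓX hlog2
      (fun m h1 h2 => (hX2 p m (by omega) h1 h2).2) hpI hpX hh1 hh2 hh3 m hm
  have hcount : ℓ * B'.card ≤ ∑ m ∈ BU K' X, pc m ℓ := by
    apply up_count (BU K' X) B' ℓ _ hkey
    intro p hp
    rw [hB', mem_filter, hBd, mem_filter] at hp
    exact ⟨hp.1.2.1, by omega⟩
  have hBUr : BU K' X ⊆ range (3 * X) := by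
    intro m hm
    unfold BU at hm
    rw [mem_filter, mem_Ioc] at hm
    rw [mem_range]
    omega
  have hCS : ((ℓ : ℝ) * B'.card) ^ 2 ≤ (2 / K' * X) * (C * ((ℓ : ℝ) ^ 2 * X / L ^ 2)) := by
    calc ((ℓ : ℝ) * B'.card) ^ 2 ≤ (∑ m ∈ BU K' X, (pc m ℓ : ℝ)) ^ 2 := by
          have h1 : (ℓ : ℝ) * B'.card ≤ ∑ m ∈ BU K' X, (pc m ℓ : ℝ) := by exact_mod_cast hcount
          gcongr
      _ ≤ (BU K' X).card * ∑ m ∈ BU K' X, (pc m ℓ : ℝ) ^ 2 := sq_sum_le_card_mul_sum_sq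
      _ ≤ (2 / K' * X) * (C * ((ℓ : ℝ) ^ 2 * X / L ^ 2)) := by
          apply mul_le_mul
          · refine hBU.trans (le_of_eq ?_)
            ring
          · refine le_trans ?_ hsecX
            exact sum_le_sum_of_subset_of_nonneg hBUr fun _ _ _ => sq_nonneg _
          · exact sum_nonneg fun _ _ => sq_nonneg _
          · positivity
  have hB'card : (B'.card : ℝ) ≤ η / 2 * (X / L) := by
    have h1 : ((ℓ : ℝ) * B'.card) ^ 2 ≤ ((ℓ : ℝ) * (η / 2 * (X / L))) ^ 2 := by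
      refine hCS.trans ?_
      have h2 : (2 / K' * X) * (C * ((ℓ : ℝ) ^ 2 * X / L ^ 2)) =
          (2 * C / K') * ((ℓ : ℝ) * (X / L)) ^ 2 := by
        field_simp
      have h3 : ((ℓ : ℝ) * (η / 2 * (X / L))) ^ 2 = (η / 2) ^ 2 * ((ℓ : ℝ) * (X / L)) ^ 2 := by ring
      rw [h2, h3]
      gcongr
    have h4 : (ℓ : ℝ) * B'.card ≤ (ℓ : ℝ) * (η / 2 * (X / L)) :=
      le_of_sq_le_sq h1 (by positivity)
    exact le_of_mul_le_mul_left h4 hℓ0
  have hBd2 : (Bd.card : ℝ) ≤ B'.card + ℓ := by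
    have h1 : Bd ⊆ B' ∪ Ioc X (X + ℓ) := by
      intro p hp
      rw [mem_union]
      by_cases hpX : X + ℓ < p
      · left
        rw [hB', mem_filter]
        exact ⟨hp, hpX⟩
      · right
        rw [hBd, mem_filter, mem_Ioc] at hp
        rw [mem_Ioc]
        omega
    have h2 := (card_le_card h1).trans (card_union_le _ _)
    rw [Nat.card_Ioc] at h2
    have h3 : X + ℓ - X = ℓ := by omega
    rw [h3] at h2
    exact_mod_cast h2
  have hℓη : (ℓ : ℝ) ≤ η / 2 * (X / L) := by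
    rw [mul_div_assoc', le_div_iff₀ hL0]
    nlinarith
  linarith

end Pool.Agent.H24.AB
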