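import Pool.Agent.H24.AB.Primes
import Pool.Agent.H24.AB.UpPr

/-!
# Module PrimesTwo: two-sided bounds at all scales for almost all primes
-/

set_option autoImplicit false

namespace Pool.Agent.H24.AB

open Finset Pool.Agent.H5.Short

theorem primes_two (c η : ℝ) (hc : 0 < c) (hη : 0 < η) (hcη : c + η < 1) :
    ∃ K : ℝ, 0 < K ∧ ∃ X0 : ℕ, ∀ X : ℕ, X0 ≤ X →
    ({p : ℕ | X < p ∧ p ≤ 2 * X ∧ p.Prime ∧ ¬ ∀ H : ℝ, K * Real.log p ≤ H → H ≤ p →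
      c * (H / Real.log p) ≤ (((Ioc p ⌊(p : ℝ) + H⌋₊).filter Nat.Prime).card : ℝ) ∧
      (((Ioc p ⌊(p : ℝ) + H⌋₊).filter Nat.Prime).card : ℝ) ≤ K * (H / Real.log p) ∧
      ((Real.log p) ^ K ≤ H → (((Ioc p ⌊(p : ℝ) + H⌋₊).filter Nat.Prime).card : ℝ) ≤
        (4 + η) * (H / Real.log (p * H)))}.ncard : ℝ) ≤ (c + η) * (X / Real.log X) := by
  classical
  obtain ⟨A, hA, X1, hX1⟩ := primes_card c η (η / 2) hc hη (by positivity) (by linarith)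
  obtain ⟨K1, hK1, X2, hX2⟩ := up_card (η / 2) (by positivity)
  obtain ⟨K, hKdef⟩ : ∃ K : ℝ, K = K1 + A + 2 / (η / 2) + 2 := ⟨_, rfl⟩
  have hη2 : 0 < 2 / (η / 2) := by positivity
  have hKA : A ≤ K := by linarith
  have hKK1 : K1 ≤ K := by linarith
  have hKη : 2 / (η / 2) ≤ K := by linarith
  have hK2 : 2 ≤ K := by linarith
  have hlogtend : Filter.Tendsto (fun n : ℕ => Real.log (n : ℝ)) Filter.atTop Filter.atTop :=
    Real.tendsto_log_atTop.comp tendsto_natCast_atTop_atTop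
  obtain ⟨X3, hX3⟩ := Filter.eventually_atTop.mp (hlogtend.eventually_ge_atTop 1)
  refine ⟨K, by linarith, max (max X1 X2) (max X3 2), ?_⟩
  intro X hX
  have hXX1 : X1 ≤ X := le_trans (le_trans (le_max_left _ _) (le_max_left _ _)) hX
  have hXX2 : X2 ≤ X := le_trans (le_trans (le_max_right _ _) (le_max_left _ _)) hX
  have hXX3 : X3 ≤ X := le_trans (le_trans (le_max_left _ _) (le_max_right _ _)) hX
  have hX2' : 2 ≤ X := le_trans (le_trans (le_max_right _ _) (le_max_right _ _)) hX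
  have hlog1 := hX3 X hXX3
  have hXR : (2 : ℝ) ≤ X := by exact_mod_cast hX2'
  have hX0 : (0 : ℝ) < X := by linarith
  have h1 := hX1 X hXX1
  have h2 := hX2 X hXX2
  have hsub : {p : ℕ | X < p ∧ p ≤ 2 * X ∧ p.Prime ∧ ¬ ∀ H : ℝ, K * Real.log p ≤ H → H ≤ p →
      c * (H / Real.log p) ≤ (((Ioc p ⌊(p : ℝ) + H⌋₊).filter Nat.Prime).card : ℝ) ∧
      (((Ioc p ⌊(p : ℝ) + H⌋₊).filter Nat.Prime).card : ℝ) ≤ K * (H / Real.log p) ∧
      ((Real.log p) ^ K ≤ H → (((Ioc p ⌊(p : ℝ) + H⌋₊).filter Nat.Prime).card : ℝ) ≤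
        (4 + η) * (H / Real.log (p * H)))} ⊆
      (((Ioc X (2 * X)).filter (fun p : ℕ => p.Prime ∧ ¬ (LB c (2 / (η / 2)) p ∧ UB η A p)) ∪
      (Ioc X (2 * X)).filter (fun p : ℕ => p.Prime ∧ ∃ h : ℕ, Real.log p ≤ h ∧ h ≤ p ∧
      K1 * h < (pc p h : ℝ) * Real.log p) : Finset ℕ) : Set ℕ) := by
    intro p hp
    obtain ⟨hp1, hp2, hpp, hp3⟩ := hp
    rw [mem_coe, mem_union, mem_filter, mem_filter]
    by_contra hcon
    push Not at hcon
    obtain ⟨hc1, hc2⟩ := hcon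
    have hI : p ∈ Ioc X (2 * X) := mem_Ioc.mpr ⟨hp1, hp2⟩
    obtain ⟨hLB, hUB⟩ := hc1 hI hpp
    have hc3 := hc2 hI hpp
    apply hp3
    have hpR : (X : ℝ) < p := by exact_mod_cast hp1
    have hlogp : 1 ≤ Real.log p := hlog1.trans (Real.log_le_log hX0 hpR.le)
    intro H hH1 hH2
    have hH0 : 0 ≤ H := le_trans (by positivity) hH1
    refine ⟨hLB H (le_trans (by gcongr) hH1) hH2, ?_, ?_⟩
    · rw [count_eq p H hH0]
      have hfl : H < (⌊H⌋₊ : ℝ) + 1 := Nat.lt_floor_add_one H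
      have hfl' : (⌊H⌋₊ : ℝ) ≤ H := Nat.floor_le hH0
      have h3 : Real.log p ≤ ⌊H⌋₊ := by
        have : 2 * Real.log p ≤ K * Real.log p := by gcongr
        linarith
      have h4 : ⌊H⌋₊ ≤ p := by
        have : ((⌊H⌋₊ : ℕ) : ℝ) ≤ (p : ℝ) := hfl'.trans hH2
        exact_mod_cast this
      have h5 := hc3 ⌊H⌋₊ h3 h4
      rw [mul_div_assoc', le_div_iff₀ (by linarith)]
      refine h5.trans ?_
      have h6 : (0 : ℝ) ≤ K1 := by linarith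
      gcongr
    · intro hH3
      refine hUB H (le_trans ?_ hH3) hH2
      exact Real.rpow_le_rpow_of_exponent_le hlogp hKA
  have h3 := Set.ncard_le_ncard hsub (Finset.finite_toSet _)
  rw [Set.ncard_coe_finset] at h3
  have h4 := h3.trans (card_union_le _ _)
  have h5 : (({p : ℕ | X < p ∧ p ≤ 2 * X ∧ p.Prime ∧ ¬ ∀ H : ℝ, K * Real.log p ≤ H → H ≤ p →
      c * (H / Real.log p) ≤ (((Ioc p ⌊(p : ℝ) + H⌋₊).filter Nat.Prime).card : ℝ) ∧
      (((Ioc p ⌊(p : ℝ) + H⌋₊).filter Nat.Prime).card : ℝ) ≤ K * (H / Real.log p) ∧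
      ((Real.log p) ^ K ≤ H → (((Ioc p ⌊(p : ℝ) + H⌋₊).filter Nat.Prime).card : ℝ) ≤
        (4 + η) * (H / Real.log (p * H)))}.ncard : ℕ) : ℝ) ≤
      (((Ioc X (2 * X)).filter (fun p : ℕ => p.Prime ∧ ¬ (LB c (2 / (η / 2)) p ∧ UB η A p))).card : ℝ) +
      (((Ioc X (2 * X)).filter (fun p : ℕ => p.Prime ∧ ∃ h : ℕ, Real.log p ≤ h ∧ h ≤ p ∧
      K1 * h < (pc p h : ℝ) * Real.log p)).card : ℝ) := by exact_mod_cast h4
  refine h5.trans ((add_le_add h1 h2).trans (le_of_eq ?_))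
  ring

end Pool.Agent.H24.AB
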