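import Pool.Agent.H24.AB.Final
import Pool.Agent.H5.Short.Bad

/-!
# Module Prop: explicit positive proportion (Theorem C)

PROOF. `A1` from `ub_card (η') 2` (`η'` small). `h0 = ⌈(log X)^A0⌉₊` with `A0 = A1 + 1` (then `(log n)^A1 ≤ h0 ≤ n`), `A = A0 + 2`.
`G n = pc n h0`. Bad set `B' = {n ∈ (X,2X] : ∃ h, (log X)^(A0+1) ≤ h ≤ n, (∑_{m ∈ Ico n (n+h)} pc m h0) log X < (1 - δ') h h0}`.
(1) If `n ∉ B'` and `(log n)^A ≤ H ≤ n`: with `h = ⌊H⌋₊ - h0 ≥ (1-τ) H`, `∑_{m ∈ Ico n (n+h)} pc m h0 ≤ h0 * pc n (h + h0)` (every prime `q` is counted for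
the `m` with `m < q ≤ m + h0`, at most `h0` of them, and `n < q ≤ n + h + h0`), so `pc n ⌊H⌋₊ log n ≥ (1-δ')(1-τ) H ≥ (1-δ) H`.
(2) Cover `B'` greedily (`cover`) by disjoint `Ico n (n + h n)`, `n ∈ D`; by `pnt_unif` every chosen `h n ≤ 2τX`. `U` their union, `u = |U| = ∑ h n`,
`V = (X,2X] \ U`, `|V| ≥ X - u`, and `u ≤ X - |V| + 3τX`. `∑_{m ∈ U} pc m h0 * log X ≤ (1-δ') h0 u`.
(3) `∑_{m ∈ (X,2X]} pc m h0 ≥ h0 (pc X X - pc X h0) ≥ (1-τ) X h0/log X`: every prime in `(X + h0, 2X]` is counted `h0` times.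
(4) `∑_{m ∈ V} pc m h0 ≤ (4+η') h0 |V|/log X + h0 X/(log X)²`: for `m ∈ V` with `UB η' A1 m` use `H = h0`, `log (m h0) ≥ log X`; for the others
(at most `X/(log X)²`) `pc m h0 ≤ h0`.
(5) `(1-τ) X ≤ (1-δ') u + (4+η')|V| + X/log X` and `u ≤ X - |V| + 3τX`: `(3 + δ' + η') |V| ≥ (δ' - 10 τ) X`. So
`|V| ≥ (δ/(3+δ) - η/2) X` for suitable small parameters. Remove the `X/(log X)²` integers violating `UB`.
-/

set_option autoImplicit false

namespace Pool.Agent.H24.AB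

open Finset Pool.Agent.H5.Short Filter Topology

/-- the lower bound `(1 - δ) H / log n` at all scales above `(log n)^A` -/
def LA (δ A : ℝ) (n : ℕ) : Prop := ∀ H : ℝ, (Real.log n) ^ A ≤ H → H ≤ n →
  (1 - δ) * (H / Real.log n) ≤ (((Ioc n ⌊(n : ℝ) + H⌋₊).filter Nat.Prime).card : ℝ)

/-- double counting -/
private theorem pr_swap (n h k : ℕ) :
    ∑ m ∈ Ico n (n + h), pc m k = ∑ q ∈ (Ioc 0 (n + h + k)).filter Nat.Prime,
      ((Ico n (n + h)).filter (fun m => m < q ∧ q ≤ m + k)).card := by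
  have h1 : ∀ m ∈ Ico n (n + h), pc m k = ∑ q ∈ (Ioc 0 (n + h + k)).filter Nat.Prime,
      if m < q ∧ q ≤ m + k then 1 else 0 := by
    intro m hm
    rw [mem_Ico] at hm
    rw [← card_filter]
    unfold pc
    congr 1
    ext q
    simp only [mem_filter, mem_Ioc]
    constructor
    · rintro ⟨⟨h1, h2⟩, h3⟩
      exact ⟨⟨⟨by omega, by omega⟩, h3⟩, h1, h2⟩
    · rintro ⟨⟨⟨h1, h2⟩, h3⟩, h4, h5⟩
      exact ⟨⟨h4, h5⟩, h3⟩
  rw [sum_congr rfl h1, sum_comm]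
  apply sum_congr rfl
  intro q _
  rw [card_filter]

private theorem pr_up (n h k : ℕ) : ∑ m ∈ Ico n (n + h), pc m k ≤ k * pc n (h + k) := by
  rw [pr_swap]
  have h1 : ∀ q ∈ (Ioc 0 (n + h + k)).filter Nat.Prime,
      ((Ico n (n + h)).filter (fun m => m < q ∧ q ≤ m + k)).card ≤ if n < q then k else 0 := by
    intro q hq
    split_ifs with hc
    · calc ((Ico n (n + h)).filter (fun m => m < q ∧ q ≤ m + k)).card ≤ (Ico (q - k) q).card := by
            apply card_le_card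
            intro m hm
            rw [mem_filter] at hm
            rw [mem_Ico]
            omega
        _ ≤ k := by rw [Nat.card_Ico]; omega
    · rw [Nat.le_zero, card_eq_zero, filter_eq_empty_iff]
      intro m hm
      rw [mem_Ico] at hm
      omega
  refine (sum_le_sum h1).trans ?_
  rw [← sum_filter, sum_const, smul_eq_mul, mul_comm]
  apply Nat.mul_le_mul_left
  unfold pc
  apply card_le_card
  intro q hq
  simp only [mem_filter, mem_Ioc] at hq ⊢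
  exact ⟨⟨hq.2, by omega⟩, hq.1.2⟩

private theorem pr_low (n h k : ℕ) (hk : k ≤ h) :
    k * pc (n + k) (h - k) ≤ ∑ m ∈ Ico n (n + h), pc m k := by
  rw [pr_swap]
  have h1 : k * pc (n + k) (h - k) ≤ ∑ q ∈ (Ioc (n + k) (n + k + (h - k))).filter Nat.Prime,
      ((Ico n (n + h)).filter (fun m => m < q ∧ q ≤ m + k)).card := by
    unfold pc
    rw [mul_comm, ← smul_eq_mul]
    apply card_nsmul_le_sum
    intro q hq
    rw [mem_filter, mem_Ioc] at hq
    calc k = (Ico (q - k) q).card := by rw [Nat.card_Ico]; omega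
      _ ≤ _ := by
        apply card_le_card
        intro m hm
        rw [mem_Ico] at hm
        rw [mem_filter, mem_Ico]
        omega
  refine h1.trans ?_
  apply sum_le_sum_of_subset_of_nonneg
  · intro q hq
    simp only [mem_filter, mem_Ioc] at hq ⊢
    exact ⟨⟨by omega, by omega⟩, hq.2⟩
  · intro q _ _
    exact Nat.zero_le _

private theorem pr_split (n h k : ℕ) (hk : k ≤ h) : pc n h ≤ k + pc (n + k) (h - k) := by
  unfold pc
  calc ((Ioc n (n + h)).filter Nat.Prime).card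
      ≤ ((Ioc n (n + k)) ∪ (Ioc (n + k) (n + k + (h - k))).filter Nat.Prime).card := by
        apply card_le_card
        intro q hq
        simp only [mem_filter, mem_Ioc, mem_union] at hq ⊢
        by_cases hc : q ≤ n + k
        · exact Or.inl ⟨hq.1.1, hc⟩
        · exact Or.inr ⟨⟨by omega, by omega⟩, hq.2⟩
    _ ≤ (Ioc n (n + k)).card + _ := card_union_le _ _
    _ = _ := by rw [Nat.card_Ioc]; congr 1; omega

private theorem pr_pc_le (n k : ℕ) : pc n k ≤ k := by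
  unfold pc
  calc ((Ioc n (n + k)).filter Nat.Prime).card ≤ (Ioc n (n + k)).card := card_filter_le _ _
    _ = k := by rw [Nat.card_Ioc]; omega

/-- the average over a long interval -/
private theorem pr_avg {τ L : ℝ} (hτ : 0 < τ) (hτ1 : τ < 1) {n h h0 : ℕ} (hL : 0 < L)
    (hlog : Real.log n ≤ (1 + τ) * L) (hpnt : (1 - τ) * h ≤ (pc n h : ℝ) * Real.log n)
    (hh0 : h0 ≤ h) (hsm : (h0 : ℝ) * L ≤ τ * h) :
    (1 - 3 * τ) * h * h0 ≤ ((∑ m ∈ Ico n (n + h), pc m h0 : ℕ) : ℝ) * L := by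
  have h1 := pr_low n h h0 hh0
  have h2 := pr_split n h h0 hh0
  have h3 : (h0 : ℝ) * ((pc n h : ℝ) - h0) ≤ ((∑ m ∈ Ico n (n + h), pc m h0 : ℕ) : ℝ) := by
    have h4 : (pc n h : ℝ) - h0 ≤ (pc (n + h0) (h - h0) : ℝ) := by
      have : (pc n h : ℝ) ≤ h0 + (pc (n + h0) (h - h0) : ℝ) := by exact_mod_cast h2
      linarith
    calc (h0 : ℝ) * ((pc n h : ℝ) - h0) ≤ (h0 : ℝ) * (pc (n + h0) (h - h0) : ℝ) := by gcongr
      _ ≤ _ := by exact_mod_cast h1
  have h5 : (1 - τ) * h ≤ (1 + τ) * ((pc n h : ℝ) * L) := by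
    calc (1 - τ) * h ≤ (pc n h : ℝ) * Real.log n := hpnt
      _ ≤ (pc n h : ℝ) * ((1 + τ) * L) := by gcongr
      _ = _ := by ring
  have h6 : (1 - 2 * τ) * h ≤ (pc n h : ℝ) * L := by
    have h7 : (1 - 2 * τ) * (1 + τ) ≤ 1 - τ := by nlinarith
    have h8 : (0 : ℝ) ≤ h := Nat.cast_nonneg h
    have h9 : (1 + τ) * ((1 - 2 * τ) * h) ≤ (1 + τ) * ((pc n h : ℝ) * L) := by
      refine le_trans ?_ h5
      nlinarith
    exact le_of_mul_le_mul_left h9 (by linarith)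
  have h10 : (1 - 3 * τ) * h ≤ ((pc n h : ℝ) - h0) * L := by nlinarith
  calc (1 - 3 * τ) * h * h0 = h0 * ((1 - 3 * τ) * h) := by ring
    _ ≤ h0 * (((pc n h : ℝ) - h0) * L) := by gcongr
    _ = (h0 : ℝ) * ((pc n h : ℝ) - h0) * L := by ring
    _ ≤ _ := by gcongr

/-- monotonicity of the upper bound in the exponent -/
private theorem pr_ub_mono {η A A' : ℝ} {n : ℕ} (hA : A ≤ A') (hn : 1 ≤ Real.log n)
    (h : UB η A n) : UB η A' n := by
  intro H hH hHn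
  exact h H ((Real.rpow_le_rpow_of_exponent_le hn hA).trans hH) hHn

/-- a point outside the bad set satisfies the lower bound -/
private theorem pr_LA {δ δ' τ A0 L : ℝ} {n h0 : ℕ} (hA0 : 0 < A0) (hτ : 0 < τ)
    (hδ' : 0 < δ') (hδ'1 : δ' < 1) (hpar : 1 - δ ≤ (1 - δ') * (1 - τ)) (hL4 : 4 ≤ L)
    (hLτ : 3 ≤ τ * L) (hLn : L ≤ Real.log n)
    (hh0 : (h0 : ℝ) ≤ L ^ A0 + 1) (hh0' : 0 < h0)
    (hgood : ∀ h : ℕ, L ^ (A0 + 1) ≤ h → h ≤ n →
      (1 - δ') * h * h0 ≤ ((∑ m ∈ Ico n (n + h), pc m h0 : ℕ) : ℝ) * L) :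
    LA δ (A0 + 2) n := by
  intro H hH hHn
  have hL0 : 0 < L := by linarith
  have hlogn0 : 0 < Real.log n := by linarith
  have hP0 : 1 ≤ L ^ A0 := Real.one_le_rpow (by linarith) hA0.le
  have e1 : L ^ (A0 + 1) = L ^ A0 * L := by rw [Real.rpow_add hL0, Real.rpow_one]
  have e2 : L ^ (A0 + 2) = L ^ A0 * L ^ 2 := by
    rw [Real.rpow_add hL0]
    norm_num
  have hHL : L ^ (A0 + 2) ≤ H :=
    (Real.rpow_le_rpow hL0.le hLn (by linarith)).trans hH
  have hH0 : 0 < H := lt_of_lt_of_le (by positivity) hHL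
  have hfl1 : H - 1 < (⌊H⌋₊ : ℝ) := by
    have := Nat.lt_floor_add_one H
    linarith
  have hfl2 : (⌊H⌋₊ : ℝ) ≤ H := Nat.floor_le hH0.le
  have hbig : L ^ A0 + 2 ≤ H := by
    refine le_trans ?_ hHL
    rw [e2]
    have h16 : 16 ≤ L ^ 2 := by nlinarith
    have h17 : L ^ A0 * 16 ≤ L ^ A0 * L ^ 2 := mul_le_mul_of_nonneg_left h16 (by linarith)
    linarith
  have hle : h0 ≤ ⌊H⌋₊ := by
    have : (h0 : ℝ) < (⌊H⌋₊ : ℝ) := by linarith
    exact_mod_cast this.le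
  obtain ⟨h, hh⟩ : ∃ h, h = ⌊H⌋₊ - h0 := ⟨_, rfl⟩
  have hhR : (h : ℝ) = (⌊H⌋₊ : ℝ) - h0 := by
    rw [hh, Nat.cast_sub hle]
  have h1 : L ^ (A0 + 1) ≤ h := by
    rw [hhR, e1]
    rw [e2] at hHL
    nlinarith
  have h2 : h ≤ n := by
    have : (h : ℝ) ≤ n := by
      rw [hhR]
      have : (0 : ℝ) ≤ h0 := Nat.cast_nonneg _
      linarith
    exact_mod_cast this
  have h3 := hgood h h1 h2
  have h4 := pr_up n h h0
  have h5 : h + h0 = ⌊H⌋₊ := by omega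
  rw [h5] at h4
  have h6 : ((∑ m ∈ Ico n (n + h), pc m h0 : ℕ) : ℝ) ≤ h0 * (pc n ⌊H⌋₊ : ℝ) := by
    exact_mod_cast h4
  have hh0R : (0 : ℝ) < h0 := by exact_mod_cast hh0'
  have h7 : (1 - δ') * h ≤ (pc n ⌊H⌋₊ : ℝ) * L := by
    have h8 : (h0 : ℝ) * ((1 - δ') * h) ≤ h0 * ((pc n ⌊H⌋₊ : ℝ) * L) := by
      calc (h0 : ℝ) * ((1 - δ') * h) = (1 - δ') * h * h0 := by ring
        _ ≤ _ := h3
        _ ≤ h0 * (pc n ⌊H⌋₊ : ℝ) * L := by gcongr
        _ = _ := by ring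
    exact le_of_mul_le_mul_left h8 hh0R
  have h9 : (1 - τ) * H ≤ h := by
    rw [hhR]
    have h10 : 3 * L ^ A0 ≤ τ * H := by
      calc 3 * L ^ A0 ≤ τ * L * L ^ A0 := by gcongr
        _ = τ * (L ^ A0 * L) := by ring
        _ ≤ τ * (L ^ A0 * L ^ 2) := by
          apply mul_le_mul_of_nonneg_left _ hτ.le
          apply mul_le_mul_of_nonneg_left _ (by positivity)
          nlinarith
        _ ≤ τ * H := by
          rw [← e2]
          gcongr
    linarith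
  rw [count_eq n H hH0.le, ← mul_div_assoc, div_le_iff₀ hlogn0]
  calc (1 - δ) * H ≤ (1 - δ') * (1 - τ) * H := by gcongr
    _ = (1 - δ') * ((1 - τ) * H) := by ring
    _ ≤ (1 - δ') * h := by
      apply mul_le_mul_of_nonneg_left h9 (by linarith)
    _ ≤ (pc n ⌊H⌋₊ : ℝ) * L := h7
    _ ≤ _ := by gcongr

/-- asymptotic conditions -/
private theorem pr_asym (A0 τ : ℝ) (hτ : 0 < τ) (K : ℝ) : ∃ X0 : ℕ, ∀ X : ℕ, X0 ≤ X →
    K ≤ Real.log X ∧ 2 * (Real.log X) ^ (A0 + 1) ≤ 2 * τ ^ 2 * X := by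
  have h1 : Tendsto (fun n : ℕ => Real.log (n : ℝ)) atTop atTop :=
    Real.tendsto_log_atTop.comp tendsto_natCast_atTop_atTop
  have h2 := isLittleO_log_rpow_rpow_atTop (A0 + 1) one_pos
  have h3 := h2.def (show (0 : ℝ) < τ ^ 2 by positivity)
  have h4 := (tendsto_natCast_atTop_atTop (R := ℝ)).eventually h3
  obtain ⟨N, hN⟩ := eventually_atTop.mp ((h1.eventually_ge_atTop K).and
    ((h1.eventually_ge_atTop 0).and (h4.and (eventually_ge_atTop 1))))
  refine ⟨N, fun X hX => ?_⟩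
  obtain ⟨h5, h6, h7, h8⟩ := hN X hX
  refine ⟨h5, ?_⟩
  rw [Real.rpow_one, Real.norm_of_nonneg (Real.rpow_nonneg h6 _),
    Real.norm_of_nonneg (Nat.cast_nonneg X)] at h7
  linarith

private theorem pr_alg1 {X L τ : ℝ} (hL0 : 0 < L) (hX0 : 0 < X) (hLτ : 3 ≤ τ * L) :
    X / L ≤ τ * X / 3 := by
  rw [div_le_div_iff₀ hL0 (by norm_num)]
  nlinarith

private theorem pr_alg2 {δ η τ X Q V U : ℝ} (hδ : 0 < δ) (hδ1 : δ < 1) (hη : 0 < η)
    (hτ0 : 0 < τ) (hτδ : 100 * τ ≤ δ) (hτη : 100 * τ ≤ η) (hX0 : 0 < X) (hV0 : 0 ≤ V)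
    (hXL : Q ≤ τ * X / 3) (hU : U ≤ X - V + 2 * τ * X)
    (hmain : (1 - 3 * τ) * X ≤ (4 + η) * V + Q + (1 - (δ - τ)) * U) :
    (δ / (3 + δ) - η / 2) * X ≤ V := by
  have hVlow : (δ - 7 * τ) * X ≤ (3 + δ + η) * V := by
    have h1 : (1 - (δ - τ)) * U ≤ (1 - (δ - τ)) * (X - V + 2 * τ * X) :=
      mul_le_mul_of_nonneg_left hU (by linarith)
    have h2 : (1 - (δ - τ)) * (X - V + 2 * τ * X) ≤ (1 - (δ - τ)) * X - (1 - (δ - τ)) * V +
        2 * τ * X := by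
      have h5 : 0 ≤ (δ - τ) * (2 * τ * X) := mul_nonneg (by linarith) (by positivity)
      linarith
    have h4 : 0 ≤ τ * V := by positivity
    have h5 : 0 ≤ τ * X := by positivity
    linarith
  have h1 : (δ / (3 + δ) - η / 2) * (3 + δ + η) ≤ δ - 7 * τ := by
    have h2 : δ / (3 + δ) * (3 + δ + η) = δ + δ / (3 + δ) * η := by field_simp
    have h3 : δ / (3 + δ) ≤ 1 / 3 := by
      rw [div_le_div_iff₀ (by linarith) (by norm_num)]
      linarith
    have h4 : δ / (3 + δ) * η ≤ 1 / 3 * η := mul_le_mul_of_nonneg_right h3 hη.le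
    have h5 : (δ / (3 + δ) - η / 2) * (3 + δ + η) =
        δ / (3 + δ) * (3 + δ + η) - η / 2 * (3 + δ + η) := by ring
    rw [h5, h2]
    have h6 : 0 ≤ η * δ := by positivity
    have h7 : 0 ≤ η * η := by positivity
    linarith
  have h6 : 0 < 3 + δ + η := by linarith
  have h7 : (3 + δ + η) * ((δ / (3 + δ) - η / 2) * X) ≤ (3 + δ + η) * V := by
    refine le_trans ?_ hVlow
    calc (3 + δ + η) * ((δ / (3 + δ) - η / 2) * X) =
        (δ / (3 + δ) - η / 2) * (3 + δ + η) * X := by ring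
      _ ≤ _ := mul_le_mul_of_nonneg_right h1 hX0.le
  exact le_of_mul_le_mul_left h7 h6

private theorem pr_alg3 {X L τ η : ℝ} (hτ0 : 0 < τ) (hL4 : 4 ≤ L) (hX0 : 0 < X) (hXL : X / L ≤ τ * X / 3)
    (hτη : 100 * τ ≤ η) : X / L ^ (2 : ℝ) ≤ η / 2 * X := by
  have hL0 : 0 < L := by linarith
  have h4 : L ^ (2 : ℝ) = L * L := by
    rw [show (2 : ℝ) = ((2 : ℕ) : ℝ) by norm_num, Real.rpow_natCast]
    ring
  rw [h4]
  calc X / (L * L) ≤ X / L := by
        apply div_le_div_of_nonneg_left hX0.le hL0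
        nlinarith
    _ ≤ τ * X / 3 := hXL
    _ ≤ η / 2 * X := by
        have h5 := mul_le_mul_of_nonneg_right hτη hX0.le
        have h6 : 0 < τ * X := mul_pos hτ0 hX0
        linarith

private theorem pr_alg4 {X L P H0 τ : ℝ} (hL : 4 ≤ L) (hP : 1 ≤ P) (h : H0 ≤ P + 1)
    (hs : 2 * (P * L) ≤ 2 * τ ^ 2 * X) : H0 * L ≤ 2 * τ ^ 2 * X := by
  refine le_trans ?_ hs
  nlinarith

private theorem pr_alg5 {H0 L h τ : ℝ} (hτ0 : 0 < τ) (hτ1 : τ < 1) (hL : 4 ≤ L) (hH : 0 ≤ H0)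
    (hh : 0 ≤ h) (h1 : H0 * L ≤ τ * h) : H0 ≤ h := by
  nlinarith

open Classical in
theorem prop_card (δ η : ℝ) (hδ : 0 < δ) (hδ1 : δ < 1) (hη : 0 < η) :
    ∃ A : ℝ, 0 < A ∧ ∃ X0 : ℕ, ∀ X : ℕ, X0 ≤ X →
    (δ / (3 + δ) - η) * X ≤
      (((Ioc X (2 * X)).filter (fun n => LA δ A n ∧ UB η A n)).card : ℝ) := by
  obtain ⟨A1, hA1, X1, hUB⟩ := ub_card η 2 hη (by norm_num)
  obtain ⟨τ, hτ⟩ : ∃ τ : ℝ, τ = min δ η / 100 := ⟨_, rfl⟩
  have hτ0 : 0 < τ := by
    have : 0 < min δ η := lt_min hδ hη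
    rw [hτ]; positivity
  have hτδ : 100 * τ ≤ δ := by
    have : min δ η ≤ δ := min_le_left _ _
    rw [hτ]; linarith
  have hτη : 100 * τ ≤ η := by
    have : min δ η ≤ η := min_le_right _ _
    rw [hτ]; linarith
  have hτ1 : τ < 1 := by linarith
  obtain ⟨A0, hA0⟩ : ∃ A0 : ℝ, A0 = A1 + 1 := ⟨_, rfl⟩
  have hA00 : 0 < A0 := by rw [hA0]; linarith
  obtain ⟨δ', hδ'⟩ : ∃ δ' : ℝ, δ' = δ - τ := ⟨_, rfl⟩
  have hδ'0 : 0 < δ' := by rw [hδ']; linarith
  have hδ'1 : δ' < 1 := by rw [hδ']; linarith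
  have hpar : 1 - δ ≤ (1 - δ') * (1 - τ) := by rw [hδ']; nlinarith
  obtain ⟨X2, hX2⟩ := pnt_unif τ τ hτ0 hτ0
  obtain ⟨X3, hX3⟩ := log_two_mul_le τ hτ0
  obtain ⟨X4, hX4⟩ := pr_asym A0 τ hτ0 (max (max 4 (3 / τ)) ((2 : ℝ) ^ A1))
  refine ⟨A0 + 2, by linarith, max (max X1 X2) (max (max X3 X4) 1), fun X hX => ?_⟩
  have hXX1 : X1 ≤ X := le_trans (le_trans (le_max_left _ _) (le_max_left _ _)) hX
  have hXX2 : X2 ≤ X := le_trans (le_trans (le_max_right _ _) (le_max_left _ _)) hX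
  have hXX3 : X3 ≤ X := le_trans (le_trans (le_trans (le_max_left _ _) (le_max_left _ _))
    (le_max_right _ _)) hX
  have hXX4 : X4 ≤ X := le_trans (le_trans (le_trans (le_max_right _ _) (le_max_left _ _))
    (le_max_right _ _)) hX
  have hXpos : 1 ≤ X := le_trans (le_trans (le_max_right _ _) (le_max_right _ _)) hX
  have hX0 : (0 : ℝ) < X := by exact_mod_cast hXpos
  obtain ⟨hlog2, hlog1⟩ := hX3 X hXX3
  obtain ⟨hK, hsmall⟩ := hX4 X hXX4
  have hUBX := hUB X hXX1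
  obtain ⟨L, hL⟩ : ∃ L : ℝ, L = Real.log X := ⟨_, rfl⟩
  rw [← hL] at hlog2 hlog1 hK hsmall hUBX
  have hL4 : 4 ≤ L := (le_trans (le_max_left _ _) (le_max_left _ _)).trans hK
  have hLτ : 3 ≤ τ * L := by
    have h1 : 3 / τ ≤ L := (le_trans (le_max_right _ _) (le_max_left _ _)).trans hK
    rwa [div_le_iff₀ hτ0, mul_comm] at h1
  have hLA1 : (2 : ℝ) ^ A1 ≤ L := (le_max_right _ _).trans hK
  have hL0 : 0 < L := by linarith
  obtain ⟨h0, hh0⟩ : ∃ h0 : ℕ, h0 = ⌈L ^ A0⌉₊ := ⟨_, rfl⟩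
  have hP0 : 1 ≤ L ^ A0 := Real.one_le_rpow (by linarith) hA00.le
  have hh0l : L ^ A0 ≤ h0 := by rw [hh0]; exact Nat.le_ceil _
  have hh0u : (h0 : ℝ) ≤ L ^ A0 + 1 := by
    rw [hh0]
    exact (Nat.ceil_lt_add_one (by linarith)).le
  have hh0pos : 0 < h0 := by
    have : (0 : ℝ) < h0 := by linarith
    exact_mod_cast this
  have e1 : L ^ (A0 + 1) = L ^ A0 * L := by rw [Real.rpow_add hL0, Real.rpow_one]
  -- `h0 L ≤ τ h` for `h ≥ 2 τ X`
  have hh0L : (h0 : ℝ) * L ≤ 2 * τ ^ 2 * X := by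
    rw [e1] at hsmall
    exact pr_alg4 hL4 hP0 hh0u hsmall
  have hh0h : ∀ h : ℕ, 2 * τ * X ≤ h → (h0 : ℝ) * L ≤ τ * h ∧ h0 ≤ h := by
    intro h hh
    have h1 : (h0 : ℝ) * L ≤ τ * h := by
      refine hh0L.trans ?_
      calc 2 * τ ^ 2 * X = τ * (2 * τ * X) := by ring
        _ ≤ τ * h := by gcongr
    refine ⟨h1, ?_⟩
    have h2 : (h0 : ℝ) ≤ h :=
      pr_alg5 hτ0 hτ1 hL4 (Nat.cast_nonneg _) (Nat.cast_nonneg _) h1
    exact_mod_cast h2
  have hlogn : ∀ n ∈ Ioc X (2 * X), L ≤ Real.log n ∧ Real.log n ≤ (1 + τ) * L := by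
    intro n hn
    rw [mem_Ioc] at hn
    refine ⟨?_, ?_⟩
    · rw [hL]
      exact Real.log_le_log hX0 (by exact_mod_cast hn.1.le)
    · refine le_trans ?_ hlog2
      exact Real.log_le_log (by exact_mod_cast (by omega : 0 < n)) (by exact_mod_cast hn.2)
  -- the average over long intervals
  have havg : ∀ n ∈ Ioc X (2 * X), ∀ h : ℕ, 2 * τ * X ≤ h → h ≤ n →
      (1 - 3 * τ) * h * h0 ≤ ((∑ m ∈ Ico n (n + h), pc m h0 : ℕ) : ℝ) * L := by
    intro n hn h hh hhn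
    have hn' := mem_Ioc.mp hn
    have hnR : (n : ℝ) ≤ 2 * X := by exact_mod_cast hn'.2
    refine pr_avg hτ0 hτ1 hL0 (hlogn n hn).2 (hX2 n h (by omega) ?_ (by omega)).1
      (hh0h h hh).2 (hh0h h hh).1
    calc τ * n ≤ τ * (2 * X) := by gcongr
      _ = 2 * τ * X := by ring
      _ ≤ h := hh
  -- the bad set
  obtain ⟨B, hB⟩ : ∃ B : Finset ℕ, B = (Ioc X (2 * X)).filter (fun n => ∃ h : ℕ,
    L ^ (A0 + 1) ≤ h ∧ h ≤ n ∧
      ((∑ m ∈ Ico n (n + h), pc m h0 : ℕ) : ℝ) * L < (1 - δ') * h * h0) := ⟨_, rfl⟩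
  have hchoose : ∀ n ∈ B, ∃ h : ℕ, L ^ (A0 + 1) ≤ h ∧ h ≤ n ∧
      ((∑ m ∈ Ico n (n + h), pc m h0 : ℕ) : ℝ) * L < (1 - δ') * h * h0 := by
    intro n hn
    rw [hB] at hn
    exact (mem_filter.mp hn).2
  choose! h hh using hchoose
  have hBI : ∀ n ∈ B, n ∈ Ioc X (2 * X) := by
    intro n hn
    rw [hB] at hn
    exact (mem_filter.mp hn).1
  have hh1 : ∀ n ∈ B, 1 ≤ h n := by
    intro n hn
    have h1 := (hh n hn).1
    have h2 : (0 : ℝ) < h n := lt_of_lt_of_le (by positivity) h1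
    exact_mod_cast (by exact_mod_cast h2 : 0 < h n)
  obtain ⟨D, hDB, hD1, hD2⟩ := cover h B.card B le_rfl hh1
  have hshort : ∀ n ∈ B, (h n : ℝ) ≤ 2 * τ * X := by
    intro n hn
    by_contra hlt
    push Not at hlt
    obtain ⟨h1, h2, h3⟩ := hh n hn
    have h4 := havg n (hBI n hn) (h n) hlt.le h2
    have h5 := lt_of_le_of_lt h4 h3
    have h6 : (0 : ℝ) < (h n : ℝ) * h0 := by
      have h7 : (0 : ℝ) < h n := by exact_mod_cast hh1 n hn
      have h8 : (0 : ℝ) < h0 := by exact_mod_cast hh0pos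
      positivity
    have h9 : (1 - 3 * τ) * ((h n : ℝ) * h0) < (1 - δ') * ((h n : ℝ) * h0) := by linarith
    have h10 := lt_of_mul_lt_mul_right h9 h6.le
    rw [hδ'] at h10
    linarith
  -- the union of the intervals and its complement
  obtain ⟨U, hU⟩ : ∃ U : Finset ℕ, U = D.biUnion (fun n => Ico n (n + h n)) := ⟨_, rfl⟩
  obtain ⟨V, hV⟩ : ∃ V : Finset ℕ, V = Ioc X (2 * X) \ U := ⟨_, rfl⟩
  have hdisj : ∀ n ∈ D, ∀ n' ∈ D, n ≠ n' → Disjoint (Ico n (n + h n)) (Ico n' (n' + h n')) := by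
    intro n hn n' hn' hne
    rw [disjoint_left]
    intro m hm hm'
    rw [mem_Ico] at hm hm'
    rcases lt_or_gt_of_ne hne with hlt | hlt
    · have := hD1 n hn n' hn' hlt
      omega
    · have := hD1 n' hn' n hn hlt
      omega
  have hUsum : ∀ f : ℕ → ℕ, ∑ m ∈ U, f m = ∑ n ∈ D, ∑ m ∈ Ico n (n + h n), f m := by
    intro f
    rw [hU]
    exact sum_biUnion (fun n hn n' hn' hne => hdisj n hn n' hn' hne)
  have hUcard : U.card = ∑ n ∈ D, h n := by
    rw [hU, card_biUnion (fun n hn n' hn' hne => hdisj n hn n' hn' hne)]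
    apply sum_congr rfl
    intro n _
    rw [Nat.card_Ico]; omega
  have hUbound : (U.card : ℝ) ≤ X - V.card + 2 * τ * X := by
    have h1 : U ⊆ (Ioc X (2 * X) \ V) ∪ Ioc (2 * X) (2 * X + ⌊2 * τ * X⌋₊) := by
      intro m hm
      have hm' := hm
      rw [hU, mem_biUnion] at hm'
      obtain ⟨n, hn, hmn⟩ := hm'
      rw [mem_Ico] at hmn
      have h2 := mem_Ioc.mp (hBI n (hDB hn))
      have h3 : h n ≤ ⌊2 * τ * X⌋₊ := Nat.le_floor (hshort n (hDB hn))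
      rw [mem_union]
      by_cases hc : m ≤ 2 * X
      · left
        rw [Finset.mem_sdiff, mem_Ioc, hV, Finset.mem_sdiff]
        exact ⟨⟨by omega, hc⟩, fun h4 => h4.2 hm⟩
      · right
        rw [mem_Ioc]
        omega
    have h2 := (card_le_card h1).trans (card_union_le _ _)
    have hVsub : V ⊆ Ioc X (2 * X) := by rw [hV]; exact sdiff_subset
    rw [card_sdiff_of_subset hVsub, Nat.card_Ioc, Nat.card_Ioc] at h2
    have h3 : V.card ≤ X := by
      have := card_le_card hVsub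
      rw [Nat.card_Ioc] at this
      omega
    have h4 : U.card + V.card ≤ X + ⌊2 * τ * X⌋₊ := by omega
    have h5 : (U.card : ℝ) + V.card ≤ X + (⌊2 * τ * X⌋₊ : ℝ) := by exact_mod_cast h4
    have h6 := Nat.floor_le (by positivity : (0 : ℝ) ≤ 2 * τ * X)
    linarith
  -- primes seen from `U`
  have hUpc : ((∑ m ∈ U, pc m h0 : ℕ) : ℝ) * L ≤ (1 - δ') * h0 * U.card := by
    rw [hUsum, hUcard]
    push_cast
    rw [sum_mul, mul_sum]
    apply sum_le_sum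
    intro n hn
    have h1 := (hh n (hDB hn)).2.2
    push_cast at h1
    refine h1.le.trans (le_of_eq ?_)
    ring
  -- primes seen from `V`
  have hVpc : ((∑ m ∈ V, pc m h0 : ℕ) : ℝ) * L ≤ (4 + η) * h0 * V.card + h0 * (X / L) := by
    obtain ⟨V1, hV1⟩ : ∃ V1 : Finset ℕ, V1 = V.filter (fun n => UB η A1 n) := ⟨_, rfl⟩
    obtain ⟨V2, hV2⟩ : ∃ V2 : Finset ℕ, V2 = V.filter (fun n => ¬ UB η A1 n) := ⟨_, rfl⟩
    have hVI : ∀ m ∈ V, m ∈ Ioc X (2 * X) := by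
      intro m hm
      rw [hV] at hm
      exact (Finset.mem_sdiff.mp hm).1
    have hsum : ∑ m ∈ V, pc m h0 = ∑ m ∈ V1, pc m h0 + ∑ m ∈ V2, pc m h0 := by
      rw [hV1, hV2, sum_filter_add_sum_filter_not]
    have h1 : ((∑ m ∈ V1, pc m h0 : ℕ) : ℝ) * L ≤ (4 + η) * h0 * V.card := by
      push_cast
      rw [sum_mul]
      have h2 : ∀ m ∈ V1, (pc m h0 : ℝ) * L ≤ (4 + η) * h0 := by
        intro m hm
        rw [hV1, mem_filter] at hm
        obtain ⟨hmV, hmU⟩ := hm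
        have hmI := mem_Ioc.mp (hVI m hmV)
        have hmR : (X : ℝ) ≤ m := by exact_mod_cast hmI.1.le
        have hm0 : (0 : ℝ) < m := by linarith
        have h3 : (Real.log m) ^ A1 ≤ h0 := by
          have h4 : Real.log m ≤ 2 * L := by
            refine (hlogn m (hVI m hmV)).2.trans ?_
            exact mul_le_mul_of_nonneg_right (by linarith) hL0.le
          have h5 : 0 ≤ Real.log m := by
            have := (hlogn m (hVI m hmV)).1
            linarith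
          calc (Real.log m) ^ A1 ≤ (2 * L) ^ A1 := Real.rpow_le_rpow h5 h4 hA1.le
            _ = (2 : ℝ) ^ A1 * L ^ A1 := Real.mul_rpow (by norm_num) hL0.le
            _ ≤ L * L ^ A1 := by gcongr
            _ = L ^ A0 := by rw [hA0, Real.rpow_add hL0, Real.rpow_one, mul_comm]
            _ ≤ h0 := hh0l
        have h6 : (h0 : ℝ) ≤ m := by
          have h7 : (h0 : ℝ) ≤ 2 * τ ^ 2 * X :=
            le_trans (le_mul_of_one_le_right (Nat.cast_nonneg _) (by linarith)) hh0L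
          have h8 : 2 * τ ^ 2 ≤ 1 := by
            have h81 : τ ^ 2 ≤ τ := by rw [pow_two]; exact mul_le_of_le_one_left hτ0.le hτ1.le
            linarith
          have h82 : 2 * τ ^ 2 * X ≤ 1 * X := mul_le_mul_of_nonneg_right h8 hX0.le
          linarith
        have h9 := hmU h0 h3 h6
        rw [count_eq m h0 (Nat.cast_nonneg _), Nat.floor_natCast] at h9
        have h10 : (1 : ℝ) ≤ h0 := by exact_mod_cast hh0pos
        have h11 : L ≤ Real.log (m * h0) := by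
          rw [hL]
          apply Real.log_le_log hX0
          exact hmR.trans (le_mul_of_one_le_right hm0.le h10)
        calc (pc m h0 : ℝ) * L ≤ (4 + η) * (h0 / Real.log (m * h0)) * L := by gcongr
          _ ≤ (4 + η) * (h0 / L) * L := by gcongr
          _ = (4 + η) * h0 := by field_simp
      calc ∑ m ∈ V1, (pc m h0 : ℝ) * L ≤ ∑ m ∈ V1, (4 + η) * (h0 : ℝ) := sum_le_sum h2
        _ = (4 + η) * h0 * V1.card := by rw [sum_const, nsmul_eq_mul]; ring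
        _ ≤ (4 + η) * h0 * V.card := by
          have : V1.card ≤ V.card := by rw [hV1]; exact card_filter_le _ _
          gcongr
    have h2 : ((∑ m ∈ V2, pc m h0 : ℕ) : ℝ) * L ≤ h0 * (X / L) := by
      have h3 : (V2.card : ℝ) ≤ X / L ^ (2 : ℝ) := by
        refine le_trans ?_ hUBX
        have : V2.card ≤ ((Ioc X (2 * X)).filter (fun n => ¬ UB η A1 n)).card := by
          apply card_le_card
          intro m hm
          rw [hV2, mem_filter] at hm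
          rw [mem_filter]
          exact ⟨hVI m hm.1, hm.2⟩
        exact_mod_cast this
      have h4 : L ^ (2 : ℝ) = L * L := by
        rw [show (2 : ℝ) = ((2 : ℕ) : ℝ) by norm_num, Real.rpow_natCast]
        ring
      rw [h4] at h3
      have h5 : ((∑ m ∈ V2, pc m h0 : ℕ) : ℝ) ≤ V2.card * h0 := by
        have : ∑ m ∈ V2, pc m h0 ≤ V2.card * h0 := by
          rw [← smul_eq_mul]
          exact sum_le_card_nsmul _ _ _ (fun m _ => pr_pc_le m h0)
        exact_mod_cast this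
      calc ((∑ m ∈ V2, pc m h0 : ℕ) : ℝ) * L ≤ (V2.card * h0) * L := by gcongr
        _ ≤ (X / (L * L) * h0) * L := by gcongr
        _ = _ := by field_simp
    rw [hsum]
    push_cast at h1 h2 ⊢
    rw [add_mul]
    linarith
  -- all primes
  have htot : (1 - 3 * τ) * X * h0 ≤ ((∑ m ∈ Ioc X (2 * X), pc m h0 : ℕ) : ℝ) * L := by
    have h1 : X + 1 ∈ Ioc X (2 * X) := by rw [mem_Ioc]; omega
    have h2 := havg (X + 1) h1 X (by
      have : 2 * τ ≤ 1 := by linarith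
      nlinarith) (by omega)
    have h3 : Ico (X + 1) (X + 1 + X) = Ioc X (2 * X) := by
      ext m
      rw [mem_Ico, mem_Ioc]
      omega
    rw [h3] at h2
    exact h2
  have hsplit : ((∑ m ∈ Ioc X (2 * X), pc m h0 : ℕ) : ℝ) ≤
      ((∑ m ∈ V, pc m h0 : ℕ) : ℝ) + ((∑ m ∈ U, pc m h0 : ℕ) : ℝ) := by
    have h1 : Ioc X (2 * X) ⊆ V ∪ U := by
      intro m hm
      rw [mem_union, hV, Finset.mem_sdiff]
      by_cases hc : m ∈ U
      · exact Or.inr hc
      · exact Or.inl ⟨hm, hc⟩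
    have h2 : ∑ m ∈ Ioc X (2 * X), pc m h0 ≤ ∑ m ∈ V, pc m h0 + ∑ m ∈ U, pc m h0 := by
      calc ∑ m ∈ Ioc X (2 * X), pc m h0 ≤ ∑ m ∈ V ∪ U, pc m h0 :=
            sum_le_sum_of_subset_of_nonneg h1 (fun _ _ _ => Nat.zero_le _)
        _ ≤ _ := by
          have := sum_union_inter (s₁ := V) (s₂ := U) (f := fun m => pc m h0)
          omega
    exact_mod_cast h2
  have hmain : (1 - 3 * τ) * X ≤ (4 + η) * V.card + X / L + (1 - δ') * U.card := by
    have hh0R : (0 : ℝ) < h0 := by exact_mod_cast hh0pos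
    have h1 : (h0 : ℝ) * ((1 - 3 * τ) * X) ≤
        h0 * ((4 + η) * V.card + X / L + (1 - δ') * U.card) := by
      calc (h0 : ℝ) * ((1 - 3 * τ) * X) = (1 - 3 * τ) * X * h0 := by ring
        _ ≤ ((∑ m ∈ Ioc X (2 * X), pc m h0 : ℕ) : ℝ) * L := htot
        _ ≤ (((∑ m ∈ V, pc m h0 : ℕ) : ℝ) + ((∑ m ∈ U, pc m h0 : ℕ) : ℝ)) * L := by gcongr
        _ = ((∑ m ∈ V, pc m h0 : ℕ) : ℝ) * L + ((∑ m ∈ U, pc m h0 : ℕ) : ℝ) * L := by ring
        _ ≤ ((4 + η) * h0 * V.card + h0 * (X / L)) + (1 - δ') * h0 * U.card :=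
          add_le_add hVpc hUpc
        _ = _ := by ring
    exact le_of_mul_le_mul_left h1 hh0R
  have hXL : (X : ℝ) / L ≤ τ * X / 3 := pr_alg1 hL0 hX0 hLτ
  have hVfin : (δ / (3 + δ) - η / 2) * X ≤ V.card := by
    rw [hδ'] at hmain
    exact pr_alg2 hδ hδ1 hη hτ0 hτδ hτη hX0 (Nat.cast_nonneg _) hXL hUbound hmain
  -- the good points
  have hgood : (V.card : ℝ) ≤ (((Ioc X (2 * X)).filter (fun n => LA δ (A0 + 2) n ∧
      UB η (A0 + 2) n)).card : ℝ) + X / L ^ (2 : ℝ) := by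
    refine le_trans ?_ (add_le_add (le_refl _) hUBX)
    have h1 : V ⊆ ((Ioc X (2 * X)).filter (fun n => LA δ (A0 + 2) n ∧ UB η (A0 + 2) n)) ∪
        (Ioc X (2 * X)).filter (fun n => ¬ UB η A1 n) := by
      intro m hm
      rw [hV, Finset.mem_sdiff] at hm
      obtain ⟨hm1, hm2⟩ := hm
      rw [mem_union, mem_filter, mem_filter]
      by_cases hc : UB η A1 m
      · left
        have hlm := hlogn m hm1
        refine ⟨hm1, ?_, pr_ub_mono (by rw [hA0]; linarith) (by linarith) hc⟩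
        refine pr_LA hA00 hτ0 hδ'0 hδ'1 hpar hL4 hLτ hlm.1 hh0u hh0pos ?_
        intro h' h1' h2'
        by_contra hlt
        push Not at hlt
        have hmB : m ∈ B := by
          rw [hB, mem_filter]
          exact ⟨hm1, h', h1', h2', hlt⟩
        obtain ⟨n, hn, h3, h4⟩ := hD2 m hmB
        apply hm2
        rw [hU, mem_biUnion]
        exact ⟨n, hn, mem_Ico.mpr ⟨h3, h4⟩⟩
      · right
        exact ⟨hm1, hc⟩
    have h2 := (card_le_card h1).trans (card_union_le _ _)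
    exact_mod_cast h2
  have hLsq : (X : ℝ) / L ^ (2 : ℝ) ≤ η / 2 * X := pr_alg3 hτ0 hL4 hX0 hXL hτη
  linarith

end Pool.Agent.H24.AB
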