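import Pool.Agent.H24.AB.Prop

/-!
# Module PropTwo: Theorem C with cardinalities of sets
-/

set_option autoImplicit false

namespace Pool.Agent.H24.AB

open Finset Pool.Agent.H5.Short

theorem prop_two (δ η : ℝ) (hδ : 0 < δ) (hδ1 : δ < 1) (hη : 0 < η) :
    ∃ A : ℝ, 0 < A ∧ ∃ X0 : ℕ, ∀ X : ℕ, X0 ≤ X →
    (δ / (3 + δ) - η) * X ≤ ({n : ℕ | X < n ∧ n ≤ 2 * X ∧ ∀ H : ℝ, (Real.log n) ^ A ≤ H → H ≤ n →
      (1 - δ) * (H / Real.log n) ≤ (((Ioc n ⌊(n : ℝ) + H⌋₊).filter Nat.Prime).card : ℝ) ∧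
      (((Ioc n ⌊(n : ℝ) + H⌋₊).filter Nat.Prime).card : ℝ) ≤
        (4 + η) * (H / Real.log (n * H))}.ncard : ℝ) := by
  classical
  obtain ⟨A, hA, X0, h⟩ := prop_card δ η hδ hδ1 hη
  refine ⟨A, hA, X0, fun X hX => (h X hX).trans (le_of_eq ?_)⟩
  congr 1
  rw [← Set.ncard_coe_finset]
  congr 1
  ext n
  simp only [coe_filter, mem_Ioc, Set.mem_ofPred_eq, LA, UB]
  constructor
  · rintro ⟨⟨h1, h2⟩, h3, h4⟩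
    exact ⟨h1, h2, fun H h5 h6 => ⟨h3 H h5 h6, h4 H h5 h6⟩⟩
  · rintro ⟨h1, h2, h3⟩
    exact ⟨⟨h1, h2⟩, fun H h5 h6 => (h3 H h5 h6).1, fun H h5 h6 => (h3 H h5 h6).2⟩

end Pool.Agent.H24.AB
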