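import Pool.Agent.H24.AB.ExcW
import Pool.Agent.H24.AB.Count

/-!
# Module UBW: the almost-all Brun-Titchmarsh theorem, uniform version, real lengths
-/

set_option autoImplicit false

namespace Pool.Agent.H24.AB

open Finset Pool.Agent.H5.Short

private theorem ubw_large (δ : ℝ) (hδ : 0 < δ) : ∃ κ C : ℝ, 0 < κ ∧ 0 < C ∧ ∃ X0 : ℕ, ∀ X : ℕ, X0 ≤ X →
    ∀ W : ℝ, 1 ≤ W → W ≤ (X : ℝ) ^ κ →
    (({n : ℕ | X < n ∧ n ≤ 2 * X ∧ ∃ H : ℝ, W ≤ H ∧ H ≤ n ∧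
      (4 + δ) * (H / Real.log (n * H)) <
        (((Ioc n ⌊(n : ℝ) + H⌋₊).filter Nat.Prime).card : ℝ)}.ncard : ℕ) : ℝ) ≤
      C * X * (Real.log X) ^ 18 / W := by
  classical
  obtain ⟨κ, C, hκ, hC, X1, hexc⟩ := excW (δ / 2) (by linarith)
  have hlog4 : 0 < Real.log 4 := Real.log_pos (by norm_num)
  refine ⟨κ, 2 * C + 2, hκ, by positivity,
    max X1 (max 2 ⌈Real.exp (max 2 ((8 + δ) * Real.log 4 / δ))⌉₊), ?_⟩
  intro X hX W hW hWX
  have hX1 : X1 ≤ X := le_trans (le_max_left _ _) hX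
  have hX2 : 2 ≤ X := le_trans (le_trans (le_max_left _ _) (le_max_right _ _)) hX
  have hX3 : ⌈Real.exp (max 2 ((8 + δ) * Real.log 4 / δ))⌉₊ ≤ X :=
    le_trans (le_trans (le_max_right _ _) (le_max_right _ _)) hX
  have hXR : (0 : ℝ) < X := by
    have : 0 < X := by omega
    exact_mod_cast this
  have hL : max 2 ((8 + δ) * Real.log 4 / δ) ≤ Real.log X := by
    rw [Real.le_log_iff_exp_le hXR]
    exact (Nat.le_ceil _).trans (by exact_mod_cast hX3)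
  have hL2 : 2 ≤ Real.log X := le_trans (le_max_left _ _) hL
  have hL3 : (8 + δ) * Real.log 4 ≤ δ * Real.log X := by
    have h1 := le_trans (le_max_right _ _) hL
    rw [div_le_iff₀ hδ] at h1
    linarith
  have hL18 : 1 ≤ (Real.log X) ^ 18 := one_le_pow₀ (by linarith)
  have hset : {n : ℕ | X < n ∧ n ≤ 2 * X ∧ ∃ H : ℝ, W ≤ H ∧ H ≤ n ∧
      (4 + δ) * (H / Real.log (n * H)) <
        (((Ioc n ⌊(n : ℝ) + H⌋₊).filter Nat.Prime).card : ℝ)} =
      ((Ioc X (2 * X)).filter (fun n : ℕ => ∃ H : ℝ, W ≤ H ∧ H ≤ n ∧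
      (4 + δ) * (H / Real.log (n * H)) <
        (((Ioc n ⌊(n : ℝ) + H⌋₊).filter Nat.Prime).card : ℝ)) : Finset ℕ) := by
    ext n
    simp only [Set.mem_ofPred_eq, coe_filter, mem_Ioc]
    tauto
  rw [hset, Set.ncard_coe_finset]
  by_cases hW2 : W < 2
  · have h1 : (((Ioc X (2 * X)).filter (fun n : ℕ => ∃ H : ℝ, W ≤ H ∧ H ≤ n ∧
      (4 + δ) * (H / Real.log (n * H)) <
        (((Ioc n ⌊(n : ℝ) + H⌋₊).filter Nat.Prime).card : ℝ))).card : ℝ) ≤ X := by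
      have h2 := card_filter_le (Ioc X (2 * X)) (fun n : ℕ => ∃ H : ℝ, W ≤ H ∧ H ≤ n ∧
      (4 + δ) * (H / Real.log (n * H)) <
        (((Ioc n ⌊(n : ℝ) + H⌋₊).filter Nat.Prime).card : ℝ))
      rw [Nat.card_Ioc] at h2
      have h3 : 2 * X - X = X := by omega
      rw [h3] at h2
      exact_mod_cast h2
    refine h1.trans ?_
    rw [le_div_iff₀ (by linarith)]
    have h4 : (X : ℝ) * W ≤ X * 2 := by gcongr
    have h5 : (X : ℝ) * 2 ≤ 2 * X * (Real.log X) ^ 18 := by nlinarith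
    have h6 : 2 * X * (Real.log X) ^ 18 ≤ (2 * C + 2) * X * (Real.log X) ^ 18 := by
      have : 2 ≤ 2 * C + 2 := by linarith
      gcongr
    linarith
  push Not at hW2
  have hWl : Real.log (W / 2) ≤ κ * Real.log X := by
    have h1 : Real.log (W / 2) ≤ Real.log W := Real.log_le_log (by linarith) (by linarith)
    have h2 : Real.log W ≤ Real.log ((X : ℝ) ^ κ) := Real.log_le_log (by linarith) hWX
    rw [Real.log_rpow hXR] at h2
    linarith
  have hmain := hexc X hX1 (W / 2) (by linarith) hWl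
  have hsub : (Ioc X (2 * X)).filter (fun n : ℕ => ∃ H : ℝ, W ≤ H ∧ H ≤ n ∧
      (4 + δ) * (H / Real.log (n * H)) <
        (((Ioc n ⌊(n : ℝ) + H⌋₊).filter Nat.Prime).card : ℝ)) ⊆
      (Ioc X (2 * X)).filter (fun n : ℕ => ∃ h : ℕ, W / 2 ≤ h ∧ h ≤ 2 * X ∧
      (4 + δ / 2) * (h / Real.log (X * h)) < (pc n h : ℝ)) := by
    intro n hn
    rw [Finset.mem_filter] at hn ⊢
    refine ⟨hn.1, ?_⟩
    obtain ⟨hnX, hnU⟩ := hn
    rw [Finset.mem_Ioc] at hnX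
    obtain ⟨H, hH1, hH2, hH3⟩ := hnU
    have hnXR : (X : ℝ) < n := by exact_mod_cast hnX.1
    have hnXR2 : (n : ℝ) ≤ 2 * X := by exact_mod_cast hnX.2
    have hlogn : Real.log X ≤ Real.log n := Real.log_le_log hXR hnXR.le
    have hH0 : 0 ≤ H := by linarith
    have hfl : H < (⌊H⌋₊ : ℝ) + 1 := Nat.lt_floor_add_one H
    have hfl' : (⌊H⌋₊ : ℝ) ≤ H := Nat.floor_le hH0
    have hh1 : (1 : ℝ) ≤ (⌊H⌋₊ : ℝ) := by
      have : 1 ≤ ⌊H⌋₊ := Nat.le_floor (by push_cast; linarith)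
      exact_mod_cast this
    rw [count_eq n H hH0] at hH3
    refine ⟨⌊H⌋₊, by linarith, ?_, ?_⟩
    · have h3 : ((⌊H⌋₊ : ℕ) : ℝ) ≤ ((2 * X : ℕ) : ℝ) := by
        push_cast
        linarith
      exact_mod_cast h3
    · refine lt_of_le_of_lt ?_ hH3
      have hXh : (X : ℝ) ≤ X * (⌊H⌋₊ : ℝ) := by nlinarith
      have hlXh : Real.log X ≤ Real.log (X * (⌊H⌋₊ : ℝ)) := Real.log_le_log hXR hXh
      have hpos : 0 < Real.log (X * (⌊H⌋₊ : ℝ)) := by linarith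
      have hnH : Real.log (n * H) ≤ Real.log (X * (⌊H⌋₊ : ℝ)) + Real.log 4 := by
        rw [← Real.log_mul (by positivity) (by norm_num)]
        apply Real.log_le_log
        · have : (0 : ℝ) < H := by linarith
          have : (0 : ℝ) < n := by linarith
          positivity
        · calc (n : ℝ) * H ≤ (2 * X) * (2 * (⌊H⌋₊ : ℝ)) := by
                apply mul_le_mul hnXR2 (by linarith) hH0 (by positivity)
            _ = X * (⌊H⌋₊ : ℝ) * 4 := by ring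
      have hnHpos : 0 < Real.log (n * H) := by
        apply Real.log_pos
        have h5 : (2 : ℝ) ≤ X := by exact_mod_cast hX2
        nlinarith
      rw [← mul_div_assoc, ← mul_div_assoc, div_le_div_iff₀ hpos hnHpos]
      have h6 : (4 + δ / 2) * Real.log (n * H) ≤ (4 + δ) * Real.log (X * (⌊H⌋₊ : ℝ)) := by
        have h7 : (4 + δ / 2) * Real.log (n * H) ≤
            (4 + δ / 2) * (Real.log (X * (⌊H⌋₊ : ℝ)) + Real.log 4) :=
          mul_le_mul_of_nonneg_left hnH (by linarith)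
        nlinarith
      calc (4 + δ / 2) * (⌊H⌋₊ : ℝ) * Real.log (n * H)
          = (⌊H⌋₊ : ℝ) * ((4 + δ / 2) * Real.log (n * H)) := by ring
        _ ≤ H * ((4 + δ) * Real.log (X * (⌊H⌋₊ : ℝ))) :=
            mul_le_mul hfl' h6 (by positivity) hH0
        _ = (4 + δ) * H * Real.log (X * (⌊H⌋₊ : ℝ)) := by ring
  have hc : (((Ioc X (2 * X)).filter (fun n : ℕ => ∃ H : ℝ, W ≤ H ∧ H ≤ n ∧
      (4 + δ) * (H / Real.log (n * H)) <
        (((Ioc n ⌊(n : ℝ) + H⌋₊).filter Nat.Prime).card : ℝ))).card : ℝ) ≤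
      C * X * (Real.log X) ^ 18 / (W / 2) := by
    refine le_trans ?_ hmain
    exact_mod_cast Finset.card_le_card hsub
  refine hc.trans ?_
  rw [div_div_eq_mul_div]
  have h8 : C * X * (Real.log X) ^ 18 * 2 ≤ (2 * C + 2) * X * (Real.log X) ^ 18 := by
    have : 0 ≤ 2 * X * (Real.log X) ^ 18 := by positivity
    nlinarith
  gcongr

/-- the almost-all Brun-Titchmarsh theorem -/
theorem ubw (δ : ℝ) (hδ : 0 < δ) : ∃ κ C : ℝ, 0 < κ ∧ 0 < C ∧ ∀ X : ℕ, 2 ≤ X →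
    ∀ W : ℝ, 1 ≤ W → W ≤ (X : ℝ) ^ κ →
    (({n : ℕ | X < n ∧ n ≤ 2 * X ∧ ∃ H : ℝ, W ≤ H ∧ H ≤ n ∧
      (4 + δ) * (H / Real.log (n * H)) <
        (((Ioc n ⌊(n : ℝ) + H⌋₊).filter Nat.Prime).card : ℝ)}.ncard : ℕ) : ℝ) ≤
      C * X * (Real.log X) ^ 18 / W := by
  obtain ⟨κ, C, hκ, hC, X0, h⟩ := ubw_large δ hδ
  have hl2 : 0 < Real.log 2 := Real.log_pos (by norm_num)
  refine ⟨κ, C + (X0 : ℝ) ^ κ / (Real.log 2) ^ 18, hκ, by positivity, fun X hX W hW hWX => ?_⟩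
  have hX2 : (2 : ℝ) ≤ X := by exact_mod_cast hX
  have hW0 : 0 < W := by linarith
  have hlX : Real.log 2 ≤ Real.log X := Real.log_le_log (by norm_num) hX2
  by_cases hXX : X0 ≤ X
  · refine (h X hXX W hW hWX).trans ?_
    have : C ≤ C + (X0 : ℝ) ^ κ / (Real.log 2) ^ 18 := by
      have : 0 ≤ (X0 : ℝ) ^ κ / (Real.log 2) ^ 18 := by positivity
      linarith
    have h0 : 0 ≤ Real.log X := by linarith
    gcongr
  · push Not at hXX
    have hsub : {n : ℕ | X < n ∧ n ≤ 2 * X ∧ ∃ H : ℝ, W ≤ H ∧ H ≤ n ∧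
      (4 + δ) * (H / Real.log (n * H)) <
        (((Ioc n ⌊(n : ℝ) + H⌋₊).filter Nat.Prime).card : ℝ)} ⊆ (Ioc X (2 * X) : Finset ℕ) := by
      intro n hn
      rw [coe_Ioc, Set.mem_Ioc]
      exact ⟨hn.1, hn.2.1⟩
    have h1 := Set.ncard_le_ncard hsub (Finset.finite_toSet _)
    rw [Set.ncard_coe_finset, Nat.card_Ioc] at h1
    have h3 : 2 * X - X = X := by omega
    rw [h3] at h1
    have h4 : (({n : ℕ | X < n ∧ n ≤ 2 * X ∧ ∃ H : ℝ, W ≤ H ∧ H ≤ n ∧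
      (4 + δ) * (H / Real.log (n * H)) <
        (((Ioc n ⌊(n : ℝ) + H⌋₊).filter Nat.Prime).card : ℝ)}.ncard : ℕ) : ℝ) ≤ X := by
      exact_mod_cast h1
    refine h4.trans ?_
    rw [le_div_iff₀ hW0]
    have h5 : W ≤ (X0 : ℝ) ^ κ := by
      refine hWX.trans ?_
      have : (X : ℝ) ≤ X0 := by exact_mod_cast hXX.le
      gcongr
    have h6 : (Real.log 2) ^ 18 ≤ (Real.log X) ^ 18 := by gcongr
    have h7 : W ≤ (X0 : ℝ) ^ κ / (Real.log 2) ^ 18 * (Real.log X) ^ 18 := by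
      rw [div_mul_eq_mul_div, le_div_iff₀ (by positivity)]
      gcongr
    have h8 : (X : ℝ) * W ≤ X * ((X0 : ℝ) ^ κ / (Real.log 2) ^ 18 * (Real.log X) ^ 18) := by
      gcongr
    have h9 : 0 ≤ C * X * (Real.log X) ^ 18 := by positivity
    nlinarith

end Pool.Agent.H24.AB
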