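import Pool.Agent.H24.AB.LS
import Pool.Agent.H24.AB.Farey
import Pool.Agent.H24.AB.Exp
import Pool.Agent.H24.AB.CB

/-!
# Module Var: the second moment of the error

PROOF. `Er R n h` is (the cast of) `∑_{z ∈ FF Q} c z * ee (n α z)`, `Q = R²`, `c z = Cq R z.1 * KK h α`, `α = z.2/z.1` (`er_expand`); `large_sieve` with
`δ = 1/Q²` (`farey_spaced`; `Q ≥ 1`), `M = N = X`: `∑_{X<n≤2X} Er² ≤ 10 (X + R⁴) ∑_z ‖c z‖²` and (`sum_FF`)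
`∑_z ‖c z‖² = ∑_{q=2}^Q (Cq R q)² ∑_{(a,q)=1} ‖KK h (a/q)‖² ≤ ∑_q (Cq R q)² q h ≤ h (1 + log R²)^15` (`kk_sum` over the larger set `Ico 1 q`, `cq_sum`).
(`1/δ = Q² = R⁴`.)
-/

set_option autoImplicit false

namespace Pool.Agent.H24.AB

open Finset

theorem var (R X h : ℕ) (hR : 1 ≤ R) (hX : 1 ≤ X) :
    ∑ n ∈ Ioc X (2 * X), (Er R n h) ^ 2 ≤
      10 * ((X : ℝ) + (R : ℝ) ^ 4) * (h * (1 + Real.log ((R ^ 2 : ℕ) : ℝ)) ^ 15) := by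
  classical
  have hQ : 1 ≤ R ^ 2 := Nat.one_le_pow _ _ hR
  have hQr : (1 : ℝ) ≤ ((R ^ 2 : ℕ) : ℝ) := by exact_mod_cast hQ
  have hQpos : (0 : ℝ) < ((R ^ 2 : ℕ) : ℝ) := by linarith
  have hδ : (0 : ℝ) < 1 / ((R ^ 2 : ℕ) : ℝ) ^ 2 := by positivity
  have hδ1 : 1 / ((R ^ 2 : ℕ) : ℝ) ^ 2 ≤ 1 := by
    rw [div_le_one (by positivity)]
    exact one_le_pow₀ hQr
  have hls := large_sieve (FF (R ^ 2)) (fun z => (z.2 : ℝ) / z.1)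
    (fun z => ((Cq R z.1 : ℝ) : ℂ) * KK h ((z.2 : ℝ) / z.1)) (1 / ((R ^ 2 : ℕ) : ℝ) ^ 2) hδ hδ1
    (fun i hi j hj hij k => farey_spaced (R ^ 2) i j hi hj hij k) X X hX
  have hE : ∀ n : ℕ, ‖∑ i ∈ FF (R ^ 2), ((Cq R i.1 : ℝ) : ℂ) * KK h ((i.2 : ℝ) / i.1) *
      ee ((n : ℝ) * ((i.2 : ℝ) / i.1))‖ ^ 2 = (Er R n h) ^ 2 := by
    intro n
    rw [← er_expand, Complex.norm_real, Real.norm_eq_abs, sq_abs]
  have hlhs : ∑ n ∈ Ioc X (X + X), ‖∑ i ∈ FF (R ^ 2), ((Cq R i.1 : ℝ) : ℂ) *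
      KK h ((i.2 : ℝ) / i.1) * ee ((n : ℝ) * ((i.2 : ℝ) / i.1))‖ ^ 2
      = ∑ n ∈ Ioc X (2 * X), (Er R n h) ^ 2 := by
    rw [two_mul]
    exact Finset.sum_congr rfl fun n _ => hE n
  have hls' : ∑ n ∈ Ioc X (2 * X), (Er R n h) ^ 2 ≤
      10 * ((X : ℝ) + 1 / (1 / ((R ^ 2 : ℕ) : ℝ) ^ 2)) *
        ∑ i ∈ FF (R ^ 2), ‖((Cq R i.1 : ℝ) : ℂ) * KK h ((i.2 : ℝ) / i.1)‖ ^ 2 := by
    rw [← hlhs]
    exact hls
  have h1 : 1 / (1 / ((R ^ 2 : ℕ) : ℝ) ^ 2) = (R : ℝ) ^ 4 := by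
    push_cast
    rw [one_div_one_div, ← pow_mul]
  rw [h1] at hls'
  refine hls'.trans ?_
  apply mul_le_mul_of_nonneg_left _ (by positivity)
  rw [sum_FF (R ^ 2) (fun q a => ‖((Cq R q : ℝ) : ℂ) * KK h ((a : ℝ) / q)‖ ^ 2)]
  calc ∑ q ∈ Icc 2 (R ^ 2), ∑ a ∈ (Ico 1 q).filter (fun a => a.Coprime q),
        ‖((Cq R q : ℝ) : ℂ) * KK h ((a : ℝ) / q)‖ ^ 2
      ≤ ∑ q ∈ Icc 2 (R ^ 2), (h : ℝ) * ((q : ℝ) * (Cq R q) ^ 2) := by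
        apply Finset.sum_le_sum
        intro q hq
        rw [Finset.mem_Icc] at hq
        calc ∑ a ∈ (Ico 1 q).filter (fun a => a.Coprime q),
              ‖((Cq R q : ℝ) : ℂ) * KK h ((a : ℝ) / q)‖ ^ 2
            ≤ ∑ a ∈ Ico 1 q, ‖((Cq R q : ℝ) : ℂ) * KK h ((a : ℝ) / q)‖ ^ 2 := by
              apply Finset.sum_le_sum_of_subset_of_nonneg (Finset.filter_subset _ _)
              intro i _ _
              positivity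
          _ = (Cq R q) ^ 2 * ∑ a ∈ Ico 1 q, ‖KK h ((a : ℝ) / q)‖ ^ 2 := by
              rw [Finset.mul_sum]
              apply Finset.sum_congr rfl
              intro a _
              rw [norm_mul, mul_pow, Complex.norm_real, Real.norm_eq_abs, sq_abs]
          _ ≤ (Cq R q) ^ 2 * ((q : ℝ) * h) :=
              mul_le_mul_of_nonneg_left (kk_sum q h (by omega)) (by positivity)
          _ = (h : ℝ) * ((q : ℝ) * (Cq R q) ^ 2) := by ring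
    _ = (h : ℝ) * ∑ q ∈ Icc 2 (R ^ 2), ((q : ℝ) * (Cq R q) ^ 2) := by rw [Finset.mul_sum]
    _ ≤ (h : ℝ) * (1 + Real.log ((R ^ 2 : ℕ) : ℝ)) ^ 15 :=
        mul_le_mul_of_nonneg_left (cq_sum R hR) (by positivity)

end Pool.Agent.H24.AB
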