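import Pool.Agent.H24.AB.Defs

/-!
# Module Wt: Selberg's weights

PROOFS. `gs 1 = 1`, `gs m ≥ 0`, `Ss R > 0` for `R ≥ 1`, `Gd R 1 = Ss R`, `μ 1 = 1`: `lam_one`. `Gd R d = 0` for `d > R`: `lam_big`. `μ d = 0` if `d` is
not squarefree: `lam_nsq`.
`lam_abs`: let `d` be squarefree, `1 ≤ d`. `Gd R d = ∑_{m ≤ R/d, (m,d)=1} gs (d m)` (multiples `d m ≤ R`; `gs (d m) = 0` unless `(m, d) = 1`) and
`gs (d m) = gs d gs m` for coprime `d, m` (totient multiplicative, `Nat.squarefree_mul_iff`). `d gs d = d/φ(d) = ∑_{k ∣ d} gs k`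
(both sides multiplicative: `∏_{p∣d} (1 + 1/(p-1))`; or `Nat.totient` identities: `∑_{k ∣ d} 1/φ(k) = ∑_{k∣d} φ(d/k)/φ(d) = d/φ(d)` for squarefree `d`,
`Nat.sum_totient`, this is the easy way: `φ(d) = φ(k) φ(d/k)`). So `d Gd R d = ∑_{k ∣ d} ∑_{m ≤ R/d, (m,d)=1} gs (k m)` and `(k, m) ↦ k m` is
injective (`k = gcd(k m, d)`) with values in `[1, R]`: `≤ Ss R`.
-/

set_option autoImplicit false

namespace Pool.Agent.H24.AB

open Finset

theorem gs_nonneg (m : ℕ) : 0 ≤ gs m := by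
  unfold gs
  split_ifs
  · positivity
  · exact le_refl _

private theorem gs_one : gs 1 = 1 := by
  unfold gs
  rw [if_pos squarefree_one]
  simp

theorem Ss_pos (R : ℕ) (hR : 1 ≤ R) : 0 < Ss R := by
  unfold Ss
  apply Finset.sum_pos' (fun i _ => gs_nonneg i)
  refine ⟨1, Finset.mem_Icc.2 ⟨le_refl _, hR⟩, ?_⟩
  rw [gs_one]
  exact one_pos

theorem lam_one (R : ℕ) (hR : 1 ≤ R) : lam R 1 = 1 := by
  have h := Ss_pos R hR
  have hG : Gd R 1 = Ss R := by
    unfold Gd Ss
    rw [Finset.filter_true_of_mem]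
    intro m _
    exact one_dvd m
  unfold lam
  rw [hG]
  simp [h.ne']

theorem lam_big (R d : ℕ) (h : R < d) : lam R d = 0 := by
  have hG : Gd R d = 0 := by
    unfold Gd
    rw [Finset.filter_false_of_mem, Finset.sum_empty]
    intro m hm hd
    rw [Finset.mem_Icc] at hm
    have := Nat.le_of_dvd (by omega) hd
    omega
  unfold lam
  rw [hG]
  simp

theorem lam_nsq (R d : ℕ) (h : ¬ Squarefree d) : lam R d = 0 := by
  unfold lam
  rw [ArithmeticFunction.moebius_eq_zero_of_not_squarefree h]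
  simp

private theorem gs_div_sum (d n : ℕ) (hdn : Squarefree (d * n)) (hn : 0 < n) :
    (d : ℝ) * gs (d * n) = ∑ k ∈ d.divisors, gs (k * n) := by
  have hsq := Nat.squarefree_mul_iff.1 hdn
  obtain ⟨hcop, hd, hnn⟩ := hsq
  have hd0 : d ≠ 0 := hd.ne_zero
  have hφd : (0 : ℝ) < (Nat.totient d : ℝ) := by
    exact_mod_cast Nat.totient_pos.2 (Nat.pos_of_ne_zero hd0)
  have hφn : (0 : ℝ) < (Nat.totient n : ℝ) := by
    exact_mod_cast Nat.totient_pos.2 hn
  have h1 : ∀ k ∈ d.divisors, gs (k * n) =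
      (Nat.totient (d / k) : ℝ) / (Nat.totient d * Nat.totient n) := by
    intro k hk
    have hkd : k ∣ d := Nat.dvd_of_mem_divisors hk
    have hk0 : 0 < k := Nat.pos_of_mem_divisors hk
    have hkn : k * n ∣ d * n := Nat.mul_dvd_mul_right hkd n
    have hcopk : Nat.Coprime k n := Nat.Coprime.coprime_dvd_left hkd hcop
    have hsqk : Squarefree (k * n) := Squarefree.squarefree_of_dvd hkn hdn
    have hcopd : Nat.Coprime k (d / k) := by
      have hh : k * (d / k) = d := Nat.mul_div_cancel' hkd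
      have hh2 : Squarefree (k * (d / k)) := by rw [hh]; exact hd
      exact (Nat.squarefree_mul_iff.1 hh2).1
    have hφ : Nat.totient d = Nat.totient k * Nat.totient (d / k) := by
      have hh : k * (d / k) = d := Nat.mul_div_cancel' hkd
      rw [← Nat.totient_mul hcopd, hh]
    have hφk : (0 : ℝ) < (Nat.totient k : ℝ) := by
      exact_mod_cast Nat.totient_pos.2 hk0
    have hdk0 : 0 < d / k := Nat.div_pos (Nat.le_of_dvd (Nat.pos_of_ne_zero hd0) hkd) hk0
    have hφdk : (0 : ℝ) < (Nat.totient (d / k) : ℝ) := by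
      exact_mod_cast Nat.totient_pos.2 hdk0
    unfold gs
    rw [if_pos hsqk, Nat.totient_mul hcopk, hφ]
    push_cast
    field_simp
  rw [Finset.sum_congr rfl h1, ← Finset.sum_div]
  have h2 : ∑ k ∈ d.divisors, (Nat.totient (d / k) : ℝ) = d := by
    have h3 : ∑ k ∈ d.divisors, Nat.totient (d / k) = d := by
      rw [Nat.sum_div_divisors d Nat.totient, Nat.sum_totient]
    exact_mod_cast h3
  rw [h2]
  unfold gs
  rw [if_pos hdn, Nat.totient_mul hcop]
  push_cast
  field_simp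

private theorem d_Gd_le (R d : ℕ) (hd : Squarefree d) : (d : ℝ) * Gd R d ≤ Ss R := by
  have hd0 : d ≠ 0 := hd.ne_zero
  have hdpos : 0 < d := Nat.pos_of_ne_zero hd0
  set S : Finset ℕ := (Icc 1 R).filter (fun m => d ∣ m ∧ Squarefree m) with hS
  have h1 : Gd R d = ∑ m ∈ S, gs m := by
    unfold Gd
    symm
    apply Finset.sum_subset
    · intro m hm
      rw [hS, Finset.mem_filter] at hm
      rw [Finset.mem_filter]
      exact ⟨hm.1, hm.2.1⟩
    · intro m hm hm'
      rw [Finset.mem_filter] at hm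
      unfold gs
      rw [if_neg]
      intro hsq
      apply hm'
      rw [hS, Finset.mem_filter]
      exact ⟨hm.1, hm.2, hsq⟩
  have hm_facts : ∀ m ∈ S, d * (m / d) = m ∧ 0 < m / d ∧ Nat.Coprime d (m / d) ∧ m ≤ R ∧
      Squarefree (d * (m / d)) := by
    intro m hm
    rw [hS, Finset.mem_filter, Finset.mem_Icc] at hm
    obtain ⟨⟨hm1, hmR⟩, hdm, hsq⟩ := hm
    have hmd : d * (m / d) = m := Nat.mul_div_cancel' hdm
    have hsq' : Squarefree (d * (m / d)) := by rw [hmd]; exact hsq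
    refine ⟨hmd, Nat.div_pos (Nat.le_of_dvd (by omega) hdm) hdpos,
      (Nat.squarefree_mul_iff.1 hsq').1, hmR, hsq'⟩
  have h2 : (d : ℝ) * Gd R d = ∑ z ∈ S ×ˢ d.divisors, gs (z.2 * (z.1 / d)) := by
    rw [h1, Finset.mul_sum, Finset.sum_product]
    apply Finset.sum_congr rfl
    intro m hm
    obtain ⟨hmd, hpos, hcop, hmR, hsq'⟩ := hm_facts m hm
    have h3 := gs_div_sum d (m / d) hsq' hpos
    rw [hmd] at h3
    exact h3
  have hinj : Set.InjOn (fun z : ℕ × ℕ => z.2 * (z.1 / d)) (S ×ˢ d.divisors : Finset (ℕ × ℕ)) := by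
    rintro ⟨m, k⟩ hz ⟨m', k'⟩ hz' heq
    rw [Finset.mem_coe, Finset.mem_product] at hz hz'
    obtain ⟨hmd, hpos, hcop, hmR, hsq'⟩ := hm_facts m hz.1
    obtain ⟨hmd', hpos', hcop', hmR', hsq''⟩ := hm_facts m' hz'.1
    have hk : k ∣ d := Nat.dvd_of_mem_divisors hz.2
    have hk' : k' ∣ d := Nat.dvd_of_mem_divisors hz'.2
    have hk0 : 0 < k := Nat.pos_of_mem_divisors hz.2
    have e1 : Nat.gcd (k * (m / d)) d = k := by
      rw [Nat.Coprime.gcd_mul_right_cancel k hcop.symm]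
      exact Nat.gcd_eq_left hk
    have e2 : Nat.gcd (k' * (m' / d)) d = k' := by
      rw [Nat.Coprime.gcd_mul_right_cancel k' hcop'.symm]
      exact Nat.gcd_eq_left hk'
    simp only at heq
    have hkk : k = k' := by rw [← e1, ← e2, heq]
    subst hkk
    have hmm : m / d = m' / d := Nat.eq_of_mul_eq_mul_left hk0 heq
    have : m = m' := by rw [← hmd, ← hmd', hmm]
    rw [this]
  rw [h2]
  have h4 : ∑ z ∈ S ×ˢ d.divisors, gs (z.2 * (z.1 / d)) =
      ∑ y ∈ (S ×ˢ d.divisors).image (fun z : ℕ × ℕ => z.2 * (z.1 / d)), gs y :=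
    (Finset.sum_image hinj).symm
  rw [h4]
  unfold Ss
  apply Finset.sum_le_sum_of_subset_of_nonneg
  · intro y hy
    rw [Finset.mem_image] at hy
    obtain ⟨⟨m, k⟩, hz, rfl⟩ := hy
    rw [Finset.mem_product] at hz
    obtain ⟨hmd, hpos, hcop, hmR, hsq'⟩ := hm_facts m hz.1
    have hk : k ∣ d := Nat.dvd_of_mem_divisors hz.2
    have hk0 : 0 < k := Nat.pos_of_mem_divisors hz.2
    have hkd : k ≤ d := Nat.le_of_dvd hdpos hk
    rw [Finset.mem_Icc]
    constructor
    · exact Nat.mul_pos hk0 hpos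
    · calc k * (m / d) ≤ d * (m / d) := Nat.mul_le_mul_right _ hkd
        _ = m := hmd
        _ ≤ R := hmR
  · intro i _ _
    exact gs_nonneg i

theorem lam_abs (R d : ℕ) (hR : 1 ≤ R) : |lam R d| ≤ 1 := by
  by_cases hd : Squarefree d
  · have h := Ss_pos R hR
    have hG : 0 ≤ Gd R d := by
      unfold Gd
      exact Finset.sum_nonneg (fun i _ => gs_nonneg i)
    have h1 := d_Gd_le R d hd
    have hμ : |(ArithmeticFunction.moebius d : ℝ)| ≤ 1 := by
      exact_mod_cast ArithmeticFunction.abs_moebius_le_one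
    unfold lam
    rw [abs_div, abs_of_pos h, div_le_one h, mul_assoc, abs_mul,
      abs_of_nonneg (mul_nonneg (Nat.cast_nonneg d) hG)]
    calc |(ArithmeticFunction.moebius d : ℝ)| * (d * Gd R d) ≤ 1 * (d * Gd R d) :=
          mul_le_mul_of_nonneg_right hμ (mul_nonneg (Nat.cast_nonneg d) hG)
      _ ≤ Ss R := by rw [one_mul]; exact h1
  · rw [lam_nsq R d hd, abs_zero]
    exact zero_le_one

end Pool.Agent.H24.AB
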